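import Pool.Statements.S00249
import Pool.Agent.H737R3.Points

set_option autoImplicit false
open Pool Pool.MP_70675a_ag

namespace Pool.Agent.S00249

open MvPolynomial Pool.Agent.H737R3

/-- Over an algebraically closed field of char 0, for n≥1, any nonempty finite set W of points in P^n and r≥1, every nonzero degree-d form vanishing to order rn at all points of W has d ≥ r·α(W) + r(n−1). -/
theorem result :
    ∀ (k : Type) [Field k] [IsAlgClosed k] [CharZero k] (n : ℕ), 1 ≤ n →
    ∀ (W : Finset (Projectivization k (Fin (n+1) → k))), W.Nonempty →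
    ∀ (r : ℕ), 1 ≤ r →
    ∀ (d : ℕ) (f : MvPolynomial (Fin (n+1)) k), f ≠ 0 → f.IsHomogeneous d →
      (∀ P ∈ W, f ∈ (Ideal.span {g : MvPolynomial (Fin (n+1)) k |
          g.IsHomogeneous 1 ∧ MvPolynomial.eval P.rep g = 0}) ^ (r * n)) →
      ∃ (e : ℕ) (g : MvPolynomial (Fin (n+1)) k), g ≠ 0 ∧ g.IsHomogeneous e ∧
        (∀ P ∈ W, g ∈ Ideal.span {h : MvPolynomial (Fin (n+1)) k |
          h.IsHomogeneous 1 ∧ MvPolynomial.eval P.rep h = 0}) ∧
        r * e + r * (n - 1) ≤ d := by
  intro k _ _ _ n hn W hW r hr d f hf0 hfd hf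
  have hI : ∀ P : Projectivization k (Fin (n+1) → k),
      Ideal.span {g : MvPolynomial (Fin (n+1)) k |
        g.IsHomogeneous 1 ∧ MvPolynomial.eval P.rep g = 0} = ptIdeal P :=
    fun P => (ptIdeal_eq P).symm
  simp only [hI] at hf ⊢
  obtain ⟨g, hg, hg0, hgh⟩ := alpha_wIdeal_spec hn W (fun p => 1 * (fun _ : PP k n => 1) p)
  refine ⟨_, g, hg0, hgh, ?_, ?_⟩
  · intro P hP
    have := mem_wIdeal.1 hg P hP
    simpa using this
  · obtain ⟨q, hq⟩ := hW
    have key := demailly_w hn W (fun _ : PP k n => 1) ⟨q, hq, le_rfl⟩ 1 (r * n) le_rfl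
    have hfm : f ∈ wIdeal W (fun p => (r * n) * (fun _ : PP k n => 1) p) := by
      rw [mem_wIdeal]
      intro P hP
      simpa using hf P hP
    have h1 := alpha_wIdeal_le hfm hf0
    rw [hfd.totalDegree hf0] at h1
    set a := alpha (wIdeal W (fun p => 1 * (fun _ : PP k n => 1) p)) with ha
    set b := alpha (wIdeal W (fun p => (r * n) * (fun _ : PP k n => 1) p)) with hb
    have h2 : n * (r * (a + n - 1)) ≤ n * b := by
      have e1 : 1 + n - 1 = n := by omega
      rw [e1] at key
      calc n * (r * (a + n - 1)) = r * n * (a + n - 1) := by ring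
        _ ≤ b * n := key
        _ = n * b := by ring
    have h3 : r * (a + n - 1) ≤ b := Nat.le_of_mul_le_mul_left h2 (by omega)
    have h4 : r * a + r * (n - 1) = r * (a + n - 1) := by
      rw [← Nat.mul_add]
      congr 1
      omega
    omega

end Pool.Agent.S00249
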