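import Pool.Statements.S00360
import Pool.Agent.Run7.h332.Gr.D

set_option autoImplicit false
open Pool Pool.MP_a907e8_ag

namespace Pool.Agent.S00360

/-- The negation of the preceding statement: For every Noetherian local ring A and nonzero finitely generated A-module M with a finite projective resolution, the maximal length of an A-regular sequence in ann M plus the Krull dimension of A/ann M equals the Krull dimension of A. -/
theorem result :
    ¬ (∀ (A : Type) [CommRing A] [IsLocalRing A] [IsNoetherianRing A]
      (M : Type) [AddCommGroup M] [Module A M] [Module.Finite A M] [Nontrivial M],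
      (∃ P : CategoryTheory.ProjectiveResolution (ModuleCat.of A M), ∃ n : ℕ,
          ∀ i : ℕ, n ≤ i → CategoryTheory.Limits.IsZero (P.complex.X i)) →
      ∀ g : ℕ,
        (∃ rs : List A, rs.length = g ∧ (∀ r ∈ rs, r ∈ Module.annihilator A M) ∧
            RingTheory.Sequence.IsWeaklyRegular A rs) →
        (¬ ∃ rs : List A, rs.length = g + 1 ∧ (∀ r ∈ rs, r ∈ Module.annihilator A M) ∧
            RingTheory.Sequence.IsWeaklyRegular A rs) →
        (g : WithBot ℕ∞) + ringKrullDim (A ⧸ Module.annihilator A M) = ringKrullDim A) := by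
  intro H
  obtain ⟨A, i1, i2, i3, I, hI, hres, ⟨rs, hlen, hmem, hreg⟩, hno, hdim⟩ :=
    Run7.h332.Gr.data
  have hann : Module.annihilator A (A ⧸ I) = I := Ideal.annihilator_quotient
  have hnt : Nontrivial (A ⧸ I) := Ideal.Quotient.nontrivial_iff.mpr hI
  have h := H A (A ⧸ I) hres 2 ⟨rs, hlen, fun r hr => by rw [hann]; exact hmem r hr, hreg⟩ (by
    rintro ⟨rs', hlen', hmem', hreg'⟩
    exact hno ⟨rs', hlen', fun r hr => by rw [← hann]; exact hmem' r hr, hreg'⟩)
  have e : ringKrullDim (A ⧸ Module.annihilator A (A ⧸ I)) = ringKrullDim (A ⧸ I) := by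
    rw [hann]
  rw [e] at h
  have h2 : (2 : WithBot ℕ∞) + ringKrullDim (A ⧸ I) = ringKrullDim A := h
  rw [h2] at hdim
  exact lt_irrefl _ hdim

end Pool.Agent.S00360
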