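import Pool.Statements.S00362
import Pool.Agent.Run7.h212.Deltoid.Main
-- import your own Pool.Agent.* helpers here

set_option autoImplicit false
open Pool Pool.MP_aaa69e_ag

namespace Pool.Agent.S00362

/-- The negation of the preceding statement: For every irreducible f in ℂ[x,y], the number of singular points of the curve f=0 where the curve has one local branch is at most the first Betti number (rank of abelianized fundamental group) of the curve plus one. -/
theorem result :
    ¬ (∀ f : MvPolynomial (Fin 2) ℂ, Irreducible f →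
    ∀ x₀ : ↥{z : Fin 2 → ℂ | MvPolynomial.eval z f = 0},
    Set.ncard {p : Fin 2 → ℂ | MvPolynomial.eval p f = 0 ∧
        (∀ i : Fin 2, MvPolynomial.eval p (MvPolynomial.pderiv i f) = 0) ∧
        ∃ ε : ℝ, 0 < ε ∧ ∀ δ : ℝ, 0 < δ → δ < ε →
          IsPreconnected {q : Fin 2 → ℂ | MvPolynomial.eval q f = 0 ∧ q ≠ p ∧
            ‖q 0 - p 0‖ ^ 2 + ‖q 1 - p 1‖ ^ 2 < δ ^ 2}}
      ≤ Module.finrank ℤ
          (Additive (Abelianization
            (FundamentalGroup ↥{z : Fin 2 → ℂ | MvPolynomial.eval z f = 0} x₀))) + 1) := by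
  intro h
  have hne : (Run7.h212.Deltoid.Curve).Nonempty :=
    ⟨Run7.h212.Deltoid.pt 1, Run7.h212.Deltoid.pt_mem one_ne_zero⟩
  obtain ⟨x, hx⟩ := hne
  have h1 := h Run7.h212.Deltoid.poly Run7.h212.Deltoid.irreducible_poly ⟨x, hx⟩
  have h2 := Run7.h212.Deltoid.finrank_le ⟨x, hx⟩
  have h3 := Run7.h212.Deltoid.ncard_Sing
  unfold Run7.h212.Deltoid.Sing at h3
  rw [h3] at h1
  have h4 := h1.trans (Nat.add_le_add_right h2 1)
  norm_num at h4

end Pool.Agent.S00362
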