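import Pool.Statements.S00541
import Pool.Agent.H737R3.Bridge

set_option autoImplicit false
open Pool Pool.MP_ef83ea_ag

namespace Pool.Agent.S00541

/-- For any nonempty finite set of points in complex projective N-space (N at least 1) with ideal I, every m ≥ 1 satisfies alpha(I^(m))/m ≥ (alpha(I^(3)) + N - 1)/(N + 2), i.e. the Waldschmidt constant is at least that bound. -/
theorem result :
    ∀ (N : ℕ), 1 ≤ N → ∀ S : Finset (Fin (N + 1) → ℂ), S.Nonempty → (∀ p ∈ S, p ≠ 0) →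
      ∀ m : ℕ, 1 ≤ m →
        (((sInf {d : ℕ | ∃ f ∈ (⨅ p ∈ S,
              (Ideal.span (Set.range (fun ij : Fin (N + 1) × Fin (N + 1) =>
                (MvPolynomial.X ij.1 * MvPolynomial.C (p ij.2)
                  - MvPolynomial.X ij.2 * MvPolynomial.C (p ij.1) :
                  MvPolynomial (Fin (N + 1)) ℂ)))) ^ 3),
              f ≠ 0 ∧ f.totalDegree = d} : ℕ) : ℝ) + (N : ℝ) - 1) / ((N : ℝ) + 2)
          ≤ ((sInf {d : ℕ | ∃ f ∈ (⨅ p ∈ S,
              (Ideal.span (Set.range (fun ij : Fin (N + 1) × Fin (N + 1) =>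
                (MvPolynomial.X ij.1 * MvPolynomial.C (p ij.2)
                  - MvPolynomial.X ij.2 * MvPolynomial.C (p ij.1) :
                  MvPolynomial (Fin (N + 1)) ℂ)))) ^ m),
              f ≠ 0 ∧ f.totalDegree = d} : ℕ) : ℝ) / (m : ℝ) := by
  classical
  intro N hN S hS hS0 m hm
  have hset : ∀ r : ℕ, {d : ℕ | ∃ f ∈ (⨅ p ∈ S,
              (Ideal.span (Set.range (fun ij : Fin (N + 1) × Fin (N + 1) =>
                (MvPolynomial.X ij.1 * MvPolynomial.C (p ij.2)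
                  - MvPolynomial.X ij.2 * MvPolynomial.C (p ij.1) :
                  MvPolynomial (Fin (N + 1)) ℂ)))) ^ r),
              f ≠ 0 ∧ f.totalDegree = d} =
      {d : ℕ | ∃ f ∈ (⨅ p ∈ S, Pool.Agent.H737R3.linI p ^ r :
        Ideal (MvPolynomial (Fin (N + 1)) ℂ)), f ≠ 0 ∧ f.totalDegree = d} := by
    intro r
    have h1 : (⨅ p ∈ S,
              (Ideal.span (Set.range (fun ij : Fin (N + 1) × Fin (N + 1) =>
                (MvPolynomial.X ij.1 * MvPolynomial.C (p ij.2)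
                  - MvPolynomial.X ij.2 * MvPolynomial.C (p ij.1) :
                  MvPolynomial (Fin (N + 1)) ℂ)))) ^ r) =
        (⨅ p ∈ S, Pool.Agent.H737R3.linI p ^ r : Ideal (MvPolynomial (Fin (N + 1)) ℂ)) := by
      refine iInf_congr fun p => iInf_congr fun hp => ?_
      rw [Pool.Agent.H737R3.span_eq_linI (hS0 p hp)]
    rw [h1]
  rw [hset 3, hset m]
  have hne : ∀ r : ℕ, {d : ℕ | ∃ f ∈ (⨅ p ∈ S, Pool.Agent.H737R3.linI p ^ r :
        Ideal (MvPolynomial (Fin (N + 1)) ℂ)), f ≠ 0 ∧ f.totalDegree = d}.Nonempty := by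
    intro r
    obtain ⟨f, hf, hf0⟩ := Pool.Agent.H737R3.exists_mem_iInf hN S hS0 (fun _ => r)
    exact ⟨_, f, hf, hf0, rfl⟩
  -- a form of least degree in the `m`-th symbolic power
  obtain ⟨f, hf, hf0, hfd⟩ := Nat.sInf_mem (hne m)
  have hfp : ∀ p ∈ S, f ∈ Pool.Agent.H737R3.linI p ^ m := by
    intro p hp
    have h1 := (Submodule.mem_iInf _).1 hf p
    exact (Submodule.mem_iInf _).1 h1 hp
  have hF0 := Pool.Agent.H737R3.top_component hf0
  have hFh := MvPolynomial.homogeneousComponent_isHomogeneous f.totalDegree f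
  have hFv : ∀ p ∈ S, MvPolynomial.homogeneousComponent f.totalDegree f ∈
      Pool.Agent.Chud.mI p ^ m := fun p hp =>
    Ideal.pow_right_mono (Pool.Agent.H737R3.linI_le_mI p) m
      (Pool.Agent.H737R3.component_mem p m (hfp p hp) _)
  have hlow : Pool.Agent.H580C.LowT (S : Set (Fin (N + 1) → ℂ)) 3
      (sInf {d : ℕ | ∃ f ∈ (⨅ p ∈ S, Pool.Agent.H737R3.linI p ^ 3 :
        Ideal (MvPolynomial (Fin (N + 1)) ℂ)), f ≠ 0 ∧ f.totalDegree = d}) := by
    intro F d hF hFd hFv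
    refine Nat.sInf_le ⟨F, ?_, hF, hFd.totalDegree hF⟩
    rw [Submodule.mem_iInf]
    intro p
    rw [Submodule.mem_iInf]
    intro hp
    exact Pool.Agent.H737R3.mem_linI_pow hFd (hS0 p hp) (hFv p hp)
  have key := Pool.Agent.H580C.p_CD ℂ N 3 _ m f.totalDegree
    (S : Set (Fin (N + 1) → ℂ)) _ hN (by norm_num) S.finite_toSet (by simpa using hS)
    (fun v hv => hS0 v hv) hlow hF0 hFh (fun p hp => hFv p hp)
  rw [hfd] at key
  generalize sInf {d : ℕ | ∃ f ∈ (⨅ p ∈ S, Pool.Agent.H737R3.linI p ^ 3 :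
        Ideal (MvPolynomial (Fin (N + 1)) ℂ)), f ≠ 0 ∧ f.totalDegree = d} = a at key ⊢
  generalize sInf {d : ℕ | ∃ f ∈ (⨅ p ∈ S, Pool.Agent.H737R3.linI p ^ m :
        Ideal (MvPolynomial (Fin (N + 1)) ℂ)), f ≠ 0 ∧ f.totalDegree = d} = b at key ⊢
  have hmR : (0 : ℝ) < m := by exact_mod_cast hm
  have hNR : (0 : ℝ) < (N : ℝ) + 2 := by positivity
  rw [div_le_div_iff₀ hNR hmR]
  have e1 : 3 + N - 1 = N + 2 := by omega
  rw [e1] at key
  have key2 : m * (a + (N - 1)) ≤ b * (N + 2) := by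
    have : a + N - 1 = a + (N - 1) := by omega
    rwa [this] at key
  have key3 : ((m * (a + (N - 1)) : ℕ) : ℝ) ≤ ((b * (N + 2) : ℕ) : ℝ) := by exact_mod_cast key2
  push_cast [Nat.cast_sub hN] at key3
  linarith

end Pool.Agent.S00541
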