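import Pool.Statements.S00750
import Pool.Agent.Run7.h181.Gersten.Stab
import Pool.Agent.Run7.h181.Gersten.CSS
import Pool.Agent.Run7.h181.Gersten.NotVRC

set_option autoImplicit false
open Pool Pool.MP_0fe979_al

namespace Pool.Agent.S00750

/-- The negation of the preceding statement: Let G act on a tree without inversions, with finitely many vertex and edge orbits, free abelian finite-rank vertex stabilizers and cyclic edge stabilizers. If G is cyclic subgroup separable, is every cyclic subgroup of G a virtual retract? -/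
theorem result :
    ¬ (∀ (G : Type) [Group G] (V : Type) (T : SimpleGraph V) [MulAction G V],
    T.IsTree →
    (∀ (g : G) (u v : V), T.Adj u v → T.Adj (g • u) (g • v)) →
    (∀ (g : G) (u v : V), T.Adj u v → ¬ (g • u = v ∧ g • v = u)) →
    (∃ S : Finset V, ∀ v : V, ∃ g : G, g • v ∈ S) →
    (∃ E : Finset (V × V), ∀ u v : V, T.Adj u v → ∃ g : G, (g • u, g • v) ∈ E) →
    (∀ v : V, ∃ n : ℕ, Nonempty (↥(MulAction.stabilizer G v) ≃* Multiplicative (Fin n → ℤ))) →
    (∀ u v : V, T.Adj u v →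
      IsCyclic ↥(MulAction.stabilizer G u ⊓ MulAction.stabilizer G v)) →
    (∀ g h : G, h ∉ Subgroup.zpowers g →
      ∃ K : Subgroup G, K.FiniteIndex ∧ Subgroup.zpowers g ≤ K ∧ h ∉ K) →
    ∀ g : G, ∃ K : Subgroup G, K.FiniteIndex ∧ Subgroup.zpowers g ≤ K ∧
      ∃ r : ↥K →* G, (∀ k : ↥K, r k ∈ Subgroup.zpowers g) ∧
        (∀ k : ↥K, (k : G) ∈ Subgroup.zpowers g → r k = (k : G))) := by
  intro hall
  obtain ⟨K, hK, hAK, r, hr1, hr2⟩ := hall Run7.h181.Gersten.G Run7.h181.Gersten.V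
    Run7.h181.Gersten.T Run7.h181.Gersten.T_isTree Run7.h181.Gersten.T_smul
    Run7.h181.Gersten.no_inversion Run7.h181.Gersten.vertex_orbits
    Run7.h181.Gersten.edge_orbits Run7.h181.Gersten.vertex_stab
    Run7.h181.Gersten.edge_stab
    (fun g h hgh => Run7.h181.Gersten.G_css g h hgh) Run7.h181.Gersten.A
  have hA : Run7.h181.Gersten.A ∈ K := hAK (Subgroup.mem_zpowers _)
  have hAr : r ⟨Run7.h181.Gersten.A, hA⟩ = Run7.h181.Gersten.A :=
    hr2 ⟨Run7.h181.Gersten.A, hA⟩ (Subgroup.mem_zpowers _)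
  -- the exponent of `a`, as a homomorphism
  let lf : Run7.h181.Gersten.H →* Multiplicative ℤ :=
    { toFun := fun x => Run7.h181.Gersten.αF x.1.left
      map_one' := by simp
      map_mul' := by
        rintro ⟨x, hx⟩ ⟨y, hy⟩
        obtain ⟨j, hj⟩ := Run7.h181.Gersten.mem_H.1 hy
        show Run7.h181.Gersten.αF (x * y).left = _
        rw [SemidirectProduct.mul_left, ← hj]
        simp [← hj] }
  have hAH : Subgroup.zpowers Run7.h181.Gersten.A ≤ Run7.h181.Gersten.H := by
    rw [Subgroup.zpowers_le]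
    exact Run7.h181.Gersten.mem_H.2 ⟨1, by simp [Run7.h181.Gersten.A]⟩
  let ρ : K →* Multiplicative ℤ :=
    lf.comp (r.codRestrict Run7.h181.Gersten.H (fun k => hAH (hr1 k)))
  have hρ : ρ ⟨Run7.h181.Gersten.A, hA⟩ ≠ 1 := by
    have : ρ ⟨Run7.h181.Gersten.A, hA⟩ = Run7.h181.Gersten.αF Run7.h181.Gersten.a := by
      show Run7.h181.Gersten.αF (r ⟨Run7.h181.Gersten.A, hA⟩).left = _
      rw [hAr]; rfl
    rw [this, Run7.h181.Gersten.αF_a]
    intro h
    have := congrArg Multiplicative.toAdd h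
    simp at this
  exact Run7.h181.Gersten.gersten Run7.h181.Gersten.A Run7.h181.Gersten.t
    Run7.h181.Gersten.B Run7.h181.Gersten.C Run7.h181.Gersten.A_comm_t
    Run7.h181.Gersten.t_conj_B Run7.h181.Gersten.t_conj_C K hA ρ hρ

end Pool.Agent.S00750
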