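import Pool.Statements.S00753
import Pool.Agent.Run7.h138.SquareAction

set_option autoImplicit false
open Pool Pool.MP_104382_al

namespace Pool.Agent.S00753

/-- The open unit square in the plane can be split into finitely many pairwise disjoint pieces forming two groups, and each group can be moved by determinant-one real linear maps so that its images exactly cover the square again. -/
theorem result :
    ∃ (n m : ℕ) (A : Fin n → Set (Fin 2 → ℝ)) (B : Fin m → Set (Fin 2 → ℝ))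
      (g : Fin n → Matrix.SpecialLinearGroup (Fin 2) ℝ)
      (h : Fin m → Matrix.SpecialLinearGroup (Fin 2) ℝ),
      (∀ i, A i ⊆ {v : Fin 2 → ℝ | ∀ k, 0 < v k ∧ v k < 1}) ∧
      (∀ j, B j ⊆ {v : Fin 2 → ℝ | ∀ k, 0 < v k ∧ v k < 1}) ∧
      Pairwise (fun i i' => Disjoint (A i) (A i')) ∧
      Pairwise (fun j j' => Disjoint (B j) (B j')) ∧
      (∀ i j, Disjoint (A i) (B j)) ∧
      (⋃ i, (fun v => Matrix.mulVec ((g i : Matrix (Fin 2) (Fin 2) ℝ)) v) '' A i)
        = {v : Fin 2 → ℝ | ∀ k, 0 < v k ∧ v k < 1} ∧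
      (⋃ j, (fun v => Matrix.mulVec ((h j : Matrix (Fin 2) (Fin 2) ℝ)) v) '' B j)
        = {v : Fin 2 → ℝ | ∀ k, 0 < v k ∧ v k < 1} := by
  classical
  letI := Run7.h138.planeAction
  obtain ⟨φ, ψ, hmem, hφ, hψ, hdis⟩ := Run7.h138.children (α := Fin 5) (X := Fin 2 → ℝ)
    Run7.h138.Q
    (fun x hx w hw => Run7.h138.rep_free w x (by
      rintro rfl
      exact absurd (hx 0).1 (lt_irrefl _)) hw)
    (fun x hx => Run7.h138.three_letters x hx)
  let e : Fin (Fintype.card (Fin 5 × Bool)) ≃ Fin 5 × Bool := (Fintype.equivFin _).symm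
  -- the pieces attached to a choice function
  have cover : ∀ χ : (Fin 2 → ℝ) → Fin 5 × Bool,
      (⋃ i, (fun v => Matrix.mulVec
        (((Run7.h138.rep (FreeGroup.mk [e i]))⁻¹ : Matrix.SpecialLinearGroup (Fin 2) ℝ) :
          Matrix (Fin 2) (Fin 2) ℝ) v) ''
        {y | ∃ x ∈ Run7.h138.Q, χ x = e i ∧ FreeGroup.mk [e i] • x = y})
        = Run7.h138.Q := by
    intro χ
    have hinv : ∀ (l : Fin 5 × Bool) (x : Fin 2 → ℝ), Matrix.mulVec
        (((Run7.h138.rep (FreeGroup.mk [l]))⁻¹ : Matrix.SpecialLinearGroup (Fin 2) ℝ) :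
          Matrix (Fin 2) (Fin 2) ℝ) (FreeGroup.mk [l] • x) = x := by
      intro l x
      show Matrix.mulVec
        (((Run7.h138.rep (FreeGroup.mk [l]))⁻¹ : Matrix.SpecialLinearGroup (Fin 2) ℝ) :
          Matrix (Fin 2) (Fin 2) ℝ) (Matrix.mulVec
          ((Run7.h138.rep (FreeGroup.mk [l]) : Matrix.SpecialLinearGroup (Fin 2) ℝ) :
          Matrix (Fin 2) (Fin 2) ℝ) x) = x
      rw [Matrix.mulVec_mulVec, ← Matrix.SpecialLinearGroup.coe_mul, inv_mul_cancel,
        Matrix.SpecialLinearGroup.coe_one, Matrix.one_mulVec]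
    ext z
    simp only [Set.mem_iUnion, Set.mem_image]
    constructor
    · rintro ⟨i, y, ⟨x, hx, -, rfl⟩, rfl⟩
      rw [hinv]
      exact hx
    · intro hz
      refine ⟨e.symm (χ z), FreeGroup.mk [χ z] • z, ⟨z, hz, ?_, ?_⟩, ?_⟩
      · simp
      · simp
      · rw [Equiv.apply_symm_apply]
        exact hinv _ z
  refine ⟨_, _, fun i => {y | ∃ x ∈ Run7.h138.Q, φ x = e i ∧ FreeGroup.mk [e i] • x = y},
    fun i => {y | ∃ x ∈ Run7.h138.Q, ψ x = e i ∧ FreeGroup.mk [e i] • x = y},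
    fun i => (Run7.h138.rep (FreeGroup.mk [e i]))⁻¹,
    fun i => (Run7.h138.rep (FreeGroup.mk [e i]))⁻¹, ?_, ?_, ?_, ?_, ?_, cover φ, cover ψ⟩
  · rintro i y ⟨x, hx, h1, rfl⟩
    rw [← h1]
    exact (hmem x hx).1
  · rintro i y ⟨x, hx, h1, rfl⟩
    rw [← h1]
    exact (hmem x hx).2
  · intro i j hij
    rw [Set.disjoint_left]
    rintro y ⟨x, hx, h1, h2⟩ ⟨x', hx', h1', h2'⟩
    rw [← h1] at h2
    rw [← h1'] at h2'
    have := hφ x hx x' hx' (h2.trans h2'.symm)
    subst this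
    exact hij (e.injective (h1.symm.trans h1'))
  · intro i j hij
    rw [Set.disjoint_left]
    rintro y ⟨x, hx, h1, h2⟩ ⟨x', hx', h1', h2'⟩
    rw [← h1] at h2
    rw [← h1'] at h2'
    have := hψ x hx x' hx' (h2.trans h2'.symm)
    subst this
    exact hij (e.injective (h1.symm.trans h1'))
  · intro i j
    rw [Set.disjoint_left]
    rintro y ⟨x, hx, h1, h2⟩ ⟨x', hx', h1', h2'⟩
    rw [← h1] at h2
    rw [← h1'] at h2'
    exact hdis x hx x' hx' (h2.trans h2'.symm)

end Pool.Agent.S00753
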