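import Pool.Statements.S00830
import Pool.Agent.Run7.h650.ProjPowers

set_option autoImplicit false
open Pool Pool.MP_196888_al

namespace Pool.Agent.S00830

open Run7.h650.Proj in
/-- The negation of the preceding statement: For every group G, every m ≥ 2 and every lattice isomorphism φ from the subgroups of G^m to the subgroups of a group H such that H is the internal direct product of the images of the coordinate subgroups, the image of the first coordinate subgroup is isomorphic to G. -/
theorem result :
    ¬ (∀ (G : Type) [Group G] (n : ℕ) (H : Type) [Group H]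
      (φ : Subgroup (Fin (n + 2) → G) ≃o Subgroup H),
      (∀ i : Fin (n + 2),
          (φ (MonoidHom.mulSingle (fun _ : Fin (n + 2) => G) i).range).Normal) →
      (⨆ i : Fin (n + 2), φ (MonoidHom.mulSingle (fun _ : Fin (n + 2) => G) i).range) = ⊤ →
      iSupIndep (fun i : Fin (n + 2) =>
          φ (MonoidHom.mulSingle (fun _ : Fin (n + 2) => G) i).range) →
      Nonempty (↥(φ (MonoidHom.mulSingle (fun _ : Fin (n + 2) => G) 0).range) ≃* G)) := by
  intro hall
  have hid : Function.Injective (MonoidHom.id C3) := fun _ _ h => h
  have hinv : Function.Injective inv3 := fun _ _ h => inv_injective h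
  have h1 : ∀ c : C3, inv3 c = ((MonoidHom.id C3) c)⁻¹ := fun _ => rfl
  have h2 : ∀ c : C3, (MonoidHom.id C3) c = (inv3 c)⁻¹ := fun c => (inv_inv c).symm
  -- the projectivity
  have hrange := fun i : Fin (0 + 2) =>
    projectivity_range (n := 0 + 2) hid hinv h1 h2 i
  have hsurj : ∀ (i : Fin (0 + 2)) (y : Fin (0 + 2) → Fib inv3),
      y ∈ (MonoidHom.mulSingle (fun _ : Fin (0 + 2) => Fib inv3) i).range ↔
        ∀ j, j ≠ i → y j = 1 := by
    intro i y
    rw [MonoidHom.mem_range]
    constructor
    · rintro ⟨g, rfl⟩ j hj
      exact Pi.mulSingle_eq_of_ne hj _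
    · intro hy
      refine ⟨y i, ?_⟩
      funext j
      by_cases hj : j = i
      · subst hj
        rw [MonoidHom.mulSingle_apply, Pi.mulSingle_eq_same]
      · rw [MonoidHom.mulSingle_apply, Pi.mulSingle_eq_of_ne hj, hy j hj]
  obtain ⟨e⟩ := hall (Fib (MonoidHom.id C3)) 0 (Fin (0 + 2) → Fib inv3)
    (projectivity hid hinv h1 h2)
    (by
      intro i
      rw [hrange i]
      constructor
      intro y hy g
      rw [hsurj] at hy ⊢
      intro j hj
      rw [Pi.mul_apply, Pi.mul_apply, Pi.inv_apply, hy j hj, mul_one, mul_inv_cancel])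
    (by
      rw [eq_top_iff]
      intro y _
      have hy : y = (MonoidHom.mulSingle (fun _ : Fin (0 + 2) => Fib inv3) 0) (y 0) *
          (MonoidHom.mulSingle (fun _ : Fin (0 + 2) => Fib inv3) 1) (y 1) := by
        funext j
        fin_cases j
        · simp [Pi.mulSingle]
        · simp [Pi.mulSingle]
      rw [hy]
      apply Subgroup.mul_mem
      · apply Subgroup.mem_iSup_of_mem 0
        rw [hrange 0]
        exact ⟨y 0, rfl⟩
      · apply Subgroup.mem_iSup_of_mem 1
        rw [hrange 1]
        exact ⟨y 1, rfl⟩)
    (by
      intro i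
      rw [Subgroup.disjoint_def]
      intro y hy hy'
      beta_reduce at hy hy'
      rw [hrange i, hsurj] at hy
      have hle : (⨆ j, ⨆ (_ : j ≠ i), projectivity hid hinv h1 h2
          (MonoidHom.mulSingle (fun _ : Fin (0 + 2) => Fib (MonoidHom.id C3)) j).range) ≤
          (Pi.evalMonoidHom (fun _ : Fin (0 + 2) => Fib inv3) i).ker := by
        apply iSup_le
        intro j
        apply iSup_le
        intro hj z hz
        rw [hrange j, hsurj] at hz
        exact hz i (fun h => hj h.symm)
      have h3 := hle hy'
      rw [MonoidHom.mem_ker] at h3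
      funext j
      by_cases hj : j = i
      · subst hj
        exact h3
      · exact hy j hj)
  have e2 : Fib inv3 ≃* (MonoidHom.mulSingle (fun _ : Fin (0 + 2) => Fib inv3) 0).range :=
    MonoidHom.ofInjective (f := MonoidHom.mulSingle (fun _ : Fin (0 + 2) => Fib inv3) 0)
      (by
        intro a b hab
        have := congrFun hab 0
        rw [MonoidHom.mulSingle_apply, MonoidHom.mulSingle_apply, Pi.mulSingle_eq_same,
          Pi.mulSingle_eq_same] at this
        exact this)
  have e3 : ↥(projectivity hid hinv h1 h2
      (MonoidHom.mulSingle (fun _ : Fin (0 + 2) => Fib (MonoidHom.id C3)) 0).range) ≃*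
      ↥(MonoidHom.mulSingle (fun _ : Fin (0 + 2) => Fib inv3) 0).range :=
    MulEquiv.subgroupCongr (hrange 0)
  exact not_good_inv (good_id.of_equiv ((e.symm.trans e3).trans e2.symm))

end Pool.Agent.S00830
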