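import Pool.Statements.S00905

set_option autoImplicit false
open Pool Pool.MP_207b86_al

namespace Pool.Agent.S00905

open scoped Topology

/-- The symmetric group of degree three (finite, trivial centre). -/
abbrev S3 : Type := Equiv.Perm (Fin 3)

/-- The group: a countable power of `S3`. -/
abbrev GG : Type := ℕ → S3

instance : TopologicalSpace S3 := ⊥
instance : DiscreteTopology S3 := ⟨rfl⟩

theorem centre_S3 : ∀ σ : S3, (∀ a : S3, σ * a = a * σ) → σ = 1 := by decide

/-- evaluation of a word -/
abbrev ev (w : Monoid.Coprod GG (FreeGroup Unit)) (g : GG) : GG :=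
  Monoid.Coprod.lift (MonoidHom.id GG) (FreeGroup.lift (fun _ => g)) w

theorem cont_mul {X : Type*} [TopologicalSpace X] {f g : X → GG} (hf : Continuous f)
    (hg : Continuous g) : Continuous (fun x => f x * g x) := by
  refine continuous_pi fun i => ?_
  have h1 : Continuous (fun x => (f x i, g x i)) :=
    ((continuous_apply i).comp hf).prodMk ((continuous_apply i).comp hg)
  have h2 : Continuous (fun p : S3 × S3 => p.1 * p.2) := continuous_of_discreteTopology
  exact h2.comp h1

theorem cont_inv {X : Type*} [TopologicalSpace X] {f : X → GG} (hf : Continuous f) :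
    Continuous (fun x => (f x)⁻¹) := by
  refine continuous_pi fun i => ?_
  have h2 : Continuous (fun p : S3 => p⁻¹) := continuous_of_discreteTopology
  exact h2.comp ((continuous_apply i).comp hf)

theorem cont_free (v : FreeGroup Unit) :
    Continuous (fun g : GG => FreeGroup.lift (fun _ : Unit => g) v) := by
  induction v using FreeGroup.induction_on with
  | C1 => simpa using continuous_const
  | of x =>
    have h : (fun g : GG => FreeGroup.lift (fun _ : Unit => g) (FreeGroup.of x)) = id := by
      funext g; simp
    exact h ▸ continuous_id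
  | inv_of x h => simpa using cont_inv continuous_id
  | mul x y hx hy => simpa using cont_mul hx hy

theorem cont_ev (w : Monoid.Coprod GG (FreeGroup Unit)) : Continuous (fun g : GG => ev w g) := by
  induction w using Monoid.Coprod.induction_on with
  | inl m =>
    have : (fun g : GG => ev (Monoid.Coprod.inl m) g) = fun _ => m := by
      funext g; simp [ev]
    rw [this]; exact continuous_const
  | inr n =>
    have : (fun g : GG => ev (Monoid.Coprod.inr n) g)
        = fun g => FreeGroup.lift (fun _ : Unit => g) n := by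
      funext g; simp [ev]
    rw [this]; exact cont_free n
  | mul x y hx hy =>
    have : (fun g : GG => ev (x * y) g) = fun g => ev x g * ev y g := by
      funext g; simp [ev]
    rw [this]; exact cont_mul hx hy

/-- The Zariski topology. -/
abbrev ZT : TopologicalSpace GG := TopologicalSpace.generateFrom
        {U : Set GG | ∃ w : Monoid.Coprod GG (FreeGroup Unit),
          U = {g : GG | Monoid.Coprod.lift (MonoidHom.id GG) (FreeGroup.lift (fun _ => g)) w = 1}ᶜ}

theorem pi_le_ZT : (Pi.topologicalSpace : TopologicalSpace GG) ≤ ZT := by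
  refine le_generateFrom ?_
  rintro U ⟨w, rfl⟩
  have h : IsClosed {g : GG | ev w g = 1} := isClosed_eq (cont_ev w) continuous_const
  exact h.isOpen_compl

/-- the word `(c⁻¹ x) a (c⁻¹ x)⁻¹ a⁻¹` with coefficients in the `i`-th coordinate -/
def word (i : ℕ) (c a : S3) : Monoid.Coprod GG (FreeGroup Unit) :=
  (Monoid.Coprod.inl (Pi.mulSingle i c⁻¹) * Monoid.Coprod.inr (FreeGroup.of ())) *
    Monoid.Coprod.inl (Pi.mulSingle i a) *
    (Monoid.Coprod.inl (Pi.mulSingle i c⁻¹) * Monoid.Coprod.inr (FreeGroup.of ()))⁻¹ *
    (Monoid.Coprod.inl (Pi.mulSingle i a))⁻¹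

theorem ev_word (i : ℕ) (c a : S3) (g : GG) :
    ev (word i c a) g = 1 ↔ (c⁻¹ * g i) * a = a * (c⁻¹ * g i) := by
  have h1 : ev (word i c a) g
      = (Pi.mulSingle i c⁻¹ * g) * Pi.mulSingle i a * (Pi.mulSingle i c⁻¹ * g)⁻¹
        * (Pi.mulSingle i a)⁻¹ := by
    simp [ev, word, map_mul, map_inv]
  rw [h1]
  constructor
  · intro h
    have h2 := congrFun h i
    simp only [Pi.mul_apply, Pi.inv_apply, Pi.mulSingle_eq_same, Pi.one_apply] at h2
    have h3 := mul_inv_eq_one.mp h2
    exact mul_inv_eq_iff_eq_mul.mp h3
  · intro h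
    funext j
    by_cases hj : j = i
    · subst hj
      simp only [Pi.mul_apply, Pi.inv_apply, Pi.mulSingle_eq_same, Pi.one_apply]
      rw [h]; group
    · simp [Pi.mulSingle_eq_of_ne hj]

theorem isClosed_ev (w : Monoid.Coprod GG (FreeGroup Unit)) :
    IsClosed[ZT] {g : GG | ev w g = 1} := by
  refine @IsClosed.mk _ ZT _ ?_
  exact TopologicalSpace.GenerateOpen.basic _ ⟨w, rfl⟩

theorem isClosed_coord (i : ℕ) (c : S3) : IsClosed[ZT] {g : GG | g i = c} := by
  have h : {g : GG | g i = c} = ⋂ a : S3, {g : GG | ev (word i c a) g = 1} := by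
    ext g
    simp only [Set.mem_ofPred_eq, Set.mem_iInter, ev_word]
    constructor
    · intro h a; rw [h]; simp
    · intro h
      have := centre_S3 (c⁻¹ * g i) h
      exact (inv_mul_eq_one.mp this).symm
  rw [h]
  exact @isClosed_iInter _ _ ZT _ fun a => isClosed_ev _

theorem isOpen_coord (i : ℕ) (c : S3) : IsOpen[ZT] {g : GG | g i = c} := by
  have h : {g : GG | g i = c} = (⋃ d ∈ ({c}ᶜ : Set S3), {g : GG | g i = d})ᶜ := by
    ext g
    simp only [Set.mem_ofPred_eq, Set.mem_compl_iff, Set.mem_iUnion, Set.mem_singleton_iff,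
      exists_prop, not_exists, not_and]
    constructor
    · intro h d hd h'
      exact hd (h'.symm.trans h)
    · intro h
      by_contra hc
      exact h (g i) hc rfl
  rw [h]
  have h2 : IsClosed[ZT] (⋃ d ∈ ({c}ᶜ : Set S3), {g : GG | g i = d}) :=
    @Set.Finite.isClosed_biUnion _ _ ZT _ _ (Set.toFinite _) fun d _ => isClosed_coord i d
  exact (@isOpen_compl_iff _ _ ZT).mpr h2

theorem ZT_le_pi : ZT ≤ (Pi.topologicalSpace : TopologicalSpace GG) := by
  refine le_iInf fun i => ?_
  rw [← continuous_iff_le_induced]
  refine @Continuous.mk _ _ ZT _ _ fun s _ => ?_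
  have h : (fun g : GG => g i) ⁻¹' s = ⋃ c ∈ s, {g : GG | g i = c} := by
    ext g; simp
  rw [h]
  exact @isOpen_biUnion _ _ ZT _ _ fun c _ => isOpen_coord i c

/-- There is an infinite group whose Zariski topology is both compact and Hausdorff. The closed sets of that topology are generated by solution sets of one-variable equations with constants from the group. -/
theorem result :
    ∃ (G : Type) (_ : Group G) (T : TopologicalSpace G),
      Infinite G ∧
      T = TopologicalSpace.generateFrom
        {U : Set G | ∃ w : Monoid.Coprod G (FreeGroup Unit),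
          U = {g : G | Monoid.Coprod.lift (MonoidHom.id G) (FreeGroup.lift (fun _ => g)) w = 1}ᶜ} ∧
      @CompactSpace G T ∧ @T2Space G T := by
  have hZ : (Pi.topologicalSpace : TopologicalSpace GG) = ZT := le_antisymm pi_le_ZT ZT_le_pi
  refine ⟨GG, inferInstance, Pi.topologicalSpace, inferInstance, hZ, ?_, ?_⟩
  · exact inferInstance
  · exact inferInstance

end Pool.Agent.S00905
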