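import Pool.Statements.S01012

set_option autoImplicit false
open Pool Pool.MP_293fae_al
open Polynomial

namespace Pool.Agent.S01012

/-- Reduction of the Gaussian integers modulo `1 + i`. -/
noncomputable def red : GaussianInt →+* ZMod 2 :=
  Zsqrtd.lift ⟨1, by decide⟩

lemma red_apply (a : GaussianInt) : red a = (a.re : ZMod 2) + (a.im : ZMod 2) := by
  simp [red, Zsqrtd.lift]

/-- The map `ℤ[i][X] → 𝔽₂`, `i ↦ 1`, `X ↦ 0`. -/
noncomputable def phi : GaussianInt[X] →+* ZMod 2 :=
  red.comp (Polynomial.constantCoeff)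

/-- The maximal ideal `(1 + i, X)` of `ℤ[i][X]`. -/
noncomputable def P : Ideal GaussianInt[X] := RingHom.ker phi

instance : P.IsPrime := RingHom.ker_isPrime phi

/-- `1 + i`. -/
def w : GaussianInt := ⟨1, 1⟩

lemma mem_P (f : GaussianInt[X]) : f ∈ P ↔ red (f.coeff 0) = 0 := by
  simp [P, phi, RingHom.mem_ker, Polynomial.constantCoeff_apply]

lemma P_eq : P = Ideal.span {C w, (X : GaussianInt[X])} := by
  apply le_antisymm
  · intro f hf
    rw [mem_P, red_apply] at hf
    have h2 : ((f.coeff 0).re + (f.coeff 0).im : ℤ) % 2 = 0 := by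
      have : (((f.coeff 0).re + (f.coeff 0).im : ℤ) : ZMod 2) = 0 := by push_cast; exact hf
      rw [ZMod.intCast_zmod_eq_zero_iff_dvd] at this
      omega
    obtain ⟨k, hk⟩ : ∃ k : ℤ, (f.coeff 0).re + (f.coeff 0).im = 2 * k :=
      ⟨((f.coeff 0).re + (f.coeff 0).im) / 2, by omega⟩
    have hw : f.coeff 0 = w * ⟨k, k - (f.coeff 0).re⟩ := by
      rw [Zsqrtd.ext_iff]
      constructor
      · simp [w]
      · simp [w]
        omega
    rw [← Polynomial.divX_mul_X_add f, hw, C_mul]
    refine Ideal.add_mem _ ?_ ?_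
    · exact Ideal.mul_mem_left _ _ (Ideal.subset_span (by simp))
    · exact Ideal.mul_mem_right _ _ (Ideal.subset_span (by simp))
  · rw [Ideal.span_le]
    intro f hf
    simp only [Set.mem_insert_iff, Set.mem_singleton_iff] at hf
    rcases hf with rfl | rfl
    · show _ ∈ P
      rw [mem_P, red_apply]
      simp [w]
      decide
    · show _ ∈ P
      rw [mem_P]
      simp

lemma spanX_lt : Ideal.span {(X : GaussianInt[X])} < P := by
  rw [lt_iff_le_and_ne]
  constructor
  · rw [Ideal.span_le]
    intro f hf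
    simp only [Set.mem_singleton_iff] at hf
    subst hf
    show _ ∈ P
    rw [mem_P]
    simp
  · intro h
    have h1 : (C w : GaussianInt[X]) ∈ P := by
      rw [P_eq]
      exact Ideal.subset_span (by simp)
    rw [← h, Ideal.mem_span_singleton] at h1
    rw [Polynomial.X_dvd_iff] at h1
    have : w.re = 0 := by
      have h2 : w = 0 := by simpa using h1
      rw [h2]
      rfl
    simp [w] at this

lemma height_P : P.height = 2 := by
  have hne : P ≠ ⊤ := Ideal.IsPrime.ne_top inferInstance
  apply le_antisymm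
  · refine (Ideal.height_le_spanFinrank P hne).trans ?_
    rw [P_eq]
    refine (Submodule.spanFinrank_span_le_encard _).trans ?_
    refine (Set.encard_insert_le _ _).trans ?_
    rw [Set.encard_singleton]
    norm_num
  · have hX : (Ideal.span {(X : GaussianInt[X])}).IsPrime := by
      rw [Ideal.span_singleton_prime Polynomial.X_ne_zero]
      exact Polynomial.prime_X
    have h0 : (⊥ : Ideal GaussianInt[X]).IsPrime := Ideal.isPrime_bot
    have h1 : (⊥ : Ideal GaussianInt[X]) < Ideal.span {(X : GaussianInt[X])} := by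
      rw [bot_lt_iff_ne_bot, Ne, Ideal.span_singleton_eq_bot]
      exact Polynomial.X_ne_zero
    have e1 := Ideal.height_add_one_le_of_lt_of_isPrime h1
    have e2 := Ideal.height_add_one_le_of_lt_of_isPrime spanX_lt
    calc (2 : ℕ∞) = 0 + 1 + 1 := by norm_num
      _ ≤ (⊥ : Ideal GaussianInt[X]).height + 1 + 1 := by gcongr; exact bot_le
      _ ≤ _ := (add_le_add e1 le_rfl).trans e2

section Loc

/- `R` is the regular local ring of dimension two `ℤ[i][X]` localised at `(1 + i, X)`. -/
variable (R : Type) [CommRing R] [Algebra GaussianInt[X] R] [IsLocalization.AtPrime R P]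

lemma dim_R : ringKrullDim R = 2 := by
  rw [IsLocalization.AtPrime.ringKrullDim_eq_height P R, height_P]
  rfl

lemma max_R [IsLocalRing R] :
    ∃ a b : R, IsLocalRing.maximalIdeal R = Ideal.span {a, b} := by
  refine ⟨algebraMap GaussianInt[X] R (C w), algebraMap GaussianInt[X] R X, ?_⟩
  rw [← IsLocalization.AtPrime.map_eq_maximalIdeal P R, P_eq, Ideal.map_span, Set.image_pair]

end Loc

/-- `i` as an element of any algebra over `ℤ[i][X]`. -/
lemma i_sq : (C (⟨0, 1⟩ : GaussianInt) : GaussianInt[X]) * C ⟨0, 1⟩ = -1 := by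
  rw [← C_mul]
  have : (⟨0, 1⟩ : GaussianInt) * ⟨0, 1⟩ = -1 := by
    rw [Zsqrtd.ext_iff]
    simp
  rw [this]
  simp

/-- The element `2 + 2i`. -/
noncomputable def e : GaussianInt[X] := C ⟨2, 2⟩

lemma e_eq : e = 1 * 1 + (1 * 1 + (C w * C w + 0)) := by
  have : (⟨2, 2⟩ : GaussianInt) = 1 + (1 + w * w) := by
    rw [Zsqrtd.ext_iff]
    constructor <;> simp [w]
  rw [e, this]
  simp [C_mul, C_add]

lemma mod4 : ∀ x y p q r s : ZMod 4, x * x - y * y ≠ 0 → x * x - y * y ≠ 2 →
    (x * x - y * y) * 2 - (2 * x * y) * 2 = p * p - q * q + (r * r - s * s) →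
    (x * x - y * y) * 2 + (2 * x * y) * 2 = 2 * p * q + 2 * r * s → False := by
  decide

/-- `2 + 2i` times the square of an element prime to `1 + i` is not a sum of two squares of
Gaussian integers. -/
lemma not_two_gauss (c a b : GaussianInt) (hc : red c ≠ 0)
    (h : c * c * ⟨2, 2⟩ = a * a + b * b) : False := by
  rw [red_apply] at hc
  have hodd : (c.re + c.im) % 2 = 1 := by
    have h0 : ¬ ((2 : ℤ) ∣ (c.re + c.im)) := by
      intro hd
      apply hc
      have := (ZMod.intCast_zmod_eq_zero_iff_dvd (c.re + c.im) 2).2 hd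
      push_cast at this
      exact this
    omega
  have hre := congrArg Zsqrtd.re h
  have him := congrArg Zsqrtd.im h
  simp only [Zsqrtd.re_mul, Zsqrtd.im_mul, Zsqrtd.re_add, Zsqrtd.im_add] at hre him
  have hre4 := congrArg (Int.cast : ℤ → ZMod 4) hre
  have him4 := congrArg (Int.cast : ℤ → ZMod 4) him
  push_cast at hre4 him4
  have hsq : (c.re * c.re - c.im * c.im) % 2 = 1 := by
    have : c.re * c.re - c.im * c.im = (c.re + c.im) * (c.re - c.im) := by ring
    rw [this, Int.mul_emod, hodd]
    have : (c.re - c.im) % 2 = 1 := by omega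
    rw [this]
    rfl
  refine mod4 (c.re : ZMod 4) (c.im : ZMod 4) a.re a.im b.re b.im ?_ ?_ ?_ ?_
  · intro h0
    have h1 : ((c.re * c.re - c.im * c.im : ℤ) : ZMod 4) = 0 := by push_cast; exact h0
    rw [ZMod.intCast_zmod_eq_zero_iff_dvd] at h1
    omega
  · intro h0
    have h1 : ((c.re * c.re - c.im * c.im - 2 : ℤ) : ZMod 4) = 0 := by
      push_cast; rw [h0]; decide
    rw [ZMod.intCast_zmod_eq_zero_iff_dvd] at h1
    omega
  · linear_combination hre4
  · linear_combination him4

lemma not_two (R : Type) [CommRing R] [Algebra GaussianInt[X] R] [IsLocalization.AtPrime R P]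
    (x y : R) (h : algebraMap GaussianInt[X] R e = x ^ 2 + y ^ 2) : False := by
  obtain ⟨⟨a, s⟩, hx⟩ := IsLocalization.surj P.primeCompl x
  obtain ⟨⟨b, t⟩, hy⟩ := IsLocalization.surj P.primeCompl y
  simp only at hx hy
  have hinj : Function.Injective (algebraMap GaussianInt[X] R) :=
    IsLocalization.injective R P.primeCompl_le_nonZeroDivisors
  have hst : (s : GaussianInt[X]) * t ∉ P := (s * t).2
  have key : ((s : GaussianInt[X]) * t) * (s * t) * e = (a * t) * (a * t) + (b * s) * (b * s) := by
    apply hinj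
    simp only [map_mul, map_add]
    rw [h, ← hx, ← hy]
    ring
  have k0 := congrArg (fun f => Polynomial.coeff f 0) key
  simp only [Polynomial.mul_coeff_zero, Polynomial.coeff_add] at k0
  have hc : red ((s : GaussianInt[X]).coeff 0 * (t : GaussianInt[X]).coeff 0) ≠ 0 := by
    rw [← Polynomial.mul_coeff_zero]
    rw [mem_P] at hst
    exact hst
  have he : e.coeff 0 = ⟨2, 2⟩ := by simp [e]
  rw [he] at k0
  exact not_two_gauss _ _ _ hc k0

lemma core (R : Type) [CommRing R] [IsDomain R] [Algebra GaussianInt[X] R]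
    [IsLocalization.AtPrime R P] :
    ¬ ((∀ x : R, IsSumSq x → ∃ f : Fin 2 → R, x = ∑ i, f i ^ 2) ↔
      (∀ x : FractionRing R, IsSumSq x → ∃ f : Fin 2 → FractionRing R, x = ∑ i, f i ^ 2)) := by
  intro h
  have hK : ∀ x : FractionRing R, IsSumSq x →
      ∃ f : Fin 2 → FractionRing R, x = ∑ i, f i ^ 2 := by
    intro x _
    set j : FractionRing R :=
      algebraMap R _ (algebraMap GaussianInt[X] R (C (⟨0, 1⟩ : GaussianInt))) with hj
    have hjj : j * j = -1 := by
      rw [hj, ← map_mul, ← map_mul, i_sq, map_neg, map_neg, map_one, map_one]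
    have h2 : (2 : FractionRing R) ≠ 0 := by
      have : (2 : FractionRing R) = algebraMap R _ (algebraMap GaussianInt[X] R 2) := by
        rw [map_ofNat, map_ofNat]
      rw [this]
      intro h0
      rw [← map_zero (algebraMap R (FractionRing R))] at h0
      have h1 := IsFractionRing.injective R (FractionRing R) h0
      rw [← map_zero (algebraMap GaussianInt[X] R)] at h1
      have h3 := IsLocalization.injective R P.primeCompl_le_nonZeroDivisors h1
      exact two_ne_zero h3
    refine ⟨![(x + 1) / 2, j * ((x - 1) / 2)], ?_⟩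
    simp only [Fin.sum_univ_two, Matrix.cons_val_zero, Matrix.cons_val_one]
    have : (j * ((x - 1) / 2)) ^ 2 = -(((x - 1) / 2) ^ 2) := by
      rw [mul_pow, pow_two j, hjj]
      ring
    rw [this]
    field_simp
    ring
  obtain ⟨f, hf⟩ := h.2 hK (algebraMap GaussianInt[X] R e) (by
    rw [e_eq]
    simp only [map_add, map_mul, map_one, map_zero]
    exact IsSumSq.sq_add _ (IsSumSq.sq_add _ (IsSumSq.sq_add _ IsSumSq.zero)))
  rw [Fin.sum_univ_two] at hf
  exact not_two R _ _ hf

/-- The negation of the preceding statement: For every 2-dimensional regular local ring R with fraction field K, and every n, every sum of squares in R is a sum of n squares iff the same holds in K; that is, the Pythagoras numbers of R and K agree. -/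
theorem result :
    ¬ (∀ (R : Type) [CommRing R] [IsDomain R] [IsLocalRing R] [IsNoetherianRing R],
      ringKrullDim R = 2 →
      (∃ a b : R, IsLocalRing.maximalIdeal R = Ideal.span {a, b}) →
      ∀ (K : Type) [Field K] [Algebra R K] [IsFractionRing R K],
      ∀ n : ℕ,
        ((∀ x : R, IsSumSq x → ∃ f : Fin n → R, x = ∑ i, f i ^ 2) ↔
          (∀ x : K, IsSumSq x → ∃ f : Fin n → K, x = ∑ i, f i ^ 2))) := by
  intro H
  have key : ∀ (R : Type) [CommRing R] [IsDomain R] [IsLocalRing R] [IsNoetherianRing R]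
      [Algebra GaussianInt[X] R] [IsLocalization.AtPrime R P], False := by
    intro R _ _ _ _ _ _
    exact core R (H R (dim_R R) (max_R R) (FractionRing R) 2)
  have h1 : IsDomain (Localization.AtPrime P) :=
    IsLocalization.isDomain_localization P.primeCompl_le_nonZeroDivisors
  have h2 : IsNoetherianRing (Localization.AtPrime P) :=
    IsLocalization.isNoetherianRing P.primeCompl (Localization.AtPrime P) inferInstance
  exact key (Localization.AtPrime P)

end Pool.Agent.S01012
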