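import Pool.Statements.S01484
import Pool.Agent.Run7.h433.Nak.Fin

set_option autoImplicit false
open CategoryTheory
open Pool Pool.MP_543c57_al

namespace Pool.Agent.S01484

/-- The negation of the preceding statement: For every finite-dimensional algebra A over a field k, A is injective as a module over itself iff Ext^i_A(D(A), A) vanishes for all i ≥ 1, where D(A) is the k-dual of A with its left A-module structure. -/
theorem result :
    ¬ (∀ (k : Type) [Field k] (A : Type) [Ring A] [Algebra k A] [FiniteDimensional k A]
      (M : Type) [AddCommGroup M] [Module A M] [Module k M] [IsScalarTower k A M]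
      (e : M ≃ₗ[k] Module.Dual k A),
      (∀ (a : A) (m : M) (x : A), e (a • m) x = e m (x * a)) →
      ∀ [CategoryTheory.HasExt.{1} (ModuleCat.{0} A)],
      (Module.Injective A A ↔
        ∀ i : ℕ, 1 ≤ i →
          Subsingleton
            (CategoryTheory.Abelian.Ext.{1} (ModuleCat.of A M) (ModuleCat.of A A) i))) := by
  exact Pool.Agent.Run7.h102.Nak.W1484 ℚ Run7.h433.Nak.not_TC2

end Pool.Agent.S01484
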