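import Pool.Statements.S01535
import Pool.Agent.Run7.h378.Final
import Pool.Agent.Run7.h378.Relp
import Pool.Agent.Run7.h378.Eps
import Pool.Agent.Run7.h378.PIp
import Pool.Agent.Run7.h937.h378_D1
import Pool.Agent.Run7.h937.h378_D7b
import Pool.Agent.Run7.h937.h378_D9
import Pool.Agent.Run7.h937.h378_D11b
import Pool.Agent.Run7.h212.h378_D2
import Pool.Agent.Run7.h212.h378_D3
import Pool.Agent.Run7.h270.MP57.D4
import Pool.Agent.Run7.h270.MP57.D7a
import Pool.Agent.Run7.h270.MP57.F9
import Pool.Agent.Run7.h930.Res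
import Pool.Agent.Run7.h930.Cho
import Pool.Agent.Run7.h324.DA.F14
import Pool.Agent.Run7.h324.DA.F3
import Pool.Agent.Run7.h324.DA.F4a
import Pool.Agent.Run7.h324.DA.F4b
import Pool.Agent.Run7.h324.DA.F5p
import Pool.Agent.Run7.h639.MP57.F15
import Pool.Agent.Run7.h847.MP57.D10
import Pool.Agent.Run7.h847.MP57.D11a
import Pool.Agent.Run7.h366.MP57.D5
import Pool.Agent.Run7.h366.MP57.D6
import Pool.Agent.Run7.h253.D57.Sep
import Pool.Agent.Run7.h253.D57.HomA
import Pool.Agent.Run7.h189.DA.F8
import Pool.Agent.Run7.h189.DA.F10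
import Pool.Agent.Run7.h189.DA.F11
import Pool.Agent.Run7.h189.DA.F13
import Pool.Agent.Run7.h590.MP57.St
import Pool.Agent.Run7.h590.MP57.Coc

/-!
An infinite-dimensional division algebra all of whose proper subalgebras are PI.

`D = K * G`, crossed product of the Pruefer 2-group `G` over a field `K ⊆ E((s))` constructed by
successive generic square roots of automorphisms (`Pool.Agent.Run7.h378.Defs`, `IfaceD`, `IfaceF`
describe the construction and all steps of the proof).
-/

set_option autoImplicit false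
open Pool Pool.MP_5766af_al

namespace Pool.Agent.S01535

open Pool.Agent.Run7 Pool.Agent.Run7.h378 in
/-- the field level -/
theorem data : ∃ (K : Type) (_ : Field K) (_ : CharZero K), Nonempty (Data K) :=
  h639.MP57.p_data h324.DA.main_F3 h324.DA.main_F4b h324.DA.main_F4a p_eps h324.DA.main_F5p
    h590.MP57.p_St h324.DA.main_F14
    (h189.DA.main_F13 h324.DA.main_F3 Solve.solve h324.DA.main_F5p h590.MP57.p_St h930.Ch.p_cho
      p_rel h189.DA.main_F8 h270.MP57.p_gen h270.MP57.p_gen1 h270.MP57.p_quad h189.DA.main_F10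
      h189.DA.main_F11 h590.MP57.p_coc) h930.Rs.p_res

/-- There is a division ring D that is an algebra over a field F equal to its center, with D infinite-dimensional over F, such that every proper F-subalgebra satisfies some nonzero noncommutative polynomial identity. -/
theorem result :
    ∃ (F : Type) (D : Type) (_ : Field F) (_ : DivisionRing D) (_ : Algebra F D),
      Subalgebra.center F D ≤ ⊥ ∧ ¬ FiniteDimensional F D ∧
      ∀ A : Subalgebra F D, A ≠ ⊤ →
        ∃ n : ℕ, ∃ f : FreeAlgebra F (Fin n), f ≠ 0 ∧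
          ∀ a : Fin n → A, FreeAlgebra.lift F a f = 0 := by
  obtain ⟨K, _, _, ⟨T⟩⟩ := data
  exact Pool.Agent.Run7.h378.final Pool.Agent.Run7.h937.h378_D1 Pool.Agent.Run7.h212.D2
    Pool.Agent.Run7.h212.D3 Pool.Agent.Run7.h270.MP57.p_dens Pool.Agent.Run7.h270.MP57.p_aw
    Pool.Agent.Run7.h270.MP57.p_artin Pool.Agent.Run7.h366.MP57.D5 Pool.Agent.Run7.h366.MP57.D6
    Pool.Agent.Run7.h270.MP57.p_alg2 Pool.Agent.Run7.h937.h378_D7b
    (Pool.Agent.Run7.h253.D57.p_sep Pool.Agent.Run7.h324.DA.main_F3) Pool.Agent.Run7.h253.D57.p_A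
    Pool.Agent.Run7.h937.h378_D9 Pool.Agent.Run7.h847.MP57.D10 Pool.Agent.Run7.h847.MP57.D11a
    Pool.Agent.Run7.h937.h378_D11b Pool.Agent.Run7.h378.p_PI K T

end Pool.Agent.S01535
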