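import Pool.Statements.S01640
import Pool.Agent.Run7.h477.RK.ASM
import Pool.Agent.Run7.h477.RK.TT
import Pool.Agent.Run7.h477.RK.ANG
import Pool.Agent.Run7.h477.RK.GEN
import Pool.Agent.Run7.h136.RK.TRA
import Pool.Agent.Run7.h136.RK.GST
import Pool.Agent.Run7.h304.RK.FLD
import Pool.Agent.Run7.h67.RK.SIM
import Pool.Agent.Run7.h67.RK.TOR
import Pool.Agent.Run7.h67.RK.UNP
import Pool.Agent.Run7.h781.RK.BN
import Pool.Agent.Run7.h781.RK.CNT
import Pool.Agent.Run7.h781.RK.PL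

/-!
# A Kazhdan group with infinitely many quotients of Lie type of rank one (MP_5f0000_al)

`G` is the subgroup of `∏_m GL_3(F_{4^(2m)})` (`m` odd) generated by three copies of `SU_3(4)`
(`S`, `t_1 S t_1⁻¹`, `t_2 S t_2⁻¹`, `t_1 = diag(1, α, α)`, `t_2 = diag(1, 1, α)`, `α` of order
`4^m + 1`).  It is generated by three finite subgroups with pairwise angles of cosine `≤ 1/3 < 1/2`
(a counting argument in `SU_3(4)`), hence it has property (T), and it maps onto `SU_3(4^m) =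
PSU_3(4^m)` for every odd `m`.
-/

set_option autoImplicit false
open Pool Pool.MP_5f0000_al

namespace Pool.Agent.S01640

/-- The negation of the preceding statement: Every group with Kazhdan's property (T) has only finitely many normal subgroups whose quotient is a finite simple group with a split BN-pair of rank 1, i.e. a finite simple group of Lie type of rank 1. -/
theorem result :
    ¬ (∀ (G : Type) [Group G],
      (∀ (H : Type) [NormedAddCommGroup H] [InnerProductSpace ℂ H] [CompleteSpace H]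
          (ρ : G →* unitary (H →L[ℂ] H)),
          (∀ (S : Finset G) (ε : ℝ), 0 < ε →
              ∃ v : H, ‖v‖ = 1 ∧ ∀ s ∈ S, ‖(ρ s : H →L[ℂ] H) v - v‖ < ε) →
          ∃ v : H, v ≠ 0 ∧ ∀ g : G, (ρ g : H →L[ℂ] H) v = v) →
      Set.Finite {N : Subgroup G | ∃ (Q : Type) (_ : Group Q), ∃ f : G →* Q,
          Function.Surjective f ∧ f.ker = N ∧ Finite Q ∧ IsSimpleGroup Q ∧
          ∃ (X : Type) (φ : Q →* Equiv.Perm X), Finite X ∧ 3 ≤ Nat.card X ∧
            (∀ a b c d : X, a ≠ b → c ≠ d → ∃ g : Q, φ g a = c ∧ φ g b = d) ∧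
            ∃ (x : X) (U : Subgroup Q),
              (∀ u ∈ U, φ u x = x) ∧
              (∀ u ∈ U, ∀ h : Q, φ h x = x → h * u * h⁻¹ ∈ U) ∧
              ∀ y z : X, y ≠ x → z ≠ x → ∃! u : Q, u ∈ U ∧ φ u y = z}) := by
  intro h
  obtain ⟨G, iG, hT, hinf⟩ := Run7.h477.RK.t_ASM Run7.h477.RK.t_TT
    (Run7.h477.RK.t_ANG Run7.h781.RK.t_CNT Run7.h781.RK.t_PL)
    (Run7.h136.RK.t_GST Run7.h781.RK.t_PL Run7.h136.RK.t_TRA)
    Run7.h781.RK.t_PL
    (Run7.h781.RK.t_BN Run7.h781.RK.t_PL Run7.h136.RK.t_TRA (Run7.h67.RK.t_UNP Run7.h67.RK.t_TOR))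
    (Run7.h67.RK.t_SIM Run7.h781.RK.t_PL Run7.h136.RK.t_TRA Run7.h67.RK.t_TOR)
    (Run7.h477.RK.t_GEN Run7.h781.RK.t_PL' Run7.h781.RK.t_PL Run7.h136.RK.t_TRA)
    Run7.h304.RK.t_FLD
  exact hinf (@h G iG hT)

end Pool.Agent.S01640
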