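import Pool.Statements.S01776
import Pool.Agent.Run7.h433.Nak.Fin
import Pool.Agent.Run7.h229.Nak.Good

set_option autoImplicit false
open Pool Pool.MP_68f647_al

namespace Pool.Agent.S01776

/-- The negation of the preceding statement: For every finite-dimensional algebra A over a field: if infinite dominant dimension forces A selfinjective, then Ext^i(M,A)=0 for all i≥1 and all finitely generated injective left modules M also forces A selfinjective. -/
theorem result :
    ¬ (∀ (k : Type) [Field k] (A : Type) [Ring A] [Algebra k A] [FiniteDimensional k A]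
    [CategoryTheory.HasExt.{1} (ModuleCat.{0} A)],
    ((∃ (I : ℕ → ModuleCat.{0} A) (ε : A →ₗ[A] I 0) (d : ∀ n, I n →ₗ[A] I (n + 1)),
        Function.Injective ε ∧ LinearMap.range ε = LinearMap.ker (d 0) ∧
        (∀ n, LinearMap.range (d n) = LinearMap.ker (d (n + 1))) ∧
        ∀ n, Module.Projective A (I n) ∧ Module.Injective A (I n)) →
      Module.Injective A A) →
    ((∀ (M : ModuleCat.{0} A), Module.Injective A M → Module.Finite A M →
        ∀ i : ℕ, 1 ≤ i →
          Subsingleton (CategoryTheory.Abelian.Ext.{1} M (ModuleCat.of A A) i)) →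
      Module.Injective A A)) := by
  obtain ⟨hfin, lam, hsym, hlam⟩ := Run7.h433.Nak.p_SYM
  have hfd : FiniteDimensional ℚ Run7.h433.Nak.T := hfin
  have hX : Module.Finite Run7.h433.Nak.T Run7.h433.Nak.X := Run7.h433.Nak.p_XNP.1
  exact Pool.Agent.Run7.h229.Nak.W1776' lam hlam hsym
    (fun n => Run7.h433.Nak.ext_X n) Run7.h433.Nak.p_XNP.2

end Pool.Agent.S01776
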