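import Pool.Statements.S02286
import Mathlib

set_option autoImplicit false
open Pool Pool.MP_91b10e_al
open scoped Topology

namespace Pool.Agent.S02286

/-- Evaluation of a one-variable word with constants is continuous in every topological group. -/
theorem continuous_eval {G : Type} [Group G] [TopologicalSpace G] [IsTopologicalGroup G]
    (w : Monoid.Coprod G (Multiplicative ℤ)) :
    Continuous (fun x : G => Monoid.Coprod.lift (MonoidHom.id G) (zpowersHom G x) w) := by
  induction w using Monoid.Coprod.induction_on with
  | inl g =>
    simpa using (continuous_const : Continuous fun _ : G => g)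
  | inr n =>
    simp only [Monoid.Coprod.lift_apply_inr, zpowersHom_apply]
    exact continuous_zpow _
  | mul x y hx hy =>
    simp only [map_mul]
    exact hx.mul hy

/-- The Zariski topology of a compact Hausdorff topological group is compact, since it is coarser
than the given topology. -/
theorem compact_zariski {G : Type} [Group G] [t : TopologicalSpace G] [IsTopologicalGroup G]
    [CompactSpace G] [T2Space G] :
    @IsCompact G
        (TopologicalSpace.generateFrom
          {U : Set G | ∃ w : Monoid.Coprod G (Multiplicative ℤ),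
            U = {x : G | Monoid.Coprod.lift (MonoidHom.id G) (zpowersHom G x) w ≠ 1}})
        Set.univ := by
  have hle : t ≤ TopologicalSpace.generateFrom
          {U : Set G | ∃ w : Monoid.Coprod G (Multiplicative ℤ),
            U = {x : G | Monoid.Coprod.lift (MonoidHom.id G) (zpowersHom G x) w ≠ 1}} := by
    refine le_generateFrom ?_
    rintro U ⟨w, rfl⟩
    exact (isClosed_singleton.preimage (continuous_eval w)).isOpen_compl
  have h2 := continuous_id_of_le hle
  have h3 := @IsCompact.image G G t (_) Set.univ id isCompact_univ h2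
  rwa [Set.image_id] at h3

/-- The countable power of the symmetric group on three letters is a compact Hausdorff group. -/
theorem compact_zariski_pow :
    @IsCompact (ℕ → Equiv.Perm (Fin 3))
        (TopologicalSpace.generateFrom
          {U : Set (ℕ → Equiv.Perm (Fin 3)) |
            ∃ w : Monoid.Coprod (ℕ → Equiv.Perm (Fin 3)) (Multiplicative ℤ),
            U = {x : ℕ → Equiv.Perm (Fin 3) |
              Monoid.Coprod.lift (MonoidHom.id (ℕ → Equiv.Perm (Fin 3)))
                (zpowersHom (ℕ → Equiv.Perm (Fin 3)) x) w ≠ 1}})
        Set.univ := by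
  let _ : TopologicalSpace (Equiv.Perm (Fin 3)) := ⊥
  have _ : DiscreteTopology (Equiv.Perm (Fin 3)) := ⟨rfl⟩
  exact compact_zariski

/-- The negation of the preceding statement: For every group G, if the Zariski topology (closed subbasis: solution sets of one-variable equations with constants from G) is compact, then it is Noetherian. -/
theorem result :
    ¬ (∀ (G : Type) [Group G],
      @IsCompact G
        (TopologicalSpace.generateFrom
          {U : Set G | ∃ w : Monoid.Coprod G (Multiplicative ℤ),
            U = {x : G | Monoid.Coprod.lift (MonoidHom.id G) (zpowersHom G x) w ≠ 1}})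
        Set.univ →
      @TopologicalSpace.NoetherianSpace G
        (TopologicalSpace.generateFrom
          {U : Set G | ∃ w : Monoid.Coprod G (Multiplicative ℤ),
            U = {x : G | Monoid.Coprod.lift (MonoidHom.id G) (zpowersHom G x) w ≠ 1}})) := by
  intro h
  -- the Zariski topology on the countable power of the symmetric group on three letters
  have hN := h (ℕ → Equiv.Perm (Fin 3)) compact_zariski_pow
  -- two non-commuting elements
  let s : Equiv.Perm (Fin 3) := Equiv.swap 0 1
  let t : Equiv.Perm (Fin 3) := Equiv.swap 1 2
  have hst : s * t ≠ t * s := by decide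
  let g : ℕ → ℕ → Equiv.Perm (Fin 3) := fun n i => if i < n then s else 1
  let U : ℕ → Set (ℕ → Equiv.Perm (Fin 3)) := fun n => {x | x * g n * x⁻¹ * (g n)⁻¹ ≠ 1}
  have hUopen : ∀ n, IsOpen[TopologicalSpace.generateFrom
          {U : Set (ℕ → Equiv.Perm (Fin 3)) |
            ∃ w : Monoid.Coprod (ℕ → Equiv.Perm (Fin 3)) (Multiplicative ℤ),
            U = {x : ℕ → Equiv.Perm (Fin 3) |
              Monoid.Coprod.lift (MonoidHom.id (ℕ → Equiv.Perm (Fin 3)))
                (zpowersHom (ℕ → Equiv.Perm (Fin 3)) x) w ≠ 1}}] (U n) := by
    intro n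
    refine TopologicalSpace.isOpen_generateFrom_of_mem ?_
    refine ⟨Monoid.Coprod.inr (Multiplicative.ofAdd 1) * Monoid.Coprod.inl (g n) *
      Monoid.Coprod.inr (Multiplicative.ofAdd (-1)) * Monoid.Coprod.inl (g n)⁻¹, ?_⟩
    ext x
    simp [U]
  have hUmem : ∀ n (x : ℕ → Equiv.Perm (Fin 3)),
      x ∈ U n ↔ ∃ i, i < n ∧ x i * s ≠ s * x i := by
    intro n x
    constructor
    · intro hx
      by_contra hcon
      push Not at hcon
      apply hx
      funext i
      by_cases hi : i < n
      · have := hcon i hi
        simp only [Pi.mul_apply, Pi.inv_apply, Pi.one_apply, g, hi, if_true]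
        rw [mul_inv_eq_one, mul_inv_eq_iff_eq_mul]
        exact this
      · simp [g, hi]
    · rintro ⟨i, hi, hne⟩ hx
      apply hne
      have := congrFun hx i
      simp only [Pi.mul_apply, Pi.inv_apply, Pi.one_apply, g, hi, if_true] at this
      rw [mul_inv_eq_one, mul_inv_eq_iff_eq_mul] at this
      exact this
  have hmono : Monotone U := by
    intro m n hmn x hx
    rw [hUmem] at hx ⊢
    obtain ⟨i, hi, hne⟩ := hx
    exact ⟨i, lt_of_lt_of_le hi hmn, hne⟩
  have hK := @TopologicalSpace.NoetherianSpace.isCompact _ (_) hN (⋃ n, U n)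
  obtain ⟨N, hNsub⟩ := @IsCompact.elim_directed_cover _ (_) _ ℕ _ hK U hUopen
    (subset_refl _) (hmono.directed_le)
  let x : ℕ → Equiv.Perm (Fin 3) := fun i => if i = N then t else 1
  have hx1 : x ∈ U (N + 1) := by
    rw [hUmem]
    refine ⟨N, Nat.lt_succ_self N, ?_⟩
    simpa [x] using hst.symm
  have hx2 : x ∈ U N := hNsub (Set.mem_iUnion.2 ⟨N + 1, hx1⟩)
  rw [hUmem] at hx2
  obtain ⟨i, hi, hne⟩ := hx2
  apply hne
  have : i ≠ N := ne_of_lt hi
  simp [x, this]

end Pool.Agent.S02286
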