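import Pool.Statements.S02300
import Pool.Agent.Run7.h817.Han.Final
import Pool.Agent.Run7.h921.Han.KD

set_option autoImplicit false
open Pool Pool.MP_92f1cb_al

namespace Pool.Agent.S02300

open Run7.h258.Han Run7.h921.Han Run7.h921.Han.F1 in
theorem hkd (k : Type) [Field k] [CharZero k] [DecidableEq k] : HKD k := by
  intro p
  obtain ⟨F⟩ := F1_point (k := k) p
  exact ⟨F.l1, F.l2, F.l1_p, F.l2_p, F.indep, Run7.h921.Han.KD.exists_kdat (vec_ne_zero p) F⟩

/-- The negation of the preceding statement: For a finite-dimensional algebra A over a field: if the Hochschild complex of A (its differential given by the standard formula on pure tensors) has vanishing homology in all large degrees, then some d bounds the projective dimension of every A-module. -/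
theorem result :
    ¬ (∀ (k : Type) [Field k] (A : Type) [Ring A] [Algebra k A] [FiniteDimensional k A],
      ∀ b : (n : ℕ) →
          (PiTensorProduct k (fun _ : Fin (n + 1 + 1) => A)) →ₗ[k]
            (PiTensorProduct k (fun _ : Fin (n + 1) => A)),
        (∀ (n : ℕ) (a : Fin (n + 1 + 1) → A),
            b n (PiTensorProduct.tprod k a) =
              (∑ i : Fin (n + 1),
                  (-1 : k) ^ (i : ℕ) •
                    PiTensorProduct.tprod k
                      (Fin.contractNth i.castSucc (fun x y : A => x * y) a)) +
                (-1 : k) ^ (n + 1) •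
                  PiTensorProduct.tprod k
                    ((Fin.cons (a (Fin.last (n + 1)) * a 0)
                        (fun j : Fin n => a j.succ.castSucc) : Fin (n + 1) → A))) →
        (∃ N : ℕ, ∀ n : ℕ, N ≤ n → LinearMap.ker (b n) ≤ LinearMap.range (b (n + 1))) →
        ∃ d : ℕ, ∀ M : ModuleCat.{0} A,
          ∃ P : CategoryTheory.ProjectiveResolution M,
            ∀ i : ℕ, d < i → CategoryTheory.Limits.IsZero (P.complex.X i)) := by
  classical
  exact Run7.h817.Han.not_han ℂ (Run7.h258.Han.A ℂ) (Run7.h817.Han.hv_self ℂ (hkd ℂ))
    (Run7.h817.Han.gld_A ℂ (hkd ℂ))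

end Pool.Agent.S02300
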