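import Pool.Statements.S02472
import Pool.Agent.Run7.h54.CP.Fin

set_option autoImplicit false
open Pool Pool.MP_9c3b79_al

namespace Pool.Agent.S02472

/-- The negation of the preceding statement: For positive integers s ≠ t, the group ⟨σ1,σ2,σ3 : σ1^4=σ2^4=σ3^3=(σ1σ2)^2=(σ2σ3)^2=(σ1σ2σ3)^2=(σ1⁻¹σ2)^s(σ1σ2⁻¹)^t=1⟩ is finite iff {s,t} is {1,2}, {1,3}, {1,4} or {2,3}. -/
theorem result :
    ¬ (∀ s t : ℕ, 0 < s → 0 < t → s ≠ t →
      (Finite (PresentedGroup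
        ({FreeGroup.of (0 : Fin 3) ^ 4,
          FreeGroup.of (1 : Fin 3) ^ 4,
          FreeGroup.of (2 : Fin 3) ^ 3,
          (FreeGroup.of (0 : Fin 3) * FreeGroup.of (1 : Fin 3)) ^ 2,
          (FreeGroup.of (1 : Fin 3) * FreeGroup.of (2 : Fin 3)) ^ 2,
          (FreeGroup.of (0 : Fin 3) * FreeGroup.of (1 : Fin 3) * FreeGroup.of (2 : Fin 3)) ^ 2,
          ((FreeGroup.of (0 : Fin 3))⁻¹ * FreeGroup.of (1 : Fin 3)) ^ s *
            (FreeGroup.of (0 : Fin 3) * (FreeGroup.of (1 : Fin 3))⁻¹) ^ t}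
          : Set (FreeGroup (Fin 3)))) ↔
        ((s = 1 ∧ t = 2) ∨ (s = 2 ∧ t = 1) ∨
         (s = 1 ∧ t = 3) ∨ (s = 3 ∧ t = 1) ∨
         (s = 1 ∧ t = 4) ∨ (s = 4 ∧ t = 1) ∨
         (s = 2 ∧ t = 3) ∨ (s = 3 ∧ t = 2)))) := by
  intro h
  have key : Finite (PresentedGroup
        ({FreeGroup.of (0 : Fin 3) ^ 4,
          FreeGroup.of (1 : Fin 3) ^ 4,
          FreeGroup.of (2 : Fin 3) ^ 3,
          (FreeGroup.of (0 : Fin 3) * FreeGroup.of (1 : Fin 3)) ^ 2,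
          (FreeGroup.of (1 : Fin 3) * FreeGroup.of (2 : Fin 3)) ^ 2,
          (FreeGroup.of (0 : Fin 3) * FreeGroup.of (1 : Fin 3) * FreeGroup.of (2 : Fin 3)) ^ 2,
          ((FreeGroup.of (0 : Fin 3))⁻¹ * FreeGroup.of (1 : Fin 3)) ^ 2 *
            (FreeGroup.of (0 : Fin 3) * (FreeGroup.of (1 : Fin 3))⁻¹) ^ 4}
          : Set (FreeGroup (Fin 3)))) := by
    generalize hR : ({FreeGroup.of (0 : Fin 3) ^ 4,
          FreeGroup.of (1 : Fin 3) ^ 4,
          FreeGroup.of (2 : Fin 3) ^ 3,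
          (FreeGroup.of (0 : Fin 3) * FreeGroup.of (1 : Fin 3)) ^ 2,
          (FreeGroup.of (1 : Fin 3) * FreeGroup.of (2 : Fin 3)) ^ 2,
          (FreeGroup.of (0 : Fin 3) * FreeGroup.of (1 : Fin 3) * FreeGroup.of (2 : Fin 3)) ^ 2,
          ((FreeGroup.of (0 : Fin 3))⁻¹ * FreeGroup.of (1 : Fin 3)) ^ 2 *
            (FreeGroup.of (0 : Fin 3) * (FreeGroup.of (1 : Fin 3))⁻¹) ^ 4}
          : Set (FreeGroup (Fin 3))) = R
    have one : ∀ r ∈ R, PresentedGroup.mk R r = 1 := fun r hr =>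
      PresentedGroup.one_of_mem hr
    have m : ∀ i : Fin 3, PresentedGroup.mk R (FreeGroup.of i) = PresentedGroup.of i :=
      fun _ => rfl
    refine Pool.Agent.Run7.h54.CP.finite_G (PresentedGroup.of (rels := R) (0 : Fin 3))
      (PresentedGroup.of (1 : Fin 3)) (PresentedGroup.of (2 : Fin 3)) ?_ ?_ ?_ ?_ ?_ ?_ ?_ ?_
    · rw [← m, ← map_pow]; exact one _ (by rw [← hR]; simp)
    · rw [← m, ← map_pow]; exact one _ (by rw [← hR]; simp)
    · rw [← m, ← map_pow]; exact one _ (by rw [← hR]; simp)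
    · rw [← m, ← m, ← map_mul, ← map_pow]; exact one _ (by rw [← hR]; simp)
    · rw [← m, ← m, ← map_mul, ← map_pow]; exact one _ (by rw [← hR]; simp)
    · rw [← m, ← m, ← m, ← map_mul, ← map_mul, ← map_pow]; exact one _ (by rw [← hR]; simp)
    · rw [← m, ← m, ← map_inv, ← map_inv, ← map_mul, ← map_mul, ← map_pow, ← map_pow, ← map_mul]
      exact one _ (by rw [← hR]; simp)
    · rw [← PresentedGroup.closure_range_of R]
      congr 1
      ext g
      simp only [Set.mem_insert_iff, Set.mem_singleton_iff, Set.mem_range]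
      constructor
      · rintro (rfl | rfl | rfl)
        · exact ⟨0, rfl⟩
        · exact ⟨1, rfl⟩
        · exact ⟨2, rfl⟩
      · rintro ⟨i, rfl⟩
        fin_cases i <;> simp
  have := (h 2 4 (by norm_num) (by norm_num) (by norm_num)).mp key
  omega

end Pool.Agent.S02472
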