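import Pool.Statements.S02876
import Pool.Agent.Run7.h643.Disk

set_option autoImplicit false
open Pool Pool.MP_bac701_al

namespace Pool.Agent.S02876

/-- The negation of the preceding statement: Let A and B be nonempty finite sets of homeomorphisms of the closed unit disk in ℝ² that fix the boundary circle pointwise. Then some product a₀∘b₀ (a₀ in A, b₀ in B) is obtained as a∘b with a in A, b in B only when a = a₀ and b = b₀. -/
theorem result :
    ¬ (∀ A B : Finset (↥(Metric.closedBall (0 : EuclideanSpace ℝ (Fin 2)) 1) ≃ₜ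
        ↥(Metric.closedBall (0 : EuclideanSpace ℝ (Fin 2)) 1)),
      A.Nonempty → B.Nonempty →
      (∀ f ∈ A, ∀ x : ↥(Metric.closedBall (0 : EuclideanSpace ℝ (Fin 2)) 1),
          ‖(x : EuclideanSpace ℝ (Fin 2))‖ = 1 → f x = x) →
      (∀ f ∈ B, ∀ x : ↥(Metric.closedBall (0 : EuclideanSpace ℝ (Fin 2)) 1),
          ‖(x : EuclideanSpace ℝ (Fin 2))‖ = 1 → f x = x) →
      ∃ a₀ ∈ A, ∃ b₀ ∈ B, ∀ a ∈ A, ∀ b ∈ B,
        b.trans a = b₀.trans a₀ → a = a₀ ∧ b = b₀) := by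
  classical
  intro H
  obtain ⟨A, B, hA, hB, hno⟩ := Run7.h643.plane_no_unique
  have hbd : ∀ S : Finset Run7.h643.Gam, ∀ f ∈ S.image Run7.h643.emb,
      ∀ x : ↥(Metric.closedBall (0 : EuclideanSpace ℝ (Fin 2)) 1),
        ‖(x : EuclideanSpace ℝ (Fin 2))‖ = 1 → f x = x := by
    intro S f hf x hx
    obtain ⟨g, -, rfl⟩ := Finset.mem_image.1 hf
    exact Run7.h643.emb_bdry g x hx
  obtain ⟨a₀, ha₀, b₀, hb₀, huniq⟩ := H (A.image Run7.h643.emb) (B.image Run7.h643.emb)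
    (hA.image _) (hB.image _) (hbd A) (hbd B)
  obtain ⟨α, hα, rfl⟩ := Finset.mem_image.1 ha₀
  obtain ⟨β, hβ, rfl⟩ := Finset.mem_image.1 hb₀
  refine hno α hα β hβ ?_
  intro a b ha hb e
  have h := huniq (Run7.h643.emb a) (Finset.mem_image_of_mem _ ha) (Run7.h643.emb b)
    (Finset.mem_image_of_mem _ hb) (by
      rw [← Run7.h643.emb_mul, ← Run7.h643.emb_mul, e])
  exact ⟨Run7.h643.emb_inj h.1, Run7.h643.emb_inj h.2⟩

end Pool.Agent.S02876
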