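import Pool.Statements.S02968
import Pool.Agent.Run7.h578.Doubling

/-!
The closed unit interval has no detecting group: odd extension turns every faithful `C^1` action
on the interval into a faithful `C^1` action on its double, the circle, and the circle is not
homeomorphic to the interval.
-/

set_option autoImplicit false
open Pool Pool.MP_c1d873_al

namespace Pool.Agent.S02968

/-- The negation of the preceding statement: For every regularity k≥1 (or ∞) and every compact connected smooth n-manifold M (n≥1, boundary allowed) there is a finitely generated group acting faithfully by C^k diffeomorphisms on a compact connected n-manifold N iff N is C^k-diffeomorphic to M. -/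
theorem result :
    ¬ (∀ (k : ℕ∞), 1 ≤ k →
  ∀ (n : ℕ) [NeZero n] (M : Type) [TopologicalSpace M] [T2Space M] [CompactSpace M]
    [ConnectedSpace M] [ChartedSpace (EuclideanHalfSpace n) M]
    [IsManifold (modelWithCornersEuclideanHalfSpace n) ((⊤ : ℕ∞) : WithTop ℕ∞) M],
  ∃ (G : Type) (_ : Group G), Group.FG G ∧
    ∀ (N : Type) [TopologicalSpace N] [T2Space N] [CompactSpace N] [ConnectedSpace N]
      [ChartedSpace (EuclideanHalfSpace n) N]
      [IsManifold (modelWithCornersEuclideanHalfSpace n) ((⊤ : ℕ∞) : WithTop ℕ∞) N],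
      ((∃ ρ : G →* Equiv.Perm N, Function.Injective ρ ∧
          ∀ g : G, ContMDiff (modelWithCornersEuclideanHalfSpace n)
            (modelWithCornersEuclideanHalfSpace n) (k : WithTop ℕ∞) (ρ g)) ↔
        Nonempty (Diffeomorph (modelWithCornersEuclideanHalfSpace n)
          (modelWithCornersEuclideanHalfSpace n) M N (k : WithTop ℕ∞)))) := by
  intro h
  have : ConnectedSpace Run7.h578.Det.J :=
    isConnected_iff_connectedSpace.1 (isConnected_Icc (zero_le_one' ℝ))
  obtain ⟨G, _, -, hG⟩ := h 1 le_rfl 1 Run7.h578.Det.J
  obtain ⟨ρ, hi, hd⟩ := (hG Run7.h578.Det.J).2 ⟨Diffeomorph.refl _ _ _⟩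
  have hd' : ∀ g : G, ContMDiff (modelWithCornersEuclideanHalfSpace 1)
      (modelWithCornersEuclideanHalfSpace 1) 1 (ρ g) := fun g => by
    simpa using hd g
  obtain ⟨ρ', hi', hd''⟩ := Run7.h578.Det.double_action ρ hi hd'
  obtain ⟨e⟩ := (hG Run7.h578.Det.C).1 ⟨ρ', hi', fun g => by simpa using hd'' g⟩
  exact Run7.h578.Det.not_homeo e.toHomeomorph

end Pool.Agent.S02968
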