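import Pool.Statements.S03052
import Pool.Agent.Run7.h40.Heis3Env
import Pool.Agent.Run7.h40.S4

set_option autoImplicit false
open Pool Pool.MP_cacfbf_al

namespace Pool.Agent.S03052

open Pool.Agent.Run7.h40 Pool.Agent.Run7.h40.Heis3 in
/-- The subalgebra `R ≅ M_2(F_3)` of the restricted enveloping algebra of the Heisenberg 3-algebra. -/
noncomputable def Rsub : NonUnitalSubalgebra (ZMod 3) A := NonUnitalAlgHom.range (φ rels)

open Pool.Agent.Run7.h40 Pool.Agent.Run7.h40.Heis3 in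
theorem mem_Rsub {a : A} : a ∈ Rsub ↔ ∃ M : Matrix (Fin 2) (Fin 2) (ZMod 3), φ rels M = a := Iff.rfl

open Pool.Agent.Run7.h40 Pool.Agent.Run7.h40.Heis3 in
theorem s4_vanish (r : Fin 4 → A) (hr : ∀ i, r i ∈ Rsub) :
    ∑ σ : Equiv.Perm (Fin 4), ((Equiv.Perm.sign σ : ℤˣ) : ℤ) •
      (List.ofFn fun i => r (σ i)).prod = 0 := by
  choose M hM using hr
  have h := S4.s4_zero (R := ZMod 3) M
  rw [S4.s4_expand] at h
  have h2 := congrArg (φ rels) h
  rw [S4.s4_expand]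
  simp only [map_add, map_sub, map_mul, map_zero] at h2
  have hM' : ∀ i, φ rels (M i) = r i := hM
  simp only [hM'] at h2
  exact h2

/-- Hall's identity as an element of the free algebra. -/
noncomputable def hall : FreeAlgebra (ZMod 3) (Fin 3) :=
  (FreeAlgebra.ι _ 0 * FreeAlgebra.ι _ 1 - FreeAlgebra.ι _ 1 * FreeAlgebra.ι _ 0)
    * (FreeAlgebra.ι _ 0 * FreeAlgebra.ι _ 1 - FreeAlgebra.ι _ 1 * FreeAlgebra.ι _ 0)
    * FreeAlgebra.ι _ 2
  - FreeAlgebra.ι _ 2
    * ((FreeAlgebra.ι _ 0 * FreeAlgebra.ι _ 1 - FreeAlgebra.ι _ 1 * FreeAlgebra.ι _ 0)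
    * (FreeAlgebra.ι _ 0 * FreeAlgebra.ι _ 1 - FreeAlgebra.ι _ 1 * FreeAlgebra.ι _ 0))

theorem lift_hall {B : Type*} [Ring B] [Algebra (ZMod 3) B] (r : Fin 3 → B) :
    FreeAlgebra.lift (ZMod 3) r hall =
      (r 0 * r 1 - r 1 * r 0) * (r 0 * r 1 - r 1 * r 0) * r 2
      - r 2 * ((r 0 * r 1 - r 1 * r 0) * (r 0 * r 1 - r 1 * r 0)) := by
  simp only [hall, map_sub, map_mul, FreeAlgebra.lift_ι_apply]

theorem hall_ne : hall ≠ 0 := by
  intro h
  have h2 := congrArg (FreeAlgebra.lift (ZMod 3)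
    (![Matrix.single 0 1 1, Matrix.single 1 0 1, Matrix.single 1 2 1] :
      Fin 3 → Matrix (Fin 3) (Fin 3) (ZMod 3))) h
  rw [lift_hall, map_zero] at h2
  have h3 := congrFun (congrFun h2 1) 2
  revert h3
  decide

theorem hall_matrix (M : Fin 3 → Matrix (Fin 2) (Fin 2) (ZMod 3)) :
      (M 0 * M 1 - M 1 * M 0) * (M 0 * M 1 - M 1 * M 0) * M 2
      - M 2 * ((M 0 * M 1 - M 1 * M 0) * (M 0 * M 1 - M 1 * M 0)) = 0 := by
  ext i j
  fin_cases i <;> fin_cases j <;>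
    simp [Matrix.mul_apply, Fin.sum_univ_two] <;> ring

open Pool.Agent.Run7.h40 Pool.Agent.Run7.h40.Heis3 in
theorem hall_vanish (r : Fin 3 → A) (hr : ∀ i, r i ∈ Rsub) :
    FreeAlgebra.lift (ZMod 3) r hall = 0 := by
  choose M hM using hr
  have h := hall_matrix M
  have h2 := congrArg (φ rels) h
  rw [lift_hall]
  simp only [map_sub, map_mul, map_zero] at h2
  have hM' : ∀ i, φ rels (M i) = r i := hM
  simp only [hM'] at h2
  exact h2

open Pool.Agent.Run7.h40 Pool.Agent.Run7.h40.Heis3 in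
theorem s2_expand (r : Fin 2 → A) :
    ∑ σ : Equiv.Perm (Fin 2), ((Equiv.Perm.sign σ : ℤˣ) : ℤ) •
      (List.ofFn fun i => r (σ i)).prod = r 0 * r 1 - r 1 * r 0 := by
  simp only [S4.sum_perm_succ, Fin.sum_univ_succ, Fin.sum_univ_zero]
  simp [Equiv.Perm.decomposeFin.symm_sign, List.ofFn_succ]
  abel

open Pool.Agent.Run7.h40 Pool.Agent.Run7.h40.Heis3 in
theorem s2_nonvanish (t : ℕ) :
    ∃ r : Fin 2 → A, (∀ i, r i ∈ Rsub) ∧
      (∑ σ : Equiv.Perm (Fin 2), ((Equiv.Perm.sign σ : ℤˣ) : ℤ) •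
        (List.ofFn fun i => r (σ i)).prod) ^ t ≠ 0 := by
  refine ⟨![aa X Y Z * X, Y * aa X Y Z], ?_, ?_⟩
  · intro i
    fin_cases i
    · refine mem_Rsub.mpr ⟨!![0, 1; 0, 0], ?_⟩
      show φfun X Y Z _ = _
      simp [φfun]
    · refine mem_Rsub.mpr ⟨!![0, 0; 1, 0], ?_⟩
      show φfun X Y Z _ = _
      simp [φfun]
  · rw [s2_expand]
    exact comm_pow rels t aa_ne

/-- The negation of the preceding statement: For every prime p, field F of char p, Lie p-algebra L and PI non-unital subalgebra R of u(L): if n is the least positive integer such that some power of the standard polynomial S_2n vanishes on R, then n is a power of p. -/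
theorem result :
    ¬ (∀ (p : ℕ), p.Prime → ∀ (F : Type) [Field F] [CharP F p] (L : Type) [LieRing L] [LieAlgebra F L]
    (f : L → L),
    (∀ (a : F) (x : L), f (a • x) = a ^ p • f x) →
    (∀ x y : L, (LieAlgebra.ad F L x ^ p) y = ⁅f x, y⁆) →
    (∀ x y : L,
      UniversalEnvelopingAlgebra.ι F (f (x + y)) - UniversalEnvelopingAlgebra.ι F (f x)
        - UniversalEnvelopingAlgebra.ι F (f y)
      = (UniversalEnvelopingAlgebra.ι F x + UniversalEnvelopingAlgebra.ι F y) ^ p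
        - UniversalEnvelopingAlgebra.ι F x ^ p - UniversalEnvelopingAlgebra.ι F y ^ p) →
    ∀ R : NonUnitalSubalgebra F (RingQuot (fun a b : UniversalEnvelopingAlgebra F L =>
        ∃ x : L, a = UniversalEnvelopingAlgebra.ι F x ^ p ∧ b = UniversalEnvelopingAlgebra.ι F (f x))),
    (∃ m : ℕ, ∃ φ : FreeAlgebra F (Fin m), φ ≠ 0 ∧
      ∀ r : Fin m → RingQuot (fun a b : UniversalEnvelopingAlgebra F L =>
        ∃ x : L, a = UniversalEnvelopingAlgebra.ι F x ^ p ∧ b = UniversalEnvelopingAlgebra.ι F (f x)),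
        (∀ i, r i ∈ R) → FreeAlgebra.lift F r φ = 0) →
    ∀ n : ℕ, 1 ≤ n →
      (∃ t : ℕ, 1 ≤ t ∧
        ∀ r : Fin (2 * n) → RingQuot (fun a b : UniversalEnvelopingAlgebra F L =>
          ∃ x : L, a = UniversalEnvelopingAlgebra.ι F x ^ p ∧ b = UniversalEnvelopingAlgebra.ι F (f x)),
          (∀ i, r i ∈ R) →
          (∑ σ : Equiv.Perm (Fin (2 * n)),
            ((Equiv.Perm.sign σ : ℤˣ) : ℤ) • (List.ofFn fun i => r (σ i)).prod) ^ t = 0) →
      (∀ m : ℕ, 1 ≤ m → m < n →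
        ¬ ∃ t : ℕ, 1 ≤ t ∧
          ∀ r : Fin (2 * m) → RingQuot (fun a b : UniversalEnvelopingAlgebra F L =>
            ∃ x : L, a = UniversalEnvelopingAlgebra.ι F x ^ p ∧ b = UniversalEnvelopingAlgebra.ι F (f x)),
            (∀ i, r i ∈ R) →
            (∑ σ : Equiv.Perm (Fin (2 * m)),
              ((Equiv.Perm.sign σ : ℤˣ) : ℤ) • (List.ofFn fun i => r (σ i)).prod) ^ t = 0) →
      ∃ k : ℕ, n = p ^ k) := by
  intro H0
  have h3 : Nat.Prime 3 := Nat.prime_three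
  have key := H0 3 h3 (ZMod 3) Pool.Agent.Run7.h40.Heis3.H Pool.Agent.Run7.h40.Heis3.f
    Pool.Agent.Run7.h40.Heis3.f_smul Pool.Agent.Run7.h40.Heis3.ad_cube
    Pool.Agent.Run7.h40.Heis3.jacobson Rsub ⟨3, hall, hall_ne, hall_vanish⟩ 2 (by norm_num)
    ⟨1, le_refl 1, fun r hr => by
      rw [pow_one]
      exact s4_vanish r hr⟩
    (by
      intro m hm1 hm2
      have hm : m = 1 := by omega
      subst hm
      rintro ⟨t, _, ht⟩
      obtain ⟨r, hr, hne⟩ := s2_nonvanish t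
      exact hne (ht r hr))
  obtain ⟨k, hk⟩ := key
  rcases k with _ | k
  · simp at hk
  · have h1 : 1 ≤ 3 ^ k := Nat.one_le_pow _ _ (by norm_num)
    rw [pow_succ] at hk
    omega

end Pool.Agent.S03052
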