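import Pool.Statements.S03577
import Pool.Agent.Run7.h11.N.Final

set_option autoImplicit false
open Pool Pool.MP_f6e9c2_al

namespace Pool.Agent.S03577

/-- There exist a field K, a finite set S of Lie identities over K, and n such that the Lie variety defined by all n-variable identities of the variety defined by S cannot be defined by any finite set of identities. -/
theorem result :
    ∃ (K : Type) (_ : Field K) (S : Finset (FreeLieAlgebra K ℕ)) (n : ℕ),
      ¬ ∃ T : Finset (FreeLieAlgebra K ℕ),
        ∀ (L : Type) [LieRing L] [LieAlgebra K L],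
          (∀ g ∈ T, ∀ φ : ℕ → L, FreeLieAlgebra.lift K φ g = 0) ↔
          (∀ g ∈ Set.range
              (⇑(FreeLieAlgebra.lift K (fun i : Fin n => FreeLieAlgebra.of K (i : ℕ)))),
            (∀ (M : Type) [LieRing M] [LieAlgebra K M],
              (∀ h ∈ S, ∀ ψ : ℕ → M, FreeLieAlgebra.lift K ψ h = 0) →
                ∀ ψ : ℕ → M, FreeLieAlgebra.lift K ψ g = 0) →
            ∀ φ : ℕ → L, FreeLieAlgebra.lift K φ g = 0) := by
  refine ⟨ZMod 3, inferInstance, {Run7.h11.N.eid}, 2, ?_⟩
  rintro ⟨T, hT⟩
  refine Run7.h11.N.main T (fun L _ _ => ?_)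
  rw [hT L]
  constructor
  · intro h g hg hV
    exact h g hg (fun M _ _ hM => hV M (fun ψ => hM _ (Finset.mem_singleton_self _) ψ))
  · intro h g hg hV
    exact h g hg (fun M _ _ hM => hV M (fun e he ψ => by
      rw [Finset.mem_singleton.1 he]
      exact hM ψ))

end Pool.Agent.S03577
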