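import Pool.Statements.S04112
import Pool.Agent.Run7.h276.Mmd

set_option autoImplicit false
open scoped ENNReal
open Pool Pool.MP_280436_an

namespace Pool.Agent.S04112

/-- The negation of the preceding statement: For every compact metrizable space with a homeomorphism T, some metric compatible with the topology makes the mean dimension of (X,T) equal to the upper metric mean dimension of (X,T) with respect to that metric. -/
theorem result :
    ¬ (∀ (X : Type) [TopologicalSpace X] [CompactSpace X] [TopologicalSpace.MetrizableSpace X]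
    (T : X ≃ₜ X),
  ∃ d : X → X → ℝ,
    (∀ x y, d x y = 0 ↔ x = y) ∧ (∀ x y, d x y = d y x) ∧
    (∀ x y z, d x z ≤ d x y + d y z) ∧
    (∀ U : Set X, IsOpen U ↔ ∀ x ∈ U, ∃ r > 0, ∀ y, d x y < r → y ∈ U) ∧
    (⨆ (α : Finset (Set X)) (_ : (∀ U ∈ α, IsOpen U) ∧ ⋃₀ (α : Set (Set X)) = Set.univ),
      Filter.limsup (fun n : ℕ =>
        (((sInf {k : ℕ | ∃ β : Finset (Set X), (∀ V ∈ β, IsOpen V) ∧
            ⋃₀ (β : Set (Set X)) = Set.univ ∧
            (∀ V ∈ β, ∀ i < n, ∃ U ∈ α, V ⊆ (⇑T)^[i] ⁻¹' U) ∧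
            ∀ x : X, Set.ncard {V | V ∈ β ∧ x ∈ V} ≤ k + 1} : ℕ) : ℝ≥0∞) / (n : ℝ≥0∞)))
        Filter.atTop)
    = Filter.limsup (fun ε : ℝ =>
        Filter.limsup (fun n : ℕ =>
          ENNReal.ofReal (Real.log ((sInf {k : ℕ | ∃ F : Finset (Set X), F.card = k ∧
            ⋃₀ (F : Set (Set X)) = Set.univ ∧
            ∀ A ∈ F, ∀ x ∈ A, ∀ y ∈ A, ∀ i < n,
              d ((⇑T)^[i] x) ((⇑T)^[i] y) < ε} : ℕ) : ℝ) / (n : ℝ))) Filter.atTop
        / ENNReal.ofReal (Real.log (1 / ε)))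
      (nhdsWithin 0 (Set.Ioi 0))) := by
  intro H
  obtain ⟨d, h1, h2, h3, h4, h5⟩ := H Run7.h276.Sys.X Run7.h276.Metric.S
  have hc : Run7.h276.Metric.Compat d := ⟨h1, h2, h3, h4⟩
  obtain ⟨c₀, hc₀, hlow⟩ := Run7.h276.Mmd.rate_lower hc
  have hL : (⨆ (α : Finset (Set Run7.h276.Sys.X)) (_ : (∀ U ∈ α, IsOpen U) ∧
      ⋃₀ (α : Set (Set Run7.h276.Sys.X)) = Set.univ),
      Filter.limsup (fun n : ℕ =>
        (((sInf {k : ℕ | ∃ β : Finset (Set Run7.h276.Sys.X), (∀ V ∈ β, IsOpen V) ∧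
            ⋃₀ (β : Set (Set Run7.h276.Sys.X)) = Set.univ ∧
            (∀ V ∈ β, ∀ i < n, ∃ U ∈ α, V ⊆ (⇑Run7.h276.Metric.S)^[i] ⁻¹' U) ∧
            ∀ x : Run7.h276.Sys.X, Set.ncard {V | V ∈ β ∧ x ∈ V} ≤ k + 1} : ℕ) : ℝ≥0∞) /
              (n : ℝ≥0∞)))
        Filter.atTop) = 0 := by
    simp only [ENNReal.iSup_eq_zero]
    intro α hα
    exact Run7.h276.Mmd.cover_order hα.1 hα.2
  rw [hL] at h5
  have hpos : ENNReal.ofReal c₀ ≤ 0 := by
    rw [h5]
    refine Filter.le_limsup_of_frequently_le (Filter.Eventually.frequently ?_)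
      (by isBoundedDefault)
    filter_upwards [hlow] with ε hε
    refine hε.trans (ENNReal.div_le_div_right ?_ _)
    exact Filter.liminf_le_limsup
  have := ENNReal.ofReal_pos.2 hc₀
  exact absurd hpos (not_le.2 this)

end Pool.Agent.S04112
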