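import Pool.Statements.S04135
import Pool.Agent.Run7.h212.RadVar

set_option autoImplicit false
open MeasureTheory
open Pool Pool.MP_28e115_an

namespace Pool.Agent.S04135

/-- For every n ≥ 2 there is a bounded holomorphic function on the unit ball of ℂⁿ whose restriction to almost every radius r ↦ f(rζ), 0 ≤ r < 1, has infinite total variation, i.e. a nonrectifiable image. -/
theorem result :
    ∀ n : ℕ, 2 ≤ n →
      ∃ f : (Fin n → ℂ) → ℂ,
        DifferentiableOn ℂ f {z : Fin n → ℂ | ∑ i, ‖z i‖ ^ 2 < 1} ∧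
        (∃ M : ℝ, ∀ z ∈ {z : Fin n → ℂ | ∑ i, ‖z i‖ ^ 2 < 1}, ‖f z‖ ≤ M) ∧
        ∀ᵐ x ∂(volume : Measure (Fin n → ℂ)),
          eVariationOn
            (fun r : ℝ => f ((((r / Real.sqrt (∑ i, ‖x i‖ ^ 2) : ℝ)) : ℂ) • x))
            (Set.Ico (0 : ℝ) 1) = ⊤ := by
  classical
  intro n hn
  have hpos : 0 < n := by omega
  haveI : Nonempty (Fin n) := ⟨⟨0, hpos⟩⟩
  -- the linear identification
  set T : (Fin n → ℂ) ≃L[ℂ] EuclideanSpace ℂ (Fin n) :=
    (EuclideanSpace.equiv (Fin n) ℂ).symm with hT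
  have hTn : ∀ x : Fin n → ℂ, ‖T x‖ = Real.sqrt (∑ i, ‖x i‖ ^ 2) := by
    intro x
    rw [EuclideanSpace.norm_eq]
    rfl
  obtain ⟨e, he⟩ : ∃ e : EuclideanSpace ℂ (Fin n), ‖e‖ = 1 :=
    ⟨EuclideanSpace.single ⟨0, hpos⟩ 1, by simp⟩
  set g : (Fin n → ℂ) → EuclideanSpace ℂ (Fin n) :=
    fun x => if x = 0 then e else (((‖T x‖⁻¹ : ℝ)) : ℂ) • T x with hg
  have hg1 : ∀ x, ‖g x‖ = 1 := by
    intro x
    by_cases hx : x = 0
    · simp [hg, hx, he]
    · have h0 : T x ≠ 0 := by simpa using hx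
      have h1 : ‖T x‖ ≠ 0 := by simpa using hx
      simp only [hg, if_neg hx, norm_smul, Complex.norm_real, norm_inv, norm_norm]
      exact inv_mul_cancel₀ h1
  have hgm : Measurable g := by
    apply Measurable.ite (measurableSet_eq_fun measurable_id measurable_const) measurable_const
    have hTm : Measurable T := T.continuous.measurable
    exact (Complex.measurable_ofReal.comp hTm.norm.inv).smul hTm
  have hmem : ∀ x, g x ∈ Metric.sphere (0 : EuclideanSpace ℂ (Fin n)) 1 := fun x => by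
    rw [mem_sphere_zero_iff_norm]; exact hg1 x
  set π : (Fin n → ℂ) → Metric.sphere (0 : EuclideanSpace ℂ (Fin n)) 1 :=
    fun x => ⟨g x, hmem x⟩ with hπ
  have hπm : Measurable π := hgm.subtype_mk
  set ν : Measure (Fin n → ℂ) := (volume : Measure (Fin n → ℂ)).toFinite with hν
  obtain ⟨F, hFd, hFb, hF⟩ := Run7.h212.RadVar.main_var (n := n) (by omega) (ν.map π)
  have hball : ∀ z : Fin n → ℂ, ∑ i, ‖z i‖ ^ 2 < 1 →
      T z ∈ Metric.ball (0 : EuclideanSpace ℂ (Fin n)) 1 := by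
    intro z hz
    rw [mem_ball_zero_iff, hTn, Real.sqrt_lt' one_pos]
    simpa using hz
  refine ⟨fun x => F (T x), ?_, ⟨1, fun z hz => hFb _ (hball z hz)⟩, ?_⟩
  · exact hFd.comp T.differentiable.differentiableOn (fun z hz => hball z hz)
  · have h1 : ∀ᵐ x ∂ν, eVariationOn (fun t : ℝ => F ((t : ℂ) • (π x).1)) (Set.Ico (0 : ℝ) 1) = ⊤ :=
      ae_of_ae_map hπm.aemeasurable hF
    have h2 : ∀ᵐ x ∂(volume : Measure (Fin n → ℂ)),
        eVariationOn (fun t : ℝ => F ((t : ℂ) • (π x).1)) (Set.Ico (0 : ℝ) 1) = ⊤ :=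
      (absolutelyContinuous_toFinite (volume : Measure (Fin n → ℂ))).ae_le h1
    have h3 : ∀ᵐ x ∂(volume : Measure (Fin n → ℂ)), x ≠ 0 := by
      rw [ae_iff]
      simp only [ne_eq, not_not, Set.setOf_eq_eq_singleton]
      exact measure_singleton _
    filter_upwards [h2, h3] with x hx hx0
    rw [← hx]
    congr 1
    funext r
    congr 1
    simp only [hπ, hg, if_neg hx0]
    rw [map_smul, ← hTn x, smul_smul]
    congr 1
    push_cast
    rw [div_eq_mul_inv]

end Pool.Agent.S04135
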