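import Pool.Statements.S04349
import Pool.Agent.Run7.h682.HR.Glob

set_option autoImplicit false
open Pool Pool.MP_37b94e_an

namespace Pool.Agent.S04349

/-- For n ≥ 2 and each k there is c such that any real-analytic p on ℂⁿ whose restriction to every affine complex hyperplane is a sum of k terms ±∣holomorphic∣² is itself a sum of c terms ±∣entire holomorphic∣². -/
theorem result :
    ∀ n : ℕ, 2 ≤ n → ∀ k : ℕ, ∃ c : ℕ, ∀ p : (Fin n → ℂ) → ℝ,
      AnalyticOnNhd ℝ p Set.univ →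
      (∀ (a : Fin n → ℂ) (L : (Fin (n - 1) → ℂ) →ₗ[ℂ] (Fin n → ℂ)),
        Function.Injective L →
        ∃ (ε : Fin k → ℝ) (g : Fin k → (Fin (n - 1) → ℂ) → ℂ),
          (∀ j, ε j = 1 ∨ ε j = -1) ∧ (∀ j, Differentiable ℂ (g j)) ∧
          ∀ x, p (a + L x) = ∑ j, ε j * Complex.normSq (g j x)) →
      ∃ (ε : Fin c → ℝ) (f : Fin c → (Fin n → ℂ) → ℂ),
        (∀ j, ε j = 1 ∨ ε j = -1) ∧ (∀ j, Differentiable ℂ (f j)) ∧
        ∀ z, p z = ∑ j, ε j * Complex.normSq (f j z) := by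
  intro n hn k
  exact ⟨Run7.h682.HR.NN (Run7.h682.HR.NN k), fun p hp hyp => Run7.h682.HR.main hn p hp hyp⟩

end Pool.Agent.S04349
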