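import Pool.Statements.S04415
-- import your own Pool.Agent.* helpers here
import Pool.Agent.Run7.h480.AMSide
import Pool.Agent.Run7.h480.ANSide2

set_option autoImplicit false
open scoped TensorProduct
open Pool Pool.MP_3d22c5_an

namespace Pool.Agent.S04415

/-- If the rational 2-step nilpotent Lie algebra of a finite graph has an automorphism with integral char poly, constant term ±1 and no eigenvalue of modulus 1, then so does every rational Lie algebra whose real form is isomorphic to its real form. -/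
theorem result :
    ∀ (n : ℕ) (G : SimpleGraph (Fin n)) (N : Type) [LieRing N] [LieAlgebra ℚ N]
      [FiniteDimensional ℚ N] (b : Module.Basis (Fin n ⊕ G.edgeSet) ℚ N),
      (∀ (i j : Fin n) (h : G.Adj i j), i < j →
          ⁅b (Sum.inl i), b (Sum.inl j)⁆ = b (Sum.inr ⟨s(i, j), G.mem_edgeSet.mpr h⟩)) →
      (∀ i j : Fin n, ¬ G.Adj i j → ⁅b (Sum.inl i), b (Sum.inl j)⁆ = 0) →
      (∀ (e : G.edgeSet) (k : Fin n ⊕ G.edgeSet), ⁅b (Sum.inr e), b k⁆ = 0) →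
      (∃ f : N ≃ₗ⁅ℚ⁆ N, ∃ p : Polynomial ℤ,
          p.map (Int.castRingHom ℚ) = LinearMap.charpoly f.toLinearEquiv.toLinearMap ∧
          (p.coeff 0 = 1 ∨ p.coeff 0 = -1) ∧
          ∀ z : ℂ, (p.map (Int.castRingHom ℂ)).IsRoot z → ‖z‖ ≠ 1) →
      ∀ (M : Type) [LieRing M] [LieAlgebra ℚ M] [FiniteDimensional ℚ M],
        Nonempty ((ℝ ⊗[ℚ] M) ≃ₗ⁅ℝ⁆ (ℝ ⊗[ℚ] N)) →
        ∃ g : M ≃ₗ⁅ℚ⁆ M, ∃ q : Polynomial ℤ,
          q.map (Int.castRingHom ℚ) = LinearMap.charpoly g.toLinearEquiv.toLinearMap ∧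
          (q.coeff 0 = 1 ∨ q.coeff 0 = -1) ∧
          ∀ z : ℂ, (q.map (Int.castRingHom ℂ)).IsRoot z → ‖z‖ ≠ 1 := by
  intro n G N _ _ _ b h1 h2 h3 hf M _ _ _ hiso
  classical
  haveI : Fintype G.edgeSet := Fintype.ofFinite _
  have hb : Run7.h480.Anosov.IsGB G ℚ N b := ⟨h1, h2, h3⟩
  obtain ⟨f, p, hp, hp0, hpz⟩ := hf
  obtain ⟨K1, K2⟩ := Run7.h480.Anosov.nside hb f p hp hp0 hpz
  obtain ⟨Θ⟩ := hiso
  let B : Module.Basis (Fin n ⊕ G.edgeSet) ℝ (ℝ ⊗[ℚ] M) :=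
    (b.baseChange ℝ).map Θ.symm.toLinearEquiv
  have hBv : ∀ k, B k = Θ.symm ((1 : ℝ) ⊗ₜ[ℚ] b k) := by
    intro k
    simp only [B, Module.Basis.map_apply, Module.Basis.baseChange_apply]
    rfl
  have hBB : ∀ k l, ⁅B k, B l⁆ = Θ.symm ((1 : ℝ) ⊗ₜ[ℚ] ⁅b k, b l⁆) := by
    intro k l
    rw [hBv, hBv, ← LieEquiv.map_lie, LieAlgebra.ExtendScalars.bracket_tmul, mul_one]
  have hB : Run7.h480.Anosov.IsGB G ℝ (ℝ ⊗[ℚ] M) B := by
    refine ⟨fun i j h hij => ?_, fun i j h => ?_, fun e k => ?_⟩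
    · rw [hBB, h1 i j h hij, hBv]
    · rw [hBB, h2 i j h, TensorProduct.tmul_zero, map_zero]
    · rw [hBB, h3 e k, TensorProduct.tmul_zero, map_zero]
  exact Run7.h480.Anosov.mside hB K1 K2

end Pool.Agent.S04415
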