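import Pool.Statements.S04624

set_option autoImplicit false
open MeasureTheory
open Pool Pool.MP_4d58d7_an

namespace Pool.Agent.S04624

/-- the two likely sketches (`s = 1` and `s = -1`) -/
noncomputable def good (s : ℝ) : Fin 2 → Fin 2 → ℝ :=
  ![![200 / 199, s / 199], ![s / 199, 200 / 199]]

/-- the two unlikely sketches (`s = 1` and `s = -1`) -/
noncomputable def bad (s : ℝ) : Fin 2 → Fin 2 → ℝ :=
  ![![1 / 199, 0], ![s / 199, 0]]

/-- the law of the sketch: four atoms -/
noncomputable def law : Measure (Fin 2 → Fin 2 → ℝ) :=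
  ENNReal.ofReal (495 / 1000) • Measure.dirac (good 1) +
  ENNReal.ofReal (495 / 1000) • Measure.dirac (good (-1)) +
  (ENNReal.ofReal (5 / 1000) • Measure.dirac (bad 1) +
  ENNReal.ofReal (5 / 1000) • Measure.dirac (bad (-1)))

lemma law_apply (S : Set (Fin 2 → Fin 2 → ℝ)) :
    law S = ENNReal.ofReal (495 / 1000) * S.indicator 1 (good 1) +
      ENNReal.ofReal (495 / 1000) * S.indicator 1 (good (-1)) +
      (ENNReal.ofReal (5 / 1000) * S.indicator 1 (bad 1) +
      ENNReal.ofReal (5 / 1000) * S.indicator 1 (bad (-1))) := by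
  simp [law, Measure.dirac_apply]

instance : IsProbabilityMeasure law := by
  constructor
  rw [law_apply]
  simp only [Set.indicator_univ, Pi.one_apply, mul_one]
  rw [← ENNReal.ofReal_add (by norm_num) (by norm_num),
    ← ENNReal.ofReal_add (by norm_num) (by norm_num),
    ← ENNReal.ofReal_add (by norm_num) (by norm_num)]
  norm_num

lemma integral_law (f : (Fin 2 → Fin 2 → ℝ) → ℝ) :
    ∫ ω, f ω ∂law = 495 / 1000 * f (good 1) + 495 / 1000 * f (good (-1)) +
      (5 / 1000 * f (bad 1) + 5 / 1000 * f (bad (-1))) := by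
  have hi : ∀ (c : ℝ) (a : Fin 2 → Fin 2 → ℝ),
      Integrable f (ENNReal.ofReal c • Measure.dirac a) := by
    intro c a
    apply Integrable.smul_measure _ ENNReal.ofReal_ne_top
    exact integrable_dirac (by simp)
  have hv : ∀ (c : ℝ) (_ : 0 ≤ c) (a : Fin 2 → Fin 2 → ℝ),
      ∫ ω, f ω ∂(ENNReal.ofReal c • Measure.dirac a) = c * f a := by
    intro c hc a
    rw [integral_smul_measure, integral_dirac, ENNReal.toReal_ofReal hc, smul_eq_mul]
  rw [law, integral_add_measure ((hi _ _).add_measure (hi _ _)) ((hi _ _).add_measure (hi _ _)),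
    integral_add_measure (hi _ _) (hi _ _), integral_add_measure (hi _ _) (hi _ _),
    hv _ (by norm_num), hv _ (by norm_num), hv _ (by norm_num), hv _ (by norm_num)]

/-- the sketch-and-solve bound fails at every sketch whose relative error is large -/
lemma fails (w : Fin 2 → Fin 2 → ℝ) (N r K : ℝ) (hN : N = w 0 0 ^ 2 + w 0 1 ^ 2) (hN0 : N ≠ 0)
    (hr : r = (w 0 0 * w 1 0 + w 0 1 * w 1 1) / N) (hK : K ^ 2 < 1 + r ^ 2) (hK0 : 0 ≤ K)
    (h : ∀ G : Matrix (Fin 1) (Fin 2) ℝ,
          (Matrix.transpose (Matrix.of w) * (!![1; 0] : Matrix (Fin 2) (Fin 1) ℝ)) * G *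
            (Matrix.transpose (Matrix.of w) * (!![1; 0] : Matrix (Fin 2) (Fin 1) ℝ))
              = Matrix.transpose (Matrix.of w) * (!![1; 0] : Matrix (Fin 2) (Fin 1) ℝ) →
          G * (Matrix.transpose (Matrix.of w) * (!![1; 0] : Matrix (Fin 2) (Fin 1) ℝ)) * G = G →
          Matrix.transpose ((Matrix.transpose (Matrix.of w) *
            (!![1; 0] : Matrix (Fin 2) (Fin 1) ℝ)) * G)
              = (Matrix.transpose (Matrix.of w) * (!![1; 0] : Matrix (Fin 2) (Fin 1) ℝ)) * G →
          Matrix.transpose (G * (Matrix.transpose (Matrix.of w) *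
            (!![1; 0] : Matrix (Fin 2) (Fin 1) ℝ)))
              = G * (Matrix.transpose (Matrix.of w) * (!![1; 0] : Matrix (Fin 2) (Fin 1) ℝ)) →
          ∀ X : Matrix (Fin 1) (Fin 1) ℝ,
            Real.sqrt (∑ i, ∑ j, (((!![1; 0] : Matrix (Fin 2) (Fin 1) ℝ) *
              (G * Matrix.transpose (Matrix.of w) * (!![0; 1] : Matrix (Fin 2) (Fin 1) ℝ)) -
                (!![0; 1] : Matrix (Fin 2) (Fin 1) ℝ)) i j) ^ 2) ≤
              K * Real.sqrt (∑ i, ∑ j, (((!![1; 0] : Matrix (Fin 2) (Fin 1) ℝ) * X -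
                (!![0; 1] : Matrix (Fin 2) (Fin 1) ℝ)) i j) ^ 2)) : False := by
  have e1 : w 0 0 * (w 0 0 / N) + w 0 1 * (w 0 1 / N) = 1 := by
    field_simp
    rw [hN]
  have h1 := h !![w 0 0 / N, w 0 1 / N] ?_ ?_ ?_ ?_ 0
  · have e2 : (∑ i, ∑ j, (((!![1; 0] : Matrix (Fin 2) (Fin 1) ℝ) *
              ((!![w 0 0 / N, w 0 1 / N] : Matrix (Fin 1) (Fin 2) ℝ) *
                Matrix.transpose (Matrix.of w) * (!![0; 1] : Matrix (Fin 2) (Fin 1) ℝ)) -
                (!![0; 1] : Matrix (Fin 2) (Fin 1) ℝ)) i j) ^ 2) = 1 + r ^ 2 := by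
      simp [Matrix.vecMul, dotProduct, Matrix.mul_apply, Fin.sum_univ_two]
      rw [hr]
      ring
    have e3 : (∑ i, ∑ j, (((!![1; 0] : Matrix (Fin 2) (Fin 1) ℝ) *
        (0 : Matrix (Fin 1) (Fin 1) ℝ) -
                (!![0; 1] : Matrix (Fin 2) (Fin 1) ℝ)) i j) ^ 2) = 1 := by
      simp [Fin.sum_univ_two]
    rw [e2, e3, Real.sqrt_one, mul_one] at h1
    have h2 : Real.sqrt (1 + r ^ 2) ^ 2 ≤ K ^ 2 :=
      pow_le_pow_left₀ (Real.sqrt_nonneg _) h1 2
    rw [Real.sq_sqrt (by positivity)] at h2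
    linarith
  · ext i j
    fin_cases i <;> fin_cases j <;> simp [Matrix.mul_apply, Fin.sum_univ_two]
    · linear_combination (w 0 0) * e1
    · linear_combination (w 0 1) * e1
  · ext i j
    fin_cases i <;> fin_cases j <;>
      simp [Matrix.vecMul, dotProduct, Matrix.mul_apply, Fin.sum_univ_two]
    · linear_combination (w 0 0 / N) * e1
    · linear_combination (w 0 1 / N) * e1
  · ext i j
    fin_cases i <;> fin_cases j <;> simp [Matrix.mul_apply, Fin.sum_univ_two] <;> ring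
  · ext i j
    fin_cases i
    fin_cases j
    rfl

/-- The negation of the preceding statement: There are constants C and c₀>0 such that, for any isotropic n×k random matrix Ω that is a dimension-d OSI with injectivity 1−ε and failure 0.01, sketch-and-solve has error at most (1+Cε)·OPT with probability at least c₀. -/
theorem result :
    ¬ (∃ C : ℝ, ∃ c₀ : ℝ, 0 < c₀ ∧
    ∀ (n d p k : ℕ), 0 < n → 0 < d → 0 < p → 0 < k →
    ∀ ε : ℝ, 0 < ε → ε < 1 →
    ∀ (A : Matrix (Fin n) (Fin d) ℝ), A.rank = d →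
    ∀ (B : Matrix (Fin n) (Fin p) ℝ),
    ∀ (μ : Measure (Fin n → Fin k → ℝ)) [IsProbabilityMeasure μ],
      (∀ x : Fin n → ℝ, ∫ ω, (∑ j, (∑ i, ω i j * x i) ^ 2) ∂μ = ∑ i, x i ^ 2) →
      (∀ V : Submodule ℝ (Fin n → ℝ), Module.finrank ℝ V = d →
         ENNReal.ofReal (99 / 100) ≤
           μ {ω | ∀ x ∈ V, (1 - ε) * ∑ i, x i ^ 2 ≤ ∑ j, (∑ i, ω i j * x i) ^ 2}) →
      ENNReal.ofReal c₀ ≤ μ {ω | ∀ G : Matrix (Fin d) (Fin k) ℝ,
          (Matrix.transpose (Matrix.of ω) * A) * G * (Matrix.transpose (Matrix.of ω) * A)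
              = Matrix.transpose (Matrix.of ω) * A →
          G * (Matrix.transpose (Matrix.of ω) * A) * G = G →
          Matrix.transpose ((Matrix.transpose (Matrix.of ω) * A) * G)
              = (Matrix.transpose (Matrix.of ω) * A) * G →
          Matrix.transpose (G * (Matrix.transpose (Matrix.of ω) * A))
              = G * (Matrix.transpose (Matrix.of ω) * A) →
          ∀ X : Matrix (Fin d) (Fin p) ℝ,
            Real.sqrt (∑ i, ∑ j, ((A * (G * Matrix.transpose (Matrix.of ω) * B) - B) i j) ^ 2) ≤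
              (1 + C * ε) * Real.sqrt (∑ i, ∑ j, ((A * X - B) i j) ^ 2)}) := by
  rintro ⟨C, c₀, hc₀, H⟩
  -- the choice of `ε`
  set ε : ℝ := 1 / (100000 * (|C| + 1)) with hε
  have hC : 0 ≤ |C| := abs_nonneg C
  have hε0 : 0 < ε := by positivity
  have hε1 : ε ≤ 1 / 100000 := by
    rw [hε]
    apply one_div_le_one_div_of_le (by norm_num)
    nlinarith
  have hCε : |C * ε| ≤ 1 / 100000 := by
    rw [abs_mul, abs_of_pos hε0, hε, mul_one_div, div_le_div_iff₀ (by positivity) (by norm_num)]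
    nlinarith
  have hCε' := abs_le.mp hCε
  have key := H 2 1 1 2 (by norm_num) (by norm_num) (by norm_num) (by norm_num) ε hε0
    (by linarith) !![1; 0] ?_ !![0; 1] law ?_ ?_
  · -- the probability of the bound is zero
    have hK0 : 0 ≤ 1 + C * ε := by linarith [hCε'.1]
    have hK : (1 + C * ε) ^ 2 < 1 + 9 / 100000 := by nlinarith [hCε'.1, hCε'.2]
    rw [law_apply] at key
    have hz : ∀ w : Fin 2 → Fin 2 → ℝ, ∀ N r : ℝ, N = w 0 0 ^ 2 + w 0 1 ^ 2 → N ≠ 0 →
        r = (w 0 0 * w 1 0 + w 0 1 * w 1 1) / N → 9 / 100000 ≤ r ^ 2 →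
        w ∉ {ω : Fin 2 → Fin 2 → ℝ | ∀ G : Matrix (Fin 1) (Fin 2) ℝ,
          (Matrix.transpose (Matrix.of ω) * (!![1; 0] : Matrix (Fin 2) (Fin 1) ℝ)) * G *
            (Matrix.transpose (Matrix.of ω) * (!![1; 0] : Matrix (Fin 2) (Fin 1) ℝ))
              = Matrix.transpose (Matrix.of ω) * (!![1; 0] : Matrix (Fin 2) (Fin 1) ℝ) →
          G * (Matrix.transpose (Matrix.of ω) * (!![1; 0] : Matrix (Fin 2) (Fin 1) ℝ)) * G = G →
          Matrix.transpose ((Matrix.transpose (Matrix.of ω) *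
            (!![1; 0] : Matrix (Fin 2) (Fin 1) ℝ)) * G)
              = (Matrix.transpose (Matrix.of ω) * (!![1; 0] : Matrix (Fin 2) (Fin 1) ℝ)) * G →
          Matrix.transpose (G * (Matrix.transpose (Matrix.of ω) *
            (!![1; 0] : Matrix (Fin 2) (Fin 1) ℝ)))
              = G * (Matrix.transpose (Matrix.of ω) * (!![1; 0] : Matrix (Fin 2) (Fin 1) ℝ)) →
          ∀ X : Matrix (Fin 1) (Fin 1) ℝ,
            Real.sqrt (∑ i, ∑ j, (((!![1; 0] : Matrix (Fin 2) (Fin 1) ℝ) *
              (G * Matrix.transpose (Matrix.of ω) * (!![0; 1] : Matrix (Fin 2) (Fin 1) ℝ)) -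
                (!![0; 1] : Matrix (Fin 2) (Fin 1) ℝ)) i j) ^ 2) ≤
              (1 + C * ε) * Real.sqrt (∑ i, ∑ j, (((!![1; 0] : Matrix (Fin 2) (Fin 1) ℝ) * X -
                (!![0; 1] : Matrix (Fin 2) (Fin 1) ℝ)) i j) ^ 2)} := by
      intro w N r hN hN0 hr hr2 hw
      exact fails w N r (1 + C * ε) hN hN0 hr (by linarith) hK0 hw
    rw [Set.indicator_of_notMem
        (hz (good 1) (40001 / 39601) (400 / 40001) (by norm_num [good]) (by norm_num)
          (by norm_num [good]) (by norm_num)),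
      Set.indicator_of_notMem
        (hz (good (-1)) (40001 / 39601) (-400 / 40001) (by norm_num [good]) (by norm_num)
          (by norm_num [good]) (by norm_num)),
      Set.indicator_of_notMem
        (hz (bad 1) (1 / 39601) 1 (by norm_num [bad]) (by norm_num)
          (by norm_num [bad]) (by norm_num)),
      Set.indicator_of_notMem
        (hz (bad (-1)) (1 / 39601) (-1) (by norm_num [bad]) (by norm_num)
          (by norm_num [bad]) (by norm_num))] at key
    simp at key
    linarith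
  · -- the rank of `A`
    apply le_antisymm
    · simpa using Matrix.rank_le_card_width (!![1; 0] : Matrix (Fin 2) (Fin 1) ℝ)
    · have h1 := Matrix.rank_mul_le_right (!![1, 0] : Matrix (Fin 1) (Fin 2) ℝ)
        (!![1; 0] : Matrix (Fin 2) (Fin 1) ℝ)
      have h2 : (!![1, 0] : Matrix (Fin 1) (Fin 2) ℝ) * (!![1; 0] : Matrix (Fin 2) (Fin 1) ℝ) =
          1 := by
        ext i j
        fin_cases i
        fin_cases j
        simp [Matrix.mul_apply, Fin.sum_univ_two]
      rw [h2, Matrix.rank_one] at h1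
      simpa using h1
  · -- isotropy
    intro x
    rw [integral_law]
    simp [good, bad, Fin.sum_univ_two]
    ring
  · -- injectivity
    intro V _
    rw [law_apply]
    have hg : ∀ s : ℝ, s ^ 2 = 1 → good s ∈ {ω : Fin 2 → Fin 2 → ℝ |
        ∀ x ∈ V, (1 - ε) * ∑ i, x i ^ 2 ≤ ∑ j, (∑ i, ω i j * x i) ^ 2} := by
      intro s hs x _
      simp [good, Fin.sum_univ_two]
      have : (200 / 199 * x 0 + s / 199 * x 1) ^ 2 + (s / 199 * x 0 + 200 / 199 * x 1) ^ 2 =
          (x 0 ^ 2 + x 1 ^ 2) + (400 / 39601) * (x 0 + s * x 1) ^ 2 := by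
        linear_combination ((x 1 ^ 2 / 39601 + x 0 ^ 2 / 39601) - 400 / 39601 * x 1 ^ 2) * hs
      rw [this]
      nlinarith [mul_nonneg hε0.le (add_nonneg (sq_nonneg (x 0)) (sq_nonneg (x 1))),
        sq_nonneg (x 0 + s * x 1)]
    rw [Set.indicator_of_mem (hg 1 (by norm_num)), Set.indicator_of_mem (hg (-1) (by norm_num))]
    simp only [Pi.one_apply, mul_one]
    refine le_trans ?_ le_self_add
    rw [← ENNReal.ofReal_add (by norm_num) (by norm_num)]
    apply ENNReal.ofReal_le_ofReal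
    norm_num

end Pool.Agent.S04624
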