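import Pool.Statements.S04761
import Pool.Agent.Run7.h687.Alph2
import Pool.Agent.Run7.h687.Full.Aper

set_option autoImplicit false
open Pool Pool.MP_5b81c9_an

namespace Pool.Agent.S04761

/-- The lamplighter group (ℤ/2 wreath ℤ) has a nonempty subshift of finite type over a finite alphabet on which the shift acts freely and which is topologically mixing: for any two cylinders, all but finitely many translates of one meet the other. -/
theorem result :
  ∀ G : Subgroup (Equiv.Perm (ℤ × (ℤ →₀ ZMod 2))),
    G = Subgroup.closure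
      {Equiv.prodCongr (Equiv.addRight (1 : ℤ)) (Equiv.refl (ℤ →₀ ZMod 2)),
       Equiv.prodShear (Equiv.refl ℤ)
         (fun n : ℤ => Equiv.addRight (Finsupp.single n (1 : ZMod 2)))} →
    ∃ k : ℕ, ∃ F : Finset G, ∃ P : Set (F → Fin k),
      (∃ x : G → Fin k, ∀ g : G, (fun h : F => x (g * (h : G))) ∈ P) ∧
      (∀ x : G → Fin k, (∀ g : G, (fun h : F => x (g * (h : G))) ∈ P) →
        ∀ g : G, (∀ h : G, x (g⁻¹ * h) = x h) → g = 1) ∧
      (∀ x y : G → Fin k,
        (∀ g : G, (fun h : F => x (g * (h : G))) ∈ P) →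
        (∀ g : G, (fun h : F => y (g * (h : G))) ∈ P) →
        ∀ W : Finset G, ∃ C : Finset G, ∀ g : G, g ∉ C →
          ∃ z : G → Fin k, (∀ g' : G, (fun h : F => z (g' * (h : G))) ∈ P) ∧
            (∀ h ∈ W, z h = x h) ∧ (∀ h ∈ W, z (g⁻¹ * h) = y h)) := by
  intro G hG
  open Run7.h687.Lamp Run7.h687.Full in
  have hG' : G = Subgroup.closure {tP, sP} := hG
  open Run7.h687.Lamp Run7.h687.Full in
  exact by
    obtain ⟨H, H', h0, hne⟩ := niceAB
    have hn1 : (tet (setOf' listA) (setOf' listB)).X.Nonempty := by
      obtain ⟨z, hz⟩ := exists_isX H.two H.symA H.symB hne H.neB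
      exact ⟨fun p => z p.1 p.2, (tet_iff _ _ _).mpr hz⟩
    have hn2 : SX.X.Nonempty := by
      obtain ⟨z, hz⟩ := exists_rules
      exact ⟨ofCfg z, (mem_SX _).mpr (by rw [toCfg_ofCfg]; exact hz)⟩
    exact to_group2 G hG' ((tet (setOf' listA) (setOf' listB)).prod SX)
      (Sft.prod_nonempty hn1 hn2) (prod_mixing2 (Mixing.two (tet_mixing H H')) SX_mixing) (by
        intro z hz q hq
        rw [Sft.mem_prod] at hz
        have h : q.1 = 0 := SX_aper hz.2 (fun p => by
          show (z (lm q p)).2 = (z p).2
          rw [hq p])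
        have hz1 := (tet_iff _ _ _).mp hz.1
        have h2 : q.2 = 0 := by
          apply no_torsion hc5 H.two H.cl h0 hz1 q.2
          intro n f
          have := hq (n, f)
          have e : lm q (n, f) = (n, f + q.2) := by
            unfold lm
            rw [h, sh_zero', zero_add, add_comm]
          rw [e] at this
          show (z (n, f + q.2)).1 = (z (n, f)).1
          rw [this]
        exact Prod.ext h h2)

end Pool.Agent.S04761
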