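import Pool.Statements.S04908
-- import your own Pool.Agent.* helpers here

set_option autoImplicit false
open Pool Pool.MP_68b5a7_an

namespace Pool.Agent.S04908

/-- the irrational step -/
noncomputable def al : ℝ := Real.sqrt 2 - 1

lemma al_lo : (2:ℝ)/5 < al := by
  have h : (7:ℝ)/5 < Real.sqrt 2 := by
    apply Real.lt_sqrt_of_sq_lt; norm_num
  unfold al; linarith

lemma al_hi : al < (1:ℝ)/2 := by
  have h : Real.sqrt 2 < (3:ℝ)/2 := by
    rw [Real.sqrt_lt' (by norm_num)]; norm_num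
  unfold al; linarith

lemma al_irr (n : ℕ) (k : ℤ) : ((n:ℝ) + 1) * al ≠ (k:ℝ) := by
  intro h
  have hirr : Irrational (Real.sqrt 2) := irrational_sqrt_two
  apply hirr
  refine ⟨((k:ℚ) / ((n:ℚ)+1)) + 1, ?_⟩
  have hn : ((n:ℝ)+1) ≠ 0 := by positivity
  unfold al at h
  push_cast
  field_simp
  linarith

/-- the exchange map -/
noncomputable def ph (z : ℝ × ℝ) : ℝ × ℝ :=
  if z.2 < al then
    (if z.1 < 1/2 then (z.1 + 1/2, z.2 + (1 - al))
     else if z.1 < 1 - al then (z.1 + (al - 1/2), z.2 + (1 - al))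
     else (z.1 + (al - 1), z.2 + (1 - al)))
  else
    (if z.1 < 1 - al then (z.1 + al, z.2 + (-al))
     else (z.1 + (al - 1), z.2 + (-al)))

noncomputable def A1 : Fin 5 → ℝ := ![0, 1/2, 1 - al, 0, 1 - al]
noncomputable def B1 : Fin 5 → ℝ := ![1/2, 1 - al, 1, 1 - al, 1]
noncomputable def A2 : Fin 5 → ℝ := ![0, 0, 0, al, al]
noncomputable def B2 : Fin 5 → ℝ := ![al, al, al, 1, 1]
noncomputable def V1 : Fin 5 → ℝ := ![1/2, al - 1/2, al - 1, al, al - 1]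
noncomputable def V2 : Fin 5 → ℝ := ![1 - al, 1 - al, 1 - al, -al, -al]

lemma disj1 : Pairwise (fun r s : Fin 5 =>
        Disjoint (Set.Ico (A1 r) (B1 r) ×ˢ Set.Ico (A2 r) (B2 r))
          (Set.Ico (A1 s) (B1 s) ×ˢ Set.Ico (A2 s) (B2 s))) := by
  have h1 := al_lo
  have h2 := al_hi
  intro r s hrs
  rw [Set.disjoint_left]
  rintro ⟨x, y⟩ hx hy
  simp only [Set.mem_prod, Set.mem_Ico] at hx hy
  obtain ⟨⟨x1, x2⟩, y1, y2⟩ := hx
  obtain ⟨⟨x3, x4⟩, y3, y4⟩ := hy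
  fin_cases r <;> fin_cases s <;>
    first
    | exact absurd rfl hrs
    | (simp [A1, B1, A2, B2] at x1 x2 y1 y2 x3 x4 y3 y4; linarith)

lemma disj2 : Pairwise (fun r s : Fin 5 =>
        Disjoint
          (Set.Ico (A1 r + V1 r) (B1 r + V1 r) ×ˢ Set.Ico (A2 r + V2 r) (B2 r + V2 r))
          (Set.Ico (A1 s + V1 s) (B1 s + V1 s) ×ˢ Set.Ico (A2 s + V2 s) (B2 s + V2 s))) := by
  have h1 := al_lo
  have h2 := al_hi
  intro r s hrs
  rw [Set.disjoint_left]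
  rintro ⟨x, y⟩ hx hy
  simp only [Set.mem_prod, Set.mem_Ico] at hx hy
  obtain ⟨⟨x1, x2⟩, y1, y2⟩ := hx
  obtain ⟨⟨x3, x4⟩, y3, y4⟩ := hy
  fin_cases r <;> fin_cases s <;>
    first
    | exact absurd rfl hrs
    | (simp [A1, B1, A2, B2, V1, V2] at x1 x2 y1 y2 x3 x4 y3 y4; linarith)

lemma union1 : (⋃ r : Fin 5, Set.Ico (A1 r) (B1 r) ×ˢ Set.Ico (A2 r) (B2 r))
          = Set.Ico (0:ℝ) 1 ×ˢ Set.Ico (0:ℝ) 1 := by
  have h1 := al_lo
  have h2 := al_hi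
  ext ⟨x, y⟩
  simp only [Set.mem_iUnion, Set.mem_prod, Set.mem_Ico]
  constructor
  · rintro ⟨r, ⟨x1, x2⟩, y1, y2⟩
    fin_cases r <;> simp [A1, B1, A2, B2] at x1 x2 y1 y2 <;>
      refine ⟨⟨?_, ?_⟩, ?_, ?_⟩ <;> linarith
  · rintro ⟨⟨x1, x2⟩, y1, y2⟩
    by_cases hy : y < al
    · by_cases hx : x < 1/2
      · refine ⟨0, ?_⟩
        simp [A1, B1, A2, B2]
        refine ⟨⟨x1, ?_⟩, y1, hy⟩
        linarith
      · by_cases hx' : x < 1 - al
        · refine ⟨1, ?_⟩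
          simp [A1, B1, A2, B2]
          refine ⟨⟨?_, hx'⟩, y1, hy⟩
          linarith
        · refine ⟨2, ?_⟩
          simp [A1, B1, A2, B2]
          refine ⟨⟨?_, x2⟩, y1, hy⟩
          linarith
    · by_cases hx' : x < 1 - al
      · refine ⟨3, ?_⟩
        simp [A1, B1, A2, B2]
        refine ⟨⟨x1, hx'⟩, ?_, y2⟩
        linarith
      · refine ⟨4, ?_⟩
        simp [A1, B1, A2, B2]
        refine ⟨⟨?_, x2⟩, ?_, y2⟩ <;> linarith

lemma union2 : (⋃ r : Fin 5,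
          Set.Ico (A1 r + V1 r) (B1 r + V1 r) ×ˢ Set.Ico (A2 r + V2 r) (B2 r + V2 r))
          = Set.Ico (0:ℝ) 1 ×ˢ Set.Ico (0:ℝ) 1 := by
  have h1 := al_lo
  have h2 := al_hi
  ext ⟨x, y⟩
  simp only [Set.mem_iUnion, Set.mem_prod, Set.mem_Ico]
  constructor
  · rintro ⟨r, ⟨x1, x2⟩, y1, y2⟩
    fin_cases r <;> simp [A1, B1, A2, B2, V1, V2] at x1 x2 y1 y2 <;>
      refine ⟨⟨?_, ?_⟩, ?_, ?_⟩ <;> linarith
  · rintro ⟨⟨x1, x2⟩, y1, y2⟩
    by_cases hy : y < 1 - al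
    · by_cases hx : x < al
      · refine ⟨4, ?_⟩
        simp [A1, B1, A2, B2, V1, V2]
        refine ⟨⟨?_, ?_⟩, ?_, ?_⟩ <;> linarith
      · refine ⟨3, ?_⟩
        simp [A1, B1, A2, B2, V1, V2]
        refine ⟨⟨?_, ?_⟩, ?_, ?_⟩ <;> linarith
    · by_cases hx : x < al
      · refine ⟨2, ?_⟩
        simp [A1, B1, A2, B2, V1, V2]
        refine ⟨⟨?_, ?_⟩, ?_, ?_⟩ <;> linarith
      · by_cases hx' : x < 1/2
        · refine ⟨1, ?_⟩
          simp [A1, B1, A2, B2, V1, V2]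
          refine ⟨⟨?_, ?_⟩, ?_, ?_⟩ <;> linarith
        · refine ⟨0, ?_⟩
          simp [A1, B1, A2, B2, V1, V2]
          refine ⟨⟨?_, ?_⟩, ?_, ?_⟩ <;> linarith

lemma phi_formula : ∀ r : Fin 5, ∀ x ∈ Set.Ico (A1 r) (B1 r) ×ˢ Set.Ico (A2 r) (B2 r),
          ph x = (x.1 + V1 r, x.2 + V2 r) := by
  have h1 := al_lo
  have h2 := al_hi
  rintro r ⟨x, y⟩ hx
  simp only [Set.mem_prod, Set.mem_Ico] at hx
  obtain ⟨⟨x1, x2⟩, y1, y2⟩ := hx
  unfold ph
  fin_cases r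
  · simp [A1, B1, A2, B2] at x1 x2 y1 y2
    rw [if_pos (by simpa using y2), if_pos (by show x < 1/2; linarith)]
    simp [V1, V2]
  · simp [A1, B1, A2, B2] at x1 x2 y1 y2
    rw [if_pos (by simpa using y2), if_neg (by show ¬ x < 1/2; linarith),
      if_pos (by show x < 1 - al; linarith)]
    simp [V1, V2]
  · simp [A1, B1, A2, B2] at x1 x2 y1 y2
    rw [if_pos (by simpa using y2), if_neg (by show ¬ x < 1/2; linarith),
      if_neg (by show ¬ x < 1 - al; linarith)]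
    simp [V1, V2]
  · simp [A1, B1, A2, B2] at x1 x2 y1 y2
    rw [if_neg (by show ¬ y < al; linarith), if_pos (by show x < 1 - al; linarith)]
    simp [V1, V2]
  · simp [A1, B1, A2, B2] at x1 x2 y1 y2
    rw [if_neg (by show ¬ y < al; linarith), if_neg (by show ¬ x < 1 - al; linarith)]
    simp [V1, V2]

lemma orbit (n : ℕ) : ∃ t : ℝ, 0 < t ∧ t < 1 ∧ (∃ k : ℤ, t = ((n:ℝ)+1) * al + k) ∧
    ph^[n+1] ((1/2:ℝ), (0:ℝ)) = (t, 1 - t) := by
  have h1 := al_lo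
  have h2 := al_hi
  induction n with
  | zero =>
    refine ⟨al, by linarith, by linarith, ⟨0, by push_cast; ring⟩, ?_⟩
    show ph ((1/2:ℝ), (0:ℝ)) = _
    unfold ph
    rw [if_pos (by show (0:ℝ) < al; linarith), if_neg (by show ¬ (1/2:ℝ) < 1/2; linarith),
      if_pos (by show (1/2:ℝ) < 1 - al; linarith)]
    ext
    · show (1/2:ℝ) + (al - 1/2) = al
      ring
    · show (0:ℝ) + (1 - al) = 1 - al
      ring
  | succ n ih =>
    obtain ⟨t, ht0, ht1, ⟨k, hk⟩, hφ⟩ := ih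
    rw [Function.iterate_succ_apply', hφ]
    rcases lt_trichotomy t (1 - al) with h | h | h
    · refine ⟨t + al, by linarith, by linarith, ⟨k, ?_⟩, ?_⟩
      · rw [hk]; push_cast; ring
      · unfold ph
        rw [if_neg (by show ¬ (1 - t) < al; linarith), if_pos (by show t < 1 - al; linarith)]
        ext
        · rfl
        · show (1 - t) + (-al) = 1 - (t + al)
          ring
    · exfalso
      apply al_irr (n+1) (1 - k)
      push_cast
      have : ((n:ℝ) + 1) * al + k = 1 - al := by rw [← hk, h]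
      linarith
    · refine ⟨t + (al - 1), by linarith, by linarith, ⟨k - 1, ?_⟩, ?_⟩
      · rw [hk]; push_cast; ring
      · unfold ph
        rw [if_pos (by show (1 - t) < al; linarith), if_neg (by show ¬ t < 1/2; linarith),
          if_neg (by show ¬ t < 1 - al; linarith)]
        ext
        · rfl
        · show (1 - t) + (1 - al) = 1 - (t + (al - 1))
          ring

/-- The negation of the preceding statement: For every partition of [0,1)² into finitely many half-open rectangles whose translates also partition it, the piecewise-translation map returns every point to within ε of itself, in Euclidean torus distance, at some time N ≥ 1. -/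
theorem result :
    ¬ (∀ (m : ℕ) (a1 b1 a2 b2 v1 v2 : Fin m → ℝ) (φ : ℝ × ℝ → ℝ × ℝ),
      Pairwise (fun r s : Fin m =>
        Disjoint (Set.Ico (a1 r) (b1 r) ×ˢ Set.Ico (a2 r) (b2 r))
          (Set.Ico (a1 s) (b1 s) ×ˢ Set.Ico (a2 s) (b2 s))) →
      (⋃ r : Fin m, Set.Ico (a1 r) (b1 r) ×ˢ Set.Ico (a2 r) (b2 r))
          = Set.Ico (0:ℝ) 1 ×ˢ Set.Ico (0:ℝ) 1 →
      Pairwise (fun r s : Fin m =>
        Disjoint
          (Set.Ico (a1 r + v1 r) (b1 r + v1 r) ×ˢ Set.Ico (a2 r + v2 r) (b2 r + v2 r))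
          (Set.Ico (a1 s + v1 s) (b1 s + v1 s) ×ˢ Set.Ico (a2 s + v2 s) (b2 s + v2 s))) →
      (⋃ r : Fin m,
          Set.Ico (a1 r + v1 r) (b1 r + v1 r) ×ˢ Set.Ico (a2 r + v2 r) (b2 r + v2 r))
          = Set.Ico (0:ℝ) 1 ×ˢ Set.Ico (0:ℝ) 1 →
      (∀ r : Fin m, ∀ x ∈ Set.Ico (a1 r) (b1 r) ×ˢ Set.Ico (a2 r) (b2 r),
          φ x = (x.1 + v1 r, x.2 + v2 r)) →
      ∀ x ∈ Set.Ico (0:ℝ) 1 ×ˢ Set.Ico (0:ℝ) 1, ∀ ε : ℝ, 0 < ε →
        ∃ N : ℕ, 1 ≤ N ∧ ∃ k1 k2 : ℤ,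
          ((φ^[N] x).1 - x.1 + (k1 : ℝ)) ^ 2 + ((φ^[N] x).2 - x.2 + (k2 : ℝ)) ^ 2 ≤ ε ^ 2) := by
  intro h
  obtain ⟨N, hN, k1, k2, hk⟩ := h 5 A1 B1 A2 B2 V1 V2 ph disj1 union1 disj2 union2 phi_formula
    ((1/2:ℝ), (0:ℝ)) (by
      simp only [Set.mem_prod, Set.mem_Ico]
      norm_num) (1/4) (by norm_num)
  obtain ⟨n, rfl⟩ : ∃ n, N = n + 1 := ⟨N - 1, by omega⟩
  obtain ⟨t, _, _, _, hφ⟩ := orbit n
  rw [hφ] at hk
  simp only at hk
  have hint : (0:ℤ) ≤ (k1 + k2) * (k1 + k2 + 1) := by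
    rcases le_or_gt 0 (k1 + k2) with h | h
    · positivity
    · exact mul_nonneg_of_nonpos_of_nonpos h.le (by omega)
  have hreal : (0:ℝ) ≤ ((k1:ℝ) + k2) * ((k1:ℝ) + k2 + 1) := by exact_mod_cast hint
  nlinarith [sq_nonneg ((t - 1/2 + (k1:ℝ)) - (1 - t - 0 + (k2:ℝ)))]

end Pool.Agent.S04908
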