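import Pool.Statements.S04981
import Pool.Agent.Results.MP_6df72f_an.BasicExtension

set_option autoImplicit false
open Filter Topology
open Pool Pool.MP_6df72f_an

namespace Pool.Agent.S04981

/-- For real or complex scalars, every basic sequence of functionals on a closed subspace G of a Banach space E extends termwise to a sequence of functionals on E that is itself a basic sequence in the dual of E. -/
theorem result :
    ∀ (𝕂 : Type) [RCLike 𝕂] (E : Type) [NormedAddCommGroup E] [NormedSpace 𝕂 E]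
      [CompleteSpace E] (G : Submodule 𝕂 E), IsClosed (G : Set E) →
      ∀ φ : ℕ → (G →L[𝕂] 𝕂),
        ((∀ n, φ n ≠ 0) ∧
          ∀ y ∈ (Submodule.span 𝕂 (Set.range φ)).topologicalClosure,
            ∃! a : ℕ → 𝕂,
              Tendsto (fun N => ∑ i ∈ Finset.range N, a i • φ i) atTop (𝓝 y)) →
        ∃ f : ℕ → (E →L[𝕂] 𝕂),
          (∀ n, (f n).comp G.subtypeL = φ n) ∧
          (∀ n, f n ≠ 0) ∧
          ∀ y ∈ (Submodule.span 𝕂 (Set.range f)).topologicalClosure,
            ∃! a : ℕ → 𝕂,
              Tendsto (fun N => ∑ i ∈ Finset.range N, a i • f i) atTop (𝓝 y) := by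
  intro 𝕂 _ E _ _ _ G hG φ hφ
  obtain ⟨f, hf1, hf2, hf3⟩ :=
    Pool.Agent.Results.MP_6df72f_an.BasicExtension.result 𝕂 E G hG φ ⟨hφ.1, fun v hv => hφ.2 v hv⟩
  refine ⟨f, fun n => ?_, hf2, fun y hy => hf3 y hy⟩
  ext g
  exact hf1 n g

end Pool.Agent.S04981
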