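import Pool.Statements.S05106

/-!
The counterexample is the explicit travelling front of Fisher-KPP type joining the unstable
state `0` to the stable state `1`:
`u(x,t) = 1 / (1 + exp (-(x / sqrt 2 + 3 t / 2)))`.
It solves `u_xx - u_t = u^3 - u`, has `0 < u < 1`, `u_x > 0`, `u_t > 0`.
-/

set_option autoImplicit false
open Pool Pool.MP_7987d1_an

namespace Pool.Agent.S05106

lemma hasDerivAt_sig (z : ℝ) :
    HasDerivAt Real.sigmoid (Real.sigmoid z * (1 - Real.sigmoid z)) z :=
  Real.hasDerivAt_sigmoid z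

lemma hasFDerivAt_aux {E : Type*} [NormedAddCommGroup E] [NormedSpace ℝ E] (f : E → ℝ)
    (P : E →L[ℝ] ℝ) (a : ℝ) (x : E) (h1 : HasFDerivAt f ((f x * (1 - f x) * a) • P) x) :
    HasFDerivAt (fun y => f y * (1 - f y) * a)
      (((f x * (1 - f x) * (1 - 2 * f x)) * (a * a)) • P) x := by
  have h3 := (h1.mul (h1.const_sub 1)).mul_const a
  have h4 : ((f x * (1 - f x) * (1 - 2 * f x)) * (a * a)) • P =
      a • (f x • -((f x * (1 - f x) * a) • P) + (1 - f x) • (f x * (1 - f x) * a) • P) := by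
    ext y
    simp only [smul_apply, add_apply, neg_apply, smul_eq_mul]
    ring
  rw [h4]
  exact h3

/-- The negation of the preceding statement: For 1≤n≤8, every C² solution of Δu−u_t=u³−u for t<0 with ∣u∣≤1, ∂u/∂x_n>0 and u_t≥0 has the form u(x,t)=g(ν·x) for a unit vector ν, i.e. is one-dimensional and time-independent. -/
theorem result :
    ¬ (∀ m : ℕ, m + 1 ≤ 8 → ∀ u : EuclideanSpace ℝ (Fin (m + 1)) × ℝ → ℝ,
    ContDiffOn ℝ 2 u {p | p.2 < 0} →
    (∀ x : EuclideanSpace ℝ (Fin (m + 1)), ∀ t : ℝ, t < 0 →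
      |u (x, t)| ≤ 1 ∧
      (∑ i : Fin (m + 1), iteratedFDeriv ℝ 2 (fun y => u (y, t)) x
          (fun _ => EuclideanSpace.single i (1 : ℝ)))
        - deriv (fun s => u (x, s)) t = u (x, t) ^ 3 - u (x, t) ∧
      0 < fderiv ℝ (fun y => u (y, t)) x (EuclideanSpace.single (Fin.last m) (1 : ℝ)) ∧
      0 ≤ deriv (fun s => u (x, s)) t) →
    ∃ ν : EuclideanSpace ℝ (Fin (m + 1)), ‖ν‖ = 1 ∧
      ∃ g : ℝ → ℝ, ∀ x : EuclideanSpace ℝ (Fin (m + 1)), ∀ t : ℝ, t < 0 →
        u (x, t) = g (inner ℝ ν x)) := by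
  intro H
  -- the slope
  set a : ℝ := (Real.sqrt 2)⁻¹ with ha
  have ha0 : 0 < a := by positivity
  have ha2 : a * a = 1 / 2 := by
    rw [ha, ← mul_inv, Real.mul_self_sqrt (by norm_num)]; norm_num
  -- the linear functional
  let P : EuclideanSpace ℝ (Fin (0 + 1)) →L[ℝ] ℝ := EuclideanSpace.proj (0 : Fin (0 + 1))
  have hP : ∀ y : EuclideanSpace ℝ (Fin (0 + 1)), P y = y 0 := fun y => rfl
  let u : EuclideanSpace ℝ (Fin (0 + 1)) × ℝ → ℝ :=
    fun q => Real.sigmoid (a * P q.1 + 3 / 2 * q.2)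
  have hu : ∀ x t, u (x, t) = Real.sigmoid (a * P x + 3 / 2 * t) := fun x t => rfl
  have hsm : ContDiffOn ℝ 2 u {p | p.2 < 0} := by
    apply ContDiff.contDiffOn
    have h1 : ContDiff ℝ 2 (fun q : EuclideanSpace ℝ (Fin (0 + 1)) × ℝ =>
        (1 + Real.exp (-(a * P q.1 + 3 / 2 * q.2)))⁻¹) := by
      apply ContDiff.inv
      · fun_prop
      · intro q
        positivity
    exact h1
  -- the time derivative
  have ht : ∀ x t, HasDerivAt (fun s => u (x, s))
      (u (x, t) * (1 - u (x, t)) * (3 / 2)) t := by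
    intro x t
    have h1 : HasDerivAt (fun s : ℝ => a * P x + 3 / 2 * s) (3 / 2) t := by
      simpa using ((hasDerivAt_id t).const_mul (3 / 2 : ℝ)).const_add (a * P x)
    have h2 : HasDerivAt (fun s : ℝ => Real.sigmoid (a * P x + 3 / 2 * s))
        (Real.sigmoid (a * P x + 3 / 2 * t) * (1 - Real.sigmoid (a * P x + 3 / 2 * t)) * (3 / 2))
        t := HasDerivAt.comp (h₂ := Real.sigmoid) t (hasDerivAt_sig (a * P x + 3 / 2 * t)) h1
    exact h2
  -- the space derivative
  have hx : ∀ x t, HasFDerivAt (fun y => u (y, t))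
      ((u (x, t) * (1 - u (x, t)) * a) • P) x := by
    intro x t
    have h1 : HasFDerivAt (fun y : EuclideanSpace ℝ (Fin (0 + 1)) => a * P y + 3 / 2 * t)
        (a • P) x := by
      simpa using (P.hasFDerivAt.const_mul a).add_const (3 / 2 * t)
    have h2 := (hasDerivAt_sig (a * P x + 3 / 2 * t)).comp_hasFDerivAt x h1
    rw [smul_smul] at h2
    exact h2
  have hfd : ∀ t, (fderiv ℝ (fun y => u (y, t))) =
      fun x => (u (x, t) * (1 - u (x, t)) * a) • P := by
    intro t
    funext x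
    exact (hx x t).fderiv
  -- the second space derivative
  have hxx : ∀ x t, fderiv ℝ (fderiv ℝ (fun y => u (y, t))) x =
      (((u (x, t) * (1 - u (x, t)) * (1 - 2 * u (x, t))) * (a * a)) • P).smulRight P := by
    intro x t
    rw [hfd t]
    have h1 := hx x t
    have h2 : HasFDerivAt (fun y => u (y, t) * (1 - u (y, t)) * a)
        (((u (x, t) * (1 - u (x, t)) * (1 - 2 * u (x, t))) * (a * a)) • P) x := by
      exact hasFDerivAt_aux _ P a x h1
    have h4 := h2.smul_const P
    exact h4.fderiv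
  obtain ⟨ν, -, g, hg⟩ := H 0 (by norm_num) u hsm (by
    intro x t _
    have hpos : 0 < u (x, t) := Real.sigmoid_pos _
    have hlt : u (x, t) < 1 := Real.sigmoid_lt_one _
    refine ⟨?_, ?_, ?_, ?_⟩
    · rw [abs_le]; constructor <;> linarith
    · rw [(ht x t).deriv]
      have : ∀ i : Fin (0 + 1), iteratedFDeriv ℝ 2 (fun y => u (y, t)) x
          (fun _ => EuclideanSpace.single i (1 : ℝ)) =
          (u (x, t) * (1 - u (x, t)) * (1 - 2 * u (x, t))) * (1 / 2) := by
        intro i
        rw [iteratedFDeriv_two_apply, hxx x t, ha2]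
        have hi : i = 0 := Fin.eq_zero i
        subst hi
        simp [P]
      rw [Finset.sum_congr rfl (fun i _ => this i)]
      simp
      ring
    · rw [(hx x t).fderiv]
      have : P (EuclideanSpace.single (Fin.last 0) (1 : ℝ)) = 1 := by
        simp [P]
      rw [smul_apply, this]
      simp only [smul_eq_mul, mul_one]
      have : 0 < 1 - u (x, t) := by linarith
      positivity
    · rw [(ht x t).deriv]
      have : 0 < 1 - u (x, t) := by linarith
      positivity)
  have h1 := hg 0 (-1) (by norm_num)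
  have h2 := hg 0 (-2) (by norm_num)
  rw [← h2, hu, hu] at h1
  have h3 := Real.sigmoid_injective h1
  norm_num at h3

end Pool.Agent.S05106
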