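import Pool.Statements.S05156

set_option autoImplicit false
open Pool Pool.MP_7d5b5f_an

namespace Pool.Agent.S05156

/-- The negation of the preceding statement: For each p>1 there is C, independent of dimension d and coordinate k, so the discrete Riesz transform with kernel Γ((d+1)/2)π^{-(d+1)/2} x_k/∣x∣^{d+1} on ℤ^d is bounded on ℓ^p with norm at most C (tested on finitely supported f). -/
theorem result :
    ¬ (∀ p : ℝ, 1 < p → ∃ C : ℝ, 0 < C ∧
      ∀ (d : ℕ) (k : Fin d) (S T : Finset (Fin d → ℤ)) (f : (Fin d → ℤ) → ℝ),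
        ∑ n ∈ T, |∑ m ∈ S,
            ((Real.Gamma (((d : ℝ) + 1) / 2) / Real.pi ^ (((d : ℝ) + 1) / 2)) *
              (((n k - m k : ℤ) : ℝ) /
                (Real.sqrt (∑ i, (((n i - m i : ℤ) : ℝ)) ^ 2)) ^ (d + 1))) * f m| ^ p
          ≤ C ^ p * ∑ m ∈ S, |f m| ^ p) := by
  intro h
  obtain ⟨C, hC, hb⟩ := h 2 (by norm_num)
  -- the normalising constant in dimension `2 j + 1` is `j! / π ^ (j + 1)`, which is unbounded
  have hlim := FloorSemiring.tendsto_pow_div_factorial_atTop (K := ℝ) Real.pi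
  have hpos : (0 : ℝ) < 1 / (Real.pi * (C + 1)) := by positivity
  obtain ⟨j, hj⟩ := ((hlim.eventually_lt_const hpos).exists)
  have hfact : (0 : ℝ) < (j.factorial : ℝ) := by exact_mod_cast Nat.factorial_pos j
  have hlarge : C < (j.factorial : ℝ) / Real.pi ^ (j + 1) := by
    rw [lt_div_iff₀ (by positivity)]
    rw [div_lt_div_iff₀ hfact (by positivity)] at hj
    have h1 : Real.pi ^ j * (Real.pi * (C + 1)) < (j.factorial : ℝ) := by linarith
    have h2 : C * Real.pi ^ (j + 1) ≤ Real.pi ^ j * (Real.pi * (C + 1)) := by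
      rw [pow_succ]
      have : 0 < Real.pi ^ j * Real.pi := by positivity
      nlinarith
    linarith
  have key := hb (2 * j + 1) 0 {0} {Pi.single 0 1} (fun _ => 1)
  have hsum : ∑ i : Fin (2 * j + 1),
      ((((Pi.single (0 : Fin (2 * j + 1)) (1 : ℤ) : Fin (2 * j + 1) → ℤ) i
        - (0 : Fin (2 * j + 1) → ℤ) i : ℤ) : ℝ)) ^ 2 = 1 := by
    rw [Finset.sum_eq_single (0 : Fin (2 * j + 1))]
    · simp
    · intro b _ hb
      simp [Pi.single_eq_of_ne hb]
    · simp
  have hgam : Real.Gamma ((((2 * j + 1 : ℕ) : ℝ) + 1) / 2) / Real.pi ^ ((((2 * j + 1 : ℕ) : ℝ) + 1) / 2)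
      = (j.factorial : ℝ) / Real.pi ^ (j + 1) := by
    have e : (((2 * j + 1 : ℕ) : ℝ) + 1) / 2 = (j : ℝ) + 1 := by push_cast; ring
    rw [e, Real.Gamma_nat_eq_factorial]
    congr 1
    rw [← Real.rpow_natCast]
    push_cast
    rfl
  rw [Finset.sum_singleton, Finset.sum_singleton, Finset.sum_singleton, hsum, hgam] at key
  have hnn : (0 : ℝ) ≤ (j.factorial : ℝ) / Real.pi ^ (j + 1) := by positivity
  have hval : |(j.factorial : ℝ) / Real.pi ^ (j + 1) *
      ((((Pi.single (0 : Fin (2 * j + 1)) (1 : ℤ) : Fin (2 * j + 1) → ℤ) 0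
        - (0 : Fin (2 * j + 1) → ℤ) 0 : ℤ) : ℝ) / Real.sqrt 1 ^ (2 * j + 1 + 1)) * 1|
      = (j.factorial : ℝ) / Real.pi ^ (j + 1) := by
    simp only [Pi.single_eq_same, Pi.zero_apply, sub_zero, Int.cast_one, Real.sqrt_one, one_pow,
      div_one, mul_one]
    exact abs_of_nonneg hnn
  rw [hval] at key
  simp only [abs_one, Real.one_rpow, mul_one] at key
  have := Real.rpow_lt_rpow hC.le hlarge (by norm_num : (0 : ℝ) < 2)
  linarith

end Pool.Agent.S05156
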