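import Pool.Statements.S05168
import Pool.Agent.Run7.h81.Hollow.Coin

set_option autoImplicit false
open MeasureTheory
open Pool Pool.MP_7dd24e_an

namespace Pool.Agent.S05168

section
open Set Run7.h81.Hollow Pool.Agent.H283R3.Newt

/-- the domain: the unit ball truncated by the planes `x 0 = ± 9/10` -/
def U0 : Set E3 := {x | x ∈ Metric.ball (0:E3) 1 ∧ |x 0| < 9 / 10}

lemma U0_open : IsOpen U0 := by
  have h1 : Continuous (fun x : E3 => |x 0|) := by fun_prop
  exact Metric.isOpen_ball.inter (isOpen_lt h1 continuous_const)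

lemma U0_sub : U0 ⊆ Metric.ball (0:E3) 1 := fun _ h => h.1

lemma U0_down : Down U0 := by
  intro x y hx hxy
  refine ⟨?_, (hxy 0).trans_lt hx.2⟩
  have h1 := hx.1
  rw [mem_ball_zero_iff] at h1 ⊢
  refine lt_of_le_of_lt ?_ h1
  have h2 : ‖y‖ ^ 2 ≤ ‖x‖ ^ 2 := by
    rw [EuclideanSpace.norm_sq_eq, EuclideanSpace.norm_sq_eq]
    apply Finset.sum_le_sum
    intro i _
    rw [Real.norm_eq_abs, Real.norm_eq_abs]
    have := hxy i
    gcongr
  exact le_of_sq_le_sq h2 (norm_nonneg _)

lemma ball_sub_U0 : Metric.ball (0:E3) (9 / 10) ⊆ U0 := by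
  intro x hx
  rw [mem_ball_zero_iff] at hx
  refine ⟨by rw [mem_ball_zero_iff]; linarith, ?_⟩
  have h1 : ‖x 0‖ ≤ ‖x‖ := PiLp.norm_apply_le x 0
  rw [Real.norm_eq_abs] at h1
  linarith

lemma V_ind {A : Set E3} (hA : MeasurableSet A) (x : E3) :
    V (A.indicator 1) x = ∫ y in A, (dist x y)⁻¹ := by
  rw [← integral_indicator hA]
  unfold V
  congr 1
  ext y
  by_cases h : y ∈ A
  · rw [indicator_of_mem h, indicator_of_mem h]; simp
  · rw [indicator_of_notMem h, indicator_of_notMem h]; simp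

lemma V_mono {A B : Set E3} (hA : MeasurableSet A) (hB : MeasurableSet B) (hAB : A ⊆ B)
    (hB1 : B ⊆ Metric.ball (0:E3) 1) (x : E3) :
    V (A.indicator 1) x ≤ V (B.indicator 1) x := by
  rw [V_ind hA, V_ind hB]
  apply setIntegral_mono_set
  · exact (kern_int one_pos 0 x).mono_set hB1
  · exact Filter.Eventually.of_forall fun y => inv_nonneg.2 dist_nonneg
  · exact hAB.eventuallyLE

lemma V_U0_zero : 2 * Real.pi * (81 / 100) ≤ V (U0.indicator 1) 0 := by
  have h1 := V_mono Metric.isOpen_ball.measurableSet U0_open.measurableSet ball_sub_U0 U0_sub (0:E3)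
  rw [V_ind Metric.isOpen_ball.measurableSet, ball_pot (by norm_num), dist_self, Nn,
    if_pos (by norm_num)] at h1
  refine le_trans (le_of_eq ?_) h1
  ring

lemma V_U0_off (x : E3) (hx : x ∉ U0) : V (U0.indicator 1) x ≤ 2 * Real.pi * (73 / 100) := by
  have h1 := V_mono U0_open.measurableSet Metric.isOpen_ball.measurableSet U0_sub (subset_refl _) x
  rw [V_ind (A := Metric.ball (0:E3) 1) Metric.isOpen_ball.measurableSet, ball_pot (by norm_num),
    dist_zero_right] at h1
  refine h1.trans ?_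
  have h2 : 9 / 10 ≤ ‖x‖ := by
    by_contra h
    push Not at h
    exact hx (ball_sub_U0 (by rwa [mem_ball_zero_iff]))
  have hpi := Real.pi_pos
  unfold Nn
  split_ifs with h
  · have h3 : (81:ℝ) / 100 ≤ ‖x‖ ^ 2 := by nlinarith
    have h4 : (1:ℝ) ^ 2 - ‖x‖ ^ 2 / 3 ≤ 73 / 100 := by linarith
    have : 0 < 2 * Real.pi := by positivity
    gcongr
  · push Not at h
    rw [div_le_iff₀ (by linarith)]
    nlinarith

lemma flat_mem {s : ℝ} (hs0 : 0 ≤ s) (hs : s ≤ 1 / 10) :
    (!₂[9 / 10, s, 0] : E3) ∈ frontier U0 := by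
  rw [U0_open.frontier_eq]
  constructor
  · have ht : Filter.Tendsto (fun t : ℝ => t • (!₂[9 / 10, s, 0] : E3)) (nhdsWithin 1 (Iio 1))
        (nhds ((1:ℝ) • (!₂[9 / 10, s, 0] : E3))) := by
      have : Continuous (fun t : ℝ => t • (!₂[9 / 10, s, 0] : E3)) := by fun_prop
      exact (this.tendsto 1).mono_left nhdsWithin_le_nhds
    rw [one_smul] at ht
    apply mem_closure_of_tendsto ht
    filter_upwards [Ioo_mem_nhdsLT (zero_lt_one (α := ℝ))] with t ht
    constructor
    · rw [mem_ball_zero_iff, norm_smul]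
      have h1 : ‖(!₂[9 / 10, s, 0] : E3)‖ ≤ 1 := by
        have h2 : ‖(!₂[9 / 10, s, 0] : E3)‖ ^ 2 ≤ 1 ^ 2 := by
          rw [EuclideanSpace.norm_sq_eq, Fin.sum_univ_three]
          simp
          nlinarith
        exact le_of_sq_le_sq h2 zero_le_one
      rw [Real.norm_eq_abs, abs_of_pos ht.1]
      have := norm_nonneg (!₂[9 / 10, s, 0] : E3)
      nlinarith [ht.2, ht.1]
    · show |t * (9 / 10)| < 9 / 10
      rw [abs_of_pos (by linarith [ht.1])]
      linarith [ht.2]
  · intro h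
    have h1 : |(9 / 10 : ℝ)| < 9 / 10 := h.2
    rw [abs_of_pos (by norm_num)] at h1
    exact lt_irrefl _ h1

end

/-- The negation of the preceding statement: If two nested topological spheres in R^3 bound a shell whose Newtonian potential is constant in the inner cavity, then the two surfaces are the images of concentric spheres of radii 1 and k<1 under one invertible affine map. -/
theorem result :
    ¬ (∀ (S S₁ U T₁ : Set (EuclideanSpace ℝ (Fin 3))),
    Nonempty (S ≃ₜ Metric.sphere (0 : EuclideanSpace ℝ (Fin 3)) 1) →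
    Nonempty (S₁ ≃ₜ Metric.sphere (0 : EuclideanSpace ℝ (Fin 3)) 1) →
    IsOpen U → IsConnected U → Bornology.IsBounded U → frontier U = S →
    IsOpen T₁ → IsConnected T₁ → Bornology.IsBounded T₁ → frontier T₁ = S₁ →
    closure T₁ ⊆ U →
    (∃ c : ℝ, ∀ P ∈ T₁, ∫ M in U \ closure T₁, (dist P M)⁻¹ = c) →
    ∃ (f : EuclideanSpace ℝ (Fin 3) ≃ᵃ[ℝ] EuclideanSpace ℝ (Fin 3)) (k : ℝ),
      0 < k ∧ k < 1 ∧
      S = f '' Metric.sphere (0 : EuclideanSpace ℝ (Fin 3)) 1 ∧
      S₁ = f '' Metric.sphere (0 : EuclideanSpace ℝ (Fin 3)) k) := by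
  intro hall
  have hpi := Real.pi_pos
  have hc0 : 0 < 2 * Real.pi * (77 / 100) := by positivity
  have h0U : (0 : EuclideanSpace ℝ (Fin 3)) ∈ U0 := ball_sub_U0 (by simp)
  obtain ⟨T, hTo, hTd, hT0, hTU, hpot⟩ := Run7.h81.Hollow.coin one_pos U0_open U0_sub U0_down hc0
    (lt_of_lt_of_le (by nlinarith) V_U0_zero)
    (fun x hx => lt_of_le_of_lt (V_U0_off x hx) (by nlinarith))
  have hUb : Bornology.IsBounded U0 := Metric.isBounded_ball.subset U0_sub
  have hTb : Bornology.IsBounded T := hUb.subset (subset_closure.trans hTU)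
  obtain ⟨f, k, hk0, hk1, hS, hS1⟩ := hall (frontier U0) (frontier T) U0 T
    (Run7.h81.Hollow.frontier_homeo U0_open U0_down hUb h0U)
    (Run7.h81.Hollow.frontier_homeo hTo hTd hTb hT0)
    U0_open (Run7.h81.Hollow.conn U0_down h0U) hUb rfl
    hTo (Run7.h81.Hollow.conn hTd hT0) hTb rfl hTU ⟨_, hpot⟩
  -- three collinear points
  have hp := flat_mem (s := 0) (le_refl _) (by norm_num)
  have hm := flat_mem (s := 1 / 20) (by norm_num) (by norm_num)
  have hq := flat_mem (s := 1 / 10) (by norm_num) (by norm_num)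
  rw [hS] at hp hm hq
  obtain ⟨p, hp1, hp2⟩ := hp
  obtain ⟨m, hm1, hm2⟩ := hm
  obtain ⟨q, hq1, hq2⟩ := hq
  have hmid : m = midpoint ℝ p q := by
    apply f.injective
    rw [f.map_midpoint, hp2, hq2, hm2, midpoint_eq_smul_add]
    ext i
    fin_cases i <;> simp <;> norm_num
  have hpq : p ≠ q := by
    intro h
    rw [h, hq2] at hp2
    have h1 := congrArg (fun z : EuclideanSpace ℝ (Fin 3) => z 1) hp2
    simp at h1
  rw [mem_sphere_zero_iff_norm] at hp1 hq1 hm1
  have h1 : ‖midpoint ℝ p q‖ < 1 := by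
    rw [midpoint_eq_smul_add]
    have h2 := parallelogram_law_with_norm ℝ p q
    have h3 : 0 < ‖p - q‖ := norm_pos_iff.2 (sub_ne_zero.2 hpq)
    rw [hp1, hq1] at h2
    have h4 : ‖p + q‖ < 2 := by nlinarith [norm_nonneg (p + q)]
    rw [norm_smul]
    simp
    linarith
  rw [← hmid, hm1] at h1
  exact lt_irrefl _ h1

end Pool.Agent.S05168
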