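import Pool.Statements.S05242
import Pool.Agent.Run7.h81.Cham

set_option autoImplicit false
open Pool Pool.MP_830bfa_an

namespace Pool.Agent.S05242

/-- The negation of the preceding statement: For every n ≥ 2, a C¹ map f from ℝⁿ to ℝⁿ whose Jacobian is everywhere invertible, with every complex eigenvalue of every Jacobian of modulus at least some fixed ε > 0, is injective. -/
theorem result :
    ¬ (∀ n : ℕ, 2 ≤ n → ∀ f : (Fin n → ℝ) → (Fin n → ℝ), ContDiff ℝ 1 f →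
      (∀ x : Fin n → ℝ,
        (LinearMap.toMatrix' ((fderiv ℝ f x : (Fin n → ℝ) →L[ℝ] (Fin n → ℝ)) :
          (Fin n → ℝ) →ₗ[ℝ] (Fin n → ℝ))).det ≠ 0) →
      (∃ ε : ℝ, 0 < ε ∧ ∀ x : Fin n → ℝ, ∀ z : ℂ,
        Polynomial.aeval z
          (LinearMap.toMatrix' ((fderiv ℝ f x : (Fin n → ℝ) →L[ℝ] (Fin n → ℝ)) :
            (Fin n → ℝ) →ₗ[ℝ] (Fin n → ℝ))).charpoly = 0 → ε ≤ ‖z‖) →
      Function.Injective f) := by
  intro h
  refine Run7.h81.Cham.not_injective_F (h 3 (by norm_num) Run7.h81.Cham.F Run7.h81.Cham.contDiff_F ?_ ⟨1 / 4, by norm_num, ?_⟩)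
  · intro x
    rw [Run7.h81.Cham.toMatrix_fderiv, Run7.h81.Cham.det_JM]
    have := Run7.h81.Cham.Rf_pos x
    intro h0
    linarith
  · intro x z hz
    rw [Run7.h81.Cham.toMatrix_fderiv] at hz
    exact Run7.h81.Cham.eig_lower x z hz

end Pool.Agent.S05242
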