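import Pool.Statements.S05324
import Pool.Agent.Run7.h921.FinalB

set_option autoImplicit false
open Pool Pool.MP_8b637a_an

namespace Pool.Agent.S05324

open MeasureTheory Filter Topology Run7.h921

/-- the space is infinite-dimensional: it contains the Rademacher functions -/
lemma E_infinite : ¬ FiniteDimensional ℝ ws.E := by
  intro hfin
  let v : ℕ → ws.E := fun l => mulE ws (rad l) (oneE ws)
  have h1 : (toHL ws : ws.E →ₗ[ℝ] HH cm) ∘ v = rv := by
    funext l
    apply Lp.ext
    show WSys.toH (mulE ws (rad l) (oneE ws)) =ᵐ[cm] rv l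
    filter_upwards [mulE_oneE_ae (s := ws) (rad_bm l), rv_ae l] with ω h1 h2
    rw [h1, h2]
  have h2 : LinearIndependent ℝ ((toHL ws : ws.E →ₗ[ℝ] HH cm) ∘ v) := by
    rw [h1]
    exact rv_orthonormal.linearIndependent
  have h3 : LinearIndependent ℝ v := LinearIndependent.of_comp _ h2
  have h4 : Finite ℕ := h3.finite_of_isNoetherian
  exact not_finite ℕ

lemma no_disjoint (x : ℕ → ws.E) (hx : ∀ n, x n ≠ 0) (hd : ∀ n m, n ≠ m → |x n| ⊓ |x m| = 0)
    (hc : (Submodule.span ℝ (Set.range x)).topologicalClosure.ClosedComplemented) : False := by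
  set Y := (Submodule.span ℝ (Set.range x)).topologicalClosure with hY
  obtain ⟨p, hp⟩ := hc
  let P : ws.E →L[ℝ] ws.E := Y.subtypeL.comp p
  have hPY : ∀ v, P v ∈ Y := fun v => (p v).2
  have hPy : ∀ y ∈ Y, P y = y := by
    intro y hy
    have := hp ⟨y, hy⟩
    show ((p y : Y) : ws.E) = y
    have h2 : p y = ⟨y, hy⟩ := this
    rw [h2]
  let u : ℕ → ws.E := fun n => (1 / ‖x n‖) • x n
  have hn0 : ∀ n, ‖x n‖ ≠ 0 := fun n => norm_ne_zero_iff.mpr (hx n)
  have hspan : Submodule.span ℝ (Set.range u) = Submodule.span ℝ (Set.range x) := by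
    apply le_antisymm
    · rw [Submodule.span_le]
      rintro _ ⟨n, rfl⟩
      exact Submodule.smul_mem _ _ (Submodule.subset_span ⟨n, rfl⟩)
    · rw [Submodule.span_le]
      rintro _ ⟨n, rfl⟩
      have h1 : x n = ‖x n‖ • u n := by
        show x n = ‖x n‖ • ((1 / ‖x n‖) • x n)
        rw [smul_smul, mul_one_div, div_self (hn0 n), one_smul]
      show x n ∈ Submodule.span ℝ (Set.range u)
      rw [h1]
      exact Submodule.smul_mem _ _ (Submodule.subset_span ⟨n, rfl⟩)
  have hu : DS u := by
    constructor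
    · intro n
      show ‖(1 / ‖x n‖) • x n‖ = 1
      rw [norm_smul, norm_div, norm_one, norm_norm, one_div, inv_mul_cancel₀ (hn0 n)]
    · intro n m hnm
      filter_upwards [disj_ae (hd n m hnm), toH_smul_ae (1 / ‖x n‖) (x n),
        toH_smul_ae (1 / ‖x m‖) (x m)] with ω h1 h2 h3
      show WSys.toH ((1 / ‖x n‖) • x n) ω * WSys.toH ((1 / ‖x m‖) • x m) ω = 0
      rw [h2, h3]
      calc 1 / ‖x n‖ * WSys.toH (x n) ω * (1 / ‖x m‖ * WSys.toH (x m) ω) =
          1 / ‖x n‖ * (1 / ‖x m‖) * (WSys.toH (x n) ω * WSys.toH (x m) ω) := by ring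
        _ = 0 := by rw [h1, mul_zero]
  refine no_projection hu P (fun v => ?_) (fun n => ?_)
  · rw [hspan]
    exact hPY v
  · apply hPy
    apply Submodule.le_topologicalClosure
    exact Submodule.smul_mem _ _ (Submodule.subset_span ⟨n, rfl⟩)

/-- The negation of the preceding statement: Every infinite-dimensional reflexive real Banach lattice has a sequence of nonzero pairwise disjoint elements whose closed linear span is complemented, i.e. is the range of a bounded linear projection. -/
theorem result :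
    ¬ (∀ (E : Type) [NormedAddCommGroup E] [Lattice E] [IsOrderedAddMonoid E] [HasSolidNorm E]
      [NormedSpace ℝ E] [PosSMulMono ℝ E] [CompleteSpace E],
      Function.Surjective (NormedSpace.inclusionInDoubleDual ℝ E) →
      ¬ FiniteDimensional ℝ E →
      ∃ x : ℕ → E, (∀ n, x n ≠ 0) ∧ (∀ n m, n ≠ m → |x n| ⊓ |x m| = 0) ∧
        (Submodule.span ℝ (Set.range x)).topologicalClosure.ClosedComplemented) := by
  intro h
  obtain ⟨x, hx, hd, hc⟩ := h ws.E E_reflexive E_infinite
  exact no_disjoint x hx hd hc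

end Pool.Agent.S05324
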