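import Pool.Statements.S05335
import Pool.Agent.Run7.h341.PNI

set_option autoImplicit false
open Pool Pool.MP_8c09cc_an

namespace Pool.Agent.S05335

open Pool.Agent.Run7.h341.PNI

/-- For every k ≥ 1, nontrivial complex Banach space X and nonempty compact Hausdorff K, the k-th polynomial numerical index of C(K,X) equals that of X: a constant c bounds v(P) ≥ c‖P‖ for all k-homogeneous P on X iff it does on C(K,X). -/
theorem result :
  ∀ (k : ℕ), 1 ≤ k →
  ∀ (X : Type) [NormedAddCommGroup X] [NormedSpace ℂ X] [CompleteSpace X] [Nontrivial X],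
  ∀ (K : Type) [TopologicalSpace K] [CompactSpace K] [T2Space K] [Nonempty K],
  ∀ c : ℝ,
    (∀ (A : ContinuousMultilinearMap ℂ (fun _ : Fin k => X) X) (y : X), ‖y‖ ≤ 1 →
      ∀ ε : ℝ, 0 < ε →
        ∃ (x : X) (f : X →L[ℂ] ℂ), ‖x‖ = 1 ∧ ‖f‖ = 1 ∧ f x = 1 ∧
          c * ‖A (fun _ => y)‖ - ε < ‖f (A (fun _ => x))‖) ↔
    (∀ (A : ContinuousMultilinearMap ℂ (fun _ : Fin k => C(K, X)) C(K, X)) (y : C(K, X)),
      ‖y‖ ≤ 1 → ∀ ε : ℝ, 0 < ε →
        ∃ (x : C(K, X)) (f : C(K, X) →L[ℂ] ℂ), ‖x‖ = 1 ∧ ‖f‖ = 1 ∧ f x = 1 ∧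
          c * ‖A (fun _ => y)‖ - ε < ‖f (A (fun _ => x))‖) := by
  intro k _ X _ _ _ _ K _ _ _ _ c
  constructor
  · -- from `X` to `C(K, X)`
    intro H B y hy ε hε
    -- the lift of a pair
    obtain ⟨t0, ht0⟩ : ∃ t0 : K, ‖B (fun _ => y)‖ ≤ ‖B (fun _ => y) t0‖ := by
      obtain ⟨t0, _, ht0⟩ := (isCompact_univ : IsCompact (Set.univ : Set K)).exists_isMaxOn
        Set.univ_nonempty
        (f := fun t => ‖B (fun _ => y) t‖) (by fun_prop)
      refine ⟨t0, (ContinuousMap.norm_le _ (norm_nonneg _)).2 fun t => ?_⟩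
      exact ht0 (Set.mem_univ t)
    by_cases hc : 0 ≤ c
    · set e : ℝ := ε / (2 * c + 1) with he
      have hden : 0 < 2 * c + 1 := by positivity
      have he0 : 0 < e := by positivity
      have hce : (2 * c + 1) * e = ε := by
        rw [he]; field_simp
      obtain ⟨y1, hy1, hy1t, hlow⟩ := step1 B y hy t0 e he0
      set L : ℝ := ‖B‖ * k with hL
      have hL0 : 0 ≤ L := by positivity
      set δ : ℝ := e / (L + 1) with hδ
      have hδ0 : 0 < δ := by positivity
      have hLδ : L * δ < e := by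
        rw [hδ, mul_div_assoc', div_lt_iff₀ (by positivity)]
        nlinarith
      obtain ⟨Φ, hΦn, hΦt, hΦy⟩ := step2 y1 hy1 t0 hy1t δ hδ0
      set ev : C(K, X) →L[ℂ] X := ContinuousMap.evalCLM ℂ t0 with hev
      have hevn : ∀ g : C(K, X), ‖ev g‖ ≤ ‖g‖ := fun g => g.norm_coe_le_norm t0
      set A : ContinuousMultilinearMap ℂ (fun _ : Fin k => X) X :=
        ev.compContinuousMultilinearMap (B.compContinuousLinearMap fun _ => Φ) with hA
      have hAx : ∀ x : X, A (fun _ => x) = B (fun _ => Φ x) t0 := fun x => rfl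
      obtain ⟨x, f, hx, hf, hfx, hlt⟩ := H A (y1 t0) hy1t.le e he0
      refine ⟨Φ x, f.comp ev, ?_, ?_, ?_, ?_⟩
      · refine le_antisymm ((hΦn x).trans hx.le) ?_
        calc (1 : ℝ) = ‖Φ x t0‖ := by rw [hΦt, hx]
          _ ≤ ‖Φ x‖ := (Φ x).norm_coe_le_norm t0
      · have h1 : ‖f.comp ev‖ ≤ 1 := by
          refine ContinuousLinearMap.opNorm_le_bound _ zero_le_one fun g => ?_
          rw [one_mul]
          refine (f.le_opNorm _).trans ?_
          rw [hf, one_mul]
          exact hevn g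
        refine le_antisymm h1 ?_
        have h2 : ‖(f.comp ev) (Φ x)‖ ≤ ‖f.comp ev‖ * ‖Φ x‖ := ContinuousLinearMap.le_opNorm _ _
        have h3 : (f.comp ev) (Φ x) = 1 := by
          show f (Φ x t0) = 1
          rw [hΦt, hfx]
        rw [h3, norm_one] at h2
        have h4 : ‖Φ x‖ ≤ 1 := (hΦn x).trans hx.le
        nlinarith [norm_nonneg (f.comp ev), norm_nonneg (Φ x)]
      · show f (Φ x t0) = 1
        rw [hΦt, hfx]
      · show c * ‖B (fun _ => y)‖ - ε < ‖f (B (fun _ => Φ x) t0)‖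
        rw [← hAx x]
        refine lt_of_le_of_lt ?_ hlt
        -- `‖A (y1 t0)‖ ≥ ‖B y‖ - 2 e`
        have h5 : ‖B (fun _ => y1) t0 - B (fun _ => Φ (y1 t0)) t0‖ ≤ L * δ := by
          rw [← ContinuousMap.sub_apply]
          refine (ContinuousMap.norm_coe_le_norm _ t0).trans ?_
          refine (lip B y1 (Φ (y1 t0)) hy1 ((hΦn _).trans hy1t.le)).trans ?_
          rw [norm_sub_rev]
          exact mul_le_mul_of_nonneg_left hΦy hL0
        have h6 : ‖B (fun _ => y1) t0‖ ≤ ‖B (fun _ => Φ (y1 t0)) t0‖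
            + ‖B (fun _ => y1) t0 - B (fun _ => Φ (y1 t0)) t0‖ := by
          have := norm_add_le (B (fun _ => Φ (y1 t0)) t0)
            (B (fun _ => y1) t0 - B (fun _ => Φ (y1 t0)) t0)
          rwa [add_sub_cancel] at this
        have h7 : ‖B (fun _ => y)‖ - 2 * e ≤ ‖A (fun _ => y1 t0)‖ := by
          rw [hAx]
          linarith
        have h8 := mul_le_mul_of_nonneg_left h7 hc
        nlinarith
    · push Not at hc
      obtain ⟨x, hx⟩ := exists_norm_eq X (zero_le_one : (0:ℝ) ≤ 1)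
      obtain ⟨f, hf, hfx⟩ := exists_dual_vector ℂ (ContinuousMap.const K x : C(K, X)) (by
        have : ‖x‖ ≤ ‖(ContinuousMap.const K x : C(K, X))‖ :=
          (ContinuousMap.const K x : C(K, X)).norm_coe_le_norm t0
        intro h
        rw [h, hx] at this
        linarith)
      have hn : ‖(ContinuousMap.const K x : C(K, X))‖ = 1 := by
        refine le_antisymm ((ContinuousMap.norm_le _ zero_le_one).2 fun t => hx.le) ?_
        rw [← hx]
        exact (ContinuousMap.const K x : C(K, X)).norm_coe_le_norm t0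
      refine ⟨ContinuousMap.const K x, f, hn, hf, ?_, ?_⟩
      · rw [hfx, hn]; simp
      · have : c * ‖B (fun _ => y)‖ ≤ 0 := mul_nonpos_of_nonpos_of_nonneg hc.le (norm_nonneg _)
        have h2 := norm_nonneg (f (B (fun _ => ContinuousMap.const K x)))
        linarith
  · -- from `C(K, X)` to `X`
    intro H A y hy ε hε
    obtain ⟨t0⟩ := (inferInstance : Nonempty K)
    have hyn : ‖(ContinuousMap.const K y : C(K, X))‖ ≤ 1 :=
      (ContinuousMap.norm_le _ zero_le_one).2 fun t => hy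
    obtain ⟨g, φ, hg, hφ, hφg, hlt⟩ := H (ptw K A) (ContinuousMap.const K y) hyn (ε / 2) (by linarith)
    obtain ⟨z, f, hz, hf, hfz, hlt2⟩ := harris A g φ hg hφ hφg (ε / 2) (by linarith)
    by_cases hc : 0 ≤ c
    · refine ⟨z, f, hz, hf, hfz, ?_⟩
      have h1 : ‖A (fun _ => y)‖ ≤ ‖ptw K A (fun _ => ContinuousMap.const K y)‖ :=
        (ptw K A (fun _ => ContinuousMap.const K y)).norm_coe_le_norm t0
      have h2 := mul_le_mul_of_nonneg_left h1 hc
      linarith
    · push Not at hc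
      refine ⟨z, f, hz, hf, hfz, ?_⟩
      have : c * ‖A (fun _ => y)‖ ≤ 0 := mul_nonpos_of_nonpos_of_nonneg hc.le (norm_nonneg _)
      have h2 := norm_nonneg (f (A (fun _ => z)))
      linarith

end Pool.Agent.S05335
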