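import Pool.Statements.S05466
import Pool.Agent.Run7.h989.Gas

set_option autoImplicit false
open MeasureTheory Filter Topology
open Pool Pool.MP_95eb0c_an

namespace Pool.Agent.S05466

/-- The negation of the preceding statement: For ideal gas γ>1, any sequence of bounded weak solutions of 1D Lagrangian gas dynamics on t>0 with uniform bounds τ,p bounded away from 0 and ∣v∣≤V, converging weak-* in L^∞, has velocity and pressure converging in L¹ on every compact subset. -/
theorem result :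
    ¬ (∀ (γ : ℝ), 1 < γ →
  ∀ (τe ve pe : ℕ → ℝ × ℝ → ℝ) (τ v p : ℝ × ℝ → ℝ) (τm τM pm pM V : ℝ),
  0 < τm → τm ≤ τM → 0 < pm → pm ≤ pM →
  (∀ n, AEStronglyMeasurable (τe n) (volume.restrict {z : ℝ × ℝ | 0 < z.2}) ∧
        AEStronglyMeasurable (ve n) (volume.restrict {z : ℝ × ℝ | 0 < z.2}) ∧
        AEStronglyMeasurable (pe n) (volume.restrict {z : ℝ × ℝ | 0 < z.2})) →
  (∀ n, ∀ᵐ z ∂(volume.restrict {z : ℝ × ℝ | 0 < z.2}),
        τm ≤ τe n z ∧ τe n z ≤ τM ∧ pm ≤ pe n z ∧ pe n z ≤ pM ∧ |ve n z| ≤ V) →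
  (∀ n, ∀ φ : ℝ × ℝ → ℝ, ContDiff ℝ ((⊤ : ℕ∞) : WithTop ℕ∞) φ → HasCompactSupport φ →
      tsupport φ ⊆ {z : ℝ × ℝ | 0 < z.2} →
      (∫ z in {z : ℝ × ℝ | 0 < z.2},
          (τe n z * fderiv ℝ φ z (0, 1) - ve n z * fderiv ℝ φ z (1, 0))) = 0 ∧
      (∫ z in {z : ℝ × ℝ | 0 < z.2},
          (ve n z * fderiv ℝ φ z (0, 1) + pe n z * fderiv ℝ φ z (1, 0))) = 0 ∧
      (∫ z in {z : ℝ × ℝ | 0 < z.2},
          ((ve n z ^ 2 / 2 + pe n z * τe n z / (γ - 1)) * fderiv ℝ φ z (0, 1)
            + pe n z * ve n z * fderiv ℝ φ z (1, 0))) = 0) →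
  AEStronglyMeasurable τ (volume.restrict {z : ℝ × ℝ | 0 < z.2}) →
  AEStronglyMeasurable v (volume.restrict {z : ℝ × ℝ | 0 < z.2}) →
  AEStronglyMeasurable p (volume.restrict {z : ℝ × ℝ | 0 < z.2}) →
  (∃ C : ℝ, ∀ᵐ z ∂(volume.restrict {z : ℝ × ℝ | 0 < z.2}),
      |τ z| ≤ C ∧ |v z| ≤ C ∧ |p z| ≤ C) →
  (∀ g : ℝ × ℝ → ℝ, Integrable g (volume.restrict {z : ℝ × ℝ | 0 < z.2}) →
      Tendsto (fun n => ∫ z in {z : ℝ × ℝ | 0 < z.2}, τe n z * g z) atTop
        (𝓝 (∫ z in {z : ℝ × ℝ | 0 < z.2}, τ z * g z)) ∧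
      Tendsto (fun n => ∫ z in {z : ℝ × ℝ | 0 < z.2}, ve n z * g z) atTop
        (𝓝 (∫ z in {z : ℝ × ℝ | 0 < z.2}, v z * g z)) ∧
      Tendsto (fun n => ∫ z in {z : ℝ × ℝ | 0 < z.2}, pe n z * g z) atTop
        (𝓝 (∫ z in {z : ℝ × ℝ | 0 < z.2}, p z * g z))) →
  ∀ K : Set (ℝ × ℝ), IsCompact K → K ⊆ {z : ℝ × ℝ | 0 < z.2} →
    Tendsto (fun n => ∫ z in K, |ve n z - v z|) atTop (𝓝 0) ∧
    Tendsto (fun n => ∫ z in K, |pe n z - p z|) atTop (𝓝 0)) := by
  intro H
  have hmeas : MeasurableSet {z : ℝ × ℝ | 0 < z.2} := measurableSet_lt measurable_const measurable_snd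
  have key := H 2 (by norm_num)
    (fun n z => 1 + Run7.h989.Gas.X n z) (fun n z => 1 - 2 * Run7.h989.Gas.X n z)
    (fun n z => 5 - 4 * Run7.h989.Gas.X n z)
    (fun _ => 3 / 2) (fun _ => 0) (fun _ => 3) 1 2 1 5 1
    (by norm_num) (by norm_num) (by norm_num) (by norm_num)
    (fun n => ⟨((Run7.h989.Gas.X_meas n).const_add 1).aestronglyMeasurable,
      (((Run7.h989.Gas.X_meas n).const_mul 2).const_sub 1).aestronglyMeasurable,
      (((Run7.h989.Gas.X_meas n).const_mul 4).const_sub 5).aestronglyMeasurable⟩)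
    (fun n => Eventually.of_forall fun z => by
      rcases Run7.h989.Gas.chi_cases (n * (z.1 - 2 * z.2)) with h | h
      · have hX : Run7.h989.Gas.X n z = 0 := h
        simp only [hX]; norm_num
      · have hX : Run7.h989.Gas.X n z = 1 := h
        simp only [hX]; norm_num)
    ?_
    aestronglyMeasurable_const aestronglyMeasurable_const aestronglyMeasurable_const
    ⟨3, Eventually.of_forall fun z => by norm_num⟩
    ?_
  · -- no strong convergence on the box [0,1] x [1,2]
    have hK := (key (Set.Icc (0 : ℝ) 1 ×ˢ Set.Icc (1 : ℝ) 2) (isCompact_Icc.prod isCompact_Icc)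
      (by rintro ⟨x, t⟩ ⟨-, ht⟩; exact lt_of_lt_of_le one_pos ht.1)).1
    have hc : ∀ n : ℕ, ∫ z in (Set.Icc (0 : ℝ) 1 ×ˢ Set.Icc (1 : ℝ) 2),
        |(1 - 2 * Run7.h989.Gas.X n z) - 0| = 1 := by
      intro n
      have : ∀ z : ℝ × ℝ, |(1 - 2 * Run7.h989.Gas.X n z) - 0| = 1 := by
        intro z
        rcases Run7.h989.Gas.chi_cases (n * (z.1 - 2 * z.2)) with h | h
        · have hX : Run7.h989.Gas.X n z = 0 := h
          rw [hX]; norm_num
        · have hX : Run7.h989.Gas.X n z = 1 := h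
          rw [hX]; norm_num
      simp_rw [this]
      rw [setIntegral_const, Measure.volume_eq_prod, measureReal_def, Measure.prod_prod]
      norm_num
    simp_rw [hc] at hK
    exact absurd (tendsto_nhds_unique hK tendsto_const_nhds) (by norm_num)
  · intro n φ hφ hcs hs
    have hφ1 : ContDiff ℝ 1 φ := hφ.of_le (by exact_mod_cast le_top)
    refine ⟨?_, ?_, ?_⟩
    · rw [Run7.h989.Gas.half _ φ hs (fun z hz => by simp [hz])]
      refine Eq.trans ?_ (Run7.h989.Gas.balance n 1 1 (-1) φ hφ1 hcs)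
      refine integral_congr_ae (Eventually.of_forall fun z => ?_)
      simp only; ring
    · rw [Run7.h989.Gas.half _ φ hs (fun z hz => by simp [hz])]
      refine Eq.trans ?_ (Run7.h989.Gas.balance n 1 (-2) 5 φ hφ1 hcs)
      refine integral_congr_ae (Eventually.of_forall fun z => ?_)
      simp only; ring
    · rw [Run7.h989.Gas.half _ φ hs (fun z hz => by simp [hz])]
      refine Eq.trans ?_ (Run7.h989.Gas.balance n (11 / 2) (-3) 5 φ hφ1 hcs)
      refine integral_congr_ae (Eventually.of_forall fun z => ?_)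
      rcases Run7.h989.Gas.chi_cases (n * (z.1 - 2 * z.2)) with h | h
      · have hX : Run7.h989.Gas.X n z = 0 := h
        simp only [hX]; ring
      · have hX : Run7.h989.Gas.X n z = 1 := h
        simp only [hX]; ring
  · intro g hg
    have hG : Integrable ({z : ℝ × ℝ | 0 < z.2}.indicator g) := (integrable_indicator_iff hmeas).mpr hg
    have hw := Run7.h989.Gas.weak _ hG
    have e1 : ∀ n : ℕ, ∫ z, Run7.h989.Gas.X n z * ({z : ℝ × ℝ | 0 < z.2}.indicator g) z
        = ∫ z in {z : ℝ × ℝ | 0 < z.2}, Run7.h989.Gas.X n z * g z := by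
      intro n
      rw [← integral_indicator hmeas]
      refine integral_congr_ae (Eventually.of_forall fun z => ?_)
      by_cases hz : 0 < z.2 <;> simp [hz, Set.indicator]
    have e2 : ∫ z, 1 / 2 * ({z : ℝ × ℝ | 0 < z.2}.indicator g) z
        = 1 / 2 * ∫ z in {z : ℝ × ℝ | 0 < z.2}, g z := by
      rw [integral_const_mul, integral_indicator hmeas]
    simp_rw [e1] at hw
    rw [e2] at hw
    have hXi : ∀ n, Integrable (fun z => Run7.h989.Gas.X n z * g z)
        (volume.restrict {z : ℝ × ℝ | 0 < z.2}) := by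
      intro n
      refine hg.bdd_mul (c := 1) (Run7.h989.Gas.X_meas n).aestronglyMeasurable ?_
      exact Eventually.of_forall fun z => Run7.h989.Gas.X_abs n z
    have lin : ∀ a b : ℝ, Tendsto (fun n : ℕ => ∫ z in {z : ℝ × ℝ | 0 < z.2},
        (a + b * Run7.h989.Gas.X n z) * g z) atTop
        (𝓝 (∫ z in {z : ℝ × ℝ | 0 < z.2}, (a + b / 2) * g z)) := by
      intro a b
      have h1 : ∀ n : ℕ, ∫ z in {z : ℝ × ℝ | 0 < z.2}, (a + b * Run7.h989.Gas.X n z) * g z
          = a * (∫ z in {z : ℝ × ℝ | 0 < z.2}, g z)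
            + b * ∫ z in {z : ℝ × ℝ | 0 < z.2}, Run7.h989.Gas.X n z * g z := by
        intro n
        rw [← integral_const_mul, ← integral_const_mul,
          ← integral_add (hg.const_mul a) ((hXi n).const_mul b)]
        refine integral_congr_ae (Eventually.of_forall fun z => ?_)
        simp only; ring
      simp_rw [h1]
      have h2 : ∫ z in {z : ℝ × ℝ | 0 < z.2}, (a + b / 2) * g z
          = a * (∫ z in {z : ℝ × ℝ | 0 < z.2}, g z)
            + b * (1 / 2 * ∫ z in {z : ℝ × ℝ | 0 < z.2}, g z) := by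
        rw [integral_const_mul]; ring
      rw [h2]
      exact (hw.const_mul b).const_add _
    refine ⟨?_, ?_, ?_⟩
    · have h := lin 1 1
      have e : (1 + 1 / 2 : ℝ) = 3 / 2 := by norm_num
      rw [e] at h
      refine h.congr fun n => ?_
      refine integral_congr_ae (Eventually.of_forall fun z => ?_)
      simp only; ring
    · have h := lin 1 (-2)
      have e : (1 + -2 / 2 : ℝ) = 0 := by norm_num
      rw [e] at h
      refine h.congr fun n => ?_
      refine integral_congr_ae (Eventually.of_forall fun z => ?_)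
      simp only; ring
    · have h := lin 5 (-4)
      have e : (5 + -4 / 2 : ℝ) = 3 := by norm_num
      rw [e] at h
      refine h.congr fun n => ?_
      refine integral_congr_ae (Eventually.of_forall fun z => ?_)
      simp only; ring

end Pool.Agent.S05466
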