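import Pool.Statements.S05648
import Pool.Agent.Run7.h198.LL.Main

/-!
The domain is the unit ball centred at the first basis vector `e` of `ℝ³` (so `0` is a boundary
point and the ball is star-shaped with respect to `0`), `s = 1`, `p = 4`.
A weak form of the Pohozaev identity, obtained by testing the equation with the dilates
`c u (c² x)` and letting `c → 1`, shows that there is no positive solution.
-/

set_option autoImplicit false
open MeasureTheory Filter Topology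
open Pool Pool.MP_a271d0_an

namespace Pool.Agent.S05648

open Run7.h198.LL

lemma H10.ae_zero {Ω : Set E} {f : E → ℝ} {F : E → E} (h : H10 Ω f F) :
    ∀ᵐ x ∂(volume : Measure E), x ∉ Ω → f x = 0 := by
  obtain ⟨φ, hφ, h1, h2⟩ := h.approx
  have hm : TendstoInMeasure volume φ atTop f := by
    apply tendstoInMeasure_of_tendsto_eLpNorm (p := 2) (by norm_num)
      (fun n => (hφ n).continuous.aestronglyMeasurable) h.memf.1
    exact h1
  obtain ⟨ns, hns, hae⟩ := hm.exists_seq_tendsto_ae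
  filter_upwards [hae] with x hx hxΩ
  have h0 : ∀ k, φ (ns k) x = 0 := by
    intro k
    by_contra hne
    exact hxΩ ((hφ (ns k)).2.2 (subset_tsupport _ hne))
  have h3 : Tendsto (fun k => φ (ns k) x) atTop (𝓝 0) := by
    simp_rw [h0]
    exact tendsto_const_nhds
  exact tendsto_nhds_unique hx h3

/-- The negation of the preceding statement: For every N≥3, smooth bounded domain Ω in R^N with 0 on its boundary, s in (0,2) and 2*(s)-1<p<(N+2)/(N-2), there is an H^1_0 function u>0 on Ω weakly solving Δu - u^p + u^(2*(s)-1)/∣x∣^s = 0. -/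
theorem result :
    ¬ (∀ (N : ℕ), 3 ≤ N →
  ∀ (Ω : Set (EuclideanSpace ℝ (Fin N))),
    IsOpen Ω → IsConnected Ω → Bornology.IsBounded Ω →
    (∃ ρ : EuclideanSpace ℝ (Fin N) → ℝ,
        ContDiff ℝ ((⊤ : ℕ∞) : WithTop ℕ∞) ρ ∧ Ω = {x | ρ x < 0} ∧
        ∀ x ∈ frontier Ω, fderiv ℝ ρ x ≠ 0) →
    (0 : EuclideanSpace ℝ (Fin N)) ∈ frontier Ω →
  ∀ s : ℝ, 0 < s → s < 2 →
  ∀ p : ℝ, 2 * ((N : ℝ) - s) / ((N : ℝ) - 2) - 1 < p →
    p < ((N : ℝ) + 2) / ((N : ℝ) - 2) →
  ∃ u : EuclideanSpace ℝ (Fin N) → ℝ,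
  ∃ G : EuclideanSpace ℝ (Fin N) → EuclideanSpace ℝ (Fin N),
    MemLp u 2 volume ∧ MemLp G 2 volume ∧
    (∃ φ : ℕ → EuclideanSpace ℝ (Fin N) → ℝ,
        (∀ n, ContDiff ℝ ((⊤ : ℕ∞) : WithTop ℕ∞) (φ n) ∧
              HasCompactSupport (φ n) ∧ tsupport (φ n) ⊆ Ω) ∧
        Tendsto (fun n => eLpNorm (fun x => φ n x - u x) 2 volume) atTop (𝓝 0) ∧
        Tendsto (fun n => eLpNorm (fun x => gradient (φ n) x - G x) 2 volume)
          atTop (𝓝 0)) ∧
    (∀ᵐ x ∂(volume : Measure (EuclideanSpace ℝ (Fin N))), x ∈ Ω → 0 < u x) ∧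
    ∀ ψ : EuclideanSpace ℝ (Fin N) → ℝ,
      ContDiff ℝ ((⊤ : ℕ∞) : WithTop ℕ∞) ψ → HasCompactSupport ψ → tsupport ψ ⊆ Ω →
        Integrable (fun x => inner ℝ (G x) (gradient ψ x)) volume ∧
        Integrable (fun x => u x ^ p * ψ x) volume ∧
        Integrable (fun x => u x ^ (2 * ((N : ℝ) - s) / ((N : ℝ) - 2) - 1) * ψ x / ‖x‖ ^ s)
          volume ∧
        ∫ x, (inner ℝ (G x) (gradient ψ x) + u x ^ p * ψ x
              - u x ^ (2 * ((N : ℝ) - s) / ((N : ℝ) - 2) - 1) * ψ x / ‖x‖ ^ s) = 0) := by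
  intro H
  set e : E := EuclideanSpace.single (0 : Fin 3) (1 : ℝ) with he
  have hen : ‖e‖ = 1 := by rw [he]; simp
  set Ω : Set E := Metric.ball e 1 with hΩ
  have hmem : ∀ x : E, x ∈ Ω ↔ ‖x‖ ^ 2 < 2 * inner ℝ x e := by
    intro x
    rw [hΩ, mem_ball_iff_norm]
    have h1 : ‖x - e‖ ^ 2 = ‖x‖ ^ 2 - 2 * inner ℝ x e + 1 := by
      rw [norm_sub_sq_real, hen]; ring
    have h2 : ‖x - e‖ < 1 ↔ ‖x - e‖ ^ 2 < 1 := by
      rw [sq_lt_one_iff₀ (norm_nonneg _)]
    rw [h2, h1]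
    constructor <;> intro h <;> linarith
  obtain ⟨u, G, hu, hG, hφ, hpos, hweak⟩ := H 3 le_rfl Ω Metric.isOpen_ball
    (Metric.isConnected_ball one_pos) Metric.isBounded_ball
    ⟨fun x => ‖x - e‖ ^ 2 - 1, by
      exact ((contDiff_id.sub contDiff_const).norm_sq ℝ).sub contDiff_const, by
      ext x
      rw [hΩ, mem_ball_iff_norm, Set.mem_ofPred_eq, sub_neg, sq_lt_one_iff₀ (norm_nonneg _)], by
      intro x hx h0
      rw [hΩ, frontier_ball e one_ne_zero, mem_sphere_iff_norm] at hx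
      have h1 : HasFDerivAt (fun x : E => ‖x - e‖ ^ 2 - 1)
          (2 • (innerSL ℝ (x - e)).comp (ContinuousLinearMap.id ℝ E)) x :=
        (((hasFDerivAt_id x).sub_const e).norm_sq).sub_const 1
      rw [h1.fderiv] at h0
      have h2 := congrArg (fun A : E →L[ℝ] ℝ => A (x - e)) h0
      simp only [ContinuousLinearMap.comp_id, smul_apply, innerSL_apply_apply,
        zero_apply, real_inner_self_eq_norm_sq, hx] at h2
      norm_num at h2⟩
    (by rw [hΩ, frontier_ball e one_ne_zero, mem_sphere_iff_norm, zero_sub, norm_neg, hen])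
    1 one_pos one_lt_two 4 (by norm_num) (by norm_num)
  have hH : H10 Ω u G := ⟨hu, hG, hφ⟩
  have hpos' : ∀ᵐ x ∂(volume : Measure E), 0 ≤ u x := by
    filter_upwards [hpos, H10.ae_zero hH] with x h1 h2
    by_cases hx : x ∈ Ω
    · exact (h1 hx).le
    · rw [h2 hx]
  have hW : WeakTest Ω u G := by
    intro ψ hψ
    obtain ⟨i1, i2, i3, h0⟩ := hweak ψ hψ.1 hψ.2.1 hψ.2.2
    have e1 : (2 * (((3 : ℕ) : ℝ) - 1) / (((3 : ℕ) : ℝ) - 2) - 1) = ((3 : ℕ) : ℝ) := by norm_num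
    have e2 : (4 : ℝ) = ((4 : ℕ) : ℝ) := by norm_num
    rw [e1] at i3 h0
    rw [e2] at i2 h0
    simp only [Real.rpow_natCast, Real.rpow_one, div_eq_mul_inv] at i2 i3 h0
    have i12 : Integrable (fun x => inner ℝ (G x) (gradient ψ x) + u x ^ 4 * ψ x)
      (volume : Measure E) := i1.add i2
    rw [integral_sub i12 i3, integral_add i1 i2] at h0
    exact h0
  have h5 : 0 < ∫ x, u x ^ 5 := by
    have hn5 : 0 ≤ᵐ[volume] fun x => u x ^ 5 := by
      filter_upwards [hpos'] with x hx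
      exact pow_nonneg hx 5
    rw [integral_pos_iff_support_of_nonneg_ae hn5 hH.nice.int5]
    have hvol : 0 < (volume : Measure E) Ω := Metric.measure_ball_pos volume e one_pos
    refine lt_of_lt_of_le hvol ?_
    apply measure_mono_ae
    filter_upwards [hpos] with x hx hxΩ
    exact pow_ne_zero 5 (hx hxΩ).ne'
  refine no_solution hH hW ?_ ?_ hpos' h5
  · intro t ht x hx
    rw [hmem] at hx ⊢
    rw [norm_smul, inner_smul_left, Real.norm_eq_abs, abs_of_pos (by linarith)] at hx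
    simp only [conj_trivial] at hx
    have ht0 : 0 < t := by linarith
    have h1 : t * (t * ‖x‖ ^ 2) < t * (2 * inner ℝ x e) := by
      calc t * (t * ‖x‖ ^ 2) = (t * ‖x‖) ^ 2 := by ring
        _ < 2 * (t * inner ℝ x e) := hx
        _ = t * (2 * inner ℝ x e) := by ring
    have h2 := lt_of_mul_lt_mul_left h1 ht0.le
    have h3 : ‖x‖ ^ 2 ≤ t * ‖x‖ ^ 2 := by
      have := sq_nonneg ‖x‖
      nlinarith
    linarith
  · intro x hx
    rw [hΩ, mem_ball_iff_norm] at hx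
    rw [mem_closedBall_zero_iff]
    calc ‖x‖ = ‖(x - e) + e‖ := by rw [sub_add_cancel]
      _ ≤ ‖x - e‖ + ‖e‖ := norm_add_le _ _
      _ ≤ 2 := by rw [hen]; linarith

end Pool.Agent.S05648
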