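import Pool.Statements.S05816
import Pool.Agent.Run7.h235.MultOp

set_option autoImplicit false
open Filter Topology
open Pool Pool.MP_ae9c87_an

namespace Pool.Agent.S05816

open Pool.Agent.Run7.h235.Riesz MeasureTheory

noncomputable section

variable (μ : Measure KK) [IsFiniteMeasure μ]

/-- The unitary group. -/
def TT (t : ℝ) : HH μ →L[ℂ] HH μ := MM μ (ch t)

lemma continuous_ch : Continuous ch := by
  have hc : Continuous (fun p : ℝ × KK => ee 0 p.1 (p.2 : ℝ)) := by
    unfold ee ph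
    fun_prop
  let F : C(ℝ × KK, ℂ) := ⟨fun p => ee 0 p.1 (p.2 : ℝ), hc⟩
  have h : ch = fun t => F.curry t := by
    ext t x
    rfl
  rw [h]
  exact F.curry.continuous

lemma TT_zero : TT μ 0 = 1 := by
  unfold TT
  rw [ch_zero, MM_one]

lemma TT_add (s t : ℝ) : TT μ (s + t) = TT μ s * TT μ t := by
  unfold TT
  rw [ch_add, MM_mul]

lemma TT_cont (x : HH μ) : Continuous (fun t : ℝ => TT μ t x) := by
  unfold TT
  exact (((MM μ).continuous.comp continuous_ch).clm_apply continuous_const)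

lemma TT_norm (t : ℝ) : ‖TT μ t‖ ≤ 1 :=
  norm_MM_le μ _ 1 zero_le_one fun x => (norm_ch t x).le

lemma one_sub_ne (x : ℝ) : (1 - (x : ℂ) * Complex.I) ≠ 0 := by
  intro h
  have := congrArg Complex.re h
  simp at this

/-- The resolvent function. -/
def rr : C(KK, ℂ) := ⟨fun x => 1 / (1 - ((x : ℝ) : ℂ) * Complex.I), by
  apply Continuous.div continuous_const (by fun_prop)
  intro x
  exact one_sub_ne _⟩

lemma integrable_exp_ch :
    IntegrableOn (fun t : ℝ => ((Real.exp (-t) : ℝ) : ℂ) • ch t) (Set.Ioi (0 : ℝ)) := by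
  have h1 : IntegrableOn (fun t : ℝ => Real.exp (-t)) (Set.Ioi (0 : ℝ)) := integrableOn_exp_neg_Ioi 0
  refine h1.mono' ?_ ?_
  · apply Continuous.aestronglyMeasurable
    exact (Complex.continuous_ofReal.comp (Real.continuous_exp.comp continuous_neg)).smul
      continuous_ch
  · refine Filter.Eventually.of_forall fun t => ?_
    rw [norm_smul, Complex.norm_real, Real.norm_eq_abs, abs_of_pos (Real.exp_pos _)]
    have : ‖ch t‖ ≤ 1 := (ContinuousMap.norm_le _ zero_le_one).mpr fun x => (norm_ch t x).le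
    nlinarith [Real.exp_pos (-t)]

lemma integral_exp_ch :
    ∫ t in Set.Ioi (0 : ℝ), ((Real.exp (-t) : ℝ) : ℂ) • ch t = rr := by
  ext x
  have h1 : (∫ t in Set.Ioi (0 : ℝ), ((Real.exp (-t) : ℝ) : ℂ) • ch t) x =
      ∫ t in Set.Ioi (0 : ℝ), (((Real.exp (-t) : ℝ) : ℂ) • ch t) x :=
    ((ContinuousMap.evalCLM ℂ x).integral_comp_comm integrable_exp_ch).symm
  rw [h1]
  have h2 : (fun t : ℝ => (((Real.exp (-t) : ℝ) : ℂ) • ch t) x) =
      fun t : ℝ => Complex.exp ((-1 + ((x : ℝ) : ℂ) * Complex.I) * t) := by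
    ext t
    rw [ContinuousMap.smul_apply, ch_apply, smul_eq_mul]
    unfold ee ph
    rw [Complex.ofReal_exp, ← Complex.exp_add]
    congr 1
    push_cast
    ring
  rw [h2, integral_exp_mul_complex_Ioi (by simp)]
  change _ = 1 / (1 - ((x : ℝ) : ℂ) * Complex.I)
  have h3 := one_sub_ne (x : ℝ)
  have h4 : (-1 + ((x : ℝ) : ℂ) * Complex.I) ≠ 0 := by
    intro h
    apply h3
    linear_combination -h
  simp only [Complex.ofReal_zero, mul_zero, Complex.exp_zero]
  rw [div_eq_div_iff h4 h3]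
  ring

lemma integral_TT (z : HH μ) :
    ∫ t in Set.Ioi (0 : ℝ), ((Real.exp (-t) : ℝ) : ℂ) • TT μ t z = MM μ rr z := by
  have h1 : (fun t : ℝ => ((Real.exp (-t) : ℝ) : ℂ) • TT μ t z) =
      fun t : ℝ => (MM μ).flip z (((Real.exp (-t) : ℝ) : ℂ) • ch t) := by
    ext1 t
    rw [ContinuousLinearMap.map_smul]
    rfl
  rw [h1, ((MM μ).flip z).integral_comp_comm integrable_exp_ch, integral_exp_ch]
  rfl

/-- The cogenerator function. -/
def vv : C(KK, ℂ) := 1 - (2 : ℂ) • rr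

lemma vv_apply (x : KK) : vv x = -ee 1 0 x := by
  have h0 := one_sub_ne (x : ℝ)
  have h1 : vv x = 1 - 2 * (1 / (1 - ((x : ℝ) : ℂ) * Complex.I)) := rfl
  have h2 : ee 1 0 x = Complex.exp ((Real.arctan x : ℂ) * Complex.I) ^ 2 := by
    unfold ee ph
    rw [← Complex.exp_nat_mul]
    congr 1
    push_cast
    ring
  have hs : (0 : ℝ) < 1 + (x : ℝ) ^ 2 := by positivity
  have h3 : Complex.exp ((Real.arctan x : ℂ) * Complex.I) =
      (1 + ((x : ℝ) : ℂ) * Complex.I) / ((√(1 + (x : ℝ) ^ 2) : ℝ) : ℂ) := by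
    rw [Complex.exp_mul_I, ← Complex.ofReal_cos, ← Complex.ofReal_sin, Real.cos_arctan,
      Real.sin_arctan]
    push_cast
    ring
  have h4 : (((√(1 + (x : ℝ) ^ 2) : ℝ) : ℂ)) ^ 2 = 1 + ((x : ℝ) : ℂ) ^ 2 := by
    rw [← Complex.ofReal_pow, Real.sq_sqrt hs.le]
    push_cast
    ring
  have h5 : (1 + ((x : ℝ) : ℂ) ^ 2) =
      (1 - ((x : ℝ) : ℂ) * Complex.I) * (1 + ((x : ℝ) : ℂ) * Complex.I) := by
    ring_nf
    rw [Complex.I_sq]
    ring
  have h6 : (1 + ((x : ℝ) : ℂ) * Complex.I) ≠ 0 := by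
    intro h
    have := congrArg Complex.re h
    simp at this
  rw [h1, h2, h3, div_pow, h4, h5]
  field_simp
  ring

lemma ee_pow (n : ℕ) (x : ℝ) : ee 1 0 x ^ n = ee n 0 x := by
  unfold ee ph
  rw [← Complex.exp_nat_mul]
  congr 1
  push_cast
  ring

lemma vv_pow_apply (n : ℕ) (x : KK) : (vv ^ n) x = (-1) ^ n * ee n 0 x := by
  rw [ContinuousMap.pow_apply, vv_apply, neg_eq_neg_one_mul, mul_pow, ee_pow]

lemma cogenerator_eq : (fun z : HH μ => z - (2 : ℂ) •
      ∫ t in Set.Ioi (0 : ℝ), ((Real.exp (-t) : ℝ) : ℂ) • TT μ t z) = fun z => MM μ vv z := by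
  funext z
  rw [integral_TT]
  unfold vv
  rw [map_sub, map_smul, MM_one]
  rfl

lemma iterate_eq (n : ℕ) (z : HH μ) : (fun z : HH μ => MM μ vv z)^[n] z = MM μ (vv ^ n) z := by
  induction n generalizing z with
  | zero => rw [pow_zero, MM_one]; rfl
  | succ n ih =>
    rw [Function.iterate_succ_apply', ih, pow_succ', MM_mul]
    rfl

end

/-- The negation of the preceding statement: For every contractive strongly continuous semigroup T on a complex Hilbert space with cogenerator V = I − 2∫₀^∞ e^{−t}T(t)dt, T(t)x → 0 weakly for all x iff Vⁿx → 0 weakly for all x. -/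
theorem result :
    ¬ (∀ (H : Type) [NormedAddCommGroup H] [InnerProductSpace ℂ H] [CompleteSpace H]
      (T : ℝ → H →L[ℂ] H),
      T 0 = 1 →
      (∀ s t : ℝ, 0 ≤ s → 0 ≤ t → T (s + t) = T s * T t) →
      (∀ x : H, ContinuousOn (fun t : ℝ => T t x) (Set.Ici 0)) →
      (∀ t : ℝ, 0 ≤ t → ‖T t‖ ≤ 1) →
      ((∀ x y : H, Tendsto (fun t : ℝ => inner ℂ (T t x) y) atTop (𝓝 0)) ↔
        (∀ x y : H, Tendsto (fun n : ℕ =>
            inner ℂ ((fun z : H => z - (2 : ℂ) •
              ∫ t in Set.Ioi (0 : ℝ), ((Real.exp (-t) : ℝ) : ℂ) • T t z)^[n] x) y)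
            atTop (𝓝 0)))) := by
  intro hall
  obtain ⟨μ, hμ1, hμ2⟩ := exists_measure
  have key := hall (HH (μ : Measure KK)) (TT (μ : Measure KK)) (TT_zero _)
    (fun s t _ _ => TT_add _ s t) (fun x => (TT_cont _ x).continuousOn) (fun t _ => TT_norm _ t)
  -- the cogenerator is weakly stable
  have hV : ∀ x y : HH (μ : Measure KK), Tendsto (fun n : ℕ =>
      inner ℂ ((fun z : HH (μ : Measure KK) => MM (μ : Measure KK) vv z)^[n] x) y)
      atTop (𝓝 0) := by
    intro x y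
    simp_rw [iterate_eq]
    have hnorm : ∀ (n : ℕ) (x : KK), ‖(vv ^ n) x‖ ≤ 1 := by
      intro n x
      rw [vv_pow_apply, norm_mul, norm_ee, norm_pow, norm_neg, norm_one, one_pow, one_mul]
    apply weak_of_continuous (μ : Measure KK) atTop (fun n : ℕ => vv ^ n) hnorm
    apply test_characters (μ : Measure KK) atTop (fun n : ℕ => vv ^ n) hnorm
    intro l
    have h1 := hμ1 l
    rw [tendsto_zero_iff_norm_tendsto_zero] at h1 ⊢
    refine h1.congr fun n => ?_
    have h2 : (fun x : KK => (vv ^ n) x * ch l x) = fun x : KK => (-1) ^ n * ee n l x := by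
      ext x
      rw [vv_pow_apply, ch_apply]
      have := ee_add n 0 l (x : ℝ)
      rw [zero_add] at this
      rw [this]
      ring
    rw [h2, integral_const_mul, norm_mul, norm_pow, norm_neg, norm_one, one_pow, one_mul]
  have hV' : ∀ x y : HH (μ : Measure KK), Tendsto (fun n : ℕ =>
      inner ℂ ((fun z : HH (μ : Measure KK) => z - (2 : ℂ) •
        ∫ t in Set.Ioi (0 : ℝ), ((Real.exp (-t) : ℝ) : ℂ) • TT (μ : Measure KK) t z)^[n] x) y)
      atTop (𝓝 0) := by
    rw [cogenerator_eq]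
    exact hV
  -- the semigroup is not
  have hT := key.mpr hV' (ContinuousMap.toLp 2 (μ : Measure KK) ℂ 1)
    (ContinuousMap.toLp 2 (μ : Measure KK) ℂ 1)
  have hseq : Tendsto (fun j : ℕ => (64 : ℝ) ^ (j + 1)) atTop atTop :=
    (tendsto_pow_atTop_atTop_of_one_lt (by norm_num)).comp (tendsto_add_atTop_nat 1)
  have h3 := hT.comp hseq
  have h4 : ((fun t : ℝ => (inner ℂ (TT (μ : Measure KK) t
      (ContinuousMap.toLp 2 (μ : Measure KK) ℂ 1))
      (ContinuousMap.toLp 2 (μ : Measure KK) ℂ 1) : ℂ)) ∘ fun j : ℕ => (64 : ℝ) ^ (j + 1)) =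
      fun _ : ℕ => (1 / 2 : ℂ) := by
    funext j
    change inner ℂ (MM (μ : Measure KK) (ch ((64 : ℝ) ^ (j + 1))) _) _ = _
    rw [inner_MM]
    have h5 := congrArg (starRingEnd ℂ) (hμ2 j)
    rw [← integral_conj] at h5
    have h6 : (starRingEnd ℂ) (1 / 2 : ℂ) = 1 / 2 := by
      rw [map_div₀, map_one, Complex.conj_ofNat]
    rw [h6] at h5
    rw [← h5]
    congr 1
    ext x
    simp [ch_apply]
  rw [h4] at h3
  have h7 := tendsto_nhds_unique h3 tendsto_const_nhds
  norm_num at h7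

end Pool.Agent.S05816
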