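import Pool.Statements.S05947
import Pool.Agent.Run7.h542.SpecFinal

set_option autoImplicit false
open MeasureTheory Matrix
open Pool Pool.MP_bc76ba_an

namespace Pool.Agent.S05947

/-- For an expanding integer matrix R and finite digit set B in Z^d, if the equal-weight self-affine measure is spectral, then the pieces R^{-1}(T+b) of its attractor T pairwise meet in a set of measure zero. -/
theorem result :
  ∀ (d : ℕ) (R : Matrix (Fin d) (Fin d) ℤ) (B : Finset (Fin d → ℤ))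
    (φ : (Fin d → ℤ) → (Fin d → ℝ) → (Fin d → ℝ))
    (μ : MeasureTheory.Measure (Fin d → ℝ)),
    (∀ z : ℂ, (R.map (Int.castRingHom ℂ)).charpoly.IsRoot z → 1 < ‖z‖) →
    (∀ b x, φ b x = (R.map (Int.castRingHom ℝ))⁻¹ *ᵥ (x + fun i => (b i : ℝ))) →
    MeasureTheory.IsProbabilityMeasure μ →
    μ = ∑ b ∈ B, ((B.card : ENNReal)⁻¹) • μ.map (φ b) →
    (∃ (Λ : Set (Fin d → ℝ)) (e : Λ → MeasureTheory.Lp ℂ 2 μ),
      (∀ l : Λ, (e l : (Fin d → ℝ) → ℂ) =ᵐ[μ]
        fun x => Complex.exp (2 * Real.pi * Complex.I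
          * ((∑ i, (l : Fin d → ℝ) i * x i : ℝ) : ℂ))) ∧
      Orthonormal ℂ e ∧
      (Submodule.span ℂ (Set.range e)).topologicalClosure = ⊤) →
    ∀ T : Set (Fin d → ℝ), IsCompact T → T.Nonempty → T = ⋃ b ∈ B, φ b '' T →
    ∀ b ∈ B, ∀ b' ∈ B, b ≠ b' → μ (φ b '' T ∩ φ b' '' T) = 0 := by
  intro d R B φ μ hR hφ hprob hμ hspec T hT hTne hTeq
  have hdet : R.det ≠ 0 := by
    intro h0
    have h1 : (R.map (Int.castRingHom ℂ)).det = 0 := by
      have : (R.map (Int.castRingHom ℂ)).det = ((Int.castRingHom ℂ) R.det) :=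
        ((Int.castRingHom ℂ).map_det R).symm
      rw [this, h0, map_zero]
    rw [Matrix.det_eq_sign_charpoly_coeff] at h1
    have h2 : (R.map (Int.castRingHom ℂ)).charpoly.coeff 0 = 0 := by
      rcases mul_eq_zero.1 h1 with h | h
      · exact absurd h (pow_ne_zero _ (by norm_num))
      · exact h
    have h3 : (R.map (Int.castRingHom ℂ)).charpoly.IsRoot 0 := by
      rw [Polynomial.IsRoot, ← Polynomial.coeff_zero_eq_eval_zero]
      exact h2
    have h4 := hR 0 h3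
    simp at h4
    linarith
  have hφ' : ∀ b, φ b = fun x => (Run7.h542.Spec.rmat R)⁻¹ *ᵥ (x + Run7.h542.Spec.ic b) := by
    intro b
    funext x
    exact hφ b x
  have hB : B.Nonempty := by
    rw [Finset.nonempty_iff_ne_empty]
    rintro rfl
    have h1 : μ Set.univ = 1 := measure_univ
    rw [hμ] at h1
    simp at h1
  have hμ' : μ = ∑ b ∈ B, ((B.card : ENNReal)⁻¹) •
      μ.map (fun x => (Run7.h542.Spec.rmat R)⁻¹ *ᵥ (x + Run7.h542.Spec.ic b)) := by
    conv_lhs => rw [hμ]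
    exact Finset.sum_congr rfl fun b _ => by rw [hφ' b]
  have hTeq' : T = ⋃ b ∈ B,
      (fun x => (Run7.h542.Spec.rmat R)⁻¹ *ᵥ (x + Run7.h542.Spec.ic b)) '' T := by
    conv_lhs => rw [hTeq]
    simp only [hφ']
  obtain ⟨Λ, e, hel, he, hsp⟩ := hspec
  obtain ⟨M, hM⟩ := Run7.h542.Spec.count_bound T hT
  intro b hb b' hb' hne
  rw [hφ' b, hφ' b']
  refine Run7.h542.Spec.no_overlap R B T μ hdet hB hμ' hT hTeq' M ?_ b hb b' hb' hne
  intro k x
  obtain ⟨ι, hft, hdec, D, i₀, hcard, hmap, hmax, hK⟩ :=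
    Run7.h542.Spec.structure_k R B T μ hdet hB hμ' k
  rw [hK]
  refine hM ι hft D ?_ _
  have hNk : (B.card : ENNReal) ^ k ≠ 0 := pow_ne_zero _ (by simp [hB.ne_empty])
  have hNk' : (B.card : ENNReal) ^ k ≠ ⊤ := ENNReal.pow_ne_top (by simp)
  refine Run7.h542.Spec.D_injective μ (Run7.h542.Spec.rmat R ^ k) ?_ Λ e hel he hsp D
    (((B.card : ENNReal) ^ k)⁻¹) ?_ hmap i₀ hmax
  · rw [Matrix.det_pow, Run7.h542.Spec.rmat_det]
    exact (isUnit_iff_ne_zero.2 (by exact_mod_cast hdet)).pow k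
  · rw [hcard]
    push_cast
    exact ENNReal.inv_mul_cancel hNk hNk'

end Pool.Agent.S05947
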