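import Pool.Statements.S06006

set_option autoImplicit false
open MeasureTheory
open Pool Pool.MP_c09e54_an

namespace Pool.Agent.S06006

/-- A closed subset of the unit interval with empty interior and positive measure. -/
theorem exists_thin : ∃ C : Set ℝ, IsClosed C ∧ C ⊆ Set.Icc 0 1 ∧ interior C = ∅ ∧ 0 < volume C := by
  have hQ : volume (Set.range ((↑) : ℚ → ℝ)) = 0 := (Set.countable_range _).measure_zero _
  obtain ⟨U, hU1, hU2, hU3⟩ :=
    Set.exists_isOpen_lt_of_lt (μ := (volume : Measure ℝ)) (Set.range ((↑) : ℚ → ℝ)) 1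
      (by rw [hQ]; exact one_pos)
  refine ⟨Set.Icc 0 1 \ U, isClosed_Icc.sdiff hU2, fun x hx => hx.1, ?_, ?_⟩
  · by_contra hne
    obtain ⟨x, hx⟩ := Set.nonempty_iff_ne_empty.mpr hne
    obtain ⟨q, hq⟩ := Rat.denseRange_cast.exists_mem_open isOpen_interior ⟨x, hx⟩
    exact (interior_subset hq).2 (hU1 ⟨q, rfl⟩)
  · by_contra h0
    have h0' : volume (Set.Icc (0 : ℝ) 1 \ U) = 0 := le_antisymm (not_lt.mp h0) bot_le
    have h2 : volume (Set.Icc (0 : ℝ) 1) ≤ volume (Set.Icc (0 : ℝ) 1 \ U) + volume U := by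
      refine (measure_mono ?_).trans (measure_union_le _ _)
      intro x hx
      by_cases hxU : x ∈ U
      · exact Or.inr hxU
      · exact Or.inl ⟨hx, hxU⟩
    rw [h0', zero_add, Real.volume_Icc] at h2
    simp only [sub_zero, ENNReal.ofReal_one] at h2
    exact absurd h2 (not_le.mpr hU3)

/-- An isometric copy of a compact set with empty interior has empty interior. -/
theorem interior_image {C : Set ℝ} (hC : interior C = ∅) (f : ℝ → ℝ) (hf : Isometry f) :
    interior (f '' C) = ∅ := by
  by_contra hne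
  obtain ⟨y, hy⟩ := Set.nonempty_iff_ne_empty.mpr hne
  obtain ⟨x, hx, -⟩ := interior_subset hy
  have h1 : f ⁻¹' (interior (f '' C)) ⊆ C := by
    intro z hz
    obtain ⟨w, hw, hwz⟩ := interior_subset hz
    rwa [← hf.injective hwz]
  have h2 : IsOpen (f ⁻¹' (interior (f '' C))) := isOpen_interior.preimage hf.continuous
  obtain ⟨w, -, hwy⟩ := interior_subset hy
  have h3 : w ∈ interior C := by
    rw [mem_interior]
    exact ⟨_, h1, h2, by rw [Set.mem_preimage, hwy]; exact hy⟩
  rw [hC] at h3
  exact h3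

/-- The negation of the preceding statement: Any two bounded Lebesgue measurable subsets of the reals of equal measure become, after deleting null sets, equidecomposable: finitely many disjoint measurable pieces of one, moved by isometries of the line, exactly tile the other. -/
theorem result :
    ¬ (∀ A B : Set ℝ, NullMeasurableSet A volume → NullMeasurableSet B volume →
      Bornology.IsBounded A → Bornology.IsBounded B → volume A = volume B →
      ∃ E₁ E₂ : Set ℝ, volume E₁ = 0 ∧ volume E₂ = 0 ∧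
        ∃ (n : ℕ) (P : Fin n → Set ℝ) (f : Fin n → ℝ → ℝ),
          (∀ i, NullMeasurableSet (P i) volume) ∧
          (∀ i, Isometry (f i)) ∧
          Pairwise (fun i j => Disjoint (P i) (P j)) ∧
          Pairwise (fun i j => Disjoint (f i '' P i) (f j '' P j)) ∧
          (⋃ i, P i) = A \ E₁ ∧
          (⋃ i, f i '' P i) = B \ E₂) := by
  intro h
  obtain ⟨C, hCc, hCs, hCi, hCp⟩ := exists_thin
  have hCb : Bornology.IsBounded C := (Metric.isBounded_Icc (0 : ℝ) 1).subset hCs
  have hCk : IsCompact C := isCompact_Icc.of_isClosed_subset hCc hCs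
  have hfin : volume C ≠ ⊤ := hCk.measure_lt_top.ne
  set c : ℝ := (volume C).toReal with hc
  have hc0 : 0 < c := ENNReal.toReal_pos hCp.ne' hfin
  have hvol : volume C = volume (Set.Ioo (0 : ℝ) c) := by
    rw [Real.volume_Ioo, sub_zero, hc, ENNReal.ofReal_toReal hfin]
  obtain ⟨E₁, E₂, -, hE₂, n, P, f, -, hf, -, -, hP, hPB⟩ :=
    h C (Set.Ioo 0 c) hCc.measurableSet.nullMeasurableSet measurableSet_Ioo.nullMeasurableSet hCb
      (Metric.isBounded_Ioo 0 c) hvol
  -- the union of the isometric copies of `C` is closed with empty interior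
  have hcl : ∀ i, IsClosed (f i '' C) := fun i => (hCk.image (hf i).continuous).isClosed
  have hint : interior (⋃ i, f i '' C) = ∅ := by
    have hd : Dense (⋂ i, (f i '' C)ᶜ) := by
      apply dense_iInter_of_isOpen
      · intro i; exact (hcl i).isOpen_compl
      · intro i
        rw [← interior_eq_empty_iff_dense_compl]
        exact interior_image hCi (f i) (hf i)
    rw [interior_eq_empty_iff_dense_compl, Set.compl_iUnion]
    exact hd
  have hopen : IsOpen (Set.Ioo (0 : ℝ) c \ ⋃ i, f i '' C) :=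
    isOpen_Ioo.sdiff (isClosed_iUnion_of_finite hcl)
  have hne : (Set.Ioo (0 : ℝ) c \ ⋃ i, f i '' C).Nonempty := by
    by_contra hempty
    have hsub : Set.Ioo (0 : ℝ) c ⊆ ⋃ i, f i '' C := by
      intro x hx
      by_contra hx'
      exact hempty ⟨x, hx, hx'⟩
    have : c / 2 ∈ interior (⋃ i, f i '' C) := by
      rw [mem_interior]
      exact ⟨_, hsub, isOpen_Ioo, by constructor <;> linarith⟩
    rw [hint] at this
    exact this
  have hpos : 0 < volume (Set.Ioo (0 : ℝ) c \ ⋃ i, f i '' C) := hopen.measure_pos volume hne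
  have hle : Set.Ioo (0 : ℝ) c \ (⋃ i, f i '' C) ⊆ E₂ := by
    rintro x ⟨hx1, hx2⟩
    by_contra hxE
    apply hx2
    have : x ∈ ⋃ i, f i '' P i := by rw [hPB]; exact ⟨hx1, hxE⟩
    obtain ⟨i, y, hy, hyx⟩ := Set.mem_iUnion.mp this
    have hyC : y ∈ C := by
      have : y ∈ ⋃ i, P i := Set.mem_iUnion.mpr ⟨i, hy⟩
      rw [hP] at this
      exact this.1
    exact Set.mem_iUnion.mpr ⟨i, y, hyC, hyx⟩
  have := measure_mono (μ := (volume : Measure ℝ)) hle
  rw [hE₂] at this
  exact absurd hpos (not_lt.mpr this)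

end Pool.Agent.S06006
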