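import Pool.Statements.S06444
import Pool.Agent.Run7.h635.NotA
import Pool.Agent.Run7.h635.OneONL

set_option autoImplicit false
open MeasureTheory
open scoped ENNReal
open Pool Pool.MP_e081a1_an

namespace Pool.Agent.S06444

/-- The negation of the preceding statement: For every p in [1,∞) other than 2, every bounded geometry metric space with the p-operator norm localization property (ℓ^p-valued L^p, all nonzero locally finite Borel measures) has Yu's property A. -/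
theorem result :
    ¬ (∀ (p : ℝ≥0∞) [Fact (1 ≤ p)], p ≠ ⊤ → p ≠ 2 →
    ∀ (X : Type) [MetricSpace X] [MeasurableSpace X] [BorelSpace X],
      (∀ R : ℝ, 0 < R → ∃ N : ℕ, ∀ x : X,
          (Metric.ball x R).Finite ∧ (Metric.ball x R).ncard ≤ N) →
      (∃ c : ℝ, 0 < c ∧ c ≤ 1 ∧ ∃ f : ℕ → ℕ, Monotone f ∧
        ∀ (ν : Measure X) [IsLocallyFiniteMeasure ν], ν ≠ 0 → ∀ r : ℕ,
          ∀ T : Lp (lp (fun _ : ℕ => ℝ) p) p ν →L[ℝ] Lp (lp (fun _ : ℕ => ℝ) p) p ν,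
            (∀ x y : X, (r : ℝ) < dist x y →
              ∃ U V : Set X, IsOpen U ∧ IsOpen V ∧ x ∈ U ∧ y ∈ V ∧
                ∀ g : Lp (lp (fun _ : ℕ => ℝ) p) p ν,
                  (∀ᵐ z ∂ν, z ∉ U → ⇑g z = 0) → ∀ᵐ z ∂ν, z ∈ V → ⇑(T g) z = 0) →
            ∃ ξ : Lp (lp (fun _ : ℕ => ℝ) p) p ν, ξ ≠ 0 ∧
              (∃ S : Set X, (∀ a ∈ S, ∀ b ∈ S, dist a b ≤ (f r : ℝ)) ∧
                ∀ᵐ z ∂ν, z ∉ S → ⇑ξ z = 0) ∧
              c * ‖T‖ * ‖ξ‖ ≤ ‖T ξ‖) →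
      (∀ R : ℝ, 0 < R → ∀ ε : ℝ, 0 < ε →
        ∃ S : ℝ, ∃ A : X → Set (X × ℕ),
          (∀ x, (A x).Finite) ∧ (∀ x, (x, 0) ∈ A x) ∧
          (∀ x, ∀ w ∈ A x, dist w.1 x ≤ S) ∧
          ∀ x y, dist x y < R →
            ((symmDiff (A x) (A y)).ncard : ℝ) < ε * ((A x ∩ A y).ncard : ℝ))) := by
  intro h
  letI : MeasurableSpace Run7.h635.NA.X := borel _
  have : BorelSpace Run7.h635.NA.X := ⟨rfl⟩
  haveI : Fact ((1 : ℝ≥0∞) ≤ 1) := ⟨le_rfl⟩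
  refine Run7.h635.NA.not_A (h 1 (by norm_num) (by norm_num) Run7.h635.NA.X
    Run7.h635.NA.bdd_geom ?_)
  refine ⟨1 / 2, by norm_num, by norm_num, fun _ => 0, fun _ _ _ => le_rfl, ?_⟩
  intro ν _ hν r T _
  have hfin : ∀ x : Run7.h635.NA.X, ν {x} ≠ ⊤ := fun x => measure_singleton_lt_top.ne
  obtain ⟨e0, he0⟩ : ∃ e0 : lp (fun _ : ℕ => ℝ) (1 : ℝ≥0∞), e0 ≠ 0 := by
    refine ⟨lp.single 1 0 (1 : ℝ), ?_⟩
    rw [← norm_ne_zero_iff, lp.norm_single (by norm_num)]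
    norm_num
  obtain ⟨ξ, h1, ⟨x, hx⟩, h2⟩ := Run7.h635.NA.exists_vec ν hν hfin e0 he0 T
  refine ⟨ξ, h1, ⟨{x}, ?_, hx⟩, h2⟩
  intro a ha b hb
  rw [Set.mem_singleton_iff] at ha hb
  rw [ha, hb]
  simp

end Pool.Agent.S06444
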