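import Pool.Statements.S06521
import Pool.Agent.Run7.h35.NU.Fin

/-!
# A nearly unconditional basis which is not truncation quasi-greedy

Even in a Banach space. Blocks `j = 0, 1, 2, ...` (`m = j + 1`, `N = m (1 + 1/2 + ... + 1/m)`), flat
coordinates `k < ⌊N⌋` and spread coordinates `b = 1, ..., m` with weights `m / b`. The norm is the
supremum of the sums of moduli over sets of total weight at most `2 m` (flat coordinates have
weight 1) and of the functionals `∑_{k ∈ D} x_k - (|D| / N) ∑_b x_b`, `D` a set of flat coordinates.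

The vector with coefficients `1` on the flat part and `m / b` on the spread part has norm at most
`2 m`, as it is killed by the functionals of the second kind, but the sum of the basis vectors of
its support has norm about `N`, so the basis is not truncation quasi-greedy. If all coefficients
have modulus at most one, the spread part contributes at most `m / N` times `|D|` to the functional
given by `D`, so it cannot compensate a flat part with coefficients `≥ a`, and the spread part
itself is controlled by the functionals of the first kind: the basis is nearly unconditional.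
-/

set_option autoImplicit false
open Pool Pool.MP_e7ec4f_an

namespace Pool.Agent.S06521

open Run7.h35.NU Finset

/-- the enumeration of the index set -/
def en : ℕ ≃ Ix := (Denumerable.eqv Ix).symm

/-- the basis -/
noncomputable def bx (n : ℕ) : Ks := ⟨xb (en n), xb_mem _⟩

/-- the coordinate functionals -/
noncomputable def bs (n : ℕ) : Ks →ₗ[ℝ] ℝ where
  toFun f := co (f : BoundedContinuousFunction Lam ℝ) (en n)
  map_add' _ _ := rfl
  map_smul' _ _ := rfl

lemma bs_apply (n : ℕ) (f : Ks) : bs n f = co (f : BoundedContinuousFunction Lam ℝ) (en n) := rfl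

lemma sum_bx (A : Finset ℕ) (c : Ix → ℝ) :
    ((∑ n ∈ A, c (en n) • bx n : Ks) : BoundedContinuousFunction Lam ℝ) =
      ∑ i ∈ A.map en.toEmbedding, c i • xb i := by
  rw [sum_map]
  exact map_sum Ks.subtype (fun n => c (en n) • bx n) A

lemma q_zero (f : Ks) (hf : ‖f‖ = 0) : f = 0 := by
  apply Subtype.ext
  exact norm_eq_zero.1 (show ‖(f : BoundedContinuousFunction Lam ℝ)‖ = 0 from hf)

lemma q_smul (c : ℝ) (f : Ks) : ‖c • f‖ = ‖c‖ * ‖f‖ :=
  norm_smul c (f : BoundedContinuousFunction Lam ℝ)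

lemma q_add (f g : Ks) : ‖f + g‖ ≤ 1 * (‖f‖ + ‖g‖) := by
  rw [one_mul]
  exact norm_add_le (f : BoundedContinuousFunction Lam ℝ) (g : BoundedContinuousFunction Lam ℝ)

/-- There is a real or complex quasi-Banach space with a bounded biorthogonal basis that is nearly unconditional (coordinates at least a can be projected boundedly) but not truncation quasi-greedy. -/
theorem result :
    ∃ (𝕂 : Type) (_ : RCLike 𝕂) (X : Type) (_ : AddCommGroup X) (_ : Module 𝕂 X)
      (q : X → ℝ) (κ : ℝ) (x : ℕ → X) (xs : ℕ → X →ₗ[𝕂] 𝕂),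
      (∀ f : X, 0 ≤ q f) ∧
      (∀ f : X, q f = 0 → f = 0) ∧
      (∀ (c : 𝕂) (f : X), q (c • f) = ‖c‖ * q f) ∧
      (∀ f g : X, q (f + g) ≤ κ * (q f + q g)) ∧
      (∀ u : ℕ → X, (∀ ε : ℝ, 0 < ε → ∃ N : ℕ, ∀ m ≥ N, ∀ n ≥ N, q (u m - u n) < ε) →
        ∃ f : X, ∀ ε : ℝ, 0 < ε → ∃ N : ℕ, ∀ n ≥ N, q (u n - f) < ε) ∧
      (∃ B : ℝ, ∀ n : ℕ, q (x n) ≤ B) ∧
      (∃ M : ℝ, ∀ (n : ℕ) (f : X), ‖xs n f‖ ≤ M * q f) ∧
      (∀ m n : ℕ, xs m (x n) = if m = n then 1 else 0) ∧
      (∀ f : X, ∀ ε : ℝ, 0 < ε → ∃ g ∈ Submodule.span 𝕂 (Set.range x), q (f - g) < ε) ∧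
      (∀ a : ℝ, 0 < a → a ≤ 1 → ∃ C : ℝ, ∀ f : X, (∀ n : ℕ, ‖xs n f‖ ≤ 1) →
        ∀ A : Finset ℕ, (∀ n ∈ A, a ≤ ‖xs n f‖) →
          q (∑ n ∈ A, xs n f • x n) ≤ C * q f) ∧
      ¬ (∃ C : ℝ, ∀ f : X, ∀ A : Finset ℕ, A.Nonempty →
          (∀ n ∈ A, ∀ k : ℕ, k ∉ A → ‖xs k f‖ ≤ ‖xs n f‖) →
          ∀ t : ℝ, (∀ n ∈ A, t ≤ ‖xs n f‖) →
            t * q (∑ n ∈ A, (xs n f / ((‖xs n f‖ : ℝ) : 𝕂)) • x n) ≤ C * q f) := by
  refine ⟨ℝ, inferInstance, Ks, inferInstance, inferInstance, fun f => ‖f‖, 1, bx, bs,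
    fun f => norm_nonneg f, fun f hf => q_zero f hf, fun c f => q_smul c f,
    fun f g => q_add f g, ?_, ⟨1, ?_⟩, ⟨1, ?_⟩, ?_, ?_, ?_, ?_⟩
  · -- completeness
    intro u hu
    have hc : CauchySeq u := by
      rw [Metric.cauchySeq_iff]
      intro ε hε
      obtain ⟨N, hN⟩ := hu ε hε
      refine ⟨N, fun m hm n hn => ?_⟩
      show dist (u m : BoundedContinuousFunction Lam ℝ) (u n : BoundedContinuousFunction Lam ℝ) < ε
      rw [dist_eq_norm]
      exact hN m hm n hn
    obtain ⟨f, hf⟩ := cauchySeq_tendsto_of_complete hc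
    refine ⟨f, fun ε hε => ?_⟩
    obtain ⟨N, hN⟩ := Metric.tendsto_atTop.1 hf ε hε
    refine ⟨N, fun n hn => ?_⟩
    have h1 : dist (u n : BoundedContinuousFunction Lam ℝ)
      (f : BoundedContinuousFunction Lam ℝ) < ε := hN n hn
    rw [dist_eq_norm] at h1
    exact h1
  · -- the basis is bounded
    intro n
    show ‖xb (en n)‖ ≤ 1
    rw [BoundedContinuousFunction.norm_le zero_le_one]
    intro p
    rw [xb_apply, Real.norm_eq_abs]
    exact ev_single_le p _
  · -- the functionals are bounded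
    intro n f
    rw [one_mul, bs_apply]
    exact (f : BoundedContinuousFunction Lam ℝ).norm_coe_le_norm (dl (en n))
  · -- biorthogonality
    intro m n
    rw [bs_apply]
    show co (xb (en n)) (en m) = _
    rw [co_xb, Pi.single_apply]
    congr 1
    exact propext en.injective.eq_iff
  · -- density
    intro f ε hε
    have h1 : (f : BoundedContinuousFunction Lam ℝ) ∈
        closure (Submodule.span ℝ (Set.range xb) : Set (BoundedContinuousFunction Lam ℝ)) := f.2
    obtain ⟨g, hg, hfg⟩ := Metric.mem_closure_iff.1 h1 ε hε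
    have h2 : (Submodule.span ℝ (Set.range bx)).map Ks.subtype =
        Submodule.span ℝ (Set.range xb) := by
      rw [Submodule.map_span]
      congr 1
      ext y
      constructor
      · rintro ⟨_, ⟨n, rfl⟩, rfl⟩
        exact ⟨en n, rfl⟩
      · rintro ⟨i, rfl⟩
        refine ⟨bx (en.symm i), ⟨_, rfl⟩, ?_⟩
        show xb (en (en.symm i)) = xb i
        rw [Equiv.apply_symm_apply]
    have hg' : g ∈ (Submodule.span ℝ (Set.range bx)).map Ks.subtype := by
      rw [h2]; exact hg
    obtain ⟨g', hg'1, hg'2⟩ := hg'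
    refine ⟨g', hg'1, ?_⟩
    show ‖((f - g' : Ks) : BoundedContinuousFunction Lam ℝ)‖ < ε
    have h3 : ((f - g' : Ks) : BoundedContinuousFunction Lam ℝ) =
        (f : BoundedContinuousFunction Lam ℝ) - g := by
      rw [← hg'2]; rfl
    rw [h3, ← dist_eq_norm]
    exact hfg
  · -- nearly unconditional
    intro a ha ha1
    refine ⟨4 / a ^ 2, fun f hf A hA => ?_⟩
    show ‖((∑ n ∈ A, bs n f • bx n : Ks) : BoundedContinuousFunction Lam ℝ)‖ ≤
      4 / a ^ 2 * ‖(f : BoundedContinuousFunction Lam ℝ)‖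
    have h1 := sum_bx A (co (f : BoundedContinuousFunction Lam ℝ))
    have h2 : (∑ n ∈ A, bs n f • bx n : Ks) =
        ∑ n ∈ A, co (f : BoundedContinuousFunction Lam ℝ) (en n) • bx n := rfl
    rw [h2, h1]
    refine near_norm f.2 ha ha1 (fun i => ?_) _ (fun i hi => ?_)
    · have := hf (en.symm i)
      rw [bs_apply, Equiv.apply_symm_apply] at this
      exact this
    · rw [mem_map] at hi
      obtain ⟨n, hn, rfl⟩ := hi
      exact hA n hn
  · -- not truncation quasi-greedy
    rintro ⟨C, hC⟩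
    obtain ⟨j, hj⟩ := Hm_unbounded (2 * |C| + 3)
    set A : Finset ℕ := (Sf j).map en.symm.toEmbedding with hA
    have hmem : ∀ n, n ∈ A ↔ en n ∈ Sf j := by
      intro n
      rw [hA, mem_map]
      constructor
      · rintro ⟨i, hi, rfl⟩
        show en (en.symm i) ∈ Sf j
        rw [Equiv.apply_symm_apply]
        exact hi
      · intro h
        exact ⟨en n, h, en.symm_apply_apply n⟩
    have hmap : A.map en.toEmbedding = Sf j := by
      ext i
      rw [mem_map]
      constructor
      · rintro ⟨n, hn, rfl⟩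
        exact (hmem n).1 hn
      · intro h
        exact ⟨en.symm i, (hmem _).2 (by rw [Equiv.apply_symm_apply]; exact h),
          en.apply_symm_apply i⟩
    set f : Ks := ∑ n ∈ A, wt (en n) • bx n with hf
    have hfc : (f : BoundedContinuousFunction Lam ℝ) = ∑ i ∈ Sf j, wt i • xb i := by
      rw [hf, sum_bx A wt, hmap]
    have hcoord : ∀ n, bs n f = if n ∈ A then wt (en n) else 0 := by
      intro n
      rw [bs_apply, hfc]
      show (∑ i ∈ Sf j, wt i • xb i) (dl (en n)) = _
      rw [sum_xb_apply, ev_dl]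
      simp only [hmem]
    have hne : A.Nonempty := by
      refine ⟨en.symm (j, Sum.inr 0), ?_⟩
      rw [hmem, Equiv.apply_symm_apply, mem_Sf_inr]
      exact Nat.succ_pos j
    have hpos : ∀ n ∈ A, 1 ≤ wt (en n) := fun n hn => one_le_wt ((hmem n).1 hn)
    have h1 := hC f A hne (by
      intro n _ k hk
      rw [hcoord k, if_neg hk, norm_zero]
      exact norm_nonneg _) 1 (by
      intro n hn
      rw [hcoord n, if_pos hn, Real.norm_eq_abs, abs_of_nonneg (by linarith [hpos n hn])]
      exact hpos n hn)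
    have h2 : (∑ n ∈ A, (bs n f / ((‖bs n f‖ : ℝ) : ℝ)) • bx n : Ks) =
        ∑ n ∈ A, (fun _ => (1 : ℝ)) (en n) • bx n := by
      refine sum_congr rfl fun n hn => ?_
      congr 1
      have h3 := hpos n hn
      rw [hcoord n, if_pos hn, Real.norm_eq_abs, abs_of_nonneg (by linarith)]
      exact div_self (by linarith)
    have h4 : ‖(∑ n ∈ A, (bs n f / ((‖bs n f‖ : ℝ) : ℝ)) • bx n : Ks)‖ =
        ‖∑ i ∈ Sf j, (1 : ℝ) • xb i‖ := by
      rw [h2]
      show ‖((∑ n ∈ A, (fun _ => (1 : ℝ)) (en n) • bx n : Ks) :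
        BoundedContinuousFunction Lam ℝ)‖ = _
      rw [sum_bx A (fun _ => 1), hmap]
    have h5 : ‖f‖ ≤ 2 * ((j : ℝ) + 1) := by
      show ‖(f : BoundedContinuousFunction Lam ℝ)‖ ≤ _
      rw [hfc]
      exact bad_norm j
    have h6 := sign_norm j
    have h7 : ‖(∑ n ∈ A, (bs n f / ((‖bs n f‖ : ℝ) : ℝ)) • bx n : Ks)‖ ≤ C * ‖f‖ := by
      have := h1
      rw [one_mul] at this
      exact this
    rw [h4] at h7
    have h8 : C * ‖f‖ ≤ |C| * (2 * ((j : ℝ) + 1)) := by
      calc C * ‖f‖ ≤ |C| * ‖f‖ := mul_le_mul_of_nonneg_right (le_abs_self _)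
            (norm_nonneg (f : BoundedContinuousFunction Lam ℝ))
        _ ≤ |C| * (2 * ((j : ℝ) + 1)) := mul_le_mul_of_nonneg_left h5 (abs_nonneg _)
    have h9 : Np j = ((j : ℝ) + 1) * Hm j := rfl
    have hj0 : (0 : ℝ) ≤ j := Nat.cast_nonneg j
    have h10 : ((j : ℝ) + 1) * (2 * |C| + 3) ≤ Np j := by
      rw [h9]
      exact mul_le_mul_of_nonneg_left hj (by positivity)
    nlinarith

end Pool.Agent.S06521
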