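import Pool.Statements.S06524
import Pool.Agent.Run7.h91.RivFinal

set_option autoImplicit false
open MeasureTheory Filter Topology Metric
open Pool Pool.MP_e7f1de_an

namespace Pool.Agent.S06524

/-- The negation of the preceding statement: For every kernel homogeneous of degree -n, mean zero on the sphere, with angular part in L log L, there is C such that the principal-value operator sends each bounded compactly supported f with ∣f∣≤M to a function of BMO norm at most C·M. -/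
theorem result :
    ¬ (∀ (n : ℕ), 1 ≤ n →
    ∀ (k : EuclideanSpace ℝ (Fin n) → ℝ), Measurable k →
    (∀ x : EuclideanSpace ℝ (Fin n), x ≠ 0 → ∀ t : ℝ, 0 < t →
        k (t • x) = t ^ (-(n : ℤ)) * k x) →
    IntegrableOn k {x : EuclideanSpace ℝ (Fin n) | 1 ≤ ‖x‖ ∧ ‖x‖ ≤ 2} volume →
    (∫ x in {x : EuclideanSpace ℝ (Fin n) | 1 ≤ ‖x‖ ∧ ‖x‖ ≤ 2}, k x) = 0 →
    IntegrableOn (fun x => |k x| * max 0 (Real.log |k x|))
        {x : EuclideanSpace ℝ (Fin n) | 1 ≤ ‖x‖ ∧ ‖x‖ ≤ 2} volume →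
    ∃ C : ℝ, ∀ (f : EuclideanSpace ℝ (Fin n) → ℝ) (M : ℝ),
      Measurable f → HasCompactSupport f → (∀ x, |f x| ≤ M) →
      ∀ g : EuclideanSpace ℝ (Fin n) → ℝ,
        (∀ᵐ x ∂(volume : Measure (EuclideanSpace ℝ (Fin n))),
          Tendsto (fun ε : ℝ => ∫ y in {y : EuclideanSpace ℝ (Fin n) | ε < ‖y‖}, k y * f (x - y))
            (𝓝[>] 0) (𝓝 (g x))) →
        ∀ (c : EuclideanSpace ℝ (Fin n)) (r : ℝ), 0 < r →
          IntegrableOn g (ball c r) volume ∧
          (⨍ x in ball c r, |g x - ⨍ y in ball c r, g y|) ≤ C * M) := by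
  intro hall
  obtain ⟨w, hw⟩ := Run7.h91.Riv.exists_bad
  have hOm := Run7.h91.Riv.Omw_meas w
  have hOi := Run7.h91.Riv.Omw_int w
  let e := Complex.orthonormalBasisOneI.repr
  let kk : EuclideanSpace ℝ (Fin 2) → ℝ := fun x => Run7.h91.Riv.K (Run7.h91.Riv.Omw w) (e.symm x)
  have hmp : MeasurePreserving e.symm (volume : Measure (EuclideanSpace ℝ (Fin 2)))
    (volume : Measure ℂ) := e.symm.measurePreserving
  have hme : MeasurableEmbedding e.symm := e.symm.toHomeomorph.measurableEmbedding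
  have hset : {x : EuclideanSpace ℝ (Fin 2) | 1 ≤ ‖x‖ ∧ ‖x‖ ≤ 2}
      = e.symm ⁻¹' {z : ℂ | ‖z‖ ∈ Set.Icc (1:ℝ) 2} := by
    ext x
    show (1 ≤ ‖x‖ ∧ ‖x‖ ≤ 2) ↔ (1 ≤ ‖e.symm x‖ ∧ ‖e.symm x‖ ≤ 2)
    rw [LinearIsometryEquiv.norm_map]
  obtain ⟨C, hC⟩ := hall 2 (by norm_num) kk
    ((Run7.h91.Riv.K_meas hOm).comp e.symm.continuous.measurable)
    (by
      intro x _ t ht
      show Run7.h91.Riv.K _ (e.symm (t • x)) = _
      rw [map_smul, Run7.h91.Riv.K_smul _ ht]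
      rfl)
    (by
      rw [hset]
      exact (hmp.integrableOn_comp_preimage hme).2
        (Run7.h91.Riv.K_annulus hOm hOi (b := 2) one_pos))
    (by
      rw [hset]
      have h1 := hmp.setIntegral_preimage_emb hme (Run7.h91.Riv.K (Run7.h91.Riv.Omw w))
        {z : ℂ | ‖z‖ ∈ Set.Icc (1:ℝ) 2}
      rw [Run7.h91.Riv.int_K_zero (Run7.h91.Riv.Omw_zero w) measurableSet_Icc] at h1
      exact h1)
    (by
      rw [hset]
      exact (hmp.integrableOn_comp_preimage hme).2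
        (Run7.h91.Riv.LlogL_annulus hOm (Run7.h91.Riv.Omw_sq w) (b := 2) one_pos))
  exact hw C (Run7.h91.Riv.transport _ C hC)

end Pool.Agent.S06524
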