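import Pool.Statements.S06533
import Pool.Agent.Run7.h491.OverRec2

set_option autoImplicit false
open MeasureTheory Filter Topology
open Pool Pool.MP_e8a8db_an

namespace Pool.Agent.S06533

/-- Every nontrivial mixing measure-preserving system on a probability space has an over-recurrent set, or a bounded non-constant function f with ∫ f·f∘T^n ≥ (∫ f)^2 for all n ≥ 1. -/
theorem result :
    ∀ (X : Type) [MeasurableSpace X] (μ : Measure X) [IsProbabilityMeasure μ] (T : X → X),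
      MeasurePreserving T μ μ →
      (∃ A : Set X, MeasurableSet A ∧ 0 < μ A ∧ μ A < 1) →
      (∀ A B : Set X, MeasurableSet A → MeasurableSet B →
        Tendsto (fun n : ℕ => μ (A ∩ T^[n] ⁻¹' B)) atTop (𝓝 (μ A * μ B))) →
      (∃ A : Set X, MeasurableSet A ∧ 0 < μ A ∧ μ A < 1 ∧
          ∀ n : ℕ, 1 ≤ n → μ A ^ 2 ≤ μ (A ∩ T^[n] ⁻¹' A)) ∨
      (∃ f : X → ℝ, MemLp f ⊤ μ ∧ (¬ ∃ c : ℝ, f =ᵐ[μ] fun _ => c) ∧
          ∀ n : ℕ, 1 ≤ n → (∫ x, f x ∂μ) ^ 2 ≤ ∫ x, f x * f (T^[n] x) ∂μ) := by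
  intro X _ μ _ T hT hnt hmix
  obtain ⟨f, hf1, hf2, hf3⟩ := Run7.h491.OverRec.main μ T hT hnt hmix
  exact Or.inr ⟨f, hf1, hf2, fun n hn => (hf3 n hn).le⟩

end Pool.Agent.S06533
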