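import Pool.Statements.S07181
import Pool.Agent.Run7.h524.Halving

set_option autoImplicit false
open Pool Pool.MP_0dd31c_co

namespace Pool.Agent.S07181

/-- For every c in (1,2) there is n0 such that for n ≥ n0 every n-uniform finite hypergraph with all degrees at most c^n has a red set of exactly half (floor) of its vertices such that no edge is all red or all blue. -/
theorem result :
    ∀ c : ℝ, 1 < c → c < 2 →
      ∃ n₀ : ℕ, ∀ n : ℕ, n₀ ≤ n →
        ∀ F : Finset (Finset ℕ),
          (∀ A ∈ F, A.card = n) →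
          (∀ v : ℕ, ((F.filter (fun A => v ∈ A)).card : ℝ) ≤ c ^ n) →
          ∃ R : Finset ℕ, R ⊆ F.biUnion id ∧
            R.card = (F.biUnion id).card / 2 ∧
            ∀ A ∈ F, (A ∩ R).Nonempty ∧ ¬ A ⊆ R := by
  intro c hc1 hc2
  have h1 : Filter.Tendsto (fun n : ℕ => (n : ℝ) * (c / 2) ^ n) Filter.atTop (nhds 0) :=
    tendsto_self_mul_const_pow_of_lt_one (by linarith) (by linarith)
  have h2 : ∀ᶠ n : ℕ in Filter.atTop, (n : ℝ) * (c / 2) ^ n < 1 / 48 :=
    h1.eventually_lt_const (by norm_num)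
  obtain ⟨n₁, hn₁⟩ := Filter.eventually_atTop.1 h2
  refine ⟨max n₁ 5, ?_⟩
  intro n hn F hF hdeg
  have hn1 : n₁ ≤ n := (le_max_left _ _).trans hn
  have hn5 : 5 ≤ n := (le_max_right _ _).trans hn
  have h3 := hn₁ n hn1
  refine Run7.h524.Halving.main n hn5 (c ^ n) (by positivity) ?_ F hF hdeg
  have h4 : (0 : ℝ) < 2 ^ n := by positivity
  have h5 : (n : ℝ) * (c / 2) ^ n = n * c ^ n / 2 ^ n := by
    rw [div_pow]; ring
  rw [h5, div_lt_iff₀ h4] at h3
  nlinarith

end Pool.Agent.S07181
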