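import Pool.Statements.S07574

set_option autoImplicit false
open Pool Pool.MP_1f8616_co

namespace Pool.Agent.S07574

/-- A chain in the disjoint union of the finite chains `Fin n` is finite. -/
theorem chain_finite (C : Set (Σ n : ℕ, Fin n)) (hC : IsChain (· ≤ ·) C) : C.Finite := by
  classical
  rcases C.eq_empty_or_nonempty with rfl | ⟨x, hx⟩
  · exact Set.finite_empty
  · have hsub : C ⊆ (fun m : Fin x.1 => (⟨x.1, m⟩ : Σ n : ℕ, Fin n)) '' Set.univ := by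
      intro y hy
      have h1 : y.1 = x.1 := by
        by_contra hne
        have hxy : x ≠ y := by
          intro h
          exact hne (by rw [h])
        rcases hC hx hy hxy with h | h
        · rw [Sigma.le_def] at h
          obtain ⟨h, -⟩ := h
          exact hne h.symm
        · rw [Sigma.le_def] at h
          obtain ⟨h, -⟩ := h
          exact hne h
      obtain ⟨n, m⟩ := y
      dsimp at h1
      subst h1
      exact ⟨m, Set.mem_univ _, rfl⟩
    exact (Set.finite_univ.image _).subset hsub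

theorem result :
    ¬ (∀ (α : Type) [PartialOrder α] [Countable α],
    (¬ ∃ C : Set α, IsChain (· ≤ ·) C ∧
        (∀ x, x ∉ C → ∀ y ∈ C, ∀ z ∈ C, y < x → x < z → ¬ IsChain (· ≤ ·) (insert x C)) ∧
        ∃ f : α → ℕ,
          ((∀ x ∈ C, ∀ y ∈ C, x ≤ y → f x ≤ f y) ∧
            ∀ i : ℕ, Set.Infinite {x | x ∈ C ∧ f x = i} ∧
              ¬ ∃ s : ℕ → α, StrictMono s ∧ ∀ n, s n ∈ C ∧ f (s n) = i) ∨
          ((∀ x ∈ C, ∀ y ∈ C, x ≤ y → f y ≤ f x) ∧
            ∀ i : ℕ, Set.Infinite {x | x ∈ C ∧ f x = i} ∧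
              ¬ ∃ s : ℕ → α, StrictAnti s ∧ ∀ n, s n ∈ C ∧ f (s n) = i)) →
    ∀ k : ℕ, 2 ≤ k →
      ∃ C : Fin k → Set α, (∀ j, IsChain (· ≤ ·) (C j)) ∧
        Pairwise (fun i j => Disjoint (C i) (C j)) ∧
        ∃ g : α → ℕ, ∀ i : ℕ, IsAntichain (· ≤ ·) {x | g x = i} ∧
          min (Set.encard {x | g x = i}) (k : ℕ∞) ≤
            Set.encard {j : Fin k | (C j ∩ {x | g x = i}).Nonempty}) := by
  classical
  intro H
  have hvac : ¬ ∃ C : Set (Σ n : ℕ, Fin n), IsChain (· ≤ ·) C ∧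
        (∀ x, x ∉ C → ∀ y ∈ C, ∀ z ∈ C, y < x → x < z → ¬ IsChain (· ≤ ·) (insert x C)) ∧
        ∃ f : (Σ n : ℕ, Fin n) → ℕ,
          ((∀ x ∈ C, ∀ y ∈ C, x ≤ y → f x ≤ f y) ∧
            ∀ i : ℕ, Set.Infinite {x | x ∈ C ∧ f x = i} ∧
              ¬ ∃ s : ℕ → (Σ n : ℕ, Fin n), StrictMono s ∧ ∀ n, s n ∈ C ∧ f (s n) = i) ∨
          ((∀ x ∈ C, ∀ y ∈ C, x ≤ y → f y ≤ f x) ∧
            ∀ i : ℕ, Set.Infinite {x | x ∈ C ∧ f x = i} ∧
              ¬ ∃ s : ℕ → (Σ n : ℕ, Fin n), StrictAnti s ∧ ∀ n, s n ∈ C ∧ f (s n) = i) := by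
    rintro ⟨C, hC, -, f, h⟩
    have hfin := chain_finite C hC
    rcases h with ⟨-, h⟩ | ⟨-, h⟩
    · exact (h 0).1 (hfin.subset (fun x hx => hx.1))
    · exact (h 0).1 (hfin.subset (fun x hx => hx.1))
  obtain ⟨C, hC, -, g, hg⟩ := H (Σ n : ℕ, Fin n) hvac 2 le_rfl
  have hfin : (⋃ j, C j).Finite := Set.finite_iUnion (fun j => chain_finite (C j) (hC j))
  set T : Finset ℕ := (hfin.image g).toFinset with hT
  have hmem : ∀ x, g x ∈ T := by
    intro x
    have h1 := (hg (g x)).2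
    have hne : (1 : ℕ∞) ≤ Set.encard {y | g y = g x} := by
      rw [Set.one_le_encard_iff_nonempty]
      exact ⟨x, rfl⟩
    have h2 : (1 : ℕ∞) ≤ Set.encard {j : Fin 2 | (C j ∩ {y | g y = g x}).Nonempty} := by
      refine le_trans (le_min hne ?_) h1
      norm_num
    rw [Set.one_le_encard_iff_nonempty] at h2
    obtain ⟨j, y, hy, hyx⟩ := h2
    rw [hT, Set.Finite.mem_toFinset]
    exact ⟨y, Set.mem_iUnion.2 ⟨j, hy⟩, hyx⟩
  have hinj : Function.Injective (fun m : Fin (T.card + 1) =>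
      (⟨g ⟨T.card + 1, m⟩, hmem _⟩ : T)) := by
    intro m m' h
    have h' : g ⟨T.card + 1, m⟩ = g ⟨T.card + 1, m'⟩ := congrArg Subtype.val h
    have hA := (hg (g ⟨T.card + 1, m'⟩)).1
    by_contra hne
    have key : ∀ a b : Fin (T.card + 1), a ≤ b → a ≠ b →
        g ⟨T.card + 1, a⟩ = g ⟨T.card + 1, m'⟩ → g ⟨T.card + 1, b⟩ = g ⟨T.card + 1, m'⟩ → False := by
      intro a b hab hne ha hb
      have h1 : (⟨T.card + 1, a⟩ : Σ n : ℕ, Fin n) ∈ {x | g x = g ⟨T.card + 1, m'⟩} := ha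
      have h2 : (⟨T.card + 1, b⟩ : Σ n : ℕ, Fin n) ∈ {x | g x = g ⟨T.card + 1, m'⟩} := hb
      have h3 : (⟨T.card + 1, a⟩ : Σ n : ℕ, Fin n) ≠ ⟨T.card + 1, b⟩ := by
        intro h
        exact hne (by simpa using h)
      exact hA h1 h2 h3 (Sigma.mk_le_mk_iff.2 hab)
    rcases le_total m m' with hle | hle
    · exact key m m' hle hne h' rfl
    · exact key m' m hle (Ne.symm hne) rfl h'
  have hcard := Fintype.card_le_of_injective _ hinj
  simp at hcard

end Pool.Agent.S07574
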