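import Pool.Statements.S07874
import Pool.Agent.Results.MP_2d87f2_co.Blowup

set_option autoImplicit false
open Pool Pool.MP_2d87f2_co
open Pool.Agent.Results.MP_2d87f2_co

namespace Pool.Agent.S07874

/-- The negation of the preceding statement: For every infinite connected locally finite vertex-transitive graph G, every k ≥ 1 and every maximal k-separated vertex set S, the Cheeger constant of the graph on S joining points at distance ≤ 2k is at least the Cheeger constant of G. -/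
theorem result :
    ¬ (∀ (V : Type) (G : SimpleGraph V), Infinite V → G.Connected →
      (∀ v : V, (G.neighborSet v).Finite) →
      (∀ u v : V, ∃ φ : G ≃g G, φ u = v) →
      ∀ k : ℕ, 1 ≤ k →
      ∀ S : Set V,
        (∀ u ∈ S, ∀ v ∈ S, u ≠ v → k ≤ G.dist u v) →
        (∀ w : V, w ∉ S → ∃ u ∈ S, G.dist w u < k) →
        sInf {r : ℝ | ∃ A : Finset V, A.Nonempty ∧
            r = (Set.ncard {p : V × V | p.1 ∈ A ∧ p.2 ∉ A ∧ G.Adj p.1 p.2} : ℝ)
              / (A.card : ℝ)}
          ≤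
        sInf {r : ℝ | ∃ A : Finset V, A.Nonempty ∧ (↑A : Set V) ⊆ S ∧
            r = (Set.ncard {p : V × V | p.1 ∈ A ∧ p.2 ∈ S ∧ p.2 ∉ A ∧
                  G.dist p.1 p.2 ≤ 2 * k} : ℝ)
              / (A.card : ℝ)}) := by
  classical
  intro H
  obtain ⟨m, hm⟩ := exists_nat_gt (Blowup.ballCard 4 : ℝ)
  have hm0 : 0 < m := by
    have h1 : (0 : ℝ) ≤ (Blowup.ballCard 4 : ℝ) := by positivity
    exact_mod_cast h1.trans_lt hm
  haveI : NeZero m := ⟨hm0.ne'⟩
  have hinf : Infinite (Blowup.W m) := by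
    have h1 : Infinite Blowup.F := by
      rw [← not_finite_iff_infinite]
      intro hf
      have h2 : Function.Injective (fun q : Blowup.F × Bool => Blowup.child q.1 q.2) := by
        rintro ⟨v, b⟩ ⟨w, c⟩ h
        obtain ⟨rfl, rfl⟩ := Blowup.child_injective _ _ _ _ h
        rfl
      have h3 := Nat.card_le_card_of_injective _ h2
      rw [Nat.card_prod] at h3
      have h4 : 0 < Nat.card Blowup.F := Nat.card_pos
      have h5 : Nat.card Bool = 2 := by simp
      rw [h5] at h3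
      omega
    infer_instance
  obtain ⟨S, hS⟩ := Blowup.exists_net (Blowup.gr m) 2
  have hmax : ∀ w : Blowup.W m, w ∉ S → ∃ u ∈ S, (Blowup.gr m).dist w u < 2 := by
    intro w hw
    by_contra hcon
    push Not at hcon
    have h1 : Blowup.Separated (Blowup.gr m) 2 (insert w S) := by
      rintro u (rfl | hu) v (rfl | hv) huv
      · exact absurd rfl huv
      · exact hcon v hv
      · rw [SimpleGraph.dist_comm]; exact hcon u hu
      · exact hS.1 u hu v hv huv
    exact hw (hS.2 h1 (Set.subset_insert _ _) (Set.mem_insert _ _))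
  have key := H (Blowup.W m) (Blowup.gr m) hinf (Blowup.connected m) (Blowup.locFinite m)
    (Blowup.transitive m) 2 (by norm_num) S (fun u hu v hv huv => hS.1 u hu v hv huv) hmax
  have hpairfin : ∀ A : Finset (Blowup.W m),
      {p : Blowup.W m × Blowup.W m | p.1 ∈ A ∧ p.2 ∉ A ∧ (Blowup.gr m).Adj p.1 p.2}.Finite := by
    intro A
    have h1 : (⋃ x ∈ A, (fun y => (x, y)) '' (Blowup.gr m).neighborSet x).Finite :=
      Set.Finite.biUnion A.finite_toSet (fun x _ => (Blowup.locFinite m x).image _)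
    refine h1.subset ?_
    rintro ⟨u, v⟩ ⟨hu, -, hadj⟩
    rw [Set.mem_iUnion₂]
    exact ⟨u, hu, v, hadj, rfl⟩
  have hlow : (m : ℝ) ≤ sInf {r : ℝ | ∃ A : Finset (Blowup.W m), A.Nonempty ∧
            r = (Set.ncard {p : Blowup.W m × Blowup.W m |
              p.1 ∈ A ∧ p.2 ∉ A ∧ (Blowup.gr m).Adj p.1 p.2} : ℝ)
              / (A.card : ℝ)} := by
    refine le_csInf ⟨_, {((1 : Blowup.F), (0 : Fin m))}, Finset.singleton_nonempty _, rfl⟩ ?_
    rintro r ⟨A, hA, rfl⟩
    have h1 : (0 : ℝ) < A.card := by exact_mod_cast hA.card_pos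
    rw [le_div_iff₀ h1]
    have h2 := Blowup.boundary_lower m A
    have h3 : (Blowup.edgeBoundary (Blowup.gr m) A).ncard ≤
        {p : Blowup.W m × Blowup.W m | p.1 ∈ A ∧ p.2 ∉ A ∧ (Blowup.gr m).Adj p.1 p.2}.ncard := by
      have h4 : Blowup.edgeBoundary (Blowup.gr m) A ⊆
          (fun p : Blowup.W m × Blowup.W m => s(p.1, p.2)) ''
          {p : Blowup.W m × Blowup.W m | p.1 ∈ A ∧ p.2 ∉ A ∧ (Blowup.gr m).Adj p.1 p.2} := by
        rintro e ⟨he, u, hu, v, hv, rfl⟩
        exact ⟨(u, v), ⟨hu, hv, he⟩, rfl⟩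
      exact (Set.ncard_le_ncard h4 ((hpairfin A).image _)).trans
        (Set.ncard_image_le (hpairfin A))
    exact_mod_cast h2.trans h3
  have hne : S.Nonempty := by
    by_contra h
    rw [Set.not_nonempty_iff_eq_empty] at h
    obtain ⟨u, hu, -⟩ := hmax ((1 : Blowup.F), (0 : Fin m)) (by rw [h]; exact fun h => h)
    rw [h] at hu
    exact hu
  obtain ⟨s, hs⟩ := hne
  have hupp : sInf {r : ℝ | ∃ A : Finset (Blowup.W m), A.Nonempty ∧ (↑A : Set (Blowup.W m)) ⊆ S ∧
            r = (Set.ncard {p : Blowup.W m × Blowup.W m | p.1 ∈ A ∧ p.2 ∈ S ∧ p.2 ∉ A ∧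
                  (Blowup.gr m).dist p.1 p.2 ≤ 2 * 2} : ℝ)
              / (A.card : ℝ)} ≤ (Blowup.ballCard 4 : ℝ) := by
    have hb : BddBelow {r : ℝ | ∃ A : Finset (Blowup.W m), A.Nonempty ∧
            (↑A : Set (Blowup.W m)) ⊆ S ∧
            r = (Set.ncard {p : Blowup.W m × Blowup.W m | p.1 ∈ A ∧ p.2 ∈ S ∧ p.2 ∉ A ∧
                  (Blowup.gr m).dist p.1 p.2 ≤ 2 * 2} : ℝ)
              / (A.card : ℝ)} := by
      refine ⟨0, ?_⟩
      rintro r ⟨A, -, -, rfl⟩
      positivity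
    refine (csInf_le hb ⟨{s}, Finset.singleton_nonempty _, by simpa using hs, rfl⟩).trans ?_
    rw [Finset.card_singleton, Nat.cast_one, div_one]
    have hsep : ∀ y ∈ S, ∀ y' ∈ S, (y : Blowup.W m).1 = y'.1 → y = y' := by
      intro y hy y' hy' h
      by_contra hne
      have h1 := hS.1 _ hy _ hy' hne
      have h2 : (Blowup.gr m).Adj y y' := by
        rw [Blowup.gr_adj]
        refine ⟨hne, ?_⟩
        rw [h]
        simp
      rw [SimpleGraph.dist_eq_one_iff_adj.2 h2] at h1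
      omega
    have hle : {p : Blowup.W m × Blowup.W m | p.1 ∈ ({s} : Finset (Blowup.W m)) ∧ p.2 ∈ S ∧
        p.2 ∉ ({s} : Finset (Blowup.W m)) ∧ (Blowup.gr m).dist p.1 p.2 ≤ 2 * 2}.ncard ≤
        {x : Blowup.F | x.norm ≤ 4}.ncard := by
      refine Set.ncard_le_ncard_of_injOn (fun p => p.2.1 * s.1⁻¹) ?_ ?_ (Blowup.ball_finite _)
      · rintro ⟨u, v⟩ ⟨hu, hv, -, hd⟩
        have hu' : u = s := Finset.mem_singleton.1 hu
        subst hu'
        exact (Blowup.norm_le_dist m _ _).trans hd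
      · rintro ⟨u, v⟩ ⟨hu, hv, -, -⟩ ⟨u', v'⟩ ⟨hu', hv', -, -⟩ h
        have e1 : u = s := Finset.mem_singleton.1 hu
        have e2 : u' = s := Finset.mem_singleton.1 hu'
        have h3 : v.1 = v'.1 := mul_right_cancel h
        rw [e1, e2, hsep v hv v' hv' h3]
    exact_mod_cast hle
  linarith [hlow.trans (key.trans hupp)]

end Pool.Agent.S07874
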