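import Pool.Statements.S07942
import Pool.Agent.Results.MP_30ed83_co.LinearForests

set_option autoImplicit false
open Pool Pool.MP_30ed83_co

namespace Pool.Agent.S07942

open SimpleGraph

/-- The claw `K_{1,3}` on `Fin 4`. -/
def claw : SimpleGraph (Fin 4) := SimpleGraph.fromRel (fun i j => i = 0 ∧ j ≠ 0)

theorem claw_adj (i j : Fin 4) : claw.Adj i j ↔ (i = 0 ∧ j ≠ 0) ∨ (j = 0 ∧ i ≠ 0) := by
  unfold claw
  rw [SimpleGraph.fromRel_adj]
  constructor
  · rintro ⟨-, h⟩
    exact h
  · rintro (⟨h1, h2⟩ | ⟨h1, h2⟩)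
    · exact ⟨by rw [h1]; exact fun h => h2 h.symm, Or.inl ⟨h1, h2⟩⟩
    · exact ⟨by rw [h1]; exact h2, Or.inr ⟨h1, h2⟩⟩

theorem claw_chi : claw.chromaticNumber = 2 := by
  apply le_antisymm
  · refine chromaticNumber_le_iff_colorable.2 ?_
    refine ⟨Coloring.mk (fun i => if i = 0 then (0 : Fin 2) else 1) ?_⟩
    intro i j hij
    rw [claw_adj] at hij
    rcases hij with ⟨h1, h2⟩ | ⟨h1, h2⟩
    · rw [if_pos h1, if_neg h2]; decide
    · rw [if_neg h2, if_pos h1]; decide
  · by_contra hcon
    have h1 : claw.chromaticNumber ≤ 1 := by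
      rw [not_le] at hcon
      exact Order.le_of_lt_add_one (by simpa using (show claw.chromaticNumber < 1 + 1 by
        rw [one_add_one_eq_two]; exact hcon))
    obtain ⟨C⟩ := chromaticNumber_le_iff_colorable.1 h1
    exact C.valid ((claw_adj 0 1).2 (Or.inl ⟨rfl, by decide⟩)) (Subsingleton.elim _ _)

/-- A path contains no induced claw. -/
theorem claw_not_path (k : ℕ) : ¬ claw.IsIndContained (pathGraph k) := by
  rintro ⟨e⟩
  have h : ∀ i : Fin 4, i ≠ 0 → (pathGraph k).Adj (e 0) (e i) := fun i hi =>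
    e.map_rel_iff.2 ((claw_adj 0 i).2 (Or.inl ⟨rfl, hi⟩))
  have h1 := pathGraph_adj.1 (h 1 (by decide))
  have h2 := pathGraph_adj.1 (h 2 (by decide))
  have h3 := pathGraph_adj.1 (h 3 (by decide))
  have d12 : (e 1).val ≠ (e 2).val := fun hh => absurd (e.injective (Fin.ext hh)) (by decide)
  have d13 : (e 1).val ≠ (e 3).val := fun hh => absurd (e.injective (Fin.ext hh)) (by decide)
  have d23 : (e 2).val ≠ (e 3).val := fun hh => absurd (e.injective (Fin.ext hh)) (by decide)
  omega

/-- The negation of the preceding statement: For every finite graph F with an edge and every r, some finite graph G has chromatic number above r and clique number equal to F's, and every induced subgraph of G with no induced copy of F has chromatic number at most that of F. -/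
theorem result :
    ¬ (∀ (n : ℕ) (F : SimpleGraph (Fin n)), F ≠ ⊥ →
      ∀ r : ℕ, ∃ (m : ℕ) (G : SimpleGraph (Fin m)),
        (r : ℕ∞) < G.chromaticNumber ∧
        G.cliqueNum = F.cliqueNum ∧
        ∀ s : Set (Fin m), ¬ F.IsIndContained (G.induce s) →
          (G.induce s).chromaticNumber ≤ F.chromaticNumber) := by
  intro h
  have hne : claw ≠ ⊥ := by
    intro hh
    have h1 : claw.Adj 0 1 := (claw_adj 0 1).2 (Or.inl ⟨rfl, by decide⟩)
    rw [hh] at h1
    exact h1
  obtain ⟨k, hk⟩ := (Pool.Agent.Results.MP_30ed83_co.LinearForests.result 4 claw claw_chi).1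
    (h 4 claw hne)
  exact claw_not_path k hk

end Pool.Agent.S07942
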