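import Pool.Statements.S07963
import Pool.Agent.Run7.h86.ChromRatioC
-- import your own Pool.Agent.* helpers here

set_option autoImplicit false
open Pool Pool.MP_31cced_co

namespace Pool.Agent.S07963

open Pool.Agent.Run7.H86.CR

/-- Colourings as functions. -/
def colEquiv {V : Type} (G : SimpleGraph V) (K : Type) :
    G.Coloring K ≃ {σ : V → K // ∀ u v, G.Adj u v → σ u ≠ σ v} where
  toFun c := ⟨fun v => c v, fun _ _ h => c.valid h⟩
  invFun σ := SimpleGraph.Coloring.mk σ.1 (fun {u v} h => σ.2 u v h)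
  left_inv c := by ext v; rfl
  right_inv σ := by rfl

lemma card_coloring {V : Type} [Fintype V] [DecidableEq V] (G : SimpleGraph V)
    [DecidableRel G.Adj] (K : Type) [Fintype K] [DecidableEq K] :
    Nat.card (G.Coloring K) = (Col G K).card := by
  rw [Nat.card_congr (colEquiv G K), Nat.card_eq_fintype_card, Fintype.card_subtype]
  rfl

lemma Z_one {V : Type} [Fintype V] [DecidableEq V] (G : SimpleGraph V)
    [DecidableRel G.Adj] (K : Type) [Fintype K] [DecidableEq K] (a : K) :
    Z G K a 1 = ((Col G K).card : ℝ) := by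
  unfold Z wt
  simp

lemma Z_zero {V : Type} [Fintype V] [DecidableEq V] (G : SimpleGraph V)
    [DecidableRel G.Adj] (m : ℕ) :
    Z G (Fin (m + 1)) (Fin.last m) 0 = ((Col G (Fin m)).card : ℝ) := by
  unfold Z wt
  have h1 : ∀ σ : V → Fin (m + 1), (0 : ℝ) ^ cnt (Fin.last m) σ =
      if (∀ v, σ v ≠ Fin.last m) then (1 : ℝ) else 0 := by
    intro σ
    split_ifs with h
    · have : cnt (Fin.last m) σ = 0 := by
        unfold cnt
        rw [Finset.card_eq_zero, Finset.filter_eq_empty_iff]
        intro v _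
        exact h v
      rw [this, pow_zero]
    · apply zero_pow
      unfold cnt
      rw [Finset.card_ne_zero]
      push Not at h
      obtain ⟨v, hv⟩ := h
      exact ⟨v, by simp [hv]⟩
  simp_rw [h1]
  rw [← Finset.sum_filter, Finset.sum_const, nsmul_eq_mul, mul_one]
  congr 1
  symm
  refine Finset.card_bij (fun σ _ => fun v => (σ v).castSucc) ?_ ?_ ?_
  · intro σ hσ
    rw [mem_Col] at hσ
    rw [Finset.mem_filter, mem_Col]
    refine ⟨fun u v huv h => hσ u v huv (Fin.castSucc_injective _ h), fun v => ?_⟩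
    exact (Fin.castSucc_lt_last _).ne
  · intro σ _ τ _ h
    funext v
    exact Fin.castSucc_injective _ (congrFun h v)
  · intro σ hσ
    rw [Finset.mem_filter, mem_Col] at hσ
    refine ⟨fun v => (σ v).castPred (hσ.2 v), ?_, ?_⟩
    · rw [mem_Col]
      intro u v huv h
      apply hσ.1 u v huv
      exact (Fin.castPred_inj).1 h
    · funext v
      simp

/-- For every finite simple graph G on n vertices with clique number ω and every integer λ ≥ n, the number of proper (λ−1)-colourings divided by the number of proper λ-colourings is at most (1−ω/λ)(1−1/λ)^(n−ω). -/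
theorem result :
    ∀ (V : Type) [Fintype V] (G : SimpleGraph V) (lam : ℕ),
      Fintype.card V ≤ lam →
      (Nat.card (G.Coloring (Fin (lam - 1))) : ℝ) / (Nat.card (G.Coloring (Fin lam)) : ℝ)
        ≤ (1 - ((sSup {k : ℕ | ∃ s : Finset V, G.IsNClique k s} : ℕ) : ℝ) / (lam : ℝ))
          * (1 - 1 / (lam : ℝ)) ^ (Fintype.card V - sSup {k : ℕ | ∃ s : Finset V, G.IsNClique k s}) := by
  intro V _ G lam hlam
  classical
  obtain ⟨C, hC⟩ := G.exists_isNClique_cliqueNum
  have hω : sSup {k : ℕ | ∃ s : Finset V, G.IsNClique k s} = C.card := by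
    rw [hC.2]; rfl
  rw [hω]
  rcases Nat.eq_zero_or_pos lam with h0 | hpos
  · subst h0
    have hV : Fintype.card V = 0 := by omega
    have : IsEmpty V := Fintype.card_eq_zero_iff.1 hV
    have hC0 : C.card = 0 := by
      have := Finset.card_le_univ C
      omega
    rw [hV, hC0]
    simp
  obtain ⟨m, rfl⟩ : ∃ m, lam = m + 1 := ⟨lam - 1, by omega⟩
  have hm : m + 1 - 1 = m := rfl
  rw [hm, card_coloring, card_coloring]
  have hcliq : ∀ u ∈ C, ∀ v ∈ C, u ≠ v → G.Adj u v := by
    intro u hu v hv huv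
    exact hC.1 hu hv huv
  have hK : ((Fintype.card (Fin (m + 1)) : ℕ) : ℝ) = (m : ℝ) + 1 := by
    rw [Fintype.card_fin]; push_cast; ring
  have key := ratio_bound G (Fin.last m) C hcliq (by rw [Fintype.card_fin]; exact hlam)
    (by rw [hK]; linarith [Nat.cast_nonneg (α := ℝ) m])
  rw [Z_zero, Z_one, hK] at key
  unfold D at key
  set n := Fintype.card V - C.card with hn
  have hm0 : (0 : ℝ) < (m : ℝ) + 1 := by positivity
  -- positivity of the number of colourings
  have hP : (0 : ℝ) < ((Col G (Fin (m + 1))).card : ℝ) := by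
    rw [Nat.cast_pos, Finset.card_pos]
    obtain ⟨f⟩ : Nonempty (V ↪ Fin (m + 1)) := by
      rw [Function.Embedding.nonempty_iff_card_le, Fintype.card_fin]
      exact hlam
    refine ⟨f, ?_⟩
    rw [mem_Col]
    intro u v huv h
    exact huv.ne (f.injective h)
  rw [div_le_iff₀ hP]
  have e1 : (1 - (C.card : ℝ) / ((m + 1 : ℕ) : ℝ)) = ((m : ℝ) + 1 - C.card) / ((m : ℝ) + 1) := by
    push_cast
    field_simp
  have e2 : (1 - 1 / ((m + 1 : ℕ) : ℝ)) = (m : ℝ) / ((m : ℝ) + 1) := by
    push_cast
    field_simp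
    ring
  rw [e1, e2, div_pow, div_mul_div_comm, div_mul_eq_mul_div, le_div_iff₀ (by positivity)]
  have e3 : (m : ℝ) + 1 - 1 + 1 = m + 1 := by ring
  have e4 : (m : ℝ) + 1 - 1 + 0 = m := by ring
  rw [e3, e4] at key
  linarith [key]

end Pool.Agent.S07963
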