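import Pool.Statements.S08068
import Pool.Agent.Run7.h494.Four.Final

set_option autoImplicit false
open Pool Pool.MP_3579fe_co

namespace Pool.Agent.S08068

/-- The negation of the preceding statement: There is a natural number n such that for all finite graphs G and H both of chromatic number n, their tensor (categorical) product has chromatic number at least 5. -/
theorem result :
    ¬ (∃ n : ℕ, ∀ (V W : Type) [Fintype V] [Fintype W] (G : SimpleGraph V) (H : SimpleGraph W),
      G.chromaticNumber = (n : ℕ∞) → H.chromaticNumber = (n : ℕ∞) →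
        (5 : ℕ∞) ≤ (SimpleGraph.fromRel
          (fun p q : V × W => G.Adj p.1 q.1 ∧ H.Adj p.2 q.2)).chromaticNumber) := by
  rintro ⟨n, hn⟩
  obtain ⟨V, W, iV, iW, G, H, h1, h2, h3⟩ :=
    Nat.sInf_mem (Run7.h494.polRod_nonempty n)
  have h4 := hn V W G H h1 h2
  have h5 : (SimpleGraph.fromRel
      (fun p q : V × W => G.Adj p.1 q.1 ∧ H.Adj p.2 q.2)).chromaticNumber =
      (Run7.h494.polRod n : ℕ∞) := h3
  rw [h5] at h4
  have h6 : 5 ≤ Run7.h494.polRod n := by exact_mod_cast h4
  have h7 := Run7.h494.Four.polRod_le_four n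
  omega

end Pool.Agent.S08068
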