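import Pool.Statements.S08110

set_option autoImplicit false
universe u
open Pool Pool.MP_375da3_co

namespace Pool.Agent.S08110

/-- Truncation codes: `(n, s)` with `s : ℕ → Bool` restricted to the first `n` places, coded as lists. -/
def pre (x : ℕ → Bool) (n : ℕ) : List Bool := (List.range n).map x

theorem pre_eq_imp {x y : ℕ → Bool} {n : ℕ} (h : pre x n = pre y n) (k : ℕ) (hk : k < n) :
    x k = y k := by
  unfold pre at h
  have := List.map_inj_left.mp h k (List.mem_range.mpr hk)
  exact this

/-- A point outside a finite set is separated from it by a finite truncation. -/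
theorem exists_sep (x : ℕ → Bool) (F : Finset (ULift.{u} (ℕ → Bool)))
    (hx : ULift.up x ∉ F) : ∃ n, ∀ y ∈ F, pre y.down n ≠ pre x n := by
  classical
  induction F using Finset.induction_on with
  | empty => exact ⟨0, by simp⟩
  | insert a F ha ih =>
    rw [Finset.mem_insert, not_or] at hx
    obtain ⟨n, hn⟩ := ih hx.2
    have hne : a.down ≠ x := by
      intro h
      apply hx.1
      cases a
      simp only at h
      rw [h]
    obtain ⟨k, hk⟩ := Function.ne_iff.mp hne
    refine ⟨max n (k+1), ?_⟩
    intro y hy hyx
    rw [Finset.mem_insert] at hy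
    rcases hy with rfl | hy
    · exact hk (pre_eq_imp hyx k (lt_of_lt_of_le (Nat.lt_succ_self k) (le_max_right _ _)))
    · apply hn y hy
      unfold pre
      apply List.map_inj_left.mpr
      intro j hj
      exact pre_eq_imp hyx j (lt_of_lt_of_le (List.mem_range.mp hj) (le_max_left _ _))

/-- The negation of the preceding statement: For every distributive lattice T: if T order-embeds into a product of chains indexed by ι, then T embeds as a sublattice into some product of chains indexed by ι; that is, algebraic dimension equals order dimension. -/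
theorem result :
    ¬ (∀ (T : Type u) [DistribLattice T] (ι : Type u) (C : ι → Type u)
      [∀ i, LinearOrder (C i)],
      Nonempty (T ↪o ((i : ι) → C i)) →
        ∃ (D : ι → Type u) (_ : ∀ i, LinearOrder (D i)),
          ∃ f : LatticeHom T ((i : ι) → D i), Function.Injective f) := by
  classical
  intro H
  let X : Type u := ULift.{u} (ℕ → Bool)
  let ι : Type u := ULift.{u} (List Bool)
  let C : ι → Type u := fun _ => ULift.{u} Prop
  let e : Finset X → ((i : ι) → C i) := fun F i => ULift.up (∃ y ∈ F, ∃ n, pre y.down n = i.down)
  have he : ∀ E F : Finset X, e E ≤ e F ↔ E ≤ F := by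
    intro E F
    constructor
    · intro h x hx
      by_contra hxF
      obtain ⟨n, hn⟩ := exists_sep x.down F (by simpa using hxF)
      have h1 := h (ULift.up (pre x.down n))
      have h2 : ∃ y ∈ F, ∃ m, pre y.down m = pre x.down n := h1 ⟨x, hx, n, rfl⟩
      obtain ⟨y, hy, m, hm⟩ := h2
      have hmn : m = n := by
        have := congrArg List.length hm
        simpa [pre] using this
      subst hmn
      exact hn y hy hm
    · intro h i
      change (∃ y ∈ E, ∃ n, pre y.down n = i.down) → (∃ y ∈ F, ∃ n, pre y.down n = i.down)
      rintro ⟨y, hy, n, hn⟩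
      exact ⟨y, h hy, n, hn⟩
  have hemb : Nonempty (Finset X ↪o ((i : ι) → C i)) := ⟨OrderEmbedding.ofMapLEIff e he⟩
  obtain ⟨D, instD, f, hf⟩ := H (Finset X) ι C hemb
  have hne : ∀ x : X, ∃ i : ι, f {x} i ≠ f ∅ i := by
    intro x
    have : f {x} ≠ f ∅ := by
      intro h
      exact Finset.singleton_ne_empty x (hf h)
    exact Function.ne_iff.mp this
  choose g hg using hne
  have ginj : Function.Injective g := by
    intro x y hxy
    by_contra hne
    have hdisj : ({x} : Finset X) ⊓ {y} = ∅ := by
      rw [Finset.inf_eq_inter]
      exact Finset.disjoint_iff_inter_eq_empty.mp (Finset.disjoint_singleton.mpr hne)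
    have h1 : f {x} (g x) ⊓ f {y} (g x) = f ∅ (g x) := by
      have h0 : f (({x} : Finset X) ⊓ {y}) = f {x} ⊓ f {y} := f.map_inf' {x} {y}
      rw [hdisj] at h0
      rw [h0]
      rfl
    rcases le_total (f {x} (g x)) (f {y} (g x)) with h | h
    · rw [inf_eq_left.mpr h] at h1
      exact hg x h1
    · rw [inf_eq_right.mpr h] at h1
      rw [hxy] at h1
      exact hg y h1
  have hcount : Countable X := by
    have : Countable ι := by
      show Countable (ULift (List Bool))
      infer_instance
    exact ginj.countable
  have : Countable (ℕ → Bool) := by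
    have := hcount
    exact (ULift.up_injective (α := ℕ → Bool)).countable
  have hunc : Uncountable (ℕ → Bool) := by
    rw [← Cardinal.aleph0_lt_mk_iff]
    simp only [Cardinal.mk_pi, Cardinal.mk_fintype]
    simpa using Cardinal.cantor Cardinal.aleph0
  exact (not_countable_iff.mpr hunc) this

end Pool.Agent.S08110
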