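import Pool.Statements.S08181
import Pool.Agent.Results.MP_3a2c26_co.SharpHyperbola

set_option autoImplicit false
open Pool Pool.MP_3a2c26_co

namespace Pool.Agent.S08181

open Pool.Agent.Results.MP_3a2c26_co.SharpHyperbola in
/-- `λ₂` is at most the Rayleigh quotient of every nonzero vector orthogonal to the constants. -/
lemma lam2_le_quot {n : ℕ} (hn : 2 ≤ n) (w : Fin n → Fin n → ℝ) (x : Fin n → ℝ)
    (hx : ∑ i, x i = 0) (hx0 : x ≠ 0) :
    lam2 w ≤ (∑ i, ∑ j, w i j * (x i - x j) ^ 2) / (2 * ∑ i, x i ^ 2) := by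
  obtain ⟨_, _, _, hmin⟩ := exists_min hn w
  have h := lam2_le w (lam2 w) hmin x hx
  have hq : 0 < ∑ i, x i ^ 2 := by
    obtain ⟨i, hi⟩ : ∃ i, x i ≠ 0 := by
      by_contra hc
      push Not at hc
      exact hx0 (funext hc)
    exact Finset.sum_pos' (fun i _ => sq_nonneg (x i)) ⟨i, Finset.mem_univ i, by positivity⟩
  rw [le_div_iff₀ (by linarith)]
  unfold lapForm at h
  linarith

/-- Take any symmetric weights in [0,1] on n ≥ 2 vertices. For nonzero x, y orthogonal to all-ones, the Laplacian Rayleigh quotient of x for G plus that of y for the complement (weights 1−w) is ≥ 1, i.e. λ₂(G)+λ₂(Gᶜ) ≥ 1. -/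
theorem result :
    ∀ n : ℕ, 2 ≤ n →
      ∀ w : Fin n → Fin n → ℝ,
        (∀ i j, w i j = w j i) →
        (∀ i j, 0 ≤ w i j ∧ w i j ≤ 1) →
        ∀ x y : Fin n → ℝ,
          (∑ i, x i = 0) → (∑ i, y i = 0) → x ≠ 0 → y ≠ 0 →
          1 ≤ (∑ i, ∑ j, w i j * (x i - x j) ^ 2) / (2 * ∑ i, x i ^ 2)
            + (∑ i, ∑ j, (1 - w i j) * (y i - y j) ^ 2) / (2 * ∑ i, y i ^ 2) := by
  intro n hn w hs h01 x y hx hy hx0 hy0
  have h := (Pool.Agent.Results.MP_3a2c26_co.SharpHyperbola.result n hn w hs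
    (fun i j => (h01 i j).1) (fun i j => (h01 i j).2)).2
  have h1 := lam2_le_quot hn w x hx hx0
  have h2 := lam2_le_quot hn (fun i j => 1 - w i j) y hy hy0
  linarith

end Pool.Agent.S08181
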