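import Pool.Statements.S08268

set_option autoImplicit false
open Pool Pool.MP_3df3be_co

namespace Pool.Agent.S08268

/-- A row through a subsquare runs through exactly the symbols of the subsquare. -/
theorem row_image {n m : ℕ} (L : Fin n → Fin n → Fin n)
    (hrow : ∀ i, Function.Injective (L i))
    (R C S : Finset (Fin n)) (hC : C.card = m) (hS : S.card = m)
    (h : ∀ r ∈ R, ∀ c ∈ C, L r c ∈ S) (r : Fin n) (hr : r ∈ R) :
    C.image (L r) = S := by
  apply Finset.eq_of_subset_of_card_le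
  · intro s hs
    obtain ⟨c, hc, rfl⟩ := Finset.mem_image.mp hs
    exact h r hr c hc
  · rw [Finset.card_image_of_injective _ (hrow r), hC, hS]

theorem row_out {n m : ℕ} (L : Fin n → Fin n → Fin n)
    (hrow : ∀ i, Function.Injective (L i))
    (R C S : Finset (Fin n)) (hC : C.card = m) (hS : S.card = m)
    (h : ∀ r ∈ R, ∀ c ∈ C, L r c ∈ S) (r : Fin n) (hr : r ∈ R) (c : Fin n) (hc : c ∉ C) :
    L r c ∉ S := by
  intro hmem
  rw [← row_image L hrow R C S hC hS h r hr] at hmem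
  obtain ⟨c', hc', he⟩ := Finset.mem_image.mp hmem
  exact hc (hrow r he ▸ hc')

theorem col_out {n m : ℕ} (L : Fin n → Fin n → Fin n)
    (hcol : ∀ j, Function.Injective (fun i => L i j))
    (R C S : Finset (Fin n)) (hR : R.card = m) (hS : S.card = m)
    (h : ∀ r ∈ R, ∀ c ∈ C, L r c ∈ S) (r : Fin n) (hr : r ∉ R) (c : Fin n) (hc : c ∈ C) :
    L r c ∉ S :=
  row_out (fun i j => L j i) hcol C R S hR hS (fun c hc r hr => h r hr c hc) c hc r hr

/-- A subsquare of order `3` does not fit in one of order `4`. -/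
theorem no_three_in_four {n : ℕ} (L : Fin n → Fin n → Fin n)
    (hrow : ∀ i, Function.Injective (L i)) (hcol : ∀ j, Function.Injective (fun i => L i j))
    (R C S R' C' S' : Finset (Fin n))
    (hR : R.card = 3) (hC : C.card = 3) (hS : S.card = 3)
    (h : ∀ r ∈ R, ∀ c ∈ C, L r c ∈ S)
    (hR' : R'.card = 4) (hS' : S'.card = 4)
    (h' : ∀ r ∈ R', ∀ c ∈ C', L r c ∈ S')
    (hRR : R ⊆ R') (hCC : C ⊆ C') : False := by
  obtain ⟨r₀, hr₀⟩ : R.Nonempty := by
    rw [← Finset.card_pos]; omega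
  have hSS : S ⊆ S' := by
    rw [← row_image L hrow R C S hC hS h r₀ hr₀]
    intro s hs
    obtain ⟨c, hc, rfl⟩ := Finset.mem_image.mp hs
    exact h' r₀ (hRR hr₀) c (hCC hc)
  obtain ⟨r, hr, hrR⟩ : ∃ r ∈ R', r ∉ R := by
    apply Finset.exists_mem_notMem_of_card_lt_card
    omega
  have hsub : C.image (L r) ⊆ S' \ S := by
    intro s hs
    obtain ⟨c, hc, rfl⟩ := Finset.mem_image.mp hs
    rw [Finset.mem_sdiff]
    exact ⟨h' r hr c (hCC hc), col_out L hcol R C S hR hS h r hrR c hc⟩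
  have h1 := Finset.card_le_card hsub
  rw [Finset.card_image_of_injective _ (hrow r), hC, Finset.card_sdiff_of_subset hSS, hS, hS'] at h1
  omega

/-- In a latin square of order `8` with a subsquare of order `4`, a subsquare of order `3` cannot
have rows both inside and outside of the rows of the subsquare of order `4`. -/
theorem no_split (L : Fin 8 → Fin 8 → Fin 8)
    (hrow : ∀ i, Function.Injective (L i)) (hcol : ∀ j, Function.Injective (fun i => L i j))
    (R C S R' C' S' : Finset (Fin 8))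
    (hC : C.card = 3) (hS : S.card = 3)
    (h : ∀ r ∈ R, ∀ c ∈ C, L r c ∈ S)
    (hR' : R'.card = 4) (hC' : C'.card = 4) (hS' : S'.card = 4)
    (h' : ∀ r ∈ R', ∀ c ∈ C', L r c ∈ S')
    (hcc : ∀ r, r ∉ R' → ∀ c, c ∉ C' → L r c ∈ S') :
    R ⊆ R' ∨ R ⊆ R'ᶜ := by
  by_contra hcon
  rw [not_or] at hcon
  obtain ⟨h1, h2⟩ := hcon
  obtain ⟨r₁, hr₁, hr₁'⟩ := Finset.not_subset.mp h1
  obtain ⟨r₂, hr₂, hr₂'⟩ := Finset.not_subset.mp h2
  rw [Finset.mem_compl, not_not] at hr₂'
  -- the row `r₂` is inside, the row `r₁` is outside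
  have e2 : (C ∩ C').image (L r₂) = S ∩ S' := by
    ext s
    constructor
    · intro hs
      obtain ⟨c, hc, rfl⟩ := Finset.mem_image.mp hs
      rw [Finset.mem_inter] at hc ⊢
      exact ⟨h r₂ hr₂ c hc.1, h' r₂ hr₂' c hc.2⟩
    · intro hs
      rw [Finset.mem_inter] at hs
      obtain ⟨hs1, hs2⟩ := hs
      rw [← row_image L hrow R C S hC hS h r₂ hr₂] at hs1
      obtain ⟨c, hc, rfl⟩ := Finset.mem_image.mp hs1
      refine Finset.mem_image.mpr ⟨c, Finset.mem_inter.mpr ⟨hc, ?_⟩, rfl⟩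
      by_contra hc'
      exact row_out L hrow R' C' S' hC' hS' h' r₂ hr₂' c hc' hs2
  have e1 : (C \ C').image (L r₁) = S ∩ S' := by
    ext s
    constructor
    · intro hs
      obtain ⟨c, hc, rfl⟩ := Finset.mem_image.mp hs
      rw [Finset.mem_sdiff] at hc
      rw [Finset.mem_inter]
      exact ⟨h r₁ hr₁ c hc.1, hcc r₁ hr₁' c hc.2⟩
    · intro hs
      rw [Finset.mem_inter] at hs
      obtain ⟨hs1, hs2⟩ := hs
      rw [← row_image L hrow R C S hC hS h r₁ hr₁] at hs1
      obtain ⟨c, hc, rfl⟩ := Finset.mem_image.mp hs1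
      refine Finset.mem_image.mpr ⟨c, Finset.mem_sdiff.mpr ⟨hc, ?_⟩, rfl⟩
      intro hc'
      exact col_out L hcol R' C' S' hR' hS' h' r₁ hr₁' c hc' hs2
  have c2 := congrArg Finset.card e2
  have c1 := congrArg Finset.card e1
  rw [Finset.card_image_of_injective _ (hrow _)] at c1 c2
  have := Finset.card_inter_add_card_sdiff C C'
  omega

/-- The negation of the preceding statement: For every n there is a latin square of order n such that, for each m with 1 ≤ m and 2m ≤ n, some m rows and m columns meet in an m×m subarray using only m symbols, i.e. a latin subsquare of order m. -/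
theorem result :
    ¬ (∀ n : ℕ, ∃ L : Fin n → Fin n → Fin n,
      (∀ i : Fin n, Function.Bijective (L i)) ∧
      (∀ j : Fin n, Function.Bijective (fun i : Fin n => L i j)) ∧
      ∀ m : ℕ, 1 ≤ m → 2 * m ≤ n →
        ∃ R C S : Finset (Fin n),
          R.card = m ∧ C.card = m ∧ S.card = m ∧
          ∀ r ∈ R, ∀ c ∈ C, L r c ∈ S) := by
  intro hall
  obtain ⟨L, hrowb, hcolb, hm⟩ := hall 8
  have hrow : ∀ i, Function.Injective (L i) := fun i => (hrowb i).injective
  have hcol : ∀ j, Function.Injective (fun i => L i j) := fun j => (hcolb j).injective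
  obtain ⟨R', C', S', hR', hC', hS', h'⟩ := hm 4 (by norm_num) (by norm_num)
  obtain ⟨R, C, S, hR, hC, hS, h⟩ := hm 3 (by norm_num) (by norm_num)
  have cR : (R'ᶜ).card = 4 := by rw [Finset.card_compl, hR', Fintype.card_fin]
  have cC : (C'ᶜ).card = 4 := by rw [Finset.card_compl, hC', Fintype.card_fin]
  have cS : (S'ᶜ).card = 4 := by rw [Finset.card_compl, hS', Fintype.card_fin]
  -- the other three quadrants
  have q12 : ∀ r ∈ R', ∀ c ∈ C'ᶜ, L r c ∈ S'ᶜ := fun r hr c hc =>
    Finset.mem_compl.mpr (row_out L hrow R' C' S' hC' hS' h' r hr c (Finset.mem_compl.mp hc))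
  have q21 : ∀ r ∈ R'ᶜ, ∀ c ∈ C', L r c ∈ S'ᶜ := fun r hr c hc =>
    Finset.mem_compl.mpr (col_out L hcol R' C' S' hR' hS' h' r (Finset.mem_compl.mp hr) c hc)
  have q22 : ∀ r ∈ R'ᶜ, ∀ c ∈ C'ᶜ, L r c ∈ S' := by
    intro r hr c hc
    have := row_out L hrow R'ᶜ C' S'ᶜ hC' cS q21 r hr c (Finset.mem_compl.mp hc)
    rwa [Finset.mem_compl, not_not] at this
  have hsR : R ⊆ R' ∨ R ⊆ R'ᶜ :=
    no_split L hrow hcol R C S R' C' S' hC hS h hR' hC' hS' h'
      (fun r hr c hc => q22 r (Finset.mem_compl.mpr hr) c (Finset.mem_compl.mpr hc))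
  have hsC : C ⊆ C' ∨ C ⊆ C'ᶜ :=
    no_split (fun i j => L j i) hcol hrow C R S C' R' S' hR hS (fun c hc r hr => h r hr c hc)
      hC' hR' hS' (fun c hc r hr => h' r hr c hc)
      (fun c hc r hr => q22 r (Finset.mem_compl.mpr hr) c (Finset.mem_compl.mpr hc))
  rcases hsR with hsR | hsR <;> rcases hsC with hsC | hsC
  · exact no_three_in_four L hrow hcol R C S R' C' S' hR hC hS h hR' hS' h' hsR hsC
  · exact no_three_in_four L hrow hcol R C S R' C'ᶜ S'ᶜ hR hC hS h hR' cS q12 hsR hsC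
  · exact no_three_in_four L hrow hcol R C S R'ᶜ C' S'ᶜ hR hC hS h cR cS q21 hsR hsC
  · exact no_three_in_four L hrow hcol R C S R'ᶜ C'ᶜ S' hR hC hS h cR hS' q22 hsR hsC

end Pool.Agent.S08268
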