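import Pool.Statements.S08570
import Pool.Agent.Run7.h680.Main

set_option autoImplicit false
open Pool Pool.MP_49949b_co

namespace Pool.Agent.S08570

/-- The negation of the preceding statement: Some finite projective plane of order n=k² has a quasiregular collineation group G with 2∣G∣>n²+n+1, ∣G∣=(n−k+1)², exactly 2k+1 point orbits, and no point or line fixed by all of G. -/
theorem result :
    ¬ (∃ (P L : Type) (_ : Membership P L) (_ : Configuration.ProjectivePlane P L)
      (_ : Finite P) (G : Type) (_ : Group G) (_ : Finite G)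
      (_ : MulAction G P) (_ : MulAction G L) (k : ℕ),
      Configuration.ProjectivePlane.order P L = k ^ 2 ∧
      FaithfulSMul G P ∧
      (∀ (g : G) (p : P) (l : L), p ∈ l ↔ g • p ∈ g • l) ∧
      (∀ (g : G) (p q : P), q ∈ MulAction.orbit G p → g • p = p → g • q = q) ∧
      (∀ (g : G) (l m : L), m ∈ MulAction.orbit G l → g • l = l → g • m = m) ∧
      2 * Nat.card G > (k ^ 2) ^ 2 + k ^ 2 + 1 ∧
      Nat.card G = (k ^ 2 - k + 1) ^ 2 ∧
      Nat.card (MulAction.orbitRel.Quotient G P) = 2 * k + 1 ∧
      (¬ ∃ p : P, ∀ g : G, g • p = p) ∧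
      (¬ ∃ l : L, ∀ g : G, g • l = l)) := by
  rintro ⟨P, L, iM, iPP, iFP, G, iG, iFG, iaP, iaL, k, hord, hfaith, hinc, hqp, hql, h2, hG, hΩ, hnfp, hnfl⟩
  have hL : Finite L := Run7.h680.TypeH.finite_lines P L
  have h1 := Configuration.ProjectivePlane.one_lt_order P L
  rw [hord] at h1
  have hk : 3 ≤ k := by
    by_contra hcon
    have hk2 : k = 0 ∨ k = 1 ∨ k = 2 := by omega
    rcases hk2 with h | h | h
    · subst h; norm_num at h1
    · subst h; norm_num at h1
    · subst h
      rw [hG] at h2
      norm_num at h2
  exact Run7.h680.TypeH.Big.false (P := P) (L := L) (G := G) (k := k)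
    { H := { inc := hinc
             faith := fun g hg => hfaith.eq_of_smul_eq_smul (fun p => by rw [hg p, one_smul])
             qp := hqp
             ql := hql
             nfp := hnfp
             nfl := hnfl }
      hk := hk
      hord := hord
      hG := hG
      h2 := h2
      hΩ := hΩ }

end Pool.Agent.S08570
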