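import Pool.Statements.S08601
import Pool.Agent.Run7.h390.Main

set_option autoImplicit false
open Pool Pool.MP_4aeae0_co

namespace Pool.Agent.S08601

/-- For every finite graph H there are c, r such that every n-vertex graph with nonnegative vertex weights and no H induced minor has a set S whose removal leaves no connected part above half the total weight, with S inside at most c√n radius-r balls. -/
theorem result :
    ∀ (W : Type) [Fintype W] (H : SimpleGraph W),
      ∃ c r : ℕ,
        ∀ (V : Type) [Fintype V] (G : SimpleGraph V) (w : V → ℝ),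
          (∀ v, 0 ≤ w v) →
          (¬ ∃ B : W → Set V,
              (∀ a, (G.induce (B a)).Connected) ∧
              (∀ a b, a ≠ b → Disjoint (B a) (B b)) ∧
              (∀ a b, a ≠ b → (H.Adj a b ↔ ∃ x ∈ B a, ∃ y ∈ B b, G.Adj x y))) →
          ∃ S : Finset V, ∃ C : Finset V,
            ((C.card : ℝ) ≤ (c : ℝ) * Real.sqrt (Fintype.card V)) ∧
            (∀ x ∈ S, ∃ v ∈ C, G.edist v x ≤ (r : ℕ∞)) ∧
            (∀ T : Finset V, Disjoint T S → (G.induce (T : Set V)).Connected →
              ∑ v ∈ T, w v ≤ (∑ v, w v) / 2) := by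
  classical
  intro W _ H
  set e := Fintype.equivFin W with he
  refine ⟨Run7.h390.cc (Fintype.card W), Fintype.card W + 2, ?_⟩
  intro V _ G w hw hno
  have hfree : Run7.h390.HFree (H.comap e.symm) G := by
    rintro ⟨B, hB, hd, hadj⟩
    apply hno
    refine ⟨fun a => ((B (e a) : Finset V) : Set V), ?_, ?_, ?_⟩
    · intro a
      exact Run7.h390.connected_of_conn (hB (e a))
    · intro a b hab
      rw [Finset.disjoint_coe]
      exact hd _ _ (fun h => hab (e.injective h))
    · intro a b hab
      have h1 := hadj (e a) (e b) (fun h => hab (e.injective h))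
      rw [SimpleGraph.comap_adj, Equiv.symm_apply_apply, Equiv.symm_apply_apply] at h1
      rw [h1]
      simp only [Finset.mem_coe]
  obtain ⟨S, Y, hY, hcov, hsep⟩ := Run7.h390.main_aux (Fintype.card W) (H.comap e.symm)
    (Fintype.card V) V G rfl hfree w hw
  refine ⟨S, Y, hY, ?_, ?_⟩
  · intro x hx
    obtain ⟨v, hv, hn⟩ := hcov x hx
    exact ⟨v, hv, hn.edist_le⟩
  · intro T hT hc
    apply hsep T
    · intro x hx
      exact Finset.disjoint_left.1 hT hx
    · exact Run7.h390.conn_of_connected hc

end Pool.Agent.S08601
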