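import Pool.Statements.S08636
import Pool.Agent.Run7.h494.Four.Final

set_option autoImplicit false
open Pool Pool.MP_4cdbfb_co

namespace Pool.Agent.S08636

/-- The negation of the preceding statement: For every n there is f such that any two finite graphs G, H with chromatic number at least f have tensor (categorical) product G×H of chromatic number at least n. -/
theorem result :
    ¬ (∀ n : ℕ, ∃ f : ℕ, ∀ (V W : Type) [Finite V] [Finite W]
      (G : SimpleGraph V) (H : SimpleGraph W),
      (f : ℕ∞) ≤ G.chromaticNumber →
      (f : ℕ∞) ≤ H.chromaticNumber →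
      (n : ℕ∞) ≤ (SimpleGraph.comap (Prod.fst : V × W → V) G ⊓
                  SimpleGraph.comap (Prod.snd : V × W → W) H).chromaticNumber) := by
  intro h
  obtain ⟨f, hf⟩ := h 5
  obtain ⟨V, W, iV, iW, G, H, h1, h2, h3⟩ := Run7.h494.Four.pair_four f
  have h4 := hf V W G H h1 h2
  have h5 : SimpleGraph.comap (Prod.fst : V × W → V) G ⊓
      SimpleGraph.comap (Prod.snd : V × W → W) H = Run7.h494.tprod G H := by
    ext p q
    rw [Run7.h494.tprod_adj]
    exact Iff.rfl
  rw [h5] at h4
  have h6 := h4.trans (SimpleGraph.chromaticNumber_le_iff_colorable.2 h3)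
  have h7 : 5 ≤ 4 := by exact_mod_cast h6
  omega

end Pool.Agent.S08636
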