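import Pool.Statements.S08686

set_option autoImplicit false
open Pool Pool.MP_4e7ec3_co

namespace Pool.Agent.S08686

/-- The negation of the preceding statement: There is a constant k such that for every finite F in [0,1] containing 0 and 1, every ε>0, and every T:F→F moving each point by more than ε, some p₀ in F reaches a point at distance at least 1/3 in at most k/ε steps, each step going to T(p) or a neighbour of T(p) in F. -/
theorem result :
    ¬ (∃ k : ℝ, ∀ (F : Finset ℝ) (ε : ℝ) (T : ℝ → ℝ),
      (∀ p ∈ F, 0 ≤ p ∧ p ≤ 1) → (0 : ℝ) ∈ F → (1 : ℝ) ∈ F → 0 < ε →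
      (∀ p ∈ F, T p ∈ F ∧ ε < |p - T p|) →
      ∃ p₀ ∈ F, ∃ n : ℕ, (n : ℝ) ≤ k / ε ∧
        ∃ x : ℕ → ℝ, x 0 = p₀ ∧
          (∀ i < n,
            x (i + 1) = T (x i) ∨
            (x (i + 1) ∈ F ∧ x (i + 1) < T (x i) ∧
              ∀ r ∈ F, r < T (x i) → r ≤ x (i + 1)) ∨
            (x (i + 1) ∈ F ∧ T (x i) < x (i + 1) ∧
              ∀ r ∈ F, T (x i) < r → x (i + 1) ≤ r)) ∧
          1 / 3 ≤ |x n - p₀|) := by
  rintro ⟨k, h⟩
  -- two clusters of three points; the map never hits the inner end point of a cluster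
  obtain ⟨p, hp, n, -, x, hx0, hx, hfar⟩ := h
    {0, 1 / 10, 1 / 5, 4 / 5, 9 / 10, 1} (1 / 20)
    (fun p => if p = 0 then 1 / 10 else if p < 1 / 2 then 0 else if p = 1 then 9 / 10 else 1)
    (by
      intro p hp
      simp only [Finset.mem_insert, Finset.mem_singleton] at hp
      rcases hp with rfl | rfl | rfl | rfl | rfl | rfl <;> norm_num)
    (by simp) (by simp) (by norm_num)
    (by
      intro p hp
      simp only [Finset.mem_insert, Finset.mem_singleton] at hp
      rcases hp with rfl | rfl | rfl | rfl | rfl | rfl <;>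
        norm_num [Finset.mem_insert, abs_of_nonneg, abs_of_nonpos])
  -- the left cluster is closed under permissible steps
  have hL : (0 ≤ p ∧ p ≤ 1 / 5) → ∀ i ≤ n, 0 ≤ x i ∧ x i ≤ 1 / 5 := by
    intro h0 i
    induction i with
    | zero => intro _; rw [hx0]; exact h0
    | succ i ih =>
      intro hi
      obtain ⟨h1, h2⟩ := ih (by omega)
      have hstep := hx i (by omega)
      have hT : 0 ≤ (if x i = 0 then (1 / 10 : ℝ) else if x i < 1 / 2 then 0 else
          if x i = 1 then 9 / 10 else 1) ∧ (if x i = 0 then (1 / 10 : ℝ) else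
          if x i < 1 / 2 then 0 else if x i = 1 then 9 / 10 else 1) ≤ 1 / 10 := by
        have : x i < 1 / 2 := by linarith
        split_ifs <;> norm_num
      revert hT
      generalize (if x i = 0 then (1 / 10 : ℝ) else if x i < 1 / 2 then 0 else
          if x i = 1 then 9 / 10 else 1) = t at hstep ⊢
      rintro ⟨t0, t1⟩
      rcases hstep with h | ⟨hF, hlt, -⟩ | ⟨hF, hlt, hmin⟩
      · rw [h]; constructor <;> linarith
      · simp only [Finset.mem_insert, Finset.mem_singleton] at hF
        rcases hF with h | h | h | h | h | h <;> rw [h] at hlt ⊢ <;> constructor <;> linarith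
      · have := hmin (1 / 5) (by simp) (by linarith)
        constructor <;> linarith
  have hR : (4 / 5 ≤ p ∧ p ≤ 1) → ∀ i ≤ n, 4 / 5 ≤ x i ∧ x i ≤ 1 := by
    intro h0 i
    induction i with
    | zero => intro _; rw [hx0]; exact h0
    | succ i ih =>
      intro hi
      obtain ⟨h1, h2⟩ := ih (by omega)
      have hstep := hx i (by omega)
      have hT : 9 / 10 ≤ (if x i = 0 then (1 / 10 : ℝ) else if x i < 1 / 2 then 0 else
          if x i = 1 then 9 / 10 else 1) ∧ (if x i = 0 then (1 / 10 : ℝ) else
          if x i < 1 / 2 then 0 else if x i = 1 then 9 / 10 else 1) ≤ 1 := by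
        rw [if_neg (by intro h; linarith), if_neg (by linarith)]
        split_ifs <;> norm_num
      revert hT
      generalize (if x i = 0 then (1 / 10 : ℝ) else if x i < 1 / 2 then 0 else
          if x i = 1 then 9 / 10 else 1) = t at hstep ⊢
      rintro ⟨t0, t1⟩
      rcases hstep with h | ⟨hF, hlt, hmax⟩ | ⟨hF, hlt, -⟩
      · rw [h]; constructor <;> linarith
      · have := hmax (4 / 5) (by simp) (by linarith)
        constructor <;> linarith
      · simp only [Finset.mem_insert, Finset.mem_singleton] at hF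
        rcases hF with h | h | h | h | h | h <;> rw [h] at hlt ⊢ <;> constructor <;> linarith
  have hp' : (0 ≤ p ∧ p ≤ 1 / 5) ∨ (4 / 5 ≤ p ∧ p ≤ 1) := by
    simp only [Finset.mem_insert, Finset.mem_singleton] at hp
    rcases hp with rfl | rfl | rfl | rfl | rfl | rfl <;> norm_num
  have : |x n - p| ≤ 1 / 5 := by
    rw [abs_le]
    rcases hp' with h0 | h0
    · have := hL h0 n le_rfl
      constructor <;> linarith
    · have := hR h0 n le_rfl
      constructor <;> linarith
  linarith

end Pool.Agent.S08686
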