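import Pool.Statements.S09181
import Pool.Agent.Run7.h680.WR.LiftOne

set_option autoImplicit false
open Classical
open Pool Pool.MP_632be6_co

namespace Pool.Agent.S09181

/-!
# Edge colourings of wreath products (Anderson and Lipman)

Proof. Let `d = Δ(G)` and let `D` be the maximum degree of the wreath product. For `d ≥ 2` the theorem
is proved in `Pool.Agent.K7.H15.WR` (starting files). Let `d = 1`, so `G` is a matching.

Consider the components of the vertex set of `G'` for the relation of being adjacent or in the same orbit.
Let `m` be the size of the smallest orbit of a component and `2 h ∈ {m - 1, m - 2}`. On each orbit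
choose a circulant graph `Z` of degree `2 h`. Over an edge `u v` of `G` the edges `(u, x) (v, y)` with
`x y ∈ Z` form a bipartite graph, which is coloured with `2 h` colours by the shifts. Let `H` be the
multigraph consisting of the edges of `G'` and the edges `x y` with `x, y` in the same orbit and
`x y ∉ Z`. Its degrees are less than `q = D - 2 h` and its multiplicities are at most `2`. It suffices
to show that `H` has an edge colouring with `q` colours: this gives the colours of the edges in the
fibres and those of the remaining edges `(u, x) (v, y)`, `x ≠ y`, and a colour missing at `x` is used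
for `(u, x) (v, x)`.

If `H` has no such colouring let `Q` be a minimal part of it without colouring. The fan inequality
shows that each vertex `x` of `Q` is joined in `Q` to two vertices `w` by double edges such that the
degree of `w` in `Q` is `q - 1`. So all edges of `H` at `w` are in `Q`. Also `w` is in the orbit of
`x`, since the edges of `H` between different orbits are simple. Hence the orbits which are met by `Q`
are closed under adjacency, and so the smallest orbit is met by `Q`. But in this orbit each vertex
has at most one neighbour not joined to it by `Z`, a contradiction.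
-/

/-- For all finite simple graphs G (with an edge) and G', if the chromatic index of G equals its maximum degree, then the chromatic index of the wreath product G ρ G' equals its maximum degree. -/
theorem result :
    ∀ (V W : Type) [Fintype V] [Fintype W] (G : SimpleGraph V) (G' : SimpleGraph W)
      (H : SimpleGraph (V × W)),
      H = SimpleGraph.fromRel (fun p q : V × W =>
            (p.1 = q.1 ∧ G'.Adj p.2 q.2) ∨
            (G.Adj p.1 q.1 ∧ ∃ φ : G' ≃g G', φ p.2 = q.2)) →
      G.edgeSet.Nonempty →
      sInf {k : ℕ | ∃ c : Sym2 V → Fin k, ∀ e ∈ G.edgeSet, ∀ f ∈ G.edgeSet,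
              e ≠ f → (∃ v, v ∈ e ∧ v ∈ f) → c e ≠ c f} = G.maxDegree →
      sInf {k : ℕ | ∃ c : Sym2 (V × W) → Fin k, ∀ e ∈ H.edgeSet, ∀ f ∈ H.edgeSet,
              e ≠ f → (∃ v, v ∈ e ∧ v ∈ f) → c e ≠ c f} = H.maxDegree := by
  intro V W _ _ G G' H hH hne hG
  obtain ⟨hd, hEC⟩ := Pool.Agent.K7.H15.WR.ec_of_idx hne hG
  have hw : H = Pool.Agent.X76.Wr.wreath G G' := by
    rw [hH]
    ext p q
    rw [SimpleGraph.fromRel_adj]
    constructor
    · rintro ⟨-, h1 | h1⟩
      · exact h1
      · exact SimpleGraph.Adj.symm (G := Pool.Agent.X76.Wr.wreath G G') h1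
    · intro h1
      exact ⟨SimpleGraph.ne_of_adj _ h1, Or.inl h1⟩
  clear hH
  subst hw
  have hle : ∀ u, G.maxDegree * Pool.Agent.X76.Wr.orb G' u + G'.degree u ≤
      (Pool.Agent.X76.Wr.wreath G G').maxDegree := by
    intro u
    obtain ⟨e, -⟩ := hne
    exact Pool.Agent.X76.Wr.max_bound G G' e.out.1 u
  have hmain : Pool.Agent.X76.Wr.EC (Pool.Agent.X76.Wr.wreath G G').maxDegree
      (Pool.Agent.X76.Wr.wreath G G') := by
    rcases Nat.lt_or_ge G.maxDegree 2 with h2 | h2
    · have h1 : G.maxDegree = 1 := by omega
      rw [h1] at hEC
      refine Pool.Agent.Run7.h680.WR.main_one hEC fun u => ?_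
      have := hle u
      rw [h1, one_mul] at this
      exact this
    · exact Pool.Agent.K7.H15.WR.main_EC hd hEC hle (Or.inl h2)
  rcases isEmpty_or_nonempty W with hW | ⟨⟨w⟩⟩
  · have h0 : 0 ∈ Pool.Agent.K7.H15.WR.Cols (Pool.Agent.X76.Wr.wreath G G') := by
      refine ⟨fun e => (hW.false e.out.1.2).elim, fun e _ => (hW.false e.out.1.2).elim⟩
    have h1 := Pool.Agent.K7.H15.WR.le_of_cols h0
    have h2 : sInf (Pool.Agent.K7.H15.WR.Cols (Pool.Agent.X76.Wr.wreath G G')) = 0 :=
      Nat.sInf_eq_zero.2 (Or.inl h0)
    exact h2.trans (Nat.le_zero.1 h1).symm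
  · refine Pool.Agent.K7.H15.WR.idx_eq hmain ?_
    have h2 := hle w
    have h3 := Pool.Agent.K7.H15.WR.orb_pos (G' := G') w
    nlinarith

end Pool.Agent.S09181
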