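import Pool.Statements.S09469
import Pool.Agent.Run7.h635.CycFam
import Pool.Agent.Run7.h635.CycCount
import Pool.Agent.Run7.h635.CycDS

set_option autoImplicit false
open Pool Pool.MP_72c5f4_co

namespace Pool.Agent.S09469

open Run7.h635.Cyc in
/-- For every M, all sufficiently large n with n ≡ 1 or 3 mod 6 admit at least M pairwise non-isomorphic cyclic Steiner triple systems on Z/nZ, i.e. the number of cyclic STS(n) up to isomorphism tends to infinity. -/
theorem result :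
    ∀ M : ℕ, ∃ N : ℕ, ∀ n : ℕ, N ≤ n → (n % 6 = 1 ∨ n % 6 = 3) →
      ∃ B : Fin M → Finset (Finset (ZMod n)),
        (∀ i, (∀ b ∈ B i, b.card = 3) ∧
          (∀ x y : ZMod n, x ≠ y → ∃! b : Finset (ZMod n), b ∈ B i ∧ x ∈ b ∧ y ∈ b) ∧
          (∀ b ∈ B i, b.image (fun x => x + 1) ∈ B i)) ∧
        (∀ i j, i ≠ j → ¬ ∃ σ : Equiv.Perm (ZMod n),
          ∀ b : Finset (ZMod n), b ∈ B i ↔ b.map σ.toEmbedding ∈ B j) := by
  intro M
  refine ⟨6 * (6 * M + 10), fun n hn h6 => ?_⟩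
  have hk : 6 * M + 10 ≤ n / 6 := by omega
  haveI : NeZero n := ⟨by omega⟩
  obtain ⟨u, v, h, D⟩ := exists_DS n h6 (by omega)
  have hM : M * n ≤ Fintype.card (Fin (n / 6) → Bool) := by
    have h1 : Fintype.card (Fin (n / 6) → Bool) = 2 ^ (n / 6) := by simp
    rw [h1]
    refine le_trans ?_ (sq_le_two_pow (n / 6) (by omega))
    have h2 : n ≤ 6 * (n / 6 + 1) := by omega
    calc M * n ≤ M * (6 * (n / 6 + 1)) := Nat.mul_le_mul_left _ h2
      _ = (6 * M) * (n / 6 + 1) := by ring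
      _ ≤ (n / 6 + 1) * (n / 6 + 1) := Nat.mul_le_mul_right _ (by omega)
  obtain ⟨f, hf⟩ := many_classes (n := n)
    (fun c : Fin (n / 6) → Bool => fam (swU u v c) (swV u v c) h) (fam_inj D)
    (fun c s => inv_fam s) M hM
  refine ⟨fun i => fam (swU u v (f i)) (swV u v (f i)) h, fun i => ⟨?_, ?_, ?_⟩, ?_⟩
  · exact card_fam (D.sw (f i))
  · exact sts_fam (D.sw (f i))
  · exact inv_fam 1
  · intro i j hij
    exact hf i j hij

end Pool.Agent.S09469
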