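import Pool.Statements.S09604
import Pool.Agent.Run7.h436.CycleCover

set_option autoImplicit false
open Pool Pool.MP_7836df_co

namespace Pool.Agent.S09604

/-- The negation of the preceding statement: For k≥t≥2 there is c such that every s(k−t+1)-colouring of the k-sets of an n-set admits at most s monochromatic t-tight Berge-cycles with pairwise disjoint cores covering all but at most c vertices. -/
theorem result :
    ¬ (∀ s k t : ℕ, 2 ≤ t → t ≤ k → ∃ c : ℕ, ∀ n : ℕ,
      ∀ χ : Finset (Fin n) → Fin (s * (k - t + 1)),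
        ∃ m : ℕ, m ≤ s ∧ ∃ C : Fin m → Finset (Fin n),
          (∀ j : Fin m, ∃ (ℓ : ℕ) (v : ℕ → Fin n) (e : ℕ → Finset (Fin n))
              (col : Fin (s * (k - t + 1))),
              Set.InjOn v (Set.Iio ℓ) ∧ Set.InjOn e (Set.Iio ℓ) ∧
              (∀ i : ℕ, v (i + ℓ) = v i) ∧
              (∀ i : ℕ, i < ℓ →
                (e i).card = k ∧ χ (e i) = col ∧ ∀ p : ℕ, p < t → v (i + p) ∈ e i) ∧
              C j = (Finset.range ℓ).image v) ∧
          (∀ i j : Fin m, i ≠ j → Disjoint (C i) (C j)) ∧
          (Finset.univ \ Finset.univ.biUnion C).card ≤ c) := by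
  intro H
  obtain ⟨c, hc⟩ := H 4 2 2 le_rfl le_rfl
  obtain ⟨W, hW, hcol⟩ := Run7.h436.exists_colouring 4 le_rfl
  obtain ⟨col, hsymm, hbad⟩ := hcol (W * (c + W + 5))
  obtain ⟨χ, hχ⟩ := Run7.h436.exists_pair_colouring col hsymm
  obtain ⟨m, hm, C, hC, hd, hle⟩ := hc (W * (c + W + 5)) χ
  have hmono : ∀ j, Run7.h436.MonoCyc col (C j) := by
    intro j
    obtain ⟨ℓ, v, e, cl, hv, -, hper, he, hCj⟩ := hC j
    by_cases hℓ : ℓ ≤ 1
    · left
      rw [hCj]
      exact Finset.card_image_le.trans (by rw [Finset.card_range]; exact hℓ)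
    · right
      refine ⟨cl, ℓ, v, by omega, hv, ?_, hCj, ?_⟩
      · have := hper 0
        rwa [Nat.zero_add] at this
      · intro i hi
        obtain ⟨hcard, hcl, hmem⟩ := he i hi
        have h0 : v i ∈ e i := hmem 0 (by norm_num)
        have h1 : v (i + 1) ∈ e i := hmem 1 (by norm_num)
        have hne : v i ≠ v (i + 1) := by
          intro heq
          by_cases hi1 : i + 1 < ℓ
          · have := hv (Set.mem_Iio.mpr hi) (Set.mem_Iio.mpr hi1) heq
            omega
          · have h3 : i + 1 = 0 + ℓ := by omega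
            rw [h3, hper 0] at heq
            have := hv (Set.mem_Iio.mpr hi) (Set.mem_Iio.mpr (by omega : 0 < ℓ)) heq
            omega
        have hsub : ({v i, v (i + 1)} : Finset _) ⊆ e i := by
          intro x hx
          rw [Finset.mem_insert, Finset.mem_singleton] at hx
          rcases hx with rfl | rfl
          · exact h0
          · exact h1
        have heq : ({v i, v (i + 1)} : Finset _) = e i :=
          Finset.eq_of_subset_of_card_le hsub (by rw [hcard, Finset.card_pair hne])
        rw [← hχ _ _ hne, heq, hcl]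
  have := hbad m C hm hmono hd
  rw [Nat.mul_div_cancel_left _ hW] at this
  omega

end Pool.Agent.S09604
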