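import Pool.Statements.S09613
import Pool.Agent.Run7.h674.SqFree

set_option autoImplicit false
open Pool Pool.MP_78b1ee_co

namespace Pool.Agent.S09613

open Run7.h674.SqFree in
theorem getD_list {D t : ℕ} (ht : t + 11 < 2 ^ D) :
    ((List.range (2 ^ D - 11)).map (f D)).getD t 0 = f D t := by
  rw [List.getD_eq_getElem _ _ (by simp; omega)]
  simp

open Run7.h674.SqFree in
theorem getD_ins {D p t : ℕ} {x : ℚ} (hD : 6 ≤ D) (hp : p + 11 ≤ 2 ^ D) (ht : t + 11 ≤ 2 ^ D) :
    (((List.range (2 ^ D - 11)).map (f D)).take p ++
      x :: ((List.range (2 ^ D - 11)).map (f D)).drop p).getD t 0 = ins (f D) p x t := by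
  have h64 := pow64 hD
  rw [List.getD_eq_getElem _ _ (by simp; omega)]
  rcases lt_trichotomy t p with h | h | h
  · rw [ins_lt h, List.getElem_append_left (by simp; omega)]
    simp
  · rw [ins_eq h, List.getElem_append_right (by simp; omega)]
    simp only [List.length_take, List.length_map, List.length_range]
    have h2 : t - min p (2 ^ D - 11) = 0 := by omega
    simp only [h2, List.getElem_cons_zero]
  · rw [ins_gt h, List.getElem_append_right (by simp; omega)]
    simp only [List.length_take, List.length_map, List.length_range]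
    have h2 : t - min p (2 ^ D - 11) = (t - 1 - p) + 1 := by omega
    simp only [h2, List.getElem_cons_succ, List.getElem_drop, List.getElem_map,
      List.getElem_range]
    congr 1
    omega

open Run7.h674.SqFree in
/-- For every N there is a list of distinct rationals of length at least N with no two adjacent order-isomorphic blocks of length at least 2, such that inserting any new value at any position creates such a pair. -/
theorem result :
    ∀ N : ℕ, ∃ w : List ℚ, N ≤ w.length ∧ w.Nodup ∧
      (¬ ∃ i ℓ : ℕ, 2 ≤ ℓ ∧ i + 2 * ℓ ≤ w.length ∧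
          ∀ a < ℓ, ∀ b < ℓ,
            (w.getD (i + a) 0 < w.getD (i + b) 0 ↔
              w.getD (i + ℓ + a) 0 < w.getD (i + ℓ + b) 0)) ∧
      ∀ p : ℕ, p ≤ w.length → ∀ x : ℚ, x ∉ w →
        ∃ i ℓ : ℕ, 2 ≤ ℓ ∧ i + 2 * ℓ ≤ w.length + 1 ∧
          ∀ a < ℓ, ∀ b < ℓ,
            ((w.take p ++ x :: w.drop p).getD (i + a) 0 <
                (w.take p ++ x :: w.drop p).getD (i + b) 0 ↔
              (w.take p ++ x :: w.drop p).getD (i + ℓ + a) 0 <
                (w.take p ++ x :: w.drop p).getD (i + ℓ + b) 0) := by
  intro N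
  obtain ⟨D, hD⟩ : ∃ D, D = N + 6 := ⟨_, rfl⟩
  have hD6 : 6 ≤ D := by omega
  have h64 := pow64 hD6
  have hN : N + 11 ≤ 2 ^ D := by
    have h1 : N < 2 ^ N := Nat.lt_two_pow_self
    have h2 : 2 ^ D = 2 ^ N * 64 := by rw [hD, pow_add]; norm_num
    omega
  refine ⟨(List.range (2 ^ D - 11)).map (f D), ?_, ?_, ?_, ?_⟩
  · simp; omega
  · refine List.Nodup.map_on ?_ List.nodup_range
    intro s hs t ht h
    simp only [List.mem_range] at hs ht
    exact f_inj hD6 (by omega) (by omega) h
  · rintro ⟨i, l, hl, hil, h⟩
    simp only [List.length_map, List.length_range] at hil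
    refine f_sqfree (D := D) (i := i) (l := l) hD6 hl (by omega) ?_
    intro a ha b hb
    have := h a ha b hb
    rwa [getD_list (by omega), getD_list (by omega), getD_list (by omega),
      getD_list (by omega)] at this
  · intro p hp x hx
    simp only [List.length_map, List.length_range] at hp ⊢
    have hx' : ∀ t, t + 11 < 2 ^ D → f D t ≠ x := by
      intro t ht h
      apply hx
      rw [List.mem_map]
      exact ⟨t, List.mem_range.2 (by omega), h⟩
    obtain ⟨i, l, hl, hil, hs⟩ := insert_sq (p := p) hD6 (by omega) hx'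
    refine ⟨i, l, hl, by omega, ?_⟩
    intro a ha b hb
    rw [getD_ins hD6 (by omega) (by omega), getD_ins hD6 (by omega) (by omega),
      getD_ins hD6 (by omega) (by omega), getD_ins hD6 (by omega) (by omega)]
    exact hs a ha b hb

end Pool.Agent.S09613
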