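import Pool.Statements.S09632
import Pool.Agent.W153.EO.Sep
import Pool.Agent.W153.EO.Count
import Pool.Agent.H430R3.KST

set_option autoImplicit false
open Pool Pool.MP_79efce_co

namespace Pool.Agent.S09632

open W153.EO Filter Topology

/-- The containment of the pattern, in the form of the frozen statement. -/
lemma cont_iff_emb {n : ℕ} (G : SimpleGraph (Fin n)) (M : Sym2 (Fin n) → ℕ) :
    (∃ φ : Fin 7 ↪ Fin n, (∀ a b, pat.Adj a b → G.Adj (φ a) (φ b)) ∧
        ∀ e ∈ pat.edgeSet, ∀ f ∈ pat.edgeSet, lab e < lab f →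
          M (Sym2.map (⇑φ) e) < M (Sym2.map (⇑φ) f)) ↔ Cont G M := by
  constructor
  · rintro ⟨φ, h1, h2⟩
    exact ⟨φ, φ.injective, h1, h2⟩
  · rintro ⟨φ, h0, h1, h2⟩
    exact ⟨⟨φ, h0⟩, h1, h2⟩

/-- The pattern has order chromatic number two, so that the extremal function is `o(n²)`. -/
lemma sparse (ε : ℝ) (hε : 0 < ε) : ∃ N : ℕ, ∀ n : ℕ, N ≤ n →
    ∀ (G : SimpleGraph (Fin n)) (M : Sym2 (Fin n) → ℕ), Set.InjOn M G.edgeSet → ¬ Cont G M →
      (G.edgeSet.ncard : ℝ) ≤ ε * (n : ℝ) ^ 2 := by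
  classical
  obtain ⟨A, B, hAB⟩ := exists_host
  obtain ⟨q, hq⟩ := exists_nat_gt (1 / ε)
  have hq0 : (0 : ℝ) < q := lt_trans (by positivity) hq
  have hq1 : 1 ≤ q := by exact_mod_cast hq0
  obtain ⟨R0, hR0⟩ := H430R3.weak_kst (A + B + 1) q (by omega) hq1
  refine ⟨max R0 1, ?_⟩
  intro n hn G M hM hC
  have hn0 : R0 ≤ n := le_trans (le_max_left _ _) hn
  have hn1 : 1 ≤ n := le_trans (le_max_right _ _) hn
  by_contra hcon
  push Not at hcon
  apply hC
  have hsum : ∑ x : Fin n, (Finset.univ.filter fun y => G.Adj x y).card = 2 * G.edgeSet.ncard := by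
    have h1 := G.sum_degrees_eq_twice_card_edges
    rw [← SimpleGraph.coe_edgeFinset, Set.ncard_coe_finset, ← h1]
    apply Finset.sum_congr rfl
    intro x _
    rw [← SimpleGraph.card_neighborFinset_eq_degree]
    congr 1
    ext y
    simp
  have hdense : n * n < q * ∑ x : Fin n, (Finset.univ.filter fun y => G.Adj x y).card := by
    rw [hsum]
    have h2 : (1 : ℝ) < q * ε := by
      rw [div_lt_iff₀ hε] at hq
      exact hq
    have h3 : (n : ℝ) * n < q * (2 * G.edgeSet.ncard) := by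
      have hnn : (0 : ℝ) < (n : ℝ) * n := by positivity
      calc (n : ℝ) * n = 1 * ((n : ℝ) * n) := by ring
        _ < (q * ε) * ((n : ℝ) * n) := mul_lt_mul_of_pos_right h2 hnn
        _ = q * (ε * (n : ℝ) ^ 2) := by ring
        _ ≤ q * G.edgeSet.ncard := mul_le_mul_of_nonneg_left hcon.le hq0.le
        _ ≤ q * (2 * G.edgeSet.ncard) := by
            apply mul_le_mul_of_nonneg_left _ hq0.le
            have : (0 : ℝ) ≤ G.edgeSet.ncard := by positivity
            linarith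
    exact_mod_cast h3
  have hU : (Finset.univ : Finset (Fin n)).card = n := by simp
  obtain ⟨X', -, Y', -, hX', hY', hXY⟩ := hR0 (Finset.univ : Finset (Fin n)) (Finset.univ : Finset (Fin n))
    (fun x y => G.Adj x y) n hn0 hU hU (by convert hdense)
  -- the injections
  have eX : Nonempty (Fin A ↪ X') := by
    apply Function.Embedding.nonempty_of_card_le
    rw [Fintype.card_fin, Fintype.card_coe, hX']
    omega
  have eY : Nonempty (Fin B ↪ Y') := by
    apply Function.Embedding.nonempty_of_card_le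
    rw [Fintype.card_fin, Fintype.card_coe, hY']
    omega
  obtain ⟨iX⟩ := eX
  obtain ⟨iY⟩ := eY
  let ψ : Fin A ⊕ Fin B → Fin n := Sum.elim (fun a => (iX a : Fin n)) (fun b => (iY b : Fin n))
  have hne : ∀ a b, (iX a : Fin n) ≠ (iY b : Fin n) := by
    intro a b h
    have := hXY _ (iX a).2 _ (iY b).2
    rw [h] at this
    exact G.irrefl this
  have hψ : Function.Injective ψ := by
    rintro (a | b) (a' | b') h
    · exact congrArg Sum.inl (iX.injective (Subtype.ext h))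
    · exact absurd h (hne a b')
    · exact absurd h.symm (hne a' b)
    · exact congrArg Sum.inr (iY.injective (Subtype.ext h))
  have hadj : ∀ u v, (completeBipartiteGraph (Fin A) (Fin B)).Adj u v → G.Adj (ψ u) (ψ v) := by
    rintro (a | b) (a' | b') h
    · simp at h
    · exact hXY _ (iX a).2 _ (iY b').2
    · exact (hXY _ (iX a').2 _ (iY b).2).symm
    · simp at h
  have hmem : ∀ e ∈ (completeBipartiteGraph (Fin A) (Fin B)).edgeSet, Sym2.map ψ e ∈ G.edgeSet := by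
    intro e he
    induction e using Sym2.ind with
    | _ u v => exact hadj u v he
  obtain ⟨φ, h1, h2, h3⟩ := hAB (fun e => M (Sym2.map ψ e)) (by
    intro x hx y hy hxy
    exact Sym2.map.injective hψ (hM (hmem x hx) (hmem y hy) hxy))
  refine ⟨ψ ∘ φ, hψ.comp h1, fun u v huv => hadj _ _ (h2 u v huv), ?_⟩
  intro e₁ he₁ e₂ he₂ hlt
  have := h3 e₁ he₁ e₂ he₂ hlt
  simpa only [Sym2.map_map] using this

/-- The numerical estimate, for every power of the logarithm. -/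
lemma estimate (C : ℝ) (c b : ℕ) (hb : 1 ≤ b) (hlarge : 4 * |C| * (5 * (b : ℝ) ^ 2) ^ c < 2 ^ b) (n : ℕ)
    (hn : n = 2 ^ b * (b * 2 ^ b + 2 ^ b) ^ b + (2 * (b * 2 ^ b)) ^ b) :
    C * (n : ℝ) * Real.log (n : ℝ) ^ c < (((2 * (b * 2 ^ b)) ^ b * 2 ^ b : ℕ) : ℝ) := by
  have hb' : (0 : ℝ) < b := by exact_mod_cast hb
  have hb1 : (1 : ℝ) ≤ b := by exact_mod_cast hb
  set X : ℝ := ((b : ℝ) * 2 ^ b) ^ b with hX
  have hXpos : 0 < X := by positivity
  have h2b : (1 : ℝ) ≤ 2 ^ b := one_le_pow₀ (by norm_num)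
  have hnX : (n : ℝ) ≤ 4 * 2 ^ b * X := by
    rw [hn]
    push_cast
    have e1 : ((b : ℝ) * 2 ^ b + 2 ^ b) ^ b = (2 ^ b) ^ b * ((b : ℝ) + 1) ^ b := by
      rw [← mul_pow]
      congr 1
      ring
    have e2 : (2 * ((b : ℝ) * 2 ^ b)) ^ b = 2 ^ b * X := by
      rw [mul_pow, hX]
    rw [e1, e2]
    have e3 : (2 ^ b) ^ b * ((b : ℝ) + 1) ^ b ≤ 3 * X := by
      calc ((2 : ℝ) ^ b) ^ b * ((b : ℝ) + 1) ^ b ≤ (2 ^ b) ^ b * (3 * (b : ℝ) ^ b) :=
            mul_le_mul_of_nonneg_left (pow_ratio b hb) (by positivity)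
        _ = 3 * X := by
            rw [hX, mul_pow]
            ring
    calc (2 : ℝ) ^ b * ((2 ^ b) ^ b * ((b : ℝ) + 1) ^ b) + 2 ^ b * X
        ≤ 2 ^ b * (3 * X) + 2 ^ b * X := by
          have := mul_le_mul_of_nonneg_left e3 (by positivity : (0 : ℝ) ≤ 2 ^ b)
          linarith
      _ = 4 * 2 ^ b * X := by ring
  have hnpos : 0 < n := by
    rw [hn]
    have : 0 < (2 * (b * 2 ^ b)) ^ b := by positivity
    omega
  have hn1 : (1 : ℝ) ≤ n := by exact_mod_cast hnpos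
  have hlog0 : 0 ≤ Real.log n := Real.log_nonneg hn1
  have hlog2 : Real.log 2 ≤ 1 := by
    have := Real.log_two_lt_d9
    linarith
  have hlog2' : 0 ≤ Real.log 2 := Real.log_nonneg (by norm_num)
  have hlog : Real.log n ≤ 5 * (b : ℝ) ^ 2 := by
    calc Real.log n ≤ Real.log (4 * 2 ^ b * X) := Real.log_le_log (by linarith) hnX
      _ = 2 * Real.log 2 + b * Real.log 2 + b * (Real.log b + b * Real.log 2) := by
          rw [Real.log_mul (by positivity) (by positivity), Real.log_mul (by positivity) (by positivity),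
            Real.log_pow, hX, Real.log_pow, Real.log_mul (by positivity) (by positivity), Real.log_pow,
            show (4 : ℝ) = 2 ^ 2 by norm_num, Real.log_pow]
          push_cast
          ring
      _ ≤ 2 * 1 + b * 1 + b * (b + b * 1) := by
          have h1 := log_nat_le b hb
          have h2 : (b : ℝ) * Real.log 2 ≤ b * 1 := mul_le_mul_of_nonneg_left hlog2 hb'.le
          have h3 : (b : ℝ) * (Real.log b + b * Real.log 2) ≤ b * (b + b * 1) :=
            mul_le_mul_of_nonneg_left (by linarith) hb'.le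
          linarith
      _ ≤ 5 * (b : ℝ) ^ 2 := by nlinarith
  have hE : (((2 * (b * 2 ^ b)) ^ b * 2 ^ b : ℕ) : ℝ) = 2 ^ b * (2 ^ b * X) := by
    push_cast
    rw [mul_pow, hX]
    ring
  have hpw : Real.log n ^ c ≤ (5 * (b : ℝ) ^ 2) ^ c := pow_le_pow_left₀ hlog0 hlog c
  rw [hE]
  calc C * (n : ℝ) * Real.log n ^ c ≤ |C| * n * Real.log n ^ c := by
        apply mul_le_mul_of_nonneg_right _ (pow_nonneg hlog0 c)
        exact mul_le_mul_of_nonneg_right (le_abs_self C) (by positivity)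
    _ ≤ |C| * (4 * 2 ^ b * X) * (5 * (b : ℝ) ^ 2) ^ c := by
        apply mul_le_mul _ hpw (pow_nonneg hlog0 c) (by positivity)
        exact mul_le_mul_of_nonneg_left hnX (abs_nonneg C)
    _ = (4 * |C| * (5 * (b : ℝ) ^ 2) ^ c) * (2 ^ b * X) := by ring
    _ < 2 ^ b * (2 ^ b * X) := by
        apply mul_lt_mul_of_pos_right hlarge (by positivity)

lemma exists_b (C : ℝ) (c : ℕ) : ∃ b : ℕ, 1 ≤ b ∧ 4 * |C| * (5 * (b : ℝ) ^ 2) ^ c < 2 ^ b := by
  have h1 : Tendsto (fun b : ℕ => (b : ℝ) ^ (2 * c) / 2 ^ b) atTop (𝓝 0) :=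
    tendsto_pow_const_div_const_pow_of_one_lt (2 * c) (by norm_num)
  have h2 := h1.const_mul (4 * |C| * 5 ^ c)
  rw [mul_zero] at h2
  have h3 : ∀ᶠ b : ℕ in atTop, 4 * |C| * 5 ^ c * ((b : ℝ) ^ (2 * c) / 2 ^ b) < 1 :=
    h2.eventually_lt_const (by norm_num)
  obtain ⟨b, hb⟩ := (h3.and (eventually_ge_atTop 1)).exists
  refine ⟨b, hb.2, ?_⟩
  have h4 := hb.1
  rw [← mul_div_assoc, div_lt_one (by positivity)] at h4
  calc 4 * |C| * (5 * (b : ℝ) ^ 2) ^ c = 4 * |C| * 5 ^ c * (b : ℝ) ^ (2 * c) := by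
        rw [mul_pow, pow_mul]
        ring
    _ < 2 ^ b := h4

/-- The lower bound: the extremal function of the pattern is not `O(n (log n) ^ c)` for any `c`. -/
lemma lower (C : ℝ) (c : ℕ) : ∃ n : ℕ, 2 ≤ n ∧ ∃ G : SimpleGraph (Fin n), ∃ g : Sym2 (Fin n) → ℕ,
    Set.InjOn g G.edgeSet ∧ ¬ Cont G g ∧ C * (n : ℝ) * Real.log (n : ℝ) ^ c < (G.edgeSet.ncard : ℝ) := by
  obtain ⟨b, hb1, hb⟩ := exists_b C c
  obtain ⟨G, g, hg, hC, hcard⟩ := transport (host b (2 ^ b) (b * 2 ^ b)) (ord b (2 ^ b) (b * 2 ^ b))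
    (ord_injOn _ _ _) (host_avoids _ _ _)
  have hn := host_card b (2 ^ b) (b * 2 ^ b)
  refine ⟨_, ?_, G, g, hg, hC, ?_⟩
  · rw [hn]
    have h2 : 1 ≤ (2 * (b * 2 ^ b)) ^ b := Nat.one_le_iff_ne_zero.mpr (by positivity)
    have h3 : 1 ≤ 2 ^ b * (b * 2 ^ b + 2 ^ b) ^ b := Nat.one_le_iff_ne_zero.mpr (by positivity)
    omega
  · refine lt_of_lt_of_le (estimate C c b hb1 hb _ hn) ?_
    rw [hcard]
    exact_mod_cast host_edges b (2 ^ b) (b * 2 ^ b)

/-- The negation of the preceding statement: Assume F is an edge-ordered forest whose F-free edge-ordered graphs on n vertices have o(n^2) edges, which is equivalent to order chromatic number 2. Then such graphs have at most C·n·(log n)^c edges for some constants c and C. -/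
theorem result :
    ¬ (∀ (k : ℕ) (F : SimpleGraph (Fin k)) (L : Sym2 (Fin k) → ℕ),
      F.IsAcyclic → Set.InjOn L F.edgeSet →
      (∀ ε : ℝ, 0 < ε → ∃ N : ℕ, ∀ n : ℕ, N ≤ n →
        ∀ (G : SimpleGraph (Fin n)) (M : Sym2 (Fin n) → ℕ), Set.InjOn M G.edgeSet →
          (¬ ∃ φ : Fin k ↪ Fin n, (∀ a b, F.Adj a b → G.Adj (φ a) (φ b)) ∧
              ∀ e ∈ F.edgeSet, ∀ f ∈ F.edgeSet, L e < L f →
                M (Sym2.map (⇑φ) e) < M (Sym2.map (⇑φ) f)) →
          (G.edgeSet.ncard : ℝ) ≤ ε * (n : ℝ) ^ 2) →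
      ∃ (c : ℕ) (C : ℝ), ∀ n : ℕ, 2 ≤ n →
        ∀ (G : SimpleGraph (Fin n)) (M : Sym2 (Fin n) → ℕ), Set.InjOn M G.edgeSet →
          (¬ ∃ φ : Fin k ↪ Fin n, (∀ a b, F.Adj a b → G.Adj (φ a) (φ b)) ∧
              ∀ e ∈ F.edgeSet, ∀ f ∈ F.edgeSet, L e < L f →
                M (Sym2.map (⇑φ) e) < M (Sym2.map (⇑φ) f)) →
          (G.edgeSet.ncard : ℝ) ≤ C * (n : ℝ) * (Real.log (n : ℝ)) ^ c) := by
  intro h
  obtain ⟨c, C, hc⟩ := h 7 pat lab pat_acyclic lab_injOn (by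
    intro ε hε
    obtain ⟨N, hN⟩ := sparse ε hε
    refine ⟨N, fun n hn G M hM hno => hN n hn G M hM ?_⟩
    rwa [cont_iff_emb] at hno)
  obtain ⟨n, hn, G, g, hg, hC, hlt⟩ := lower C c
  have := hc n hn G g hg (by rwa [cont_iff_emb])
  linarith

end Pool.Agent.S09632
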