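import Pool.Statements.S09637
import Pool.Agent.Run7.h81.Crit4Main

set_option autoImplicit false
open Pool Pool.MP_7a5332_co

namespace Pool.Agent.S09637

/-- There is a constant c < 1/4 such that, for all large n, every triangle-free 4-critical graph on n vertices (chromatic number 4, no isolated vertices, each edge deletion leaves it 3-colorable) has at most c·n² edges. -/
theorem result :
    ∃ c : ℝ, c < 1 / 4 ∧ ∃ N : ℕ, ∀ n : ℕ, N ≤ n → ∀ G : SimpleGraph (Fin n),
      G.CliqueFree 3 → G.chromaticNumber = 4 → (∀ v : Fin n, ∃ w : Fin n, G.Adj v w) →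
      (∀ e ∈ G.edgeSet, (G.deleteEdges {e}).Colorable 3) →
      (G.edgeSet.ncard : ℝ) ≤ c * (n : ℝ) ^ 2 := by
  obtain ⟨c, hc, N, h⟩ := Run7.h81.Crit4.main
  exact ⟨c, hc, N, fun n hn G h1 h2 _ h4 => h n hn G h1 h2 h4⟩

end Pool.Agent.S09637
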