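import Pool.Statements.S09737
import Pool.Agent.Run7.h264.Main
import Pool.Agent.Run7.h264.Growth

set_option autoImplicit false
open Pool Pool.MP_7fcf1c_co

namespace Pool.Agent.S09737

/-- For every N there is a finite graph that is k-choosable for some k ≥ 1 but is not N·k-paintable in the on-line list colouring game, so on-line choice number over choice number exceeds N. -/
theorem result :
    ∀ N : ℕ, ∃ (V : Type) (_ : Fintype V) (_ : DecidableEq V) (G : SimpleGraph V) (k : ℕ),
      1 ≤ k ∧
      (∀ L : V → Finset ℕ, (∀ v, k ≤ (L v).card) →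
        ∃ c : V → ℕ, (∀ v, c v ∈ L v) ∧ ∀ u v, G.Adj u v → c u ≠ c v) ∧
      ¬ (∀ P : Finset V → (V → ℕ) → Prop,
          (∀ (S : Finset V) (f : V → ℕ), (∀ v ∈ S, 1 ≤ f v) →
            (∀ M ⊆ S, M.Nonempty → ∃ I ⊆ M, G.IsIndepSet (↑I : Set V) ∧
               P (S \ I) (fun v => if v ∈ M \ I then f v - 1 else f v)) →
            P S f) →
          P Finset.univ (fun _ => N * k)) := by
  intro N
  obtain ⟨t, ht⟩ := Run7.h264.exists_t_lin N
  obtain ⟨n, G, hch, hLW⟩ := Run7.h264.construction t (N * (624 * t + 1155)) ht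
  refine ⟨Fin n, inferInstance, inferInstance, G, 624 * t + 1155, by omega, hch, ?_⟩
  intro hP
  have h := hP (fun S g => (∀ v ∈ S, 1 ≤ g v) ∧
    ∀ f : Fin n → ℕ, (∀ v ∈ S, f v = g v) → ¬ Run7.h264.LW G S f) (by
    intro S g hg hstep
    refine ⟨hg, ?_⟩
    intro f hf hcon
    cases hcon with
    | step _ _ M hM hne hI =>
      obtain ⟨I, hIM, hind, hg', hS⟩ := hstep M hM hne
      refine hS (fun v => if v ∈ M then f v - 1 else f v) ?_ (hI I hIM ?_ ?_ ?_)
      · intro v hv
        obtain ⟨hvS, hvI⟩ := Finset.mem_sdiff.1 hv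
        by_cases hvM : v ∈ M
        · simp [hvM, hvI, hf v hvS]
        · simp [hvM, hf v hvS]
      · intro u hu v hv huv
        exact hind hu hv (G.ne_of_adj huv) huv
      · intro v hv
        rw [hf v (hM hv)]
        exact hg v (hM hv)
      · intro v hv
        obtain ⟨hvM, hvI⟩ := Finset.mem_sdiff.1 hv
        have h1 := hg' v (Finset.mem_sdiff.2 ⟨hM hvM, hvI⟩)
        dsimp only at h1
        rw [if_pos hv] at h1
        rw [hf v (hM hvM)]
        omega)
  exact h.2 _ (fun v _ => rfl) hLW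

end Pool.Agent.S09737
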