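import Pool.Statements.S09806
import Pool.Agent.Helper611.UNum
import Pool.Agent.Helper611.UMan
import Pool.Agent.Helper611.KFam
import Pool.Agent.H823R2.GeoCx

set_option autoImplicit false
open Pool Pool.MP_8294f4_co

namespace Pool.Agent.S09806

open Pool.Agent.Helper611 Pool.Agent.Helper611.ZBase Pool.Agent.Helper611.KRel
  Pool.Agent.Helper611.KVal Pool.Agent.Helper611.KFam

/-- The upper bound inequality for a complex with vanishing local homology. -/
lemma ubc_of_acy {V : Type} [Fintype V] [LinearOrder V] (Γ : ZBase.Cx V) (d : ℕ) (hd : 1 ≤ d)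
    (hsmall : ∀ σ ∈ Γ.faces, σ.card ≤ d) (B : Finset V) (hB : B ∈ Γ.faces) (hBd : B.card = d)
    (hacy : ∀ (τ : Finset V) (k : ℕ), τ.Nonempty → k < d → Acy Γ ℤ τ k) (s : ℕ) (hs : s ≤ d) :
    ∑ j ∈ Finset.range (s + 1), (-1 : ℤ) ^ (s - j) * ((((d - j).choose (s - j) : ℕ) : ℤ) *
        ((Γ.faces.filter fun σ => σ.card = j).card : ℤ)) ≤
      ((Fintype.card V - d + s - 1).choose s : ℤ) := by
  classical
  obtain ⟨a, ha⟩ : ∃ a : V → ℚ, Function.Injective a :=
    ⟨_, (Infinite.natEmbedding ℚ).injective.comp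
      (Fin.val_injective.comp (Fintype.equivFin V).injective)⟩
  have hP : Cvx (fun F => F ∈ Γ.faces) := fun _ ρ π _ h2 _ h4 => Γ.down π h4 ρ h2
  have hcm : ∀ (M : Type) [AddCommGroup M] (τ : Finset V) (i : ℕ), τ.Nonempty →
      i < d → AcyP (fun F => F ∈ Γ.faces) M τ i := by
    intro M _ τ i hτ hi
    exact acyP_of_acy Γ τ i (acy_change (R := ℤ) Γ τ i
      (fun i' hi' => hacy τ i' hτ (by omega)) i le_rfl)
  refine UNum.ubc_alg (K := ℚ) Γ (mom d a) hsmall hd B hB hBd (dual_mom _ a ha) ?_ s hs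
  intro s' A τ i h1 h2 h3
  exact acyV_ne _ hP (mom d a) (dual_mom _ a ha) (fun τ i s hτ hi => hcm _ τ i hτ hi) (d - s') s'
    (by omega) A τ i h2 h3

open Pool.Agent.Helper611.UMan in
/-- Euclidean charts. -/
lemma acy_of_E {V : Type} [Fintype V] [LinearOrder V] (Γ : ZBase.Cx V) (m d : ℕ)
    (hch : ∀ x : realization Γ, ∃ c : OpenPartialHomeomorph (realization Γ)
      (EuclideanSpace ℝ (Fin m)), x ∈ c.source)
    (B : Finset V) (hB : B ∈ Γ.faces) (hBd : B.card = d) (τ : Finset V) (k : ℕ)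
    (hne : τ.Nonempty) (hk : k < d) : Acy Γ ℤ τ k := by
  have h1 := dim_le Γ (id : EuclideanSpace ℝ (Fin m) → EuclideanSpace ℝ (Fin m))
    Topology.IsEmbedding.id Set.univ isOpen_univ (by rw [Set.range_id])
    (fun U _ hU => by
      obtain ⟨a, ha⟩ := hU
      exact ⟨a, ha, Set.mem_univ _⟩) hch B hB
  exact acy_E Γ hch τ hne k (by omega)

open Pool.Agent.Helper611.UMan in
/-- Half-space charts. -/
lemma acy_of_H {V : Type} [Fintype V] [LinearOrder V] (Γ : ZBase.Cx V) (m d : ℕ) (i0 : Fin m)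
    (hch : ∀ x : realization Γ, ∃ c : OpenPartialHomeomorph (realization Γ)
      {w : EuclideanSpace ℝ (Fin m) // 0 ≤ w i0}, x ∈ c.source)
    (B : Finset V) (hB : B ∈ Γ.faces) (hBd : B.card = d) (τ : Finset V) (k : ℕ)
    (hne : τ.Nonempty) (hk : k < d) : Acy Γ ℤ τ k := by
  have h1 := dim_le Γ (Subtype.val : {w : EuclideanSpace ℝ (Fin m) // 0 ≤ w i0} → _)
    Topology.IsEmbedding.subtypeVal {w | 0 < w i0}
    (isOpen_lt continuous_const (by fun_prop))
    (by
      intro w hw
      exact ⟨⟨w, le_of_lt hw⟩, rfl⟩)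
    (fun U hU hU2 => by
      obtain ⟨a, ha⟩ := hU2
      let e : EuclideanSpace ℝ (Fin m) := EuclideanSpace.single i0 1
      have he : e i0 = 1 := by simp [e]
      let γ : ℝ → {w : EuclideanSpace ℝ (Fin m) // 0 ≤ w i0} := fun t =>
        ⟨a.1 + |t| • e, by
          have h2 := a.2
          show 0 ≤ a.1 i0 + |t| * e i0
          rw [he]
          positivity⟩
      have hγ : Continuous γ := by
        refine Continuous.subtype_mk ?_ _
        fun_prop
      have hγ0 : γ 0 = a := by
        apply Subtype.ext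
        show a.1 + |(0 : ℝ)| • e = a.1
        simp
      have h3 : γ ⁻¹' U ∈ nhds (0 : ℝ) := (hU.preimage hγ).mem_nhds (by
        show γ 0 ∈ U
        rw [hγ0]
        exact ha)
      obtain ⟨ε, hε, h4⟩ := Metric.mem_nhds_iff.1 h3
      have h5 : ε / 2 ∈ Metric.ball (0 : ℝ) ε := by
        rw [Metric.mem_ball, Real.dist_eq, sub_zero, abs_of_pos (by positivity)]
        linarith
      refine ⟨γ (ε / 2), h4 h5, ?_⟩
      show 0 < a.1 i0 + |ε / 2| * e i0
      rw [he, abs_of_pos (by positivity)]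
      have h2 := a.2
      linarith) hch B hB
  exact acy_H Γ i0 hch τ hne k (by
    have := i0.2
    omega)

/-- The negation of the preceding statement: There is a finite simplicial complex whose realization is a topological manifold (boundary allowed) with some h-vector entry h_i > C(n−d+i−1, i), where n is the vertex count and d is dimension plus one. -/
theorem result :
    ¬ (∃ (N : ℕ) (K : Geometry.SimplicialComplex ℝ (EuclideanSpace ℝ (Fin N))),
      K.faces.Finite ∧
      (∃ m : ℕ, Nonempty (ChartedSpace (EuclideanSpace ℝ (Fin m)) K.space) ∨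
        Nonempty (ChartedSpace (EuclideanHalfSpace (m + 1)) K.space)) ∧
      ∃ d : ℕ, (∃ σ ∈ K.faces, σ.card = d) ∧ (∀ σ ∈ K.faces, σ.card ≤ d) ∧
        ∃ i : ℕ, i ≤ d ∧
          ((Nat.choose (K.vertices.ncard - d + i - 1) i : ℕ) : ℤ) <
            ∑ j ∈ Finset.range (i + 1),
              (-1 : ℤ) ^ (i - j) * ((Nat.choose (d - j) (i - j) : ℕ) : ℤ) *
                (if j = 0 then (1 : ℤ) else
                  ((({σ | σ ∈ K.faces ∧ σ.card = j} :
                      Set (Finset (EuclideanSpace ℝ (Fin N)))).ncard : ℕ) : ℤ))) := by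
  classical
  rintro ⟨N, K, hf, ⟨m, hm⟩, d, ⟨σ0, hσ0, hσ0d⟩, hsm, i, hi, hlt⟩
  refine absurd hlt (not_lt.2 ?_)
  -- the abstract model
  let V : Finset (EuclideanSpace ℝ (Fin N)) := hf.toFinset.biUnion id
  let e : Fin V.card ≃ V := V.equivFin.symm
  let g : Fin V.card → EuclideanSpace ℝ (Fin N) := fun i => (e i).1
  have hg : Function.Injective g := fun i j hij => e.injective (Subtype.ext hij)
  let L : Pool.Agent.Helper585.Wk.Cx V.card :=
    { faces := Finset.univ.filter (fun τ => τ = ∅ ∨ τ.map ⟨g, hg⟩ ∈ K.faces)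
      empty_mem := by simp
      down := by
        intro σ hσ τ hτ
        rw [Finset.mem_filter] at hσ ⊢
        refine ⟨Finset.mem_univ _, ?_⟩
        by_cases h : τ = ∅
        · exact Or.inl h
        right
        have hne : τ.Nonempty := Finset.nonempty_iff_ne_empty.2 h
        rcases hσ.2 with h' | h'
        · rw [h'] at hτ
          exact absurd (Finset.subset_empty.1 hτ) h
        · exact K.down_closed h' (Finset.map_subset_map.2 hτ) (by simpa using hne) }
  have h : ∀ τ : Finset (Fin V.card), τ.Nonempty →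
      (τ ∈ L.faces ↔ τ.map ⟨g, hg⟩ ∈ K.faces) := by
    intro τ hne
    show τ ∈ Finset.univ.filter _ ↔ _
    rw [Finset.mem_filter]
    simp [hne.ne_empty]
  have hr : ∀ s ∈ K.faces, ∃ τ : Finset (Fin V.card), τ.map ⟨g, hg⟩ = s := by
    intro s hs
    refine ⟨Finset.univ.filter (fun i => g i ∈ s), ?_⟩
    ext p
    rw [Finset.mem_map]
    constructor
    · rintro ⟨i, hi, rfl⟩
      rw [Finset.mem_filter] at hi
      exact hi.2
    · intro hp
      have hpV : p ∈ V := Finset.mem_biUnion.2 ⟨s, by simpa using hs, hp⟩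
      refine ⟨e.symm ⟨p, hpV⟩, ?_, ?_⟩
      · rw [Finset.mem_filter]
        refine ⟨Finset.mem_univ _, ?_⟩
        show (e (e.symm ⟨p, hpV⟩)).1 ∈ s
        rw [Equiv.apply_symm_apply]
        exact hp
      · show (e (e.symm ⟨p, hpV⟩)).1 = p
        rw [Equiv.apply_symm_apply]
  obtain ⟨ψ⟩ := Pool.Agent.H823R2.space_homeo K L g hg h hr
  have hfe := Pool.Agent.H823R2.f_eq K L g hg h hr
  let Γ : ZBase.Cx (Fin V.card) := ⟨L.faces, L.empty_mem, L.down⟩
  have hVn : K.vertices.ncard = V.card := by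
    rw [← Set.ncard_coe_finset]
    congr 1
    rw [Geometry.SimplicialComplex.vertices_eq]
    ext x
    simp only [Set.mem_iUnion, V, Finset.coe_biUnion, id, Finset.mem_coe, Set.Finite.mem_toFinset]
  obtain ⟨B, hBm⟩ := hr σ0 hσ0
  have hσ0ne : σ0.Nonempty := K.nonempty_of_mem_faces hσ0
  have hBcard : B.card = d := by
    rw [← hσ0d, ← hBm, Finset.card_map]
  have hBne : B.Nonempty := by
    rw [← Finset.card_pos, hBcard, ← hσ0d]
    exact Finset.card_pos.2 hσ0ne
  have hd : 1 ≤ d := by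
    rw [← hBcard]
    exact Finset.card_pos.2 hBne
  have hB : B ∈ Γ.faces := (h B hBne).2 (hBm ▸ hσ0)
  have hsmall : ∀ σ ∈ Γ.faces, σ.card ≤ d := by
    intro σ hσ
    rcases Finset.eq_empty_or_nonempty σ with rfl | hne
    · simp
    · have h1 := hsm _ ((h σ hne).1 hσ)
      rwa [Finset.card_map] at h1
  have hacy : ∀ (τ : Finset (Fin V.card)) (k : ℕ), τ.Nonempty → k < d → Acy Γ ℤ τ k := by
    rcases hm with ⟨⟨hm⟩⟩ | ⟨⟨hm⟩⟩
    · intro τ k hne hk
      refine acy_of_E Γ m d ?_ B hB hBcard τ k hne hk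
      intro x
      refine ⟨(ψ.toOpenPartialHomeomorph).trans (hm.chartAt (ψ x)), ?_⟩
      rw [OpenPartialHomeomorph.trans_source]
      exact ⟨Set.mem_univ _, hm.mem_chart_source (ψ x)⟩
    · intro τ k hne hk
      refine acy_of_H Γ (m + 1) d 0 ?_ B hB hBcard τ k hne hk
      intro x
      let c : OpenPartialHomeomorph (realization Γ) (EuclideanHalfSpace (m + 1)) :=
        (ψ.toOpenPartialHomeomorph).trans (hm.chartAt (ψ x))
      refine ⟨c, ?_⟩
      show x ∈ c.source
      rw [OpenPartialHomeomorph.trans_source]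
      exact ⟨Set.mem_univ _, hm.mem_chart_source (ψ x)⟩
  have key := ubc_of_acy Γ d hd hsmall B hB hBcard hacy i hi
  rw [Fintype.card_fin] at key
  rw [hVn]
  refine le_trans (le_of_eq ?_) key
  refine Finset.sum_congr rfl fun j hj => ?_
  rw [mul_assoc]
  congr 2
  rcases Nat.eq_zero_or_pos j with rfl | hj0
  · rw [if_pos rfl]
    have : (Γ.faces.filter fun σ => σ.card = 0) = {∅} := by
      ext σ
      rw [Finset.mem_filter, Finset.mem_singleton, Finset.card_eq_zero]
      exact ⟨fun h => h.2, fun h => ⟨h ▸ Γ.empty_mem, h⟩⟩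
    rw [this, Finset.card_singleton]
    rfl
  · rw [if_neg (by omega)]
    obtain ⟨j', rfl⟩ : ∃ j', j = j' + 1 := ⟨j - 1, by omega⟩
    have := hfe j'
    rw [Pool.Agent.Helper585.Wk.Cx.f] at this
    exact_mod_cast this

end Pool.Agent.S09806
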