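import Pool.Statements.S09874
import Mathlib

set_option autoImplicit false
open Pool Pool.MP_85fffe_co

namespace Pool.Agent.S09874

/-- A sequence of reals with rational-linear coordinate functionals. -/
theorem exists_coords : ∃ (v : ℕ → ℝ) (c : ℕ → ℝ →ₗ[ℚ] ℚ),
    ∀ k j, c k (v j) = if j = k then 1 else 0 := by
  classical
  let B := Module.Free.chooseBasis ℚ ℝ
  have hinf : Infinite (Module.Free.ChooseBasisIndex ℚ ℝ) := by
    rw [← Cardinal.aleph0_le_mk_iff]
    have h1 := B.mk_eq_rank''
    rw [h1, Real.rank_rat_real]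
    exact Cardinal.aleph0_le_continuum
  let e := Infinite.natEmbedding (Module.Free.ChooseBasisIndex ℚ ℝ)
  refine ⟨fun n => B (e n), fun k => B.coord (e k), fun k j => ?_⟩
  simp only [Module.Basis.coord_apply, Module.Basis.repr_self, Finsupp.single_apply,
    EmbeddingLike.apply_eq_iff_eq]

theorem result :
    ¬ (∃ C : ℕ, ∀ X : Finset ℝ, ∀ S : Finset (Finset ℝ),
      (∀ A ∈ S,
        A.Nonempty ∧ A ⊆ X ∧
        (∃ t : ℝ, t ≠ 0 ∧ A.image (· + t) ⊆ X) ∧
        (∀ B : Finset ℝ, A ⊂ B →
          ¬ (∀ t : ℝ, A.image (· + t) ⊆ X → B.image (· + t) ⊆ X))) →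
      (∀ A ∈ S, ∀ B ∈ S, ∀ t : ℝ, B = A.image (· + t) → A = B) →
      S.card ≤ C * X.card) := by
  classical
  rintro ⟨C, hC⟩
  obtain ⟨v, c, hc⟩ := exists_coords
  -- the building blocks
  set b : ℕ → ℝ := fun j => v (2 * j) with hb
  set s : ℕ → ℝ := fun i => v (2 * i + 1) with hs
  have cb : ∀ k j, c (2 * k) (b j) = if j = k then 1 else 0 := by
    intro k j; simp only [hb, hc]; congr 1; simp
  have cs : ∀ k j, c (2 * k) (s j) = 0 := by
    intro k j; simp only [hs, hc]; rw [if_neg]; omega
  have db : ∀ k j, c (2 * k + 1) (b j) = 0 := by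
    intro k j; simp only [hb, hc]; rw [if_neg]; omega
  have ds : ∀ k j, c (2 * k + 1) (s j) = if j = k then 1 else 0 := by
    intro k j; simp only [hs, hc]; congr 1; simp
  have binj : ∀ j k, b j = b k → j = k := by
    intro j k h
    have := congrArg (c (2 * j)) h
    rw [cb, cb] at this
    by_contra hne
    simp [Ne.symm hne] at this
  set m : ℕ := 6 * C + 7 with hm
  set P : Finset (ℕ × ℕ) := (Finset.range m ×ˢ Finset.range m).filter (fun p => p.1 ≠ p.2) with hP
  set X : Finset ℝ := P.image (fun p => b p.2 + s p.1) ∪ (Finset.range m).image b with hX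
  have memX : ∀ x, x ∈ X ↔ (∃ i j, i < m ∧ j < m ∧ i ≠ j ∧ b j + s i = x) ∨ (∃ j, j < m ∧ b j = x) := by
    intro x
    simp only [hX, hP, Finset.mem_union, Finset.mem_image, Finset.mem_filter, Finset.mem_product,
      Finset.mem_range, Prod.exists]
    constructor
    · rintro (⟨i, j, ⟨⟨h1, h2⟩, h3⟩, h4⟩ | h)
      · exact Or.inl ⟨i, j, h1, h2, h3, h4⟩
      · exact Or.inr h
    · rintro (⟨i, j, h1, h2, h3, h4⟩ | h)
      · exact Or.inl ⟨i, j, ⟨⟨h1, h2⟩, h3⟩, h4⟩
      · exact Or.inr h
  -- fact (a)
  have factA : ∀ l, b l + s l ∉ X := by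
    intro l h
    rcases (memX _).1 h with ⟨i, j, _, _, hij, h⟩ | ⟨j, _, h⟩
    · have h1 := congrArg (c (2 * l)) h
      have h2 := congrArg (c (2 * l + 1)) h
      simp only [map_add, cb, cs, db, ds] at h1 h2
      by_cases hj : j = l
      · by_cases hi : i = l
        · exact hij (hi.trans hj.symm)
        · simp [hi] at h2
      · simp [hj] at h1
    · have h2 := congrArg (c (2 * l + 1)) h
      simp only [map_add, db, ds] at h2
      simp at h2
  -- fact (b)
  have factB : ∀ l k i, b l + s k + s i ∉ X := by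
    intro l k i h
    rcases (memX _).1 h with ⟨q, j, _, _, _, h⟩ | ⟨j, _, h⟩
    · have h1 := congrArg (c (2 * k + 1)) h
      have h2 := congrArg (c (2 * i + 1)) h
      simp only [map_add, cb, cs, db, ds] at h1 h2
      by_cases hik : i = k
      · subst hik
        by_cases hq : q = i
        · simp [hq] at h1
        · simp [hq] at h1
          norm_num at h1
      · by_cases hq : q = k
        · subst hq
          simp [Ne.symm hik] at h2
        · simp [hq, hik] at h1
    · have h1 := congrArg (c (2 * k + 1)) h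
      simp only [map_add, db, ds] at h1
      by_cases hik : i = k
      · simp only [hik, if_true] at h1
        norm_num at h1
      · simp [hik] at h1
  set A : Finset ℕ → Finset ℝ := fun J => J.image b with hA
  have key := hC X ((Finset.powersetCard 3 (Finset.range m)).image A) ?_ ?_
  · -- counting
    have hinj : Set.InjOn A (Finset.powersetCard 3 (Finset.range m) : Set (Finset ℕ)) := by
      intro J _ K _ h
      exact Finset.image_injective (fun j k h => binj j k h) h
    rw [Finset.card_image_of_injOn hinj, Finset.card_powersetCard, Finset.card_range] at key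
    have hXc : X.card ≤ m * m + m := by
      refine (Finset.card_union_le _ _).trans ?_
      refine Nat.add_le_add ?_ ?_
      · refine Finset.card_image_le.trans ((Finset.card_filter_le _ _).trans ?_)
        simp
      · refine Finset.card_image_le.trans ?_
        simp
    have h3 : m.descFactorial 3 = 6 * m.choose 3 := by
      rw [Nat.descFactorial_eq_factorial_mul_choose]; rfl
    have h4 : m.descFactorial 3 = m * (m - 1) * (m - 2) := by
      simp [Nat.descFactorial_succ]; ring
    have h5 : m * (m - 1) * (m - 2) ≤ 6 * (C * (m * m + m)) := by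
      rw [← h4, h3]
      exact Nat.mul_le_mul_left 6 (key.trans (Nat.mul_le_mul_left C hXc))
    have h6 : m - 1 = 6 * C + 6 := by omega
    have h7 : m - 2 = 6 * C + 5 := by omega
    rw [h6, h7, hm] at h5
    nlinarith [h5]
  · -- each A_J is a maximally repeated pattern
    intro A' hA'
    simp only [Finset.mem_image, Finset.mem_powersetCard] at hA'
    obtain ⟨J, ⟨hJm, hJ3⟩, rfl⟩ := hA'
    have hJlt : ∀ j ∈ J, j < m := fun j hj => Finset.mem_range.1 (hJm hj)
    have hshift : ∀ i, i < m → i ∉ J → (A J).image (· + s i) ⊆ X := by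
      intro i hi hiJ x hx
      simp only [hA, Finset.mem_image] at hx
      obtain ⟨y, ⟨j, hj, rfl⟩, rfl⟩ := hx
      exact (memX _).2 (Or.inl ⟨i, j, hi, hJlt j hj, fun h => hiJ (h ▸ hj), rfl⟩)
    have hsub : A J ⊆ X := by
      intro x hx
      simp only [hA, Finset.mem_image] at hx
      obtain ⟨j, hj, rfl⟩ := hx
      exact (memX _).2 (Or.inr ⟨j, hJlt j hj, rfl⟩)
    -- an index outside J
    have hex : ∃ i, i < m ∧ i ∉ J := by
      by_contra hcon
      push Not at hcon
      have : Finset.range m ⊆ J := fun i hi => hcon i (Finset.mem_range.1 hi)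
      have := Finset.card_le_card this
      rw [Finset.card_range, hJ3] at this
      omega
    obtain ⟨i0, hi0, hi0J⟩ := hex
    refine ⟨?_, hsub, ⟨s i0, ?_, hshift i0 hi0 hi0J⟩, ?_⟩
    · rw [hA]
      refine Finset.Nonempty.image ?_ _
      rw [← Finset.card_pos, hJ3]; norm_num
    · intro h0
      have := congrArg (c (2 * i0 + 1)) h0
      rw [ds, map_zero] at this
      simp at this
    · intro B hAB hall
      obtain ⟨hAB1, x, hxB, hxA⟩ := (Finset.ssubset_iff_of_subset hAB.1).1 hAB |>.elim
        (fun x hx => (⟨hAB.1, x, hx.1, hx.2⟩ : A J ⊆ B ∧ ∃ x, x ∈ B ∧ x ∉ A J))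
      have hx0 : x ∈ X := by
        have := hall 0 (by simpa using hsub)
        exact this (Finset.mem_image.2 ⟨x, hxB, by simp⟩)
      rcases (memX _).1 hx0 with ⟨k, l, _, _, _, rfl⟩ | ⟨l, hl, rfl⟩
      · have := hall (s i0) (hshift i0 hi0 hi0J)
        exact factB l k i0 (this (Finset.mem_image.2 ⟨_, hxB, rfl⟩))
      · have hlJ : l ∉ J := fun h => hxA (Finset.mem_image.2 ⟨l, h, rfl⟩)
        have := hall (s l) (hshift l hl hlJ)
        exact factA l (this (Finset.mem_image.2 ⟨_, hxB, rfl⟩))
  · -- pairwise not translates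
    intro A1 h1 A2 h2 t ht
    simp only [Finset.mem_image, Finset.mem_powersetCard] at h1 h2
    obtain ⟨J, ⟨_, hJ3⟩, rfl⟩ := h1
    obtain ⟨K, ⟨_, hK3⟩, rfl⟩ := h2
    have hone : 1 < J.card := by omega
    obtain ⟨j, hj, j', hj', hjj⟩ := Finset.one_lt_card.1 hone
    have e1 : b j + t ∈ A K := by
      rw [ht]; exact Finset.mem_image.2 ⟨_, Finset.mem_image.2 ⟨j, hj, rfl⟩, rfl⟩
    have e2 : b j' + t ∈ A K := by
      rw [ht]; exact Finset.mem_image.2 ⟨_, Finset.mem_image.2 ⟨j', hj', rfl⟩, rfl⟩
    obtain ⟨k, _, hk⟩ := Finset.mem_image.1 e1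
    obtain ⟨k', _, hk'⟩ := Finset.mem_image.1 e2
    have e3 : b j + b k' = b j' + b k := by rw [hk, hk']; ring
    have e4 := congrArg (c (2 * j)) e3
    simp only [map_add, cb] at e4
    have hkj : k = j := by
      by_contra hne
      rw [if_pos trivial, if_neg (Ne.symm hjj), if_neg hne] at e4
      by_cases h' : k' = j
      · rw [if_pos h'] at e4
        norm_num at e4
      · rw [if_neg h'] at e4
        norm_num at e4
    rw [hkj] at hk
    have ht0 : t = 0 := by linarith
    rw [ht, ht0]
    simp

end Pool.Agent.S09874
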