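import Pool.Statements.S10101
-- import your own Pool.Agent.* helpers here
import Pool.Agent.Run7.h695.Main

set_option autoImplicit false
open Pool Pool.MP_8f149a_co

namespace Pool.Agent.S10101

/-- There is an irrational α, a k and a finite set L such that, for all large n, the largest family of k-subsets of an n-set whose distinct members meet in sizes from L has size between c·n^α and C·n^α for fixed c, C > 0. -/
theorem result :
    ∃ α : ℝ, Irrational α ∧ ∃ k : ℕ, ∃ L : Finset ℕ, ∃ c C : ℝ, 0 < c ∧ 0 < C ∧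
      ∃ N : ℕ, ∀ n : ℕ, N ≤ n →
        (∀ F : Finset (Finset (Fin n)),
            (∀ A ∈ F, A.card = k) →
            (∀ A ∈ F, ∀ B ∈ F, A ≠ B → (A ∩ B).card ∈ L) →
            (F.card : ℝ) ≤ C * (n : ℝ) ^ α) ∧
        (∃ F : Finset (Finset (Fin n)),
            (∀ A ∈ F, A.card = k) ∧
            (∀ A ∈ F, ∀ B ∈ F, A ≠ B → (A ∩ B).card ∈ L) ∧
            c * (n : ℝ) ^ α ≤ (F.card : ℝ)) := by
  obtain ⟨α, h1, k, L, c, C, h2, h3, N, hN⟩ := Run7.h695.main_result
  refine ⟨α, h1, k, L, c, C, h2, h3, N, fun n hn => ⟨?_, ?_⟩⟩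
  · intro F hF hL
    refine (hN n hn).1 F hF fun A hA B hB hAB => ?_
    convert hL A hA B hB hAB
  · obtain ⟨F, hF1, hF2, hF3⟩ := (hN n hn).2
    refine ⟨F, hF1, fun A hA B hB hAB => ?_, hF3⟩
    convert hF2 A hA B hB hAB

end Pool.Agent.S10101
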