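import Pool.Statements.S10231
import Pool.Agent.Run7.h137.RGFinal

set_option autoImplicit false
open Pool Pool.MP_9571c3_co

namespace Pool.Agent.S10231

/-- For every d ≥ 3 there are k and a finite nonempty k-uniform hypergraph H with all degrees at least d such that, on the countably infinite complete k-uniform hypergraph, neither player has a strategy guaranteeing they claim a copy of H first. -/
theorem result :
  ∀ d : ℕ, 3 ≤ d → ∃ (k n : ℕ) (H : Finset (Finset (Fin n))), 0 < n ∧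
    (∀ e ∈ H, e.card = k) ∧
    (∀ v : Fin n, d ≤ (H.filter (fun e => v ∈ e)).card) ∧
    (¬ ∃ s : List (Finset ℕ) → Finset ℕ, ∀ m : ℕ → Finset ℕ,
        (∀ i : ℕ, Even i → m i = s (List.ofFn (fun j : Fin i => m j))) →
        (∀ i : ℕ, Odd i → (m i).card = k ∧ ∀ j < i, m j ≠ m i) →
        ∃ N : ℕ, Even N ∧
          (∀ i ≤ N, Even i → (m i).card = k ∧ ∀ j < i, m j ≠ m i) ∧
          (∃ f : Fin n → ℕ, Function.Injective f ∧
              ∀ e ∈ H, ∃ i ≤ N, Even i ∧ m i = e.image f) ∧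
          ¬ (∃ f : Fin n → ℕ, Function.Injective f ∧
              ∀ e ∈ H, ∃ i < N, Odd i ∧ m i = e.image f)) ∧
    (¬ ∃ t : List (Finset ℕ) → Finset ℕ, ∀ m : ℕ → Finset ℕ,
        (∀ i : ℕ, Odd i → m i = t (List.ofFn (fun j : Fin i => m j))) →
        (∀ i : ℕ, Even i → (m i).card = k ∧ ∀ j < i, m j ≠ m i) →
        ∃ N : ℕ, Odd N ∧
          (∀ i ≤ N, Odd i → (m i).card = k ∧ ∀ j < i, m j ≠ m i) ∧
          (∃ f : Fin n → ℕ, Function.Injective f ∧
              ∀ e ∈ H, ∃ i ≤ N, Odd i ∧ m i = e.image f) ∧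
          ¬ (∃ f : Fin n → ℕ, Function.Injective f ∧
              ∀ e ∈ H, ∃ i < N, Even i ∧ m i = e.image f)) := by
  intro d hd
  refine ⟨22 * d - 3, Run7.h137.RG.nn d, Run7.h137.RG.HH d, Run7.h137.RG.nn_pos hd,
    Run7.h137.RG.HH_card hd, Run7.h137.RG.HH_deg hd, ?_, ?_⟩
  · rintro ⟨s, hs⟩
    obtain ⟨m, h1, h2, h3⟩ := Run7.h137.RG.draw_play hd 0 (Or.inl rfl) s
    obtain ⟨N, hN, hleg, ⟨f, hf, hfe⟩, hno⟩ := hs m (fun i hi => h1 i (by simpa using hi))
      (fun i hi => h2 i (by rw [Nat.add_zero, Nat.not_even_iff_odd]; exact hi))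
    apply hno
    have hown := h3 N (by simpa using hN) (fun i hi hi2 => hleg i hi (by simpa using hi2))
      ((Run7.h137.RG.hasCopy_iff hd _).1 ⟨f, hf, fun e he => by
        obtain ⟨i, hi, hev, hm⟩ := hfe e he
        exact Run7.h137.RG.mem_oppE.2 ⟨i, by omega, by simpa using hev, hm⟩⟩)
    obtain ⟨g, hg, hge⟩ := (Run7.h137.RG.hasCopy_iff hd _).2 hown
    refine ⟨g, hg, fun e he => ?_⟩
    obtain ⟨i, hi, hodd, hm⟩ := Run7.h137.RG.mem_ownE.1 (hge e he)
    exact ⟨i, hi, by rwa [Nat.add_zero, Nat.not_even_iff_odd] at hodd, hm⟩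
  · rintro ⟨t, ht⟩
    have hpar : ∀ i : ℕ, Even (i + 1) ↔ Odd i := fun i => by
      rw [Nat.even_add_one, Nat.not_even_iff_odd]
    have hpar2 : ∀ i : ℕ, ¬ Even (i + 1) ↔ Even i := fun i => by
      rw [Nat.even_add_one, not_not]
    obtain ⟨m, h1, h2, h3⟩ := Run7.h137.RG.draw_play hd 1 (Or.inr rfl) t
    obtain ⟨N, hN, hleg, ⟨f, hf, hfe⟩, hno⟩ := ht m (fun i hi => h1 i ((hpar i).2 hi))
      (fun i hi => h2 i ((hpar2 i).2 hi))
    apply hno
    have hown := h3 N ((hpar N).2 hN) (fun i hi hi2 => hleg i hi ((hpar i).1 hi2))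
      ((Run7.h137.RG.hasCopy_iff hd _).1 ⟨f, hf, fun e he => by
        obtain ⟨i, hi, hev, hm⟩ := hfe e he
        exact Run7.h137.RG.mem_oppE.2 ⟨i, by omega, (hpar i).2 hev, hm⟩⟩)
    obtain ⟨g, hg, hge⟩ := (Run7.h137.RG.hasCopy_iff hd _).2 hown
    refine ⟨g, hg, fun e he => ?_⟩
    obtain ⟨i, hi, hodd, hm⟩ := Run7.h137.RG.mem_ownE.1 (hge e he)
    exact ⟨i, hi, (hpar2 i).1 hodd, hm⟩

end Pool.Agent.S10231
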