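import Pool.Statements.S10336
import Pool.Agent.Run7.h553.OCC.Graphs

set_option autoImplicit false
open Classical
open Pool Pool.MP_99d978_co

namespace Pool.Agent.S10336

open Pool.Agent.Run7.h553.OCC

/-- the sextic -/
def P6 (x : ℝ) : ℝ := 90*x^6 + 729*x^5 - 188*x^4 - 1632*x^3 - 1247*x^2 - 363*x - 38

theorem P6_pos {x : ℝ} (hx : 2 < x) : 0 < P6 x := by
  obtain ⟨y, rfl⟩ : ∃ y, x = y + 2 := ⟨x - 2, by ring⟩
  have hy : 0 < y := by linarith
  have e : P6 (y + 2) = 90 * y^6 + 1809 * y^5 + 12502 * y^4 + 40424 * y^3 + 64369 * y^2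
      + 44649 * y + 7272 := by unfold P6; ring
  rw [e]
  positivity

theorem P6_root : ∃ L : ℝ, P6 L = 0 ∧ (∀ x : ℝ, P6 x = 0 → x ≤ L) ∧ L ≤ 2 := by
  have hc : Continuous P6 := by unfold P6; fun_prop
  have h1 : P6 1 < 0 := by unfold P6; norm_num
  have h2 : 0 < P6 2 := by unfold P6; norm_num
  have hK : IsCompact (Set.Icc (1:ℝ) 2 ∩ P6 ⁻¹' {0}) :=
    isCompact_Icc.inter_right (isClosed_singleton.preimage hc)
  have hne : (Set.Icc (1:ℝ) 2 ∩ P6 ⁻¹' {0}).Nonempty := by
    obtain ⟨x, hx, hx0⟩ := intermediate_value_Icc (by norm_num : (1:ℝ) ≤ 2) hc.continuousOn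
      ⟨h1.le, h2.le⟩
    exact ⟨x, hx, hx0⟩
  obtain ⟨L, ⟨hL1, hL2⟩, hL3⟩ := hK.exists_isGreatest hne
  refine ⟨L, hL2, fun x hx => ?_, hL1.2⟩
  by_cases h : x ≤ 1
  · exact h.trans hL1.1
  · push Not at h
    by_cases h' : x ≤ 2
    · exact hL3 ⟨⟨h.le, h'⟩, hx⟩
    · push Not at h'
      have := P6_pos h'
      linarith

/-- The negation of the preceding statement: Let L be the largest real root of the sextic. For every finite 4-regular triangle-free G and λ>0: if λ≤L, G's occupancy fraction is at least the Robertson graph's (4-regular, girth 5, 19 vertices); if λ≥L, at least that of the circulant on Z13 with jumps ±1,±5. -/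
theorem result :
    ¬ (∀ L : ℝ,
      90*L^6 + 729*L^5 - 188*L^4 - 1632*L^3 - 1247*L^2 - 363*L - 38 = 0 →
      (∀ x : ℝ, 90*x^6 + 729*x^5 - 188*x^4 - 1632*x^3 - 1247*x^2 - 363*x - 38 = 0 → x ≤ L) →
      ∀ (V : Type) [Fintype V] [Nonempty V] (G : SimpleGraph V),
        G.IsRegularOfDegree 4 → G.CliqueFree 3 →
        ∀ H : SimpleGraph (Fin 19), H.IsRegularOfDegree 4 → (5 : ℕ∞) ≤ H.egirth →
        ∀ l : ℝ, 0 < l →
          (l ≤ L →
            (∑ I : Finset (Fin 19), if H.IsIndepSet (I : Set (Fin 19)) then (I.card : ℝ) * l ^ I.card else 0) /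
              ((Fintype.card (Fin 19) : ℝ) *
                ∑ I : Finset (Fin 19), if H.IsIndepSet (I : Set (Fin 19)) then l ^ I.card else 0)
            ≤
            (∑ I : Finset V, if G.IsIndepSet (I : Set V) then (I.card : ℝ) * l ^ I.card else 0) /
              ((Fintype.card V : ℝ) *
                ∑ I : Finset V, if G.IsIndepSet (I : Set V) then l ^ I.card else 0)) ∧
          (L ≤ l →
            (∑ I : Finset (ZMod 13),
                if (SimpleGraph.fromRel (fun x y : ZMod 13 => x - y = 1 ∨ x - y = 5)).IsIndepSet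
                    (I : Set (ZMod 13))
                then (I.card : ℝ) * l ^ I.card else 0) /
              ((Fintype.card (ZMod 13) : ℝ) *
                ∑ I : Finset (ZMod 13),
                  if (SimpleGraph.fromRel (fun x y : ZMod 13 => x - y = 1 ∨ x - y = 5)).IsIndepSet
                      (I : Set (ZMod 13))
                  then l ^ I.card else 0)
            ≤
            (∑ I : Finset V, if G.IsIndepSet (I : Set V) then (I.card : ℝ) * l ^ I.card else 0) /
              ((Fintype.card V : ℝ) *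
                ∑ I : Finset V, if G.IsIndepSet (I : Set V) then l ^ I.card else 0))) := by
  intro hall
  obtain ⟨L, hL, hmax, hL2⟩ := P6_root
  have h0 := hall L hL hmax (Fin 20) G20 ?_ ?_ G19 ?_ G19_girth 2 (by norm_num)
  · have h := h0.2 hL2
    obtain ⟨a1, a2⟩ := total_real G20 (Equiv.refl (Fin 20)) M20 G20_mask
    obtain ⟨b1, b2⟩ := total_real
      (SimpleGraph.fromRel (fun x y : ZMod 13 => x - y = 1 ∨ x - y = 5)) e13 M13 G13_mask
    have c1 : (∑ I : Finset (ZMod 13),
        if (SimpleGraph.fromRel (fun x y : ZMod 13 => x - y = 1 ∨ x - y = 5)).IsIndepSet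
          (I : Set (ZMod 13)) then (2 : ℝ) ^ I.card else 0) =
        ((T M13 13 (2 ^ 13 - 1)).1 : ℝ) := by convert b1
    have c2 : (∑ I : Finset (ZMod 13),
        if (SimpleGraph.fromRel (fun x y : ZMod 13 => x - y = 1 ∨ x - y = 5)).IsIndepSet
          (I : Set (ZMod 13)) then (I.card : ℝ) * (2 : ℝ) ^ I.card else 0) =
        ((T M13 13 (2 ^ 13 - 1)).2 : ℝ) := by convert b2
    rw [c1, c2, a1, a2, G20_T, G13_T, ZMod.card, Fintype.card_fin] at h
    norm_num at h
  · intro v
    have := G20_deg v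
    rw [SimpleGraph.degree, ← this]
    congr 1
    ext w
    simp
  · intro s hs
    rw [SimpleGraph.is3Clique_iff] at hs
    obtain ⟨a, b, c, h1, h2, h3, _⟩ := hs
    exact G20_tri a b c h1 h3 h2.symm
  · intro v
    have := G19_deg v
    rw [SimpleGraph.degree, ← this]
    congr 1
    ext w
    simp

end Pool.Agent.S10336
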