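import Pool.Statements.S10800
import Pool.Agent.Run7.h198.BC.Main

set_option autoImplicit false
open scoped Classical
open Filter Topology
open Pool Pool.MP_aef546_co

namespace Pool.Agent.S10800

/-- The negation of the preceding statement: For every fixed p with 0<p<1/2, the probability that G(n,p) has biclique partition number equal to n minus its independence number tends to 1 as n tends to infinity. -/
theorem result :
    ¬ (∀ p : ℝ, 0 < p → p < 1 / 2 →
      Tendsto (fun n : ℕ => ∑ G : SimpleGraph (Fin n),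
        if sInf {k : ℕ | ∃ A B : Fin k → Finset (Fin n),
              (∀ i, Disjoint (A i) (B i)) ∧
              ∀ u v : Fin n,
                (G.Adj u v → ∃! i, (u ∈ A i ∧ v ∈ B i) ∨ (v ∈ A i ∧ u ∈ B i)) ∧
                (¬ G.Adj u v → ∀ i, ¬ (u ∈ A i ∧ v ∈ B i))}
            = n - Gᶜ.cliqueNum
        then p ^ G.edgeFinset.card * (1 - p) ^ (n.choose 2 - G.edgeFinset.card)
        else 0)
        atTop (𝓝 1)) := by
  intro H
  have h := H (7 / 16) (by norm_num) (by norm_num)
  have h2 := h.eventually (lt_mem_nhds (show (7 / 8 : ℝ) < 1 by norm_num))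
  obtain ⟨n0, hn0⟩ := eventually_atTop.mp h2
  obtain ⟨t, ht, H1, H2, H3⟩ := Run7.h198.BC.exists_t ((n0 : ℝ) + 1)
  obtain ⟨n, hn, hPr⟩ := Run7.h198.BC.step t ht H1 H2
  have hpos : (0 : ℝ) < (3 / 4) ^ (2 * t) := by positivity
  have hle : n0 ≤ n := by
    have h3 : ((n0 : ℝ) + 1) * (3 / 4) ^ (2 * t) < ((n : ℝ) + 1) * (3 / 4) ^ (2 * t) :=
      lt_of_le_of_lt H3 hn
    have h4 : (n0 : ℝ) + 1 < (n : ℝ) + 1 := lt_of_mul_lt_mul_right h3 hpos.le
    have h5 : (n0 : ℝ) < n := by linarith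
    exact le_of_lt (by exact_mod_cast h5)
  have h6 := hn0 n hle
  have h7 := Pool.Agent.W166.Gnp.sum_eq_Pr (n := n) (7 / 16)
    (fun G => sInf (Run7.h198.BC.PartSet G) = n - Gᶜ.cliqueNum)
  have h8 : (∑ G : SimpleGraph (Fin n),
        if sInf {k : ℕ | ∃ A B : Fin k → Finset (Fin n),
              (∀ i, Disjoint (A i) (B i)) ∧
              ∀ u v : Fin n,
                (G.Adj u v → ∃! i, (u ∈ A i ∧ v ∈ B i) ∨ (v ∈ A i ∧ u ∈ B i)) ∧
                (¬ G.Adj u v → ∀ i, ¬ (u ∈ A i ∧ v ∈ B i))}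
            = n - Gᶜ.cliqueNum
        then (7 / 16 : ℝ) ^ G.edgeFinset.card * (1 - 7 / 16) ^ (n.choose 2 - G.edgeFinset.card)
        else 0) = Pool.Agent.W166.Gnp.Pr (Pool.Agent.W166.Gnp.allE n) (7 / 16) (fun S =>
        sInf (Run7.h198.BC.PartSet (SimpleGraph.fromEdgeSet (S : Set (Sym2 (Fin n))))) =
          n - (SimpleGraph.fromEdgeSet (S : Set (Sym2 (Fin n))))ᶜ.cliqueNum) := by
    rw [← h7]
    apply Finset.sum_congr
    · rfl
    · intro G _
      have hc : G.edgeFinset.card = G.edgeSet.ncard := by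
        rw [Set.ncard_eq_toFinset_card']
        rfl
      rw [hc]
      rfl
  rw [h8] at h6
  linarith

end Pool.Agent.S10800
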