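import Pool.Statements.S10962
import Pool.Agent.Run7.h50.Final

set_option autoImplicit false
open Pool Pool.MP_b63a31_co

namespace Pool.Agent.S10962

/-- The negation of the preceding statement: For every c there is k such that every finite graph whose r-shallow minors all have at most c(r+1)^c times as many edges as vertices admits a k-colouring in which no path has its first half coloured identically to its second half. -/
theorem result :
    ¬ (∀ c : ℕ, ∃ k : ℕ, ∀ (V : Type) [Fintype V] (G : SimpleGraph V),
    (∀ (r n : ℕ) (H : SimpleGraph (Fin n)) (B : Fin n → Set V) (x : Fin n → V),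
      (∀ i j, i ≠ j → Disjoint (B i) (B j)) →
      (∀ i, x i ∈ B i ∧ ∀ y ∈ B i, ∃ p : G.Walk (x i) y,
        p.length ≤ r ∧ ∀ z ∈ p.support, z ∈ B i) →
      (∀ i j, H.Adj i j → ∃ a ∈ B i, ∃ b ∈ B j, G.Adj a b) →
      H.edgeSet.ncard ≤ c * (r + 1) ^ c * n) →
    ∃ f : V → Fin k, ∀ (u v : V) (p : G.Walk u v), p.IsPath →
      ∀ t : ℕ, p.support.length = 2 * t →
        (p.support.take t).map f ≠ (p.support.drop t).map f) := by
  intro h
  obtain ⟨k, hk⟩ := h 24
  obtain ⟨V, hV, G, h1, h2⟩ := Run7.h50.exists_graph k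
  apply h2
  refine hk V G ?_
  intro r n H B x hd hr hH
  refine (h1 r n H B x hd hr hH).trans ?_
  apply Nat.mul_le_mul_right
  have h3 : r + 1 ≤ (r + 1) ^ 24 := Nat.le_self_pow (by norm_num) _
  omega

end Pool.Agent.S10962
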