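import Pool.Statements.S11006
import Pool.Agent.Run7.h611.Ehr.Lin

set_option autoImplicit false
open scoped Pointwise
open Pool Pool.MP_b7cbb2_co

namespace Pool.Agent.S11006

/-- The negation of the preceding statement: For any finite group acting linearly on Z^n and invariant lattice polytope P whose equivariant h*-series is a polynomial, every coefficient with positive h*_i has nonzero sum over the group, i.e. contains the trivial representation. -/
theorem result :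
    ¬ (∀ (G : Type) [Group G] [Fintype G] (n : ℕ)
      (ρ : G →* Matrix.GeneralLinearGroup (Fin n) ℤ)
      (V : Finset (Fin n → ℤ)) (P : Set (Fin n → ℝ)),
      V.Nonempty →
      (∀ g : G, ∀ v ∈ V,
        Matrix.mulVec (ρ g : Matrix (Fin n) (Fin n) ℤ) v ∈ V) →
      P = convexHull ℝ
        ((fun v : Fin n → ℤ => fun j => ((v j : ℤ) : ℝ)) '' (V : Set (Fin n → ℤ))) →
      ∀ (d : ℕ) (ι : (Fin d → ℤ) →ₗ[ℤ] (Fin n → ℤ))
        (σ : G → Matrix (Fin d) (Fin d) ℤ) (Φ : G → PowerSeries ℤ),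
      Function.Injective ι →
      (∀ x : Fin n → ℤ,
        (∃ y : Fin d → ℤ, ι y = x) ↔
          (fun j => ((x j : ℤ) : ℝ)) ∈ vectorSpan ℝ P) →
      (∀ (g : G) (y : Fin d → ℤ),
        ι (Matrix.mulVec (σ g) y) =
          Matrix.mulVec (ρ g : Matrix (Fin n) (Fin n) ℤ) (ι y)) →
      (∀ g : G, Φ g =
        PowerSeries.mk (fun m : ℕ =>
          ((Set.ncard {x : Fin n → ℤ |
              (fun j => ((x j : ℤ) : ℝ)) ∈ (m : ℝ) • P ∧
              Matrix.mulVec (ρ g : Matrix (Fin n) (Fin n) ℤ) x = x} : ℕ) : ℤ))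
        * (1 - PowerSeries.X)
        * ((Matrix.det (1 - (Polynomial.X : Polynomial ℤ) •
              (σ g).map Polynomial.C) : Polynomial ℤ) : PowerSeries ℤ)) →
      (∃ N : ℕ, ∀ g : G, ∀ i : ℕ, N ≤ i →
        PowerSeries.coeff (R := ℤ) i (Φ g) = 0) →
      ∀ i : ℕ, 0 < PowerSeries.coeff (R := ℤ) i (Φ 1) →
        (∑ g : G, PowerSeries.coeff (R := ℤ) i (Φ g)) ≠ 0) := by
  intro h
  have h1 := h ℤˣ 6 Run7.h611.Ehr.Lin.rho Run7.h611.Ehr.Lin.Vf Run7.h611.Ehr.Lin.PL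
    ⟨Run7.h611.Ehr.Lin.vz 0, Finset.mem_image_of_mem _ (Finset.mem_univ _)⟩
    Run7.h611.Ehr.Lin.Vf_invariant rfl 6 LinearMap.id
    (fun g => (Run7.h611.Ehr.Lin.rho g : Matrix (Fin 6) (Fin 6) ℤ)) Run7.h611.Ehr.Lin.Phi
    Function.injective_id
    (fun x => by
      rw [Run7.h611.Ehr.Lin.fullDim_PL]
      exact ⟨fun _ => Submodule.mem_top, fun _ => ⟨x, rfl⟩⟩)
    (fun _ _ => rfl) (fun _ => rfl) Run7.h611.Ehr.Lin.Phi_polynomial 1
  rw [Run7.h611.Ehr.Lin.coeff_one_one] at h1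
  apply h1 one_pos
  have hu : (Finset.univ : Finset ℤˣ) = {1, -1} := by decide
  rw [hu, Finset.sum_pair (by decide), Run7.h611.Ehr.Lin.coeff_one_one,
    Run7.h611.Ehr.Lin.coeff_one_neg]
  norm_num

end Pool.Agent.S11006
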