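import Pool.Statements.S11152
import Pool.Agent.helper287_Sidon.Reals

set_option autoImplicit false
open Pool Pool.MP_be54a8_co

namespace Pool.Agent.S11152

/-- The negation of the preceding statement: For every ε>0 and all large k: any set of at least (1+ε)k² reals has k points with all pairwise distances distinct, and for each n below (1−ε)k² some n reals have no such k points. -/
theorem result :
    ¬ (∀ ε : ℝ, 0 < ε → ∃ K : ℕ, ∀ k : ℕ, K ≤ k →
      (∃ n : ℕ, (n : ℝ) ≤ (1 + ε) * (k : ℝ) ^ 2 ∧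
        ∀ S : Finset ℝ, n ≤ S.card → ∃ T ⊆ S, T.card = k ∧
          ∀ a ∈ T, ∀ b ∈ T, ∀ c ∈ T, ∀ d ∈ T, a ≠ b → c ≠ d →
            |a - b| = |c - d| → ((a = c ∧ b = d) ∨ (a = d ∧ b = c))) ∧
      (∀ n : ℕ, (n : ℝ) < (1 - ε) * (k : ℝ) ^ 2 →
        ∃ S : Finset ℝ, S.card = n ∧ ∀ T ⊆ S, T.card = k →
          ∃ a ∈ T, ∃ b ∈ T, ∃ c ∈ T, ∃ d ∈ T, a ≠ b ∧ c ≠ d ∧
            |a - b| = |c - d| ∧ ¬((a = c ∧ b = d) ∨ (a = d ∧ b = c)))) := by
  exact @Pool.Agent.helper287_Sidon.disproof_distances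

end Pool.Agent.S11152
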