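import Pool.Statements.S11277
import Pool.Agent.Run7.h130.PRAll

set_option autoImplicit false
open Pool Pool.MP_c3ac7c_co

namespace Pool.Agent.S11277

/-- For every d ≥ 2 and finite field F there is C such that every d-linear form T over F is a sum of at most C·AR(T) products of multilinear forms on complementary nonempty proper variable sets, AR being −log_q of the bias. -/
theorem result :
  ∀ (d : ℕ) (F : Type) [Field F] [Fintype F], ∃ C : ℝ, ∀ (n : Fin (d+2) → ℕ)
    (T : MultilinearMap F (fun i : Fin (d+2) => Fin (n i) → F) F),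
    ∃ r : ℕ, (r : ℝ) ≤ C * (-Real.logb (Fintype.card F : ℝ)
        ((Nat.card {x : (i : Fin (d+2)) → Fin (n i) → F //
            ∀ y : Fin (n 0) → F, T (Function.update x 0 y) = 0} : ℝ) /
          (Nat.card ((i : Fin (d+2)) → Fin (n i) → F) : ℝ))) ∧
      ∃ S : Fin r → Finset (Fin (d+2)),
      ∃ a : (k : Fin r) → MultilinearMap F (fun j : {j // j ∈ S k} => Fin (n j.1) → F) F,
      ∃ b : (k : Fin r) → MultilinearMap F (fun j : {j // j ∉ S k} => Fin (n j.1) → F) F,
      (∀ k, (S k).Nonempty ∧ S k ≠ Finset.univ) ∧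
      ∀ x : (i : Fin (d+2)) → Fin (n i) → F,
        T x = ∑ k, a k (fun j => x j.1) * b k (fun j => x j.1) := by
  exact Run7.h130.pr_of_prfinal Run7.h130.pr_all

end Pool.Agent.S11277
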