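import Pool.Statements.S11473
import Pool.Agent.Run7.h212.LMD.Final

set_option autoImplicit false
open Pool Pool.MP_cc29fe_co

namespace Pool.Agent.S11473

/-- Every finite connected graph with n vertices and clique number ω, where n ≥ ω+1 ≥ 4, has a set of at most (ω−2)/(ω−1)·n vertices distinguishing every adjacent pair by distance, i.e. local metric dimension ≤ (ω−2)n/(ω−1). -/
theorem result :
    ∀ (V : Type) [Fintype V] (G : SimpleGraph V), G.Connected →
      ∀ ω : ℕ, (∃ s : Finset V, G.IsNClique ω s) → G.CliqueFree (ω + 1) →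
        4 ≤ ω + 1 → ω + 1 ≤ Fintype.card V →
        ∃ W : Finset V,
          (∀ u v : V, G.Adj u v → ∃ w ∈ W, G.dist u w ≠ G.dist v w) ∧
          (W.card : ℝ) ≤ ((ω : ℝ) - 2) / ((ω : ℝ) - 1) * (Fintype.card V : ℝ) := by
  classical
  intro V _ G hconn ω _ hcf hω hcard
  have hfree : Run7.h212.LMD.Free G ω := by
    intro Q hQ x hx
    have hc : G.IsNClique ω Q := by
      rw [SimpleGraph.isNClique_iff]
      exact ⟨fun a ha b hb hab => hQ.2 a ha b hb hab, hQ.1⟩
    exact hcf _ (hc.insert hx)
  have hgood : Run7.h212.LMD.Good G ω Finset.univ := by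
    intro Q hQ
    have hne : Q.Nonempty := by
      rw [← Finset.card_pos, hQ.2.1.1]; omega
    obtain ⟨q, hq⟩ := hne
    have hall : ∀ z : V, z ∈ Q := by
      intro z
      obtain ⟨p⟩ := hconn.preconnected q z
      have : ∀ (a b : V) (_ : G.Walk a b), a ∈ Q → b ∈ Q := by
        intro a b p
        induction p with
        | nil => exact fun h => h
        | cons h _ ih => exact fun ha => ih (hQ.2.2 _ ha _ (Finset.mem_univ _) h)
      exact this q z p hq
    have h1 : Q = Finset.univ := Finset.eq_univ_iff_forall.2 hall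
    have h2 := hQ.2.1.1
    rw [h1, Finset.card_univ] at h2
    omega
  obtain ⟨S, hS, hcS⟩ := Run7.h212.LMD.main (k := ω) (by omega) hfree Finset.univ hgood
  refine ⟨Finset.univ \ S, ?_, ?_⟩
  · intro u v huv
    by_cases hu : u ∈ S
    · by_cases hv : v ∈ S
      · obtain ⟨w, hw, hs⟩ := hS.2 u hu v hv huv
        refine ⟨w, hw, fun h => hs ?_⟩
        have h1 : ∀ y, G.dist y w = 1 ↔ G.Adj w y := fun y => by
          rw [SimpleGraph.dist_eq_one_iff_adj, SimpleGraph.adj_comm]
        rw [← h1, ← h1, h]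
      · refine ⟨v, Finset.mem_sdiff.2 ⟨Finset.mem_univ _, hv⟩, ?_⟩
        rw [SimpleGraph.dist_self, SimpleGraph.dist_eq_one_iff_adj.2 huv]
        norm_num
    · refine ⟨u, Finset.mem_sdiff.2 ⟨Finset.mem_univ _, hu⟩, ?_⟩
      rw [SimpleGraph.dist_self, SimpleGraph.dist_eq_one_iff_adj.2 huv.symm]
      norm_num
  · have h1 : (Finset.univ \ S).card + S.card = Fintype.card V := by
      rw [Finset.card_sdiff_add_card_eq_card (Finset.subset_univ _), Finset.card_univ]
    rw [Finset.card_univ] at hcS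
    have h2 : ((Finset.univ \ S).card : ℝ) + S.card = Fintype.card V := by exact_mod_cast h1
    have h3 : (Fintype.card V : ℝ) ≤ ((ω : ℝ) - 1) * S.card := by
      have h4 : ((ω - 1 : ℕ) : ℝ) = (ω : ℝ) - 1 := by
        rw [Nat.cast_sub (by omega)]; simp
      rw [← h4]
      exact_mod_cast hcS
    have h5 : (3 : ℝ) ≤ ω := by
      have : 3 ≤ ω := by omega
      exact_mod_cast this
    have h6 : (0 : ℝ) < (ω : ℝ) - 1 := by linarith
    rw [div_mul_eq_mul_div, le_div_iff₀ h6]
    nlinarith

end Pool.Agent.S11473
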