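import Pool.Statements.S11608
-- import your own Pool.Agent.* helpers here

set_option autoImplicit false
open Pool Pool.MP_d1f9c8_co

namespace Pool.Agent.S11608


/-- Membership of a graph on an arbitrary vertex type in a class of graphs on the types `Fin n`. -/
def M (A : (n : ℕ) → SimpleGraph (Fin n) → Prop) {V : Type} (G : SimpleGraph V) : Prop :=
  ∃ (r : ℕ) (K : SimpleGraph (Fin r)), A r K ∧ Nonempty (G ≃g K)

/-- Closed under (not necessarily induced) subgraphs. -/
def Hered (A : (n : ℕ) → SimpleGraph (Fin n) → Prop) : Prop :=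
  ∀ (a b : ℕ) (G : SimpleGraph (Fin a)) (H : SimpleGraph (Fin b)) (f : H →g G),
    Function.Injective f → A a G → A b H

lemma M_mono {A : (n : ℕ) → SimpleGraph (Fin n) → Prop} (hA : Hered A) {V W : Type}
    {G : SimpleGraph V} {H : SimpleGraph W} (f : H →g G) (hf : Function.Injective f)
    (h : M A G) : M A H := by
  classical
  obtain ⟨r, K, hK, ⟨e⟩⟩ := h
  have : Finite V := Finite.of_equiv _ e.toEquiv.symm
  have : Finite W := Finite.of_injective _ hf
  have : Fintype W := Fintype.ofFinite W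
  refine ⟨Fintype.card W, H.overFin rfl, ?_, ⟨H.overFinIso rfl⟩⟩
  refine hA r _ K _ ((e.toHom.comp f).comp (H.overFinIso rfl).symm.toHom) ?_ hK
  exact e.injective.comp (hf.comp (H.overFinIso rfl).symm.injective)

/-- The class `R` is the product of the classes `A` and `B`. -/
def IsProd (R A B : (n : ℕ) → SimpleGraph (Fin n) → Prop) : Prop :=
  ∀ (n : ℕ) (G : SimpleGraph (Fin n)),
    (R n G ↔ ∃ S : Set (Fin n), M A (G.induce S) ∧ M B (G.induce Sᶜ))

lemma IsProd.of_parts {R A B : (n : ℕ) → SimpleGraph (Fin n) → Prop} (hR : IsProd R A B)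
    (hA : Hered A) (hB : Hered B) {V : Type} [Finite V] (G : SimpleGraph V) (S : Set V)
    (h1 : M A (G.induce S)) (h2 : M B (G.induce Sᶜ)) : M R G := by
  classical
  have : Fintype V := Fintype.ofFinite V
  let e := G.overFinIso (rfl : Fintype.card V = Fintype.card V)
  refine ⟨Fintype.card V, G.overFin rfl, ?_, ⟨e⟩⟩
  rw [hR]
  refine ⟨e.symm ⁻¹' S, ?_, ?_⟩
  · refine M_mono hA (G := G.induce S) ⟨fun x => ⟨e.symm x.1, x.2⟩, ?_⟩ ?_ h1
    · intro a b hab
      simpa using (e.symm.map_adj_iff).2 hab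
    · intro a b hab
      have := congrArg Subtype.val hab
      exact Subtype.ext (e.symm.injective this)
  · refine M_mono hB (G := G.induce Sᶜ) ⟨fun x => ⟨e.symm x.1, x.2⟩, ?_⟩ ?_ h2
    · intro a b hab
      simpa using (e.symm.map_adj_iff).2 hab
    · intro a b hab
      have := congrArg Subtype.val hab
      exact Subtype.ext (e.symm.injective this)

lemma IsProd.parts {R A B : (n : ℕ) → SimpleGraph (Fin n) → Prop} (hR : IsProd R A B)
    (hA : Hered A) (hB : Hered B) {V : Type} (G : SimpleGraph V)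
    (h : M R G) : ∃ S : Set V, M A (G.induce S) ∧ M B (G.induce Sᶜ) := by
  classical
  obtain ⟨r, K, hK, ⟨e⟩⟩ := h
  obtain ⟨S, h1, h2⟩ := (hR r K).1 hK
  refine ⟨e ⁻¹' S, ?_, ?_⟩
  · refine M_mono hA (G := K.induce S) ⟨fun x => ⟨e x.1, x.2⟩, ?_⟩ ?_ h1
    · intro a b hab
      simpa using (e.map_adj_iff).2 hab
    · intro a b hab
      have := congrArg Subtype.val hab
      exact Subtype.ext (e.injective this)
  · refine M_mono hB (G := K.induce Sᶜ) ⟨fun x => ⟨e x.1, x.2⟩, ?_⟩ ?_ h2
    · intro a b hab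
      simpa using (e.map_adj_iff).2 hab
    · intro a b hab
      have := congrArg Subtype.val hab
      exact Subtype.ext (e.injective this)

/-- The join of two graphs. -/
def J {V W : Type} (G : SimpleGraph V) (H : SimpleGraph W) : SimpleGraph (V ⊕ W) where
  Adj x y := match x, y with
    | Sum.inl a, Sum.inl b => G.Adj a b
    | Sum.inr a, Sum.inr b => H.Adj a b
    | _, _ => True
  symm := ⟨by
    rintro (a | a) (b | b) h
    · exact G.adj_symm h
    · trivial
    · trivial
    · exact H.adj_symm h⟩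
  loopless := ⟨by
    rintro (a | a) h
    · exact G.irrefl h
    · exact H.irrefl h⟩

lemma IsProd.join {R A B : (n : ℕ) → SimpleGraph (Fin n) → Prop} (hR : IsProd R A B)
    (hA : Hered A) (hB : Hered B) {V W : Type} [Finite V] [Finite W]
    {G : SimpleGraph V} {H : SimpleGraph W}
    (h1 : M A G) (h2 : M B H) : M R (J G H) := by
  refine hR.of_parts hA hB (J G H) (Set.range Sum.inl) ?_ ?_
  · have hx : ∀ x : (Set.range (Sum.inl : V → V ⊕ W)), ∃ v, Sum.inl v = x.1 := fun x => x.2
    choose g hg using hx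
    refine M_mono hA (G := G) ⟨g, ?_⟩ ?_ h1
    · intro a b hab
      have h : (J G H).Adj a.1 b.1 := hab
      rw [← hg a, ← hg b] at h
      exact h
    · intro a b hab
      apply Subtype.ext
      rw [← hg a, ← hg b]
      exact congrArg _ hab
  · have hx : ∀ x : ((Set.range (Sum.inl : V → V ⊕ W))ᶜ : Set (V ⊕ W)), ∃ v, Sum.inr v = x.1 := by
      rintro ⟨x | x, hx⟩
      · exact absurd ⟨x, rfl⟩ hx
      · exact ⟨x, rfl⟩
    choose g hg using hx
    refine M_mono hB (G := H) ⟨g, ?_⟩ ?_ h2
    · intro a b hab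
      have h : (J G H).Adj a.1 b.1 := hab
      rw [← hg a, ← hg b] at h
      exact h
    · intro a b hab
      apply Subtype.ext
      rw [← hg a, ← hg b]
      exact congrArg _ hab

/-- Edgeless, or at most two vertices. -/
def P (n : ℕ) (G : SimpleGraph (Fin n)) : Prop := G = ⊥ ∨ n ≤ 2

/-- Bipartite, or at most four vertices. -/
def Q (n : ℕ) (G : SimpleGraph (Fin n)) : Prop := G.Colorable 2 ∨ n ≤ 4

lemma hered_P : Hered P := by
  rintro a b G H f hf (h | h)
  · left
    subst h
    ext u v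
    constructor
    · intro huv
      exact absurd (f.map_adj huv) (by simp)
    · intro huv
      exact absurd huv (by simp)
  · right
    have := Fintype.card_le_of_injective f hf
    simp only [Fintype.card_fin] at this
    omega

lemma hered_Q : Hered Q := by
  rintro a b G H f hf (h | h)
  · left
    exact SimpleGraph.Colorable.of_hom f h
  · right
    have := Fintype.card_le_of_injective f hf
    simp only [Fintype.card_fin] at this
    omega

lemma M_P {V : Type} [Finite V] (G : SimpleGraph V) : M P G ↔ (G = ⊥ ∨ Nat.card V ≤ 2) := by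
  classical
  constructor
  · rintro ⟨r, K, (rfl | h), ⟨e⟩⟩
    · left
      ext u v
      have := e.map_adj_iff (v := u) (w := v)
      simpa using this.symm
    · right
      rw [Nat.card_congr e.toEquiv]
      simpa using h
  · intro h
    have : Fintype V := Fintype.ofFinite V
    let e := G.overFinIso (rfl : Fintype.card V = Fintype.card V)
    refine ⟨Fintype.card V, G.overFin rfl, ?_, ⟨e⟩⟩
    rcases h with rfl | h
    · left
      ext u v
      have := e.symm.map_adj_iff (v := u) (w := v)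
      simpa using this.symm
    · right
      rwa [Nat.card_eq_fintype_card] at h

lemma M_Q {V : Type} [Finite V] (G : SimpleGraph V) :
    M Q G ↔ (G.Colorable 2 ∨ Nat.card V ≤ 4) := by
  classical
  constructor
  · rintro ⟨r, K, (h | h), ⟨e⟩⟩
    · left
      exact SimpleGraph.Colorable.of_hom e.toHom h
    · right
      rw [Nat.card_congr e.toEquiv]
      simpa using h
  · intro h
    have : Fintype V := Fintype.ofFinite V
    let e := G.overFinIso (rfl : Fintype.card V = Fintype.card V)
    refine ⟨Fintype.card V, G.overFin rfl, ?_, ⟨e⟩⟩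
    rcases h with h | h
    · left
      exact SimpleGraph.Colorable.of_hom e.symm.toHom h
    · right
      rwa [Nat.card_eq_fintype_card] at h

/-- A graph with a triangle is not bipartite. -/
lemma not_two {V : Type} (G : SimpleGraph V) {x y z : V} (h1 : G.Adj x y) (h2 : G.Adj y z)
    (h3 : G.Adj x z) : ¬ G.Colorable 2 := by
  rintro ⟨c⟩
  have a := c.valid h1
  have b := c.valid h2
  have d := c.valid h3
  have e : ∀ i j k : Fin 2, i ≠ j → j ≠ k → i ≠ k → False := by decide
  exact e _ _ _ a b d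

lemma hered_one {A : (n : ℕ) → SimpleGraph (Fin n) → Prop} (h : A 1 ⊥) :
    M A (⊥ : SimpleGraph (Fin 1)) := ⟨1, ⊥, h, ⟨SimpleGraph.Iso.refl⟩⟩

/-- An edgeless graph embeds in every graph with enough vertices. -/
lemma M_bot {A : (n : ℕ) → SimpleGraph (Fin n) → Prop} (hA : Hered A) {V : Type} [Finite V]
    {G : SimpleGraph V} (k : ℕ) (hk : k ≤ Nat.card V) (h : M A G) :
    M A (⊥ : SimpleGraph (Fin k)) := by
  classical
  have : Fintype V := Fintype.ofFinite V
  rw [Nat.card_eq_fintype_card] at hk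
  have hk' : Fintype.card (Fin k) ≤ Fintype.card V := by simpa using hk
  obtain ⟨f⟩ := Function.Embedding.nonempty_of_card_le hk'
  exact M_mono hA (G := G) ⟨f, fun h => absurd h (by simp)⟩ f.injective h

/-- A complete graph on a subset with at least `k` vertices contains a complete graph on `k`
vertices. -/
lemma M_top {A : (n : ℕ) → SimpleGraph (Fin n) → Prop} (hA : Hered A) {V : Type} [Finite V]
    {S : Set V} (k : ℕ) (hk : k ≤ Nat.card S)
    (h : M A ((⊤ : SimpleGraph V).induce S)) :
    M A (⊤ : SimpleGraph (Fin k)) := by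
  classical
  have : Fintype S := Fintype.ofFinite S
  rw [Nat.card_eq_fintype_card] at hk
  have hk' : Fintype.card (Fin k) ≤ Fintype.card S := by simpa using hk
  obtain ⟨f⟩ := Function.Embedding.nonempty_of_card_le hk'
  refine M_mono hA (G := (⊤ : SimpleGraph V).induce S) ⟨f, ?_⟩ f.injective h
  intro a b hab
  have hne : a ≠ b := by simpa using hab
  have : f a ≠ f b := fun h => hne (f.injective h)
  show (f a).1 ≠ (f b).1
  exact fun h => this (Subtype.ext h)

lemma card_parts {V : Type} [Finite V] (S : Set V) :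
    Nat.card S + Nat.card (Sᶜ : Set V) = Nat.card V := by
  have := Set.ncard_add_ncard_compl S
  rwa [Set.ncard_def] at this

theorem P_irred (A B : (n : ℕ) → SimpleGraph (Fin n) → Prop) (hA : Hered A) (hB : Hered B)
    (hA1 : A 1 ⊥) (hB1 : B 1 ⊥) : ¬ IsProd P A B := by
  intro hR
  have h4 : M P (⊥ : SimpleGraph (Fin 4)) := (M_P _).2 (Or.inl rfl)
  obtain ⟨S, h1, h2⟩ := hR.parts hA hB _ h4
  have hc := card_parts S
  rw [Nat.card_fin] at hc
  by_cases hS : 2 ≤ Nat.card S
  · have h5 := hR.join hA hB (M_bot hA 2 hS h1) (hered_one hB1)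
    rw [M_P] at h5
    rcases h5 with h5 | h5
    · have : (J (⊥ : SimpleGraph (Fin 2)) (⊥ : SimpleGraph (Fin 1))).Adj (Sum.inl 0)
        (Sum.inr 0) := trivial
      rw [h5] at this
      exact this
    · simp at h5
  · have hS' : 2 ≤ Nat.card (Sᶜ : Set (Fin 4)) := by omega
    have h5 := hR.join hA hB (hered_one hA1) (M_bot hB 2 hS' h2)
    rw [M_P] at h5
    rcases h5 with h5 | h5
    · have : (J (⊥ : SimpleGraph (Fin 1)) (⊥ : SimpleGraph (Fin 2))).Adj (Sum.inl 0)
        (Sum.inr 0) := trivial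
      rw [h5] at this
      exact this
    · simp at h5

/-- In a factorization of `Q`, a part with an edge has at most three vertices. -/
lemma Q_small_left {A B : (n : ℕ) → SimpleGraph (Fin n) → Prop} (hA : Hered A) (hB : Hered B)
    (hB1 : B 1 ⊥) (hR : IsProd Q A B) {V : Type} [Finite V] {G : SimpleGraph V}
    (h : M A G) {x y : V} (hxy : G.Adj x y) : Nat.card V ≤ 3 := by
  have h5 := hR.join hA hB h (hered_one hB1)
  rw [M_Q] at h5
  rcases h5 with h5 | h5
  · exfalso
    refine not_two _ (x := Sum.inl x) (y := Sum.inl y) (z := Sum.inr 0) ?_ ?_ ?_ h5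
    · exact hxy
    · trivial
    · trivial
  · rw [Nat.card_sum] at h5
    simp at h5
    omega

lemma Q_small_right {A B : (n : ℕ) → SimpleGraph (Fin n) → Prop} (hA : Hered A) (hB : Hered B)
    (hA1 : A 1 ⊥) (hR : IsProd Q A B) {V : Type} [Finite V] {G : SimpleGraph V}
    (h : M B G) {x y : V} (hxy : G.Adj x y) : Nat.card V ≤ 3 := by
  have h5 := hR.join hA hB (hered_one hA1) h
  rw [M_Q] at h5
  rcases h5 with h5 | h5
  · exfalso
    refine not_two _ (x := Sum.inr x) (y := Sum.inr y) (z := Sum.inl 0) ?_ ?_ ?_ h5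
    · exact hxy
    · trivial
    · trivial
  · rw [Nat.card_sum] at h5
    simp at h5
    omega

/-- `K_{5,5}`. -/
def K55 : SimpleGraph (Fin 5 ⊕ Fin 5) := J ⊥ ⊥

lemma K55_col : K55.Colorable 2 := by
  refine ⟨⟨Sum.elim (fun _ => 0) (fun _ => 1), ?_⟩⟩
  rintro (a | a) (b | b) h
  · exact absurd h (by simp [K55, J])
  · simp
  · simp
  · exact absurd h (by simp [K55, J])

lemma K55_parts {A B : (n : ℕ) → SimpleGraph (Fin n) → Prop} (hA : Hered A) (hB : Hered B)
    (hA1 : A 1 ⊥) (hB1 : B 1 ⊥) (hR : IsProd Q A B) :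
    M A (⊥ : SimpleGraph (Fin 5)) ∧ M B (⊥ : SimpleGraph (Fin 5)) := by
  have hK : M Q K55 := (M_Q _).2 (Or.inl K55_col)
  obtain ⟨S, h1, h2⟩ := hR.parts hA hB _ hK
  have hc := card_parts S
  have h10 : Nat.card (Fin 5 ⊕ Fin 5) = 10 := by simp
  rw [h10] at hc
  -- a part with at least five vertices has no edge, hence lies on one side
  have key : ∀ T : Set (Fin 5 ⊕ Fin 5), 5 ≤ Nat.card T →
      (∀ x y : T, ¬ (K55.induce T).Adj x y) → 5 ≤ Nat.card (Tᶜ : Set (Fin 5 ⊕ Fin 5)) := by
    intro T hT hind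
    have hside : (∀ a, Sum.inl a ∉ T) ∨ (∀ b, Sum.inr b ∉ T) := by
      by_contra hcon
      push Not at hcon
      obtain ⟨⟨a, ha⟩, ⟨b, hb⟩⟩ := hcon
      exact hind ⟨_, ha⟩ ⟨_, hb⟩ trivial
    rcases hside with hs | hs
    · have : Nat.card (Fin 5) ≤ Nat.card (Tᶜ : Set (Fin 5 ⊕ Fin 5)) :=
        Nat.card_le_card_of_injective (fun a => ⟨Sum.inl a, hs a⟩) (fun a b hab => by
          simpa using hab)
      simpa using this
    · have : Nat.card (Fin 5) ≤ Nat.card (Tᶜ : Set (Fin 5 ⊕ Fin 5)) :=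
        Nat.card_le_card_of_injective (fun a => ⟨Sum.inr a, hs a⟩) (fun a b hab => by
          simpa using hab)
      simpa using this
  by_cases hS : 5 ≤ Nat.card S
  · have hind : ∀ x y : S, ¬ (K55.induce S).Adj x y := by
      intro x y hxy
      have := Q_small_left hA hB hB1 hR h1 hxy
      omega
    exact ⟨M_bot hA 5 hS h1, M_bot hB 5 (key S hS hind) h2⟩
  · have hS' : 5 ≤ Nat.card (Sᶜ : Set (Fin 5 ⊕ Fin 5)) := by omega
    have hind : ∀ x y : (Sᶜ : Set (Fin 5 ⊕ Fin 5)), ¬ (K55.induce Sᶜ).Adj x y := by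
      intro x y hxy
      have := Q_small_right hA hB hA1 hR h2 hxy
      omega
    have h6 := key Sᶜ hS' hind
    rw [compl_compl] at h6
    exact absurd h6 hS

theorem Q_irred (A B : (n : ℕ) → SimpleGraph (Fin n) → Prop) (hA : Hered A) (hB : Hered B)
    (hA1 : A 1 ⊥) (hB1 : B 1 ⊥) : ¬ IsProd Q A B := by
  intro hR
  obtain ⟨hA5, hB5⟩ := K55_parts hA hB hA1 hB1 hR
  have h4 : M Q (⊤ : SimpleGraph (Fin 4)) := (M_Q _).2 (Or.inr (by simp))
  obtain ⟨S, h1, h2⟩ := hR.parts hA hB _ h4
  have hc := card_parts S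
  rw [Nat.card_fin] at hc
  have h01 : (0 : Fin 2) ≠ 1 := by decide
  by_cases hS : 2 ≤ Nat.card S
  · have h5 := hR.join hA hB (M_top hA 2 hS h1) hB5
    rw [M_Q] at h5
    rcases h5 with h5 | h5
    · refine not_two _ (x := Sum.inl 0) (y := Sum.inl 1) (z := Sum.inr 0) ?_ ?_ ?_ h5
      · exact h01
      · trivial
      · trivial
    · simp at h5
  · have hS' : 2 ≤ Nat.card (Sᶜ : Set (Fin 4)) := by omega
    have h5 := hR.join hA hB hA5 (M_top hB 2 hS' h2)
    rw [M_Q] at h5
    rcases h5 with h5 | h5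
    · refine not_two _ (x := Sum.inr 0) (y := Sum.inr 1) (z := Sum.inl 0) ?_ ?_ ?_ h5
      · exact h01
      · trivial
      · trivial
    · simp at h5

lemma M_P_ind {n : ℕ} (G : SimpleGraph (Fin n)) (T : Set (Fin n)) :
    M P (G.induce T) ↔ ((∀ u ∈ T, ∀ v ∈ T, ¬ G.Adj u v) ∨ T.ncard ≤ 2) := by
  rw [M_P, Set.ncard_def]
  refine or_congr ⟨fun h u hu v hv huv => ?_, fun h => ?_⟩ Iff.rfl
  · have : (G.induce T).Adj ⟨u, hu⟩ ⟨v, hv⟩ := huv
    rw [h] at this
    exact this
  · ext u v
    constructor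
    · intro huv
      exact absurd huv (h u.1 u.2 v.1 v.2)
    · intro huv
      exact absurd huv (by simp)

lemma split_set {n : ℕ} (T : Set (Fin n)) (hT : T.ncard ≤ 4) :
    ∃ T1 : Set (Fin n), T1 ⊆ T ∧ T1.ncard ≤ 2 ∧ (T \ T1).ncard ≤ 2 := by
  by_cases h : 2 ≤ T.ncard
  · obtain ⟨T1, h1, h2⟩ := Set.exists_subset_card_eq h
    refine ⟨T1, h1, h2.le, ?_⟩
    rw [Set.ncard_sdiff h1]
    omega
  · exact ⟨T, le_rfl, by omega, by simp⟩

/-- `P · P · P = P · Q`. -/
theorem PPP_eq_PQ (n : ℕ) (G : SimpleGraph (Fin n)) :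
    (∃ c : Fin n → Fin 3, ∀ i : Fin 3, M P (G.induce {v | c v = i})) ↔
    (∃ c : Fin n → Fin 2, M P (G.induce {v | c v = 0}) ∧ M Q (G.induce {v | c v = 1})) := by
  classical
  constructor
  · rintro ⟨c, hc⟩
    have hpig : ∃ i j k : Fin 3, i ≠ j ∧ j ≠ k ∧ i ≠ k ∧ (∀ l : Fin 3, l = i ∨ l = j ∨ l = k) ∧
        (((∀ u ∈ {v | c v = j}, ∀ v ∈ {v | c v = j}, ¬ G.Adj u v) ∧
          (∀ u ∈ {v | c v = k}, ∀ v ∈ {v | c v = k}, ¬ G.Adj u v)) ∨
        ({v | c v = j}.ncard ≤ 2 ∧ {v | c v = k}.ncard ≤ 2)) := by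
      have h0 := (M_P_ind G _).1 (hc 0)
      have h1 := (M_P_ind G _).1 (hc 1)
      have h2 := (M_P_ind G _).1 (hc 2)
      rcases h0 with h0 | h0 <;> rcases h1 with h1 | h1 <;> rcases h2 with h2 | h2
      · exact ⟨0, 1, 2, by decide, by decide, by decide, by decide, Or.inl ⟨h1, h2⟩⟩
      · exact ⟨2, 0, 1, by decide, by decide, by decide, by decide, Or.inl ⟨h0, h1⟩⟩
      · exact ⟨1, 0, 2, by decide, by decide, by decide, by decide, Or.inl ⟨h0, h2⟩⟩
      · exact ⟨0, 1, 2, by decide, by decide, by decide, by decide, Or.inr ⟨h1, h2⟩⟩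
      · exact ⟨0, 1, 2, by decide, by decide, by decide, by decide, Or.inl ⟨h1, h2⟩⟩
      · exact ⟨1, 0, 2, by decide, by decide, by decide, by decide, Or.inr ⟨h0, h2⟩⟩
      · exact ⟨2, 0, 1, by decide, by decide, by decide, by decide, Or.inr ⟨h0, h1⟩⟩
      · exact ⟨0, 1, 2, by decide, by decide, by decide, by decide, Or.inr ⟨h1, h2⟩⟩
    obtain ⟨i, j, k, hij, hjk, hik, hall, hcase⟩ := hpig
    have e0 : {v | (if c v = i then (0 : Fin 2) else 1) = 0} = {v | c v = i} := by
      ext v
      by_cases hv : c v = i <;> simp [hv]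
    have e1 : {v | (if c v = i then (0 : Fin 2) else 1) = 1} = {v | c v = j} ∪ {v | c v = k} := by
      ext v
      rcases hall (c v) with hv | hv | hv
      · simp [hv, hij, hik]
      · simp [hv, hij.symm]
      · simp [hv, hik.symm]
    refine ⟨fun v => if c v = i then 0 else 1, ?_, ?_⟩
    · rw [e0]
      exact hc i
    · rw [e1, M_Q]
      rcases hcase with ⟨hj, hk⟩ | ⟨hj, hk⟩
      · left
        refine ⟨⟨fun x => if c x.1 = j then 0 else 1, ?_⟩⟩
        rintro ⟨x, hx⟩ ⟨y, hy⟩ hxy
        have hxy' : G.Adj x y := hxy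
        rcases hx with hx | hx <;> rcases hy with hy | hy
        · exact absurd hxy' (hj x hx y hy)
        · have hx' : c x = j := hx
          have hy' : c y = k := hy
          simp [hx', hy', hjk.symm]
        · have hx' : c x = k := hx
          have hy' : c y = j := hy
          simp [hx', hy', hjk.symm]
        · exact absurd hxy' (hk x hx y hy)
      · right
        have := Set.ncard_union_le {v | c v = j} {v | c v = k}
        have h4 : ({v | c v = j} ∪ {v | c v = k}).ncard ≤ 4 := by omega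
        rwa [Set.ncard_def] at h4
  · rintro ⟨c, h0, h1⟩
    rw [M_Q] at h1
    -- it suffices to split the second class into two classes in `P`
    suffices hsplit : ∃ T1 T2 : Set (Fin n), {v | c v = 1} = T1 ∪ T2 ∧ Disjoint T1 T2 ∧
        M P (G.induce T1) ∧ M P (G.induce T2) by
      obtain ⟨T1, T2, hU, hD, hT1, hT2⟩ := hsplit
      have h01 : ∀ x : Fin 2, x = 0 ∨ x = 1 := by decide
      have hmem : ∀ v, c v = 1 ↔ v ∈ T1 ∨ v ∈ T2 := by
        intro v
        have : v ∈ {v | c v = 1} ↔ v ∈ T1 ∪ T2 := by rw [hU]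
        exact this
      have hdis : ∀ v, v ∈ T1 → v ∉ T2 := fun v a b => Set.disjoint_left.1 hD a b
      refine ⟨fun v => if v ∈ T1 then 1 else if v ∈ T2 then 2 else 0, ?_⟩
      have e0 : {v | (if v ∈ T1 then (1 : Fin 3) else if v ∈ T2 then 2 else 0) = 0} =
          {v | c v = 0} := by
        ext v
        by_cases a : v ∈ T1
        · have : c v = 1 := (hmem v).2 (Or.inl a)
          simp [a, this]
        · by_cases b : v ∈ T2
          · have : c v = 1 := (hmem v).2 (Or.inr b)
            simp [a, b, this]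
          · have : c v = 0 := by
              rcases h01 (c v) with h | h
              · exact h
              · rcases (hmem v).1 h with h' | h'
                · exact absurd h' a
                · exact absurd h' b
            simp [a, b, this]
      have e1 : {v | (if v ∈ T1 then (1 : Fin 3) else if v ∈ T2 then 2 else 0) = 1} = T1 := by
        ext v
        by_cases a : v ∈ T1
        · simp [a]
        · by_cases b : v ∈ T2
          · simp [a, b]
          · simp [a, b]
      have e2 : {v | (if v ∈ T1 then (1 : Fin 3) else if v ∈ T2 then 2 else 0) = 2} = T2 := by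
        ext v
        by_cases a : v ∈ T1
        · have := hdis v a
          simp [a, this]
        · by_cases b : v ∈ T2
          · simp [a, b]
          · simp [a, b]
      intro i
      have h012 : i = 0 ∨ i = 1 ∨ i = 2 := by
        revert i
        decide
      rcases h012 with rfl | rfl | rfl
      · rw [e0]; exact h0
      · rw [e1]; exact hT1
      · rw [e2]; exact hT2
    rcases h1 with ⟨⟨C⟩⟩ | h1
    · refine ⟨{v | ∃ h : c v = 1, C ⟨v, h⟩ = 0}, {v | ∃ h : c v = 1, C ⟨v, h⟩ = 1}, ?_, ?_, ?_, ?_⟩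
      · ext v
        constructor
        · intro hv
          have h01 : ∀ x : Fin 2, x = 0 ∨ x = 1 := by decide
          rcases h01 (C ⟨v, hv⟩) with h | h
          · exact Or.inl ⟨hv, h⟩
          · exact Or.inr ⟨hv, h⟩
        · rintro (⟨h, -⟩ | ⟨h, -⟩) <;> exact h
      · rw [Set.disjoint_left]
        rintro v ⟨h, h'⟩ ⟨g, g'⟩
        rw [h'] at g'
        exact absurd g' (by decide)
      · rw [M_P_ind]
        left
        rintro u ⟨hu, hu'⟩ v ⟨hv, hv'⟩ huv
        have := C.valid (v := ⟨u, hu⟩) (w := ⟨v, hv⟩) huv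
        rw [hu', hv'] at this
        exact this rfl
      · rw [M_P_ind]
        left
        rintro u ⟨hu, hu'⟩ v ⟨hv, hv'⟩ huv
        have := C.valid (v := ⟨u, hu⟩) (w := ⟨v, hv⟩) huv
        rw [hu', hv'] at this
        exact this rfl
    · obtain ⟨T1, hs, hc1, hc2⟩ := split_set {v | c v = 1} (by rw [Set.ncard_def]; exact h1)
      refine ⟨T1, {v | c v = 1} \ T1, ?_, ?_, ?_, ?_⟩
      · rw [Set.union_sdiff_cancel hs]
      · exact Set.disjoint_sdiff_right
      · rw [M_P_ind]; exact Or.inr hc1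
      · rw [M_P_ind]; exact Or.inr hc2

/-- The negation of the preceding statement: Among subgraph-closed classes of finite graphs, with product = vertex partition into parts in the factors, any two factorizations of a class into irreducible factors (contain K1, not a product of two such classes) agree up to reordering. -/
theorem result :
    ¬ (∀ (m k : ℕ) (Ps : Fin m → (n : ℕ) → SimpleGraph (Fin n) → Prop)
      (Qs : Fin k → (n : ℕ) → SimpleGraph (Fin n) → Prop),
      (∀ i : Fin m,
        (∀ (a b : ℕ) (G : SimpleGraph (Fin a)) (H : SimpleGraph (Fin b)) (f : H →g G),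
          Function.Injective f → Ps i a G → Ps i b H) ∧
        Ps i 1 ⊥ ∧
        ∀ A B : (n : ℕ) → SimpleGraph (Fin n) → Prop,
          (∀ (a b : ℕ) (G : SimpleGraph (Fin a)) (H : SimpleGraph (Fin b)) (f : H →g G),
            Function.Injective f → A a G → A b H) →
          (∀ (a b : ℕ) (G : SimpleGraph (Fin a)) (H : SimpleGraph (Fin b)) (f : H →g G),
            Function.Injective f → B a G → B b H) →
          A 1 ⊥ → B 1 ⊥ →
          ¬ ∀ (n : ℕ) (G : SimpleGraph (Fin n)),
            (Ps i n G ↔ ∃ S : Set (Fin n),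
              (∃ (r : ℕ) (K : SimpleGraph (Fin r)), A r K ∧ Nonempty (G.induce S ≃g K)) ∧
              (∃ (r : ℕ) (K : SimpleGraph (Fin r)), B r K ∧ Nonempty (G.induce Sᶜ ≃g K)))) →
      (∀ j : Fin k,
        (∀ (a b : ℕ) (G : SimpleGraph (Fin a)) (H : SimpleGraph (Fin b)) (f : H →g G),
          Function.Injective f → Qs j a G → Qs j b H) ∧
        Qs j 1 ⊥ ∧
        ∀ A B : (n : ℕ) → SimpleGraph (Fin n) → Prop,
          (∀ (a b : ℕ) (G : SimpleGraph (Fin a)) (H : SimpleGraph (Fin b)) (f : H →g G),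
            Function.Injective f → A a G → A b H) →
          (∀ (a b : ℕ) (G : SimpleGraph (Fin a)) (H : SimpleGraph (Fin b)) (f : H →g G),
            Function.Injective f → B a G → B b H) →
          A 1 ⊥ → B 1 ⊥ →
          ¬ ∀ (n : ℕ) (G : SimpleGraph (Fin n)),
            (Qs j n G ↔ ∃ S : Set (Fin n),
              (∃ (r : ℕ) (K : SimpleGraph (Fin r)), A r K ∧ Nonempty (G.induce S ≃g K)) ∧
              (∃ (r : ℕ) (K : SimpleGraph (Fin r)), B r K ∧ Nonempty (G.induce Sᶜ ≃g K)))) →
      (∀ (n : ℕ) (G : SimpleGraph (Fin n)),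
        (∃ c : Fin n → Fin m, ∀ i : Fin m, ∃ (r : ℕ) (K : SimpleGraph (Fin r)),
            Ps i r K ∧ Nonempty (G.induce {v | c v = i} ≃g K)) ↔
        (∃ c : Fin n → Fin k, ∀ j : Fin k, ∃ (r : ℕ) (K : SimpleGraph (Fin r)),
            Qs j r K ∧ Nonempty (G.induce {v | c v = j} ≃g K))) →
      ∃ σ : Fin m ≃ Fin k, ∀ (i : Fin m) (n : ℕ) (G : SimpleGraph (Fin n)),
        (Ps i n G ↔ Qs (σ i) n G)) := by
  intro hmain
  have hP1 : P 1 ⊥ := Or.inl rfl
  have hQ1 : Q 1 ⊥ := Or.inr (by norm_num)
  obtain ⟨σ, -⟩ := hmain 3 2 (fun _ => P) ![P, Q]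
    (fun _ => ⟨hered_P, hP1, fun A B hA hB hA1 hB1 h => P_irred A B hA hB hA1 hB1 h⟩)
    (fun j => by
      have h01 : j = 0 ∨ j = 1 := by
        revert j
        decide
      rcases h01 with rfl | rfl
      · exact ⟨hered_P, hP1, fun A B hA hB hA1 hB1 h => P_irred A B hA hB hA1 hB1 h⟩
      · exact ⟨hered_Q, hQ1, fun A B hA hB hA1 hB1 h => Q_irred A B hA hB hA1 hB1 h⟩)
    (fun n G => by
      refine (PPP_eq_PQ n G).trans ?_
      constructor
      · rintro ⟨c, h0, h1⟩
        refine ⟨c, fun j => ?_⟩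
        have h01 : j = 0 ∨ j = 1 := by
          revert j
          decide
        rcases h01 with rfl | rfl
        · exact h0
        · exact h1
      · rintro ⟨c, hc⟩
        exact ⟨c, hc 0, hc 1⟩)
  have := Fintype.card_congr σ
  simp at this

end Pool.Agent.S11608
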