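import Pool.Statements.S11612
import Pool.Agent.Run7.h839.TreeTools
import Pool.Agent.H279R3.TreeHelly
import Pool.Agent.H46R3.TreeHelly

set_option autoImplicit false
open Pool Pool.MP_d20af1_co

namespace Pool.Agent.S11612

open SimpleGraph Run7.h839

/-- The counterexample: the 5-cycle `0,1,2,3,4` (vertex `i` adjacent to `i + 1`), together with
a non-adjacent twin `5 + i` of every vertex `i`, adjacent to `i - 1` and `i + 1`. -/
def cex : SimpleGraph (Fin 10) :=
  SimpleGraph.fromRel (fun a b => (a, b) ∈ ([(0, 1), (1, 2), (2, 3), (3, 4), (4, 0),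
    (5, 4), (5, 1), (6, 0), (6, 2), (7, 1), (7, 3), (8, 2), (8, 4), (9, 3), (9, 0)] :
      List (Fin 10 × Fin 10)))

instance : DecidableRel cex.Adj := by unfold cex; infer_instance

/-- The tree and the bags of the decomposition with bags of independence number two: a star. -/
def p1 : Fin 6 → Fin 6 := fun _ => 0

def B1 : Fin 6 → Finset (Fin 10) := ![{0, 1, 2, 3, 4}, {5, 4, 1}, {6, 0, 2}, {7, 1, 3}, {8, 2, 4},
  {9, 3, 0}]

/-- The tree and the bags of the decomposition with bipartite bags: a path. -/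
def p2 : Fin 4 → Fin 4 := ![0, 0, 1, 2]

def B2 : Fin 4 → Finset (Fin 10) := ![{0, 1, 4, 6, 9}, {1, 2, 5, 7, 4, 6, 9}, {2, 3, 4, 7, 9},
  {8, 2, 4}]

theorem B1_conn (v : Fin 10) : ((parGraph p1).induce {i | v ∈ B1 i}).Connected := by
  have key : ∀ v : Fin 10, ∃ r : Fin 6, v ∈ B1 r ∧ ∀ x, v ∈ B1 x → x ≠ r →
      v ∈ B1 (p1 x) ∧ p1 x < x := by decide
  obtain ⟨r, h1, h2⟩ := key v
  exact parGraph_induce_connected p1 _ r h1 h2

theorem B2_conn (v : Fin 10) : ((parGraph p2).induce {i | v ∈ B2 i}).Connected := by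
  have key : ∀ v : Fin 10, ∃ r : Fin 4, v ∈ B2 r ∧ ∀ x, v ∈ B2 x → x ≠ r →
      v ∈ B2 (p2 x) ∧ p2 x < x := by decide
  obtain ⟨r, h1, h2⟩ := key v
  exact parGraph_induce_connected p2 _ r h1 h2

theorem B1_indep : ∀ i : Fin 6, ∀ a ∈ B1 i, ∀ b ∈ B1 i, ∀ c ∈ B1 i, a ≠ b → a ≠ c → b ≠ c →
    cex.Adj a b ∨ cex.Adj a c ∨ cex.Adj b c := by decide

/-- A colouring of each of the four bags by two colours. -/
def col : Fin 4 → Fin 10 → Fin 2 := ![![0, 1, 0, 0, 1, 0, 1, 0, 0, 1], ![0, 0, 1, 0, 0, 1, 0, 1, 0, 0],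
  ![0, 0, 1, 0, 1, 0, 0, 1, 0, 1], ![0, 0, 1, 0, 1, 0, 0, 0, 0, 0]]

theorem B2_col : ∀ i : Fin 4, ∀ a ∈ B2 i, ∀ b ∈ B2 i, cex.Adj a b → col i a ≠ col i b := by decide

/-- The five branch sets of a `K₅` minor. -/
def br : Fin 5 → Finset (Fin 10) := ![{4, 5}, {0, 6}, {1, 7}, {2, 8}, {3, 9}]


/-- The negation of the preceding statement: For every finite graph G and all a, k: if G has a tree decomposition whose bags all have independence number at most a, and one whose bags all induce k-colorable subgraphs, then G has a tree decomposition with all bags of size at most a·k. -/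
theorem result :
    ¬ (∀ (V : Type) [Fintype V] (G : SimpleGraph V) (a k : ℕ),
      (∃ (n : ℕ) (T : SimpleGraph (Fin n)) (B : Fin n → Finset V),
        T.IsTree ∧
        (∀ u v : V, G.Adj u v → ∃ i, u ∈ B i ∧ v ∈ B i) ∧
        (∀ v : V, (T.induce {i : Fin n | v ∈ B i}).Connected) ∧
        (∀ i : Fin n, ∀ S : Finset V, S ⊆ B i → G.IsIndepSet (S : Set V) → S.card ≤ a)) →
      (∃ (n : ℕ) (T : SimpleGraph (Fin n)) (B : Fin n → Finset V),
        T.IsTree ∧
        (∀ u v : V, G.Adj u v → ∃ i, u ∈ B i ∧ v ∈ B i) ∧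
        (∀ v : V, (T.induce {i : Fin n | v ∈ B i}).Connected) ∧
        (∀ i : Fin n, (G.induce (B i : Set V)).Colorable k)) →
      (∃ (n : ℕ) (T : SimpleGraph (Fin n)) (B : Fin n → Finset V),
        T.IsTree ∧
        (∀ u v : V, G.Adj u v → ∃ i, u ∈ B i ∧ v ∈ B i) ∧
        (∀ v : V, (T.induce {i : Fin n | v ∈ B i}).Connected) ∧
        (∀ i : Fin n, (B i).card ≤ a * k))) := by
  intro H
  have h1 := H (Fin 10) cex 2 2
    ⟨6, parGraph p1, B1, parGraph_isTree p1 rfl (by decide), by decide, B1_conn, ?_⟩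
    ⟨4, parGraph p2, B2, parGraph_isTree p2 rfl (by decide), by decide, B2_conn, ?_⟩
  · obtain ⟨n, T, B, hT, he, hc, hk⟩ := h1
    -- walk-connectedness of the traces of the vertices
    have hv : ∀ v i j, v ∈ B i → v ∈ B j → ∃ q : T.Walk i j, ∀ x ∈ q.support, v ∈ B x := by
      intro v i j hi hj
      exact Pool.Agent.H46R3.Exp.walk_in {i | v ∈ B i} (hc v).preconnected hi hj
    have hbr : ∀ a : Fin 5, H279R3.WConn cex (br a : Set (Fin 10)) := by
      have key : ∀ a : Fin 5, ∀ x ∈ br a, ∀ y ∈ br a, x = y ∨ cex.Adj x y := by decide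
      intro a x hx y hy
      rcases key a x hx y hy with rfl | h
      · exact ⟨Walk.nil, fun z hz => by
          rw [Walk.support_nil, List.mem_singleton] at hz; rw [hz]; exact hx⟩
      · refine ⟨Walk.cons h Walk.nil, fun z hz => ?_⟩
        simp only [Walk.support_cons, Walk.support_nil, List.mem_cons, List.not_mem_nil,
          or_false] at hz
        rcases hz with rfl | rfl
        · exact hx
        · exact hy
    have hm : ∀ a b : Fin 5, ({i | ∃ v ∈ (br a : Set (Fin 10)), v ∈ B i} ∩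
        {i | ∃ v ∈ (br b : Set (Fin 10)), v ∈ B i}).Nonempty := by
      intro a b
      have key : ∀ a b : Fin 5, ∃ x ∈ br a, ∃ y ∈ br b, cex.Adj x y := by decide
      obtain ⟨x, hx, y, hy, hxy⟩ := key a b
      obtain ⟨i, hi1, hi2⟩ := he x y hxy
      exact ⟨i, ⟨x, hx, hi1⟩, ⟨y, hy, hi2⟩⟩
    obtain ⟨i, hi⟩ := H279R3.helly hT
      (fun a : Fin 5 => {i | ∃ v ∈ (br a : Set (Fin 10)), v ∈ B i})
      (fun a => H279R3.trace_conn he hv (hbr a)) hm
    choose f hf hfB using hi
    have hdis : ∀ a b : Fin 5, ∀ x ∈ br a, x ∈ br b → a = b := by decide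
    have hinj : Function.Injective f := by
      intro a b hab
      exact hdis a b (f a) (hf a) (hab ▸ hf b)
    have h5 : (Finset.univ.image f).card = 5 := by
      rw [Finset.card_image_of_injective _ hinj, Finset.card_univ, Fintype.card_fin]
    have h6 : (Finset.univ.image f).card ≤ (B i).card := Finset.card_le_card (by
      intro x hx
      rw [Finset.mem_image] at hx
      obtain ⟨a, -, rfl⟩ := hx
      exact hfB a)
    have := hk i
    omega
  · intro i S hS hind
    by_contra hcard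
    obtain ⟨a, b, c, ha, hb, hc, hab, hac, hbc⟩ := Finset.two_lt_card_iff.1 (not_le.1 hcard)
    rcases B1_indep i a (hS ha) b (hS hb) c (hS hc) hab hac hbc with h | h | h
    · exact hind ha hb hab h
    · exact hind ha hc hac h
    · exact hind hb hc hbc h
  · intro i
    refine ⟨Coloring.mk (fun x => col i x.1) ?_⟩
    intro x y hxy
    exact B2_col i x.1 x.2 y.1 y.2 hxy

end Pool.Agent.S11612
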