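import Pool.Statements.S11634
import Pool.Agent.Run7.h42.WO.Main

/-!
The set of Turán densities of single `8`-graphs is not well ordered: it contains elements
greater than `(7/8)^7` and arbitrarily close to it.
-/

set_option autoImplicit false
open Pool Pool.MP_d2ae2d_co

namespace Pool.Agent.S11634

/-- The negation of the preceding statement: For each k ≥ 2 there is a well-ordered set S of reals with least element k!/k^k such that the Turán density (limit of ex(n,L)/C(n,k)) of every k-uniform hypergraph L is either 0 or lies in S. -/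
theorem result :
    ¬ (∀ k : ℕ, 2 ≤ k → ∃ S : Set ℝ, S.IsWF ∧ IsLeast S ((k.factorial : ℝ) / (k : ℝ) ^ k) ∧
      ∀ m : ℕ, ∀ L : Finset (Finset (Fin m)), (∀ e ∈ L, e.card = k) →
        ∀ d : ℝ, Filter.Tendsto
          (fun n : ℕ =>
            ((sSup {t : ℕ | ∃ H : Finset (Finset (Fin n)), (∀ A ∈ H, A.card = k) ∧ H.card = t ∧
                ¬ ∃ f : Fin m ↪ Fin n, ∀ e ∈ L, e.map f ∈ H} : ℕ) : ℝ) /
              ((n.choose k : ℕ) : ℝ))
          Filter.atTop (nhds d) → d = 0 ∨ d ∈ S) := by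
  intro hall
  obtain ⟨S, hWF, -, hS⟩ := hall 8 (by norm_num)
  -- the part of `S` above `(7/8)^7`
  set S' : Set ℝ := {x | x ∈ S ∧ (7 / 8 : ℝ) ^ 7 < x} with hS'
  have hα0 : (0 : ℝ) < (7 / 8 : ℝ) ^ 7 := by positivity
  have key : ∀ ε : ℝ, 0 < ε → ε ≤ 1 → ∃ x ∈ S', x ≤ (7 / 8 : ℝ) ^ 7 + ε := by
    intro ε h0 h1
    obtain ⟨m, F, hF8, hF⟩ := Run7.h42.WO.main_step ε h0 h1
    obtain ⟨d, hd⟩ := Run7.h42.WO.ratio_tendsto 8 m F
    obtain ⟨h2, h3⟩ := hF d hd
    rcases hS m F hF8 d hd with h4 | h4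
    · rw [h4] at h2; linarith
    · exact ⟨d, ⟨h4, h2⟩, h3⟩
  have hne : S'.Nonempty := by
    obtain ⟨x, hx, -⟩ := key 1 one_pos le_rfl
    exact ⟨x, hx⟩
  have hWF' : S'.IsWF := hWF.mono fun x hx => hx.1
  have hmin := hWF'.min_mem hne
  set s₀ := hWF'.min hne with hs₀
  obtain ⟨x, hx, hx2⟩ := key (min 1 ((s₀ - (7 / 8 : ℝ) ^ 7) / 2))
    (lt_min one_pos (by linarith [hmin.2])) (min_le_left _ _)
  have h1 := hWF'.min_le hne hx
  rw [← hs₀] at h1
  have h2 : min 1 ((s₀ - (7 / 8 : ℝ) ^ 7) / 2) ≤ (s₀ - (7 / 8 : ℝ) ^ 7) / 2 := min_le_right _ _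
  linarith [hmin.2]

end Pool.Agent.S11634
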