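import Pool.Statements.S11707
import Pool.Agent.Run7.h637.ThreeGraph

set_option autoImplicit false
open Classical
open Pool Pool.MP_d61016_co

namespace Pool.Agent.S11707

/-- Every finite three-graph A embeds as an induced substructure in some finite three-graph B such that every partial automorphism of A extends to an automorphism of B. -/
theorem result :
    ∀ (n : ℕ) (rA : Fin n → Fin n → Prop) (HA : Finset (Finset (Fin n))),
      (Equivalence rA ∧ (∀ a b c, rA a b ∨ rA b c ∨ rA a c) ∧
        (∀ e ∈ HA, e.card = 4 ∧ ∀ v ∈ e, (e.filter (fun w => rA v w)).card = 2) ∧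
        (∀ S : Finset (Fin n), S.card = 5 →
          (∀ v ∈ S, (S.filter (fun w => rA v w)).card ≤ 3) →
          Even (HA.filter (fun e => e ⊆ S)).card)) →
      ∃ (m : ℕ) (rB : Fin m → Fin m → Prop) (HB : Finset (Finset (Fin m))),
        (Equivalence rB ∧ (∀ a b c, rB a b ∨ rB b c ∨ rB a c) ∧
          (∀ e ∈ HB, e.card = 4 ∧ ∀ v ∈ e, (e.filter (fun w => rB v w)).card = 2) ∧
          (∀ S : Finset (Fin m), S.card = 5 →
            (∀ v ∈ S, (S.filter (fun w => rB v w)).card ≤ 3) →
            Even (HB.filter (fun e => e ⊆ S)).card)) ∧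
        ∃ f : Fin n ↪ Fin m,
          (∀ x y, rA x y ↔ rB (f x) (f y)) ∧
          (∀ e : Finset (Fin n), e ∈ HA ↔ e.map f ∈ HB) ∧
          ∀ (S : Finset (Fin n)) (p : Fin n → Fin n),
            Set.InjOn p (S : Set (Fin n)) →
            (∀ x ∈ S, ∀ y ∈ S, rA x y ↔ rA (p x) (p y)) →
            (∀ e ⊆ S, e ∈ HA ↔ e.image p ∈ HA) →
            ∃ σ : Fin m ≃ Fin m,
              (∀ x y, rB x y ↔ rB (σ x) (σ y)) ∧
              (∀ e : Finset (Fin m), e ∈ HB ↔ e.map σ.toEmbedding ∈ HB) ∧
              ∀ x ∈ S, σ (f x) = f (p x) := by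
  rintro n rA HA ⟨hr, htri, h4, h5⟩
  obtain ⟨s, hs⟩ : ∃ s : Fin n → Bool, ∀ x y, rA x y ↔ s x = s y := by
    by_cases hn : Nonempty (Fin n)
    · obtain ⟨x0⟩ := hn
      refine ⟨fun x => decide (rA x0 x), ?_⟩
      intro x y
      rw [decide_eq_decide]
      constructor
      · intro hxy
        exact ⟨fun h => hr.trans h hxy, fun h => hr.trans h (hr.symm hxy)⟩
      · intro hxy
        by_cases h : rA x0 x
        · exact hr.trans (hr.symm h) (hxy.mp h)
        · rcases htri x0 x y with h' | h' | h'
          · exact absurd h' h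
          · exact h'
          · exact absurd (hxy.mpr h') h
    · exact ⟨fun _ => true, fun x => absurd ⟨x⟩ hn⟩
  have h2 : ∀ e ∈ HA, (Run7.h637.ThreeGraph.part s false e).card = 2 ∧
      (Run7.h637.ThreeGraph.part s true e).card = 2 := by
    intro e he
    obtain ⟨hc, hv⟩ := h4 e he
    have hne : e.Nonempty := by
      rw [← Finset.card_pos, hc]; norm_num
    obtain ⟨v, hve⟩ := hne
    have hv' := hv v hve
    have hp : (Run7.h637.ThreeGraph.part s (s v) e).card = 2 := by
      rw [← hv']
      unfold Run7.h637.ThreeGraph.part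
      congr 1
      ext x
      simp only [Finset.mem_filter, hs]
      exact and_congr_right fun _ => eq_comm
    have hsum := Run7.h637.ThreeGraph.card_parts (sd := s) e
    rw [hc] at hsum
    cases hsv : s v
    · rw [hsv] at hp; omega
    · rw [hsv] at hp; omega
  have h5' : ∀ S : Finset (Fin n), S.card = 5 →
      (∀ v ∈ S, (S.filter (fun x => s v = s x)).card ≤ 3) →
      Even (HA.filter (fun e => e ⊆ S)).card := by
    intro S hS hv
    have := h5 S hS (by
      intro v hvS
      have h := hv v hvS
      convert h using 2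
      ext x
      simp only [Finset.mem_filter, hs])
    convert this using 2
  obtain ⟨w, hw⟩ := Run7.h637.ThreeGraph.exists_weight h2 h5'
  let ε := Fintype.equivFin (Run7.h637.ThreeGraph.Big (Fin n))
  have hwc : ∀ x y, (fun i j => Run7.h637.ThreeGraph.wt (ε.symm i) (ε.symm j)) x y =
      (fun i j => Run7.h637.ThreeGraph.wt (ε.symm i) (ε.symm j)) y x :=
    fun x y => Run7.h637.ThreeGraph.wt_comm _ _
  refine ⟨Fintype.card (Run7.h637.ThreeGraph.Big (Fin n)),
    fun i j => (ε.symm i).1 = (ε.symm j).1,
    Run7.h637.ThreeGraph.hyp (fun i => (ε.symm i).1)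
      (fun i j => Run7.h637.ThreeGraph.wt (ε.symm i) (ε.symm j)),
    ⟨⟨fun _ => rfl, fun h => h.symm, fun h1 h2 => h1.trans h2⟩, ?_, ?_, ?_⟩,
    ⟨fun a => ε (Run7.h637.ThreeGraph.emb s w a), ?_⟩, ?_, ?_, ?_⟩
  · intro a b c
    have hb : ∀ x y z : Bool, x = y ∨ y = z ∨ x = z := by decide
    exact hb _ _ _
  · intro e he
    refine ⟨Run7.h637.ThreeGraph.hyp_card he, ?_⟩
    intro v _
    have := Run7.h637.ThreeGraph.hyp_class he v
    convert this using 2
    ext x
    simp only [Finset.mem_filter]
  · intro S hS hv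
    have := Run7.h637.ThreeGraph.even_five (sd := fun i => (ε.symm i).1)
      (w := fun i j => Run7.h637.ThreeGraph.wt (ε.symm i) (ε.symm j)) hwc S hS (by
      intro v hvS
      have h := hv v hvS
      convert h using 2
      ext x
      simp only [Finset.mem_filter])
    convert this using 2
  · intro a b hab
    have := ε.injective hab
    exact congrArg (fun x => x.2.1) this
  · intro x y
    rw [hs]
    simp only [Function.Embedding.coeFn_mk, Equiv.symm_apply_apply]
    rfl
  · intro e
    apply Run7.h637.ThreeGraph.mem_iff_map h2 hw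
    · intro a
      simp only [Function.Embedding.coeFn_mk, Equiv.symm_apply_apply]
      rfl
    · intro a b ha hb
      simp only [Function.Embedding.coeFn_mk, Equiv.symm_apply_apply]
      exact Run7.h637.ThreeGraph.wt_emb ha hb
  · intro S p hp hpr hpH
    obtain ⟨σ, δ, α, β, h1, h3, h6⟩ := Run7.h637.ThreeGraph.exists_ext hw S p hp
      (by
        intro x hx y hy
        rw [← hs, ← hs]
        exact hpr x hx y hy)
      (by
        intro e he
        exact hpH e he)
    refine ⟨ε.symm.trans (σ.trans ε), ?_, ?_, ?_⟩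
    · intro x y
      simp only [Equiv.trans_apply, Equiv.symm_apply_apply, h1]
      have hb : ∀ x y z : Bool, x = y ↔ (xor x z) = (xor y z) := by decide
      exact hb _ _ _
    · intro e
      have := Run7.h637.ThreeGraph.hyp_map (sd := fun i => (ε.symm i).1)
        (w := fun i j => Run7.h637.ThreeGraph.wt (ε.symm i) (ε.symm j)) hwc
        (ε.symm.trans (σ.trans ε)) δ
        (by intro x; simp only [Equiv.trans_apply, Equiv.symm_apply_apply, h1])
        (fun i => α (ε.symm i).2.1) (fun i => β (ε.symm i).2.1)
        (by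
          intro x y hx hy
          simp only [Equiv.trans_apply, Equiv.symm_apply_apply]
          exact h3 _ _ hx hy) e
      exact this
    · intro x hx
      simp only [Function.Embedding.coeFn_mk, Equiv.trans_apply, Equiv.symm_apply_apply,
        h6 x hx]

end Pool.Agent.S11707
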