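import Pool.Statements.S11885
import Pool.Agent.Run7.h83.TG.Main

set_option autoImplicit false
open Classical
open Pool Pool.MP_dd5ef2_co

namespace Pool.Agent.S11885

/-- For every ε>0 and all large n, summing over all graphs on n vertices the product over pairs i<j of the fraction of other vertices k with an even number of edges in triangle ijk gives at most 2^(εn²). -/
theorem result :
    ∀ ε : ℝ, 0 < ε → ∃ N : ℕ, ∀ n : ℕ, N ≤ n →
      (∑ G : SimpleGraph (Fin n),
        ∏ i : Fin n, ∏ j : Fin n,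
          (if i < j then
            (((Finset.univ.filter (fun k : Fin n => k ≠ i ∧ k ≠ j ∧
                Even ((if G.Adj i j then 1 else 0) + (if G.Adj i k then 1 else 0)
                  + (if G.Adj j k then 1 else 0) : ℕ))).card : ℝ) / ((n : ℝ) - 2))
          else 1)) ≤ (2 : ℝ) ^ (ε * (n : ℝ) ^ 2) := by
  intro ε hε
  have hl2 : 0 < Real.log 2 := Real.log_pos (by norm_num)
  set d : ℝ := ε * Real.log 2 / 4 with hd
  have hd0 : 0 < d := by positivity
  set l : ℝ := min 1 (d / 3) with hl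
  have hl0 : 0 < l := lt_min one_pos (by positivity)
  have hl1 : l ≤ 1 := min_le_left _ _
  have hld : l ≤ d / 3 := min_le_right _ _
  -- the small constant for the logarithm
  set c : ℝ := (d / 3) * l * (ε / 4) with hc
  have hc0 : 0 < c := by positivity
  have hlog : ∀ᶠ n : ℕ in Filter.atTop, Real.log (2 * (n : ℝ) ^ 2) ≤ c * n := by
    have h1 := (Real.isLittleO_log_id_atTop.comp_tendsto tendsto_natCast_atTop_atTop).bound
      (show (0 : ℝ) < c / 4 by positivity)
    have h2 : ∀ᶠ n : ℕ in Filter.atTop, (2 * Real.log 2 / c) ≤ (n : ℝ) :=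
      tendsto_natCast_atTop_atTop.eventually_ge_atTop _
    filter_upwards [h1, h2, Filter.eventually_ge_atTop 1] with n h1 h2 h3
    simp only [Function.comp, id, Real.norm_eq_abs] at h1
    have hnR : (1 : ℝ) ≤ n := by exact_mod_cast h3
    rw [abs_of_nonneg (Real.log_nonneg hnR), abs_of_nonneg (by linarith)] at h1
    rw [Real.log_mul (by norm_num) (by positivity), Real.log_pow]
    rw [div_le_iff₀ hc0] at h2
    push_cast
    nlinarith
  have hall : ∀ᶠ n : ℕ in Filter.atTop,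
      Real.log (2 * (n : ℝ) ^ 2) ≤ c * n ∧ 4 / ε ≤ (n : ℝ) ∧ 6 / d ≤ (n : ℝ) ∧ 3 ≤ n :=
    hlog.and ((tendsto_natCast_atTop_atTop.eventually_ge_atTop _).and
      ((tendsto_natCast_atTop_atTop.eventually_ge_atTop _).and (Filter.eventually_ge_atTop 3)))
  obtain ⟨N, hN⟩ := Filter.eventually_atTop.mp hall
  refine ⟨N, fun n hn => ?_⟩
  obtain ⟨h1, h2, h3, h4⟩ := hN n hn
  have hnR : (3 : ℝ) ≤ n := by exact_mod_cast h4
  rw [div_le_iff₀ hε] at h2
  rw [div_le_iff₀ hd0] at h3
  set s : ℕ := ⌊(ε / 2) * n⌋₊ with hs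
  have hs1 : (s : ℝ) ≤ (ε / 2) * n := Nat.floor_le (by positivity)
  have hs2 : (ε / 4) * n ≤ (s : ℝ) := by
    have := Nat.lt_floor_add_one ((ε / 2) * n)
    rw [← hs] at this
    nlinarith
  have hsR : (0 : ℝ) < s := lt_of_lt_of_le (by positivity) hs2
  have hs0 : 0 < s := by exact_mod_cast hsR
  have hcard : (Fintype.card (Run7.h83.TG.Pr n) : ℝ) ≤ (n : ℝ) ^ 2 := by
    have h2 := Fintype.card_subtype_le (fun e : Fin n × Fin n => e.1 < e.2)
    rw [Fintype.card_prod, Fintype.card_fin] at h2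
    rw [sq]
    exact_mod_cast h2
  have hcard0 : 0 < Fintype.card (Run7.h83.TG.Pr n) := by
    rw [Fintype.card_pos_iff]
    exact ⟨⟨(⟨0, by omega⟩, ⟨1, by omega⟩), by simp [Fin.lt_def]⟩⟩
  have hcard0R : (0 : ℝ) < Fintype.card (Run7.h83.TG.Pr n) := by exact_mod_cast hcard0
  have hA : Real.log (2 * Fintype.card (Run7.h83.TG.Pr n)) / (l * s) ≤ d / 3 := by
    rw [div_le_iff₀ (mul_pos hl0 hsR)]
    have h5 : Real.log (2 * Fintype.card (Run7.h83.TG.Pr n)) ≤ Real.log (2 * (n : ℝ) ^ 2) :=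
      Real.log_le_log (by positivity) (by linarith)
    have h6 : c * n ≤ d / 3 * (l * s) := by
      rw [hc]
      have : (d / 3 * l) * ((ε / 4) * n) ≤ (d / 3 * l) * s :=
        mul_le_mul_of_nonneg_left hs2 (by positivity)
      linarith
    linarith
  have hB : (2 : ℝ) / n ≤ d / 3 := by
    rw [div_le_iff₀ (by linarith)]
    linarith
  have key := Run7.h83.TG.main_bound h4 hs0 l hl0 hl1 d (by linarith)
  refine le_trans key ?_
  have e1 : (2 : ℝ) ^ (n * s) ≤ (2 : ℝ) ^ ((ε / 2) * (n : ℝ) ^ 2) := by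
    rw [← Real.rpow_natCast]
    apply Real.rpow_le_rpow_of_exponent_le (by norm_num)
    push_cast
    nlinarith
  have e2 : (1 + 2 * d) ^ (n ^ 2) ≤ (2 : ℝ) ^ ((ε / 2) * (n : ℝ) ^ 2) := by
    have h7 : 1 + 2 * d ≤ Real.exp (2 * d) := by
      have := Real.add_one_le_exp (2 * d)
      linarith
    refine (pow_le_pow_left₀ (by positivity) h7 _).trans ?_
    rw [← Real.exp_nat_mul, Real.rpow_def_of_pos (by norm_num)]
    apply le_of_eq
    congr 1
    rw [hd]
    push_cast
    ring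
  calc (2 : ℝ) ^ (n * s) * (1 + 2 * d) ^ (n ^ 2)
      ≤ (2 : ℝ) ^ ((ε / 2) * (n : ℝ) ^ 2) * (2 : ℝ) ^ ((ε / 2) * (n : ℝ) ^ 2) :=
        mul_le_mul e1 e2 (by positivity) (by positivity)
    _ = (2 : ℝ) ^ (ε * (n : ℝ) ^ 2) := by
        rw [← Real.rpow_add (by norm_num)]
        congr 1
        ring

end Pool.Agent.S11885
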