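import Pool.Statements.S12161
import Pool.Agent.Run7.h295.Final

set_option autoImplicit false
open Pool Pool.MP_e850aa_co

namespace Pool.Agent.S12161

/-- Some matroid on a finite set has its rank function equal to the dealer-normalized entropy of an ideal secret sharing scheme, yet is not the matroid of any ideal linear scheme (uniform on K^n, linear shares) over any finite field K. -/
theorem result :
    ∃ (Q : Type) (_ : Fintype Q) (_ : DecidableEq Q) (M : Matroid Q),
      M.E = Set.univ ∧
      (∃ (D : Q) (m : ℕ) (p : Fin m → ℝ) (π : Q → Fin m → ℕ),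
        (∀ x, 0 ≤ p x) ∧ (∑ x, p x = 1) ∧
        0 < -∑ x : Fin m, p x * Real.log
              (∑ y ∈ Finset.univ.filter (fun y => ∀ i ∈ ({D} : Finset Q), π i y = π i x), p y) ∧
        (∃ j : Q, j ≠ D ∧
          -∑ x : Fin m, p x * Real.log
              (∑ y ∈ Finset.univ.filter (fun y => ∀ i ∈ ({j} : Finset Q), π i y = π i x), p y)
          = -∑ x : Fin m, p x * Real.log
              (∑ y ∈ Finset.univ.filter (fun y => ∀ i ∈ ({D} : Finset Q), π i y = π i x), p y)) ∧
        ∀ X : Finset Q,
          -∑ x : Fin m, p x * Real.log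
              (∑ y ∈ Finset.univ.filter (fun y => ∀ i ∈ X, π i y = π i x), p y)
          = ((M.eRk (↑X : Set Q)).toNat : ℝ) *
            (-∑ x : Fin m, p x * Real.log
              (∑ y ∈ Finset.univ.filter (fun y => ∀ i ∈ ({D} : Finset Q), π i y = π i x), p y))) ∧
      ¬ (∃ (D : Q) (K : Type) (_ : Field K) (_ : Fintype K) (n : ℕ)
          (U : Q → Submodule K (Fin n → K)),
          Module.finrank K (U D) < n ∧
          (∃ j : Q, j ≠ D ∧ Module.finrank K (U j) = Module.finrank K (U D)) ∧
          ∀ X : Finset Q,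
            n - Module.finrank K (↥(⨅ i ∈ X, U i))
              = (M.eRk (↑X : Set Q)).toNat * (n - Module.finrank K (U D))) := by
  classical
  obtain ⟨E, hE1, hE2, π, q, hq, h⟩ := Run7.h295.spike_scheme
  have hι : 2 ≤ Fintype.card Run7.h295.Leg := by rw [Run7.h295.card_Leg]; norm_num
  have h1 : ∀ i : Run7.h295.GS Run7.h295.Leg, Run7.h295.rk Run7.h295.code {i} = 1 := by
    rintro (_ | ⟨i, b⟩)
    · exact Run7.h295.rk_tip hι _
    · exact Run7.h295.rk_elt hι _ i b
  obtain ⟨M, hME, hM⟩ := Run7.h295.exists_matroid_of_uniform π q hq (Run7.h295.rk Run7.h295.code) h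
    (fun i => (h1 i).le)
  obtain ⟨m, p, π', hp, hp1, hent⟩ := Run7.h295.entropy_of_uniform π q hq
    (Run7.h295.rk Run7.h295.code) h
  have hlog : 0 < Real.log q := Real.log_pos (by exact_mod_cast (by omega : 1 < q))
  refine ⟨Run7.h295.GS Run7.h295.Leg, inferInstance, inferInstance, M, hME, ?_, ?_⟩
  · refine ⟨none, m, p, π', hp, hp1, ?_, ⟨some (Sum.inr 0, false), by simp, ?_⟩, ?_⟩
    · have h2 := hent {none}
      rw [h1] at h2
      rw [h2]
      simpa using hlog
    · have h2 := hent {none}
      have h3 := hent {some (Sum.inr 0, false)}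
      rw [h1] at h2 h3
      rw [h2, h3]
    · intro X
      have h2 := hent {none}
      rw [h1] at h2
      rw [hent X, h2, hM X]
      simp
  · rintro ⟨D, K, hK, hK', n, U, hlt, _, hU⟩
    refine Run7.h295.spike_not_linear (K := K) (V := Fin n → K) U (n - Module.finrank K (U D))
      (by omega) ?_
    intro X
    have h2 := hU X
    rw [hM X] at h2
    have h3 : Module.finrank K (↥(⨅ i ∈ X, U i)) ≤ n := by
      have := Submodule.finrank_le (⨅ i ∈ X, U i)
      simpa using this
    rw [← h2]
    simp only [Module.finrank_fin_fun]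
    omega

end Pool.Agent.S12161
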