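import Pool.Statements.S12433
import Pool.Agent.Run7.h559.Final

set_option autoImplicit false
open scoped Classical
open Pool Pool.MP_f5b555_co

namespace Pool.Agent.S12433

/-- For n ≥ 1, 2k < n and λ=(n,n−2,…,n−2k), the strict partitions inside λ have average down-degree equal to that of a random element of a random maximal chain (CDE), and this average is ∣λ∣/(n+1). -/
theorem result :
  ∀ (n k : ℕ), 1 ≤ n → 2 * k < n →
  ∀ (V : (Fin (k+1) → ℕ) → Prop),
    (∀ μ, V μ ↔ ((∀ i : Fin (k+1), μ i ≤ n - 2 * (i : ℕ)) ∧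
        ∀ i j : Fin (k+1), i < j → μ j = 0 ∨ μ j < μ i)) →
  ∀ (D : (Fin (k+1) → ℕ) → ℕ),
    (∀ μ, D μ = (Finset.univ.filter
        (fun i : Fin (k+1) => 0 < μ i ∧ V (Function.update μ i (μ i - 1)))).card) →
  ∀ (N : ℕ), N = ∑ i : Fin (k+1), (n - 2 * (i : ℕ)) →
  ∀ (S : (Fin N → Fin (k+1)) → ℕ → Fin (k+1) → ℕ),
    (∀ w j i, S w j i = (Finset.univ.filter
        (fun t : Fin N => (t : ℕ) < j ∧ w t = i)).card) →
  ((∑ μ ∈ Finset.univ.filter (fun μ : Fin (k+1) → Fin (n+1) => V (fun i => (μ i : ℕ))),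
        (D (fun i => (μ i : ℕ)) : ℚ)) /
      ((Finset.univ.filter (fun μ : Fin (k+1) → Fin (n+1) => V (fun i => (μ i : ℕ)))).card : ℚ)
    =
    (∑ w ∈ Finset.univ.filter (fun w : Fin N → Fin (k+1) =>
          (∀ j : ℕ, j ≤ N → V (S w j)) ∧ ∀ i : Fin (k+1), S w N i = n - 2 * (i : ℕ)),
        ∑ j ∈ Finset.range (N+1), (D (S w j) : ℚ)) /
      (((Finset.univ.filter (fun w : Fin N → Fin (k+1) =>
          (∀ j : ℕ, j ≤ N → V (S w j)) ∧ ∀ i : Fin (k+1), S w N i = n - 2 * (i : ℕ))).card : ℚ)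
        * ((N : ℚ) + 1))
  ∧
  (∑ μ ∈ Finset.univ.filter (fun μ : Fin (k+1) → Fin (n+1) => V (fun i => (μ i : ℕ))),
        (D (fun i => (μ i : ℕ)) : ℚ)) /
      ((Finset.univ.filter (fun μ : Fin (k+1) → Fin (n+1) => V (fun i => (μ i : ℕ)))).card : ℚ)
    = (N : ℚ) / ((n : ℚ) + 1)) := by
  intro n k hn hk V hV D hD N hN S hS
  have hV' : V = Pool.Agent.Run7.h559.Val n := by
    funext μ
    exact propext (hV μ)
  subst hV'
  have hS' : ∀ w j, S w j = Pool.Agent.Run7.h559.cont N w j := by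
    intro w j
    funext i
    exact hS w j i
  have hD' : ∀ μ, (D μ : ℚ) = Pool.Agent.Run7.h559.Dd n μ := by
    intro μ
    rw [hD μ, Finset.card_filter]
    push_cast
    rfl
  have hNt : ∑ i, Pool.Agent.Run7.h559.Top n k i = N := hN.symm
  have hNq : (N : ℚ) = ((k : ℚ) + 1) * (n - k) := by
    rw [hN]; exact Pool.Agent.Run7.h559.Top_sum n k hk
  -- the uniform side
  have hU : ∀ F : (Fin (k + 1) → ℕ) → ℚ,
      ∑ μ ∈ Finset.univ.filter (fun μ : Fin (k+1) → Fin (n+1) =>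
        Pool.Agent.Run7.h559.Val n (fun i => (μ i : ℕ))), F (fun i => (μ i : ℕ))
      = ∑ μ ∈ Pool.Agent.Run7.h559.Jset n (k + 1), F μ := by
    intro F
    refine Finset.sum_bij (fun μ _ => fun i => (μ i : ℕ)) ?_ ?_ ?_ ?_
    · intro μ hμ
      rw [Pool.Agent.Run7.h559.mem_Jset]
      exact (Finset.mem_filter.mp hμ).2
    · intro μ _ ν _ h
      funext i
      exact Fin.ext (congrFun h i)
    · intro μ hμ
      rw [Pool.Agent.Run7.h559.mem_Jset] at hμ
      refine ⟨fun i => ⟨μ i, by have := hμ.1 i; omega⟩, ?_, rfl⟩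
      rw [Finset.mem_filter]
      exact ⟨Finset.mem_univ _, hμ⟩
    · intro μ _
      rfl
  have hUc : ((Finset.univ.filter (fun μ : Fin (k+1) → Fin (n+1) =>
        Pool.Agent.Run7.h559.Val n (fun i => (μ i : ℕ)))).card : ℚ)
      = (Pool.Agent.Run7.h559.Jset n (k + 1)).card := by
    have := hU (fun _ => 1)
    simpa using this
  have hJ0 : ((Pool.Agent.Run7.h559.Jset n (k + 1)).card : ℚ) ≠ 0 := by
    rw [Pool.Agent.Run7.h559.Jset_card n k hk]
    have : 0 < (n + 1).choose (k + 1) := Nat.choose_pos (by omega)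
    positivity
  have hn1 : (n : ℚ) + 1 ≠ 0 := by positivity
  have hN1 : (N : ℚ) + 1 ≠ 0 := by positivity
  have hUavg : (∑ μ ∈ Finset.univ.filter (fun μ : Fin (k+1) → Fin (n+1) =>
        Pool.Agent.Run7.h559.Val n (fun i => (μ i : ℕ))), (D (fun i => (μ i : ℕ)) : ℚ)) /
      ((Finset.univ.filter (fun μ : Fin (k+1) → Fin (n+1) =>
        Pool.Agent.Run7.h559.Val n (fun i => (μ i : ℕ)))).card : ℚ)
      = (N : ℚ) / ((n : ℚ) + 1) := by
    rw [hUc]
    have h1 := hU (fun μ => (D μ : ℚ))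
    rw [h1]
    have h2 : ∑ μ ∈ Pool.Agent.Run7.h559.Jset n (k + 1), (D μ : ℚ)
        = ∑ μ ∈ Pool.Agent.Run7.h559.Jset n (k + 1), Pool.Agent.Run7.h559.Dd n μ :=
      Finset.sum_congr rfl fun μ _ => hD' μ
    have h3 := Pool.Agent.Run7.h559.unif_avg n k hn hk
    rw [h2, hNq, div_eq_div_iff hJ0 hn1]
    linear_combination h3
  -- the chain side
  have hW : (Finset.univ.filter (fun w : Fin N → Fin (k+1) =>
          (∀ j : ℕ, j ≤ N → Pool.Agent.Run7.h559.Val n (S w j)) ∧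
            ∀ i : Fin (k+1), S w N i = n - 2 * (i : ℕ)))
      = Pool.Agent.Run7.h559.WL (Pool.Agent.Run7.h559.Val n) N (Pool.Agent.Run7.h559.Top n k) := by
    unfold Pool.Agent.Run7.h559.WL
    refine Finset.filter_congr fun w _ => ?_
    simp only [hS']
    refine and_congr Iff.rfl ?_
    exact ⟨fun h => funext h, fun h i => congrFun h i⟩
  have hWs : (∑ w ∈ Finset.univ.filter (fun w : Fin N → Fin (k+1) =>
          (∀ j : ℕ, j ≤ N → Pool.Agent.Run7.h559.Val n (S w j)) ∧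
            ∀ i : Fin (k+1), S w N i = n - 2 * (i : ℕ)),
        ∑ j ∈ Finset.range (N+1), (D (S w j) : ℚ))
      = Pool.Agent.Run7.h559.EE n k N (Pool.Agent.Run7.h559.Dd n) := by
    rw [hW]
    unfold Pool.Agent.Run7.h559.EE
    refine Finset.sum_congr rfl fun w _ => Finset.sum_congr rfl fun j _ => ?_
    rw [hD', hS']
  refine ⟨?_, hUavg⟩
  rw [hUavg, hWs, hW]
  have hW0 := Pool.Agent.Run7.h559.WL_card_ne_zero n k N hk hNt
  have h4 := Pool.Agent.Run7.h559.chain_avg n k N hn hk hNt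
  rw [hNq] at hN1 h4 ⊢
  rw [div_eq_div_iff hn1 (mul_ne_zero hW0 hN1)]
  linear_combination -h4

end Pool.Agent.S12433
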