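import Pool.Statements.S12577
-- import your own Pool.Agent.* helpers here
import Pool.Agent.Run7.h494.Iter.Final

set_option autoImplicit false
open Pool Pool.MP_fc0021_co

namespace Pool.Agent.S12577

/-- For every ε>0 and all large n there are finite graphs G, H both of chromatic number n whose tensor product has chromatic number at most εn; i.e. the Poljak–Rödl function satisfies f(n)=o(n). -/
theorem result :
    ∀ ε : ℝ, 0 < ε → ∃ N : ℕ, ∀ n : ℕ, N ≤ n →
      ∃ (a b : ℕ) (G : SimpleGraph (Fin a)) (H : SimpleGraph (Fin b)),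
        G.chromaticNumber = (n : ℕ∞) ∧ H.chromaticNumber = (n : ℕ∞) ∧
        (((SimpleGraph.fromRel
            (fun (p q : Fin a × Fin b) => G.Adj p.1 q.1 ∧ H.Adj p.2 q.2)).chromaticNumber.toNat : ℕ) : ℝ)
          ≤ ε * (n : ℝ) := by
  intro ε hε
  obtain ⟨N, hN⟩ := Run7.h494.Iter.polRod_sublinear ε hε
  refine ⟨N, fun n hn => ?_⟩
  obtain ⟨a, b, G, H, h1, h2, h3⟩ := Run7.h494.Iter.exists_fin n
  refine ⟨a, b, G, H, h1, h2, ?_⟩
  have h4 : (SimpleGraph.fromRel
      (fun (p q : Fin a × Fin b) => G.Adj p.1 q.1 ∧ H.Adj p.2 q.2)).chromaticNumber =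
      (Run7.h494.polRod n : ℕ∞) := h3
  rw [h4, ENat.toNat_natCast]
  exact hN n hn

end Pool.Agent.S12577
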