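import Pool.Statements.S12606
import Pool.Agent.Results.MP_fd346d_co.Disproof

set_option autoImplicit false
open scoped Classical
open Pool Pool.MP_fd346d_co

namespace Pool.Agent.S12606

/-- The realizers of the frozen statement and those of the starting file are the same. -/
theorem real_iff {P : Type} [PartialOrder P] (d : ℕ) :
    (∃ r : Fin d → P → P → Prop,
        (∀ i, (∀ x, r i x x) ∧ (∀ x y z, r i x y → r i y z → r i x z) ∧
          (∀ x y, r i x y → r i y x → x = y) ∧ (∀ x y, r i x y ∨ r i y x)) ∧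
        ∀ x y, x ≤ y ↔ ∀ i, r i x y) ↔
      Pool.Agent.Results.MP_fd346d_co.Disproof.Realizable P d := by
  constructor
  · rintro ⟨r, h1, h2⟩
    refine ⟨r, fun i => ?_, fun i x y h => (h2 x y).1 h i, fun x y h => (h2 x y).2 h⟩
    exact
      { refl := (h1 i).1
        trans := fun x y z => (h1 i).2.1 x y z
        antisymm := fun x y => (h1 i).2.2.1 x y
        total := fun x y => (h1 i).2.2.2 x y }
  · rintro ⟨L, hL, h1, h2⟩
    refine ⟨L, fun i => ?_, fun x y => ⟨fun h i => h1 i x y h, h2 x y⟩⟩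
    have := hL i
    exact ⟨fun x => refl_of (L i) x, fun x y z => trans_of (L i),
      fun x y h h' => antisymm_of (L i) h h', fun x y => total_of (L i) x y⟩

open Pool.Agent.Results.MP_fd346d_co.Disproof in
/-- The negation of the preceding statement: For all posets P, Q with at least two elements and finite dimension, dim P + dim Q ≤ dim(P×Q) + b, where b counts the factors lacking a least or greatest element; dimension means the least number of linear orders whose intersection is the order. -/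
theorem result :
    ¬ (∀ (P Q : Type) [PartialOrder P] [PartialOrder Q], Nontrivial P → Nontrivial Q →
      (∃ d : ℕ, ∃ r : Fin d → P → P → Prop,
        (∀ i, (∀ x, r i x x) ∧ (∀ x y z, r i x y → r i y z → r i x z) ∧
          (∀ x y, r i x y → r i y x → x = y) ∧ (∀ x y, r i x y ∨ r i y x)) ∧
        ∀ x y, x ≤ y ↔ ∀ i, r i x y) →
      (∃ d : ℕ, ∃ r : Fin d → Q → Q → Prop,
        (∀ i, (∀ x, r i x x) ∧ (∀ x y z, r i x y → r i y z → r i x z) ∧
          (∀ x y, r i x y → r i y x → x = y) ∧ (∀ x y, r i x y ∨ r i y x)) ∧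
        ∀ x y, x ≤ y ↔ ∀ i, r i x y) →
      ∀ n : ℕ,
        (∃ r : Fin n → P × Q → P × Q → Prop,
          (∀ i, (∀ x, r i x x) ∧ (∀ x y z, r i x y → r i y z → r i x z) ∧
            (∀ x y, r i x y → r i y x → x = y) ∧ (∀ x y, r i x y ∨ r i y x)) ∧
          ∀ x y, x ≤ y ↔ ∀ i, r i x y) →
        ∃ a c : ℕ,
          a + c ≤ n + ((if (∃ x : P, ∀ y, x ≤ y) ∧ (∃ x : P, ∀ y, y ≤ x) then 0 else 1) +
                       (if (∃ x : Q, ∀ y, x ≤ y) ∧ (∃ x : Q, ∀ y, y ≤ x) then 0 else 1)) ∧
          (∃ r : Fin a → P → P → Prop,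
            (∀ i, (∀ x, r i x x) ∧ (∀ x y z, r i x y → r i y z → r i x z) ∧
              (∀ x y, r i x y → r i y x → x = y) ∧ (∀ x y, r i x y ∨ r i y x)) ∧
            ∀ x y, x ≤ y ↔ ∀ i, r i x y) ∧
          (∃ r : Fin c → Q → Q → Prop,
            (∀ i, (∀ x, r i x x) ∧ (∀ x y z, r i x y → r i y z → r i x z) ∧
              (∀ x y, r i x y → r i y x → x = y) ∧ (∀ x y, r i x y ∨ r i y x)) ∧
            ∀ x y, x ≤ y ↔ ∀ i, r i x y)) := by
  intro H
  obtain ⟨n, m, V, _, _, hn, hm, hP, hne, h⟩ := core.{0} 0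
  have h1 := h (Finset (Fin n)) (dim_bool n)
  -- the dimension of the product is a natural number
  have hfin : ∃ d, Realizable (Pairs V × Finset (Fin n)) d := by
    by_contra hcon
    push Not at hcon
    have h2 : dim (Pairs V × Finset (Fin n)) = ⊤ := by
      simp only [dim, hcon, iInf_false, iInf_top]
    rw [h2] at h1
    have h3 : ((⊤ : ℕ∞) + 2 + ((0 : ℕ) : ℕ∞)) = ⊤ := by simp
    rw [h3] at h1
    exact not_top_lt h1
  obtain ⟨d, hd⟩ := hfin
  obtain ⟨D, hD, hD'⟩ := exists_dim_eq hd
  have h4 : D + 2 < m + n := by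
    rw [hD] at h1
    simp only [Nat.cast_zero, add_zero] at h1
    exact_mod_cast h1
  have hPn : Nontrivial (Pairs V) := by
    by_contra hcon
    rw [not_nontrivial_iff_subsingleton] at hcon
    obtain ⟨p⟩ := hne
    exact hP ⟨⟨p, fun x => le_of_eq (Subsingleton.elim _ _)⟩,
      ⟨p, fun x => le_of_eq (Subsingleton.elim _ _)⟩⟩
  have hQn : Nontrivial (Finset (Fin n)) := by
    have : Nonempty (Fin n) := ⟨⟨0, by omega⟩⟩
    exact inferInstance
  have hPr : Realizable (Pairs V) m := realizable_of_dim_eq hm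
  obtain ⟨a, c, hac, ha, hc⟩ := H (Pairs V) (Finset (Fin n)) hPn hQn
    ⟨m, (real_iff m).2 hPr⟩ ⟨n, (real_iff n).2 (realizable_bool n)⟩ D ((real_iff D).2 hD')
  have ha' : m ≤ a := by
    have := dim_le ((real_iff a).1 ha)
    rw [hm] at this
    exact_mod_cast this
  have hc' : n ≤ c := by
    have := dim_le ((real_iff c).1 hc)
    rw [dim_bool] at this
    exact_mod_cast this
  revert hac
  split_ifs <;> intro hac <;> omega

end Pool.Agent.S12606
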