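import Pool.Statements.S12628
-- import your own Pool.Agent.* helpers here
import Pool.Agent.Run7.h970.Graph

set_option autoImplicit false
open Pool Pool.MP_fe5fab_co

namespace Pool.Agent.S12628

/-- The negation of the preceding statement: For every finite graph G in which every nonempty vertex set has a vertex with at most 2 neighbours inside it, some constant C bounds the size of every 3-uniform hypergraph on n vertices with no copy of the expansion of G by C·n². -/
theorem result :
    ¬ (∀ (V : Type) [Finite V] (G : SimpleGraph V),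
      (∀ S : Set V, S.Nonempty →
        ∃ v ∈ S, ({w : V | w ∈ S ∧ G.Adj v w} : Set V).ncard ≤ 2) →
      ∃ C : ℝ, ∀ n : ℕ, ∀ H : Finset (Finset (Fin n)),
        (∀ e ∈ H, e.card = 3) →
        (¬ ∃ f : V → Fin n, ∃ g : V → V → Fin n,
            Function.Injective f ∧
            (∀ u v : V, G.Adj u v → g u v = g v u) ∧
            (∀ u v u' v' : V, G.Adj u v → G.Adj u' v' → g u v = g u' v' →
              ((u = u' ∧ v = v') ∨ (u = v' ∧ v = u'))) ∧
            (∀ u v : V, G.Adj u v →
              (∀ w : V, g u v ≠ f w) ∧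
              ({f u, f v, g u v} : Finset (Fin n)) ∈ H)) →
        (H.card : ℝ) ≤ C * (n : ℝ) ^ 2) := by
  intro h
  obtain ⟨M, hM⟩ := Run7.h970.exists_rel
  obtain ⟨C, hC⟩ := h (Run7.h970.W M) (Run7.h970.Gr M) (Run7.h970.Gr_degenerate M)
  obtain ⟨N, R, hsymm, hconf, hcount⟩ := hM (9 * C)
  have h1 := hC (3 * N) (Run7.h970.HH R) (Run7.h970.HH_uniform R) (by
    rintro ⟨f, g, hf, -, -, hg⟩
    exact hconf (Run7.h970.conf_of_copy R hsymm f g hf (fun u v huv => (hg u v huv).2)))
  rw [Run7.h970.HH_card] at h1
  push_cast at h1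
  have h2 : C * (3 * (N : ℝ)) ^ 2 = 9 * C * (N : ℝ) ^ 2 := by ring
  rw [h2] at h1
  exact absurd h1 (not_le.mpr hcount)

end Pool.Agent.S12628
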