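import Pool.Statements.S12948
import Pool.Agent.Results.MP_2c1b2b_gt.LinearSegments

set_option autoImplicit false
open Pointwise
open Pool Pool.MP_2c1b2b_gt

namespace Pool.Agent.S12948

open Pool.Agent.Results.MP_2c1b2b_gt.LinearSegments

theorem sum_segment {n M : ℕ} (v : Fin M → EuclideanSpace ℝ (Fin n)) :
    (∑ i, segment ℝ (-v i) (v i)) = segSum v := by
  have hseg : ∀ w x : EuclideanSpace ℝ (Fin n),
      x ∈ segment ℝ (-w) w ↔ ∃ t ∈ Set.Icc (-1 : ℝ) 1, x = t • w := by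
    intro w x
    rw [segment_eq_image]
    constructor
    · rintro ⟨s, ⟨hs0, hs1⟩, rfl⟩
      refine ⟨2 * s - 1, ⟨by linarith, by linarith⟩, ?_⟩
      simp only
      module
    · rintro ⟨t, ⟨ht0, ht1⟩, rfl⟩
      refine ⟨(t + 1) / 2, ⟨by linarith, by linarith⟩, ?_⟩
      simp only
      module
  ext x
  rw [Set.mem_fintype_sum]
  constructor
  · rintro ⟨g, hg, rfl⟩
    choose t ht hgt using fun i => (hseg (v i) (g i)).1 (hg i)
    exact ⟨t, ht, Finset.sum_congr rfl fun i _ => hgt i⟩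
  · rintro ⟨t, ht, rfl⟩
    exact ⟨fun i => t i • v i, fun i => (hseg _ _).2 ⟨t i, ht i, rfl⟩, rfl⟩

theorem segSum_neg {n M : ℕ} {v : Fin M → EuclideanSpace ℝ (Fin n)}
    {x : EuclideanSpace ℝ (Fin n)} (hx : x ∈ segSum v) : -x ∈ segSum v := by
  obtain ⟨t, ht, rfl⟩ := hx
  refine ⟨fun i => -t i, fun i => ?_, ?_⟩
  · have := ht i
    exact ⟨by linarith [this.2], by linarith [this.1]⟩
  · rw [← Finset.sum_neg_distrib]
    exact Finset.sum_congr rfl fun i _ => by rw [neg_smul]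

theorem segSum_convex {n M : ℕ} (v : Fin M → EuclideanSpace ℝ (Fin n)) :
    Convex ℝ (segSum v) := by
  rw [← sum_segment]
  exact convex_sum _ fun i _ => convex_segment _ _

theorem segSum_compact {n M : ℕ} (v : Fin M → EuclideanSpace ℝ (Fin n)) :
    IsCompact (segSum v) := by
  have h : segSum v = (fun t : Fin M → ℝ => ∑ j, t j • v j) ''
      Set.univ.pi fun _ => Set.Icc (-1 : ℝ) 1 := by
    ext x
    constructor
    · rintro ⟨t, ht, rfl⟩
      exact ⟨t, fun i _ => ht i, rfl⟩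
    · rintro ⟨t, ht, rfl⟩
      exact ⟨t, fun i => ht i (Set.mem_univ i), rfl⟩
  rw [h]
  refine (isCompact_univ_pi fun _ => isCompact_Icc).image ?_
  fun_prop

theorem segSum_smul {n M : ℕ} (c : ℝ) (v : Fin M → EuclideanSpace ℝ (Fin n)) :
    segSum (fun i => c • v i) = c • segSum v := by
  ext x
  rw [Set.mem_smul_set]
  constructor
  · rintro ⟨t, ht, rfl⟩
    refine ⟨∑ j, t j • v j, ⟨t, ht, rfl⟩, ?_⟩
    rw [Finset.smul_sum]
    exact Finset.sum_congr rfl fun i _ => smul_comm _ _ _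
  · rintro ⟨y, ⟨t, ht, rfl⟩, rfl⟩
    refine ⟨t, ht, ?_⟩
    rw [Finset.smul_sum]
    exact Finset.sum_congr rfl fun i _ => smul_comm _ _ _

/-- The negation of the preceding statement: For some ε>0 and every constant C, there is a dimension n and a zonoid K in ℝⁿ that is not within Banach–Mazur distance 1+ε of any sum of at most C·n segments, i.e. the bound C(ε)·n fails in general. -/
theorem result :
    ¬ (∃ ε : ℝ, 0 < ε ∧ ∀ C : ℝ, ∃ n : ℕ, ∃ K : Set (EuclideanSpace ℝ (Fin n)),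
      IsCompact K ∧ (interior K).Nonempty ∧
      (∀ δ : ℝ, 0 < δ → ∃ m : ℕ, ∃ v : Fin m → EuclideanSpace ℝ (Fin n),
          Metric.hausdorffDist K (∑ i, segment ℝ (-v i) (v i)) < δ) ∧
      ¬ ∃ m : ℕ, (m : ℝ) ≤ C * n ∧
          ∃ v : Fin m → EuclideanSpace ℝ (Fin n),
          ∃ T : EuclideanSpace ℝ (Fin n) ≃ₗ[ℝ] EuclideanSpace ℝ (Fin n),
            T '' K ⊆ ∑ i, segment ℝ (-v i) (v i) ∧
            ∑ i, segment ℝ (-v i) (v i) ⊆ (1 + ε) • (T '' K)) := by
  rintro ⟨ε, hε, h⟩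
  obtain ⟨C₀, hC₀, hmain⟩ := Pool.Agent.Results.MP_2c1b2b_gt.LinearSegments.result
  obtain ⟨n, K, hK, hint, happ, hno⟩ := h (C₀ / (min ε (1 / 2)) ^ 2)
  set ε' := min ε (1 / 2) with hε'
  have hε'0 : 0 < ε' := lt_min hε (by norm_num)
  have hε'1 : ε' < 1 := lt_of_le_of_lt (min_le_right _ _) (by norm_num)
  have hKne : K.Nonempty := hint.mono interior_subset
  have hseg0 : ∀ {M : ℕ} (v : Fin M → EuclideanSpace ℝ (Fin n)), (segSum v).Nonempty :=
    fun v => ⟨0, fun _ => 0, fun _ => by norm_num, by simp⟩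
  have hfin : ∀ {M : ℕ} (v : Fin M → EuclideanSpace ℝ (Fin n)),
      Metric.hausdorffEDist K (segSum v) ≠ ⊤ := fun v =>
    Metric.hausdorffEDist_ne_top_of_nonempty_of_bounded hKne (hseg0 v) hK.isBounded
      (segSum_compact v).isBounded
  -- approximation in both directions
  have hap : ∀ δ : ℝ, 0 < δ → ∃ (M : ℕ) (v : Fin M → EuclideanSpace ℝ (Fin n)),
      Metric.hausdorffDist K (segSum v) < δ ∧
      (∀ x ∈ K, ∃ z ∈ segSum v, dist x z < δ) ∧ (∀ z ∈ segSum v, ∃ x ∈ K, dist x z < δ) := by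
    intro δ hδ
    obtain ⟨M, v, hv⟩ := happ δ hδ
    rw [sum_segment] at hv
    exact ⟨M, v, hv, fun x hx => Metric.exists_dist_lt_of_hausdorffDist_lt hx hv (hfin v),
      fun z hz => Metric.exists_dist_lt_of_hausdorffDist_lt' hz hv (hfin v)⟩
  have hclosed : ∀ y : EuclideanSpace ℝ (Fin n), (∀ δ : ℝ, 0 < δ → ∃ x ∈ K, dist y x < δ) →
      y ∈ K := by
    intro y hy
    rw [← hK.isClosed.closure_eq, Metric.mem_closure_iff]
    exact hy
  have hsymm : ∀ x ∈ K, -x ∈ K := by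
    intro x hx
    refine hclosed _ fun δ hδ => ?_
    obtain ⟨M, v, -, h1, h2⟩ := hap (δ / 2) (by linarith)
    obtain ⟨z, hz, hxz⟩ := h1 x hx
    obtain ⟨y, hy, hyz⟩ := h2 (-z) (segSum_neg hz)
    refine ⟨y, hy, ?_⟩
    calc dist (-x) y ≤ dist (-x) (-z) + dist (-z) y := dist_triangle _ _ _
      _ = dist x z + dist y (-z) := by rw [dist_neg_neg, dist_comm (-z) y]
      _ < δ := by linarith
  have hconv : Convex ℝ K := by
    intro x hx y hy a b ha hb hab
    refine hclosed _ fun δ hδ => ?_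
    obtain ⟨M, v, -, h1, h2⟩ := hap (δ / 2) (by linarith)
    obtain ⟨z, hz, hxz⟩ := h1 x hx
    obtain ⟨w, hw, hyw⟩ := h1 y hy
    obtain ⟨k, hk, hkz⟩ := h2 _ (segSum_convex v hz hw ha hb hab)
    refine ⟨k, hk, ?_⟩
    have h3 : dist (a • x + b • y) (a • z + b • w) < δ / 2 := by
      rw [dist_eq_norm] at hxz hyw ⊢
      have : a • x + b • y - (a • z + b • w) = a • (x - z) + b • (y - w) := by
        simp only [smul_sub]; abel
      rw [this]
      calc ‖a • (x - z) + b • (y - w)‖ ≤ ‖a • (x - z)‖ + ‖b • (y - w)‖ := norm_add_le _ _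
        _ = a * ‖x - z‖ + b * ‖y - w‖ := by
            rw [norm_smul, norm_smul, Real.norm_of_nonneg ha, Real.norm_of_nonneg hb]
        _ ≤ a * max ‖x - z‖ ‖y - w‖ + b * max ‖x - z‖ ‖y - w‖ := by
            gcongr
            · exact le_max_left _ _
            · exact le_max_right _ _
        _ = max ‖x - z‖ ‖y - w‖ := by rw [← add_mul, hab, one_mul]
        _ < δ / 2 := max_lt hxz hyw
    calc dist (a • x + b • y) k ≤ dist (a • x + b • y) (a • z + b • w) +
          dist (a • z + b • w) k := dist_triangle _ _ _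
      _ < δ / 2 + δ / 2 := add_lt_add h3 (by rw [dist_comm]; exact hkz)
      _ = δ := by ring
  have hzon : IsZonoid K := by
    refine ⟨hconv, hK, hint, hsymm, fun δ hδ => ?_⟩
    obtain ⟨M, v, hv, -, -⟩ := hap δ hδ
    exact ⟨M, segSum v, ⟨0, v, by ext x; simp⟩, hv⟩
  obtain ⟨-, M, v, hM, hvK, hKv⟩ := hmain n K hzon ε' hε'0 hε'1
  refine hno ⟨M, hM, fun i => (1 + ε') • v i, LinearEquiv.refl ℝ _, ?_, ?_⟩
  · rw [sum_segment, segSum_smul]
    rintro _ ⟨x, hx, rfl⟩
    exact hKv hx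
  · rw [sum_segment, segSum_smul]
    have hid : (LinearEquiv.refl ℝ (EuclideanSpace ℝ (Fin n))) '' K = K := by
      ext x; simp
    rw [hid]
    intro x hx
    obtain ⟨y, hy, rfl⟩ := Set.mem_smul_set.1 hx
    have h0K : (0 : EuclideanSpace ℝ (Fin n)) ∈ K := by
      obtain ⟨p, hp⟩ := hKne
      have := hconv hp (hsymm p hp) (by norm_num : (0:ℝ) ≤ 1/2) (by norm_num : (0:ℝ) ≤ 1/2)
        (by norm_num)
      simpa using this
    have hle : ε' ≤ ε := min_le_left _ _
    have hpos : (0 : ℝ) < 1 + ε := by linarith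
    refine Set.mem_smul_set.2 ⟨((1 + ε') / (1 + ε)) • y, ?_, ?_⟩
    · have hr0 : 0 ≤ (1 + ε') / (1 + ε) := by positivity
      have hr1 : (1 + ε') / (1 + ε) ≤ 1 := by rw [div_le_one hpos]; linarith
      have := hconv (hvK hy) h0K hr0 (sub_nonneg.2 hr1) (by ring)
      simpa using this
    · rw [smul_smul, mul_div_cancel₀ _ hpos.ne']

end Pool.Agent.S12948
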