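import Pool.Statements.S13092
import Pool.Agent.Run7.h254.HT.Main

set_option autoImplicit false
open LaurentPolynomial
open scoped Matrix
open Pool Pool.MP_436001_gt

namespace Pool.Agent.S13092

/-- The negation of the preceding statement: Suppose a nondegenerate Hermitian Laurent-polynomial form L has boundary linking form isometric to that of H2^g, L at t=1 equals Q plus 2g zeros, and L plus n H2's ≅ Q plus (g+n) H2's. Then L ≅ Q ⊕ H2^g. -/
theorem result :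
    ¬ (∀ (σ : LaurentPolynomial ℤ →+* LaurentPolynomial ℤ) (ε : LaurentPolynomial ℤ →+* ℤ),
      σ (T 1) = T (-1) → ε (T 1) = 1 →
      ∀ (H2 : Matrix (Fin 2) (Fin 2) (LaurentPolynomial ℤ)),
        H2 = !![0, T 1 - 1; T (-1) - 1, 0] →
      ∀ (k : ℕ) (Q : Matrix (Fin k) (Fin k) ℤ), Qᵀ = Q → IsUnit Q.det →
      ∀ (g r : ℕ) (L : Matrix (Fin r) (Fin r) (LaurentPolynomial ℤ)),
        (L.map σ)ᵀ = L → L.det ≠ 0 →
        (∃ (P Q1 : Matrix (Fin 2 × Fin g) (Fin r) (LaurentPolynomial ℤ))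
            (P' Q2 : Matrix (Fin r) (Fin 2 × Fin g) (LaurentPolynomial ℤ))
            (S1 M : Matrix (Fin r) (Fin r) (LaurentPolynomial ℤ))
            (S2 : Matrix (Fin 2 × Fin g) (Fin 2 × Fin g) (LaurentPolynomial ℤ)),
            P * L = Matrix.blockDiagonal (fun _ : Fin g => H2) * Q1 ∧
            P' * Matrix.blockDiagonal (fun _ : Fin g => H2) = L * Q2 ∧
            P' * P = 1 + L * S1 ∧
            P * P' = 1 + Matrix.blockDiagonal (fun _ : Fin g => H2) * S2 ∧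
            (L.map (algebraMap (LaurentPolynomial ℤ) (FractionRing (LaurentPolynomial ℤ))))⁻¹
              - ((P.map σ)ᵀ).map (algebraMap (LaurentPolynomial ℤ) (FractionRing (LaurentPolynomial ℤ)))
                * ((Matrix.blockDiagonal (fun _ : Fin g => H2)).map
                    (algebraMap (LaurentPolynomial ℤ) (FractionRing (LaurentPolynomial ℤ))))⁻¹
                * P.map (algebraMap (LaurentPolynomial ℤ) (FractionRing (LaurentPolynomial ℤ)))
              = M.map (algebraMap (LaurentPolynomial ℤ) (FractionRing (LaurentPolynomial ℤ)))) →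
        (∃ (P : Matrix (Fin r) (Fin k ⊕ Fin 2 × Fin g) ℤ)
            (P' : Matrix (Fin k ⊕ Fin 2 × Fin g) (Fin r) ℤ),
            P * P' = 1 ∧ P' * P = 1 ∧
            Pᵀ * L.map ε * P = Matrix.fromBlocks Q 0 0 0) →
        (∃ (n : ℕ) (P : Matrix (Fin r ⊕ Fin 2 × Fin n) (Fin k ⊕ Fin 2 × Fin (g + n)) (LaurentPolynomial ℤ))
            (P' : Matrix (Fin k ⊕ Fin 2 × Fin (g + n)) (Fin r ⊕ Fin 2 × Fin n) (LaurentPolynomial ℤ)),
            P * P' = 1 ∧ P' * P = 1 ∧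
            (P.map σ)ᵀ * Matrix.fromBlocks L 0 0 (Matrix.blockDiagonal (fun _ : Fin n => H2)) * P
              = Matrix.fromBlocks (Q.map (Int.castRingHom (LaurentPolynomial ℤ))) 0 0
                  (Matrix.blockDiagonal (fun _ : Fin (g + n) => H2))) →
        ∃ (P : Matrix (Fin r) (Fin k ⊕ Fin 2 × Fin g) (LaurentPolynomial ℤ))
          (P' : Matrix (Fin k ⊕ Fin 2 × Fin g) (Fin r) (LaurentPolynomial ℤ)),
          P * P' = 1 ∧ P' * P = 1 ∧
          (P.map σ)ᵀ * L * P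
            = Matrix.fromBlocks (Q.map (Int.castRingHom (LaurentPolynomial ℤ))) 0 0
                (Matrix.blockDiagonal (fun _ : Fin g => H2))) := by
  intro H
  have htu : (T 1 : LaurentPolynomial ℤ) * T (-1) = 1 := by rw [← T_add]; simp
  have hut : (T (-1) : LaurentPolynomial ℤ) * T 1 = 1 := by rw [← T_add]; simp
  obtain ⟨σ, hσa⟩ : ∃ σ : LaurentPolynomial ℤ →+* LaurentPolynomial ℤ, ∀ p, σ p = invert p :=
    ⟨(invert (R := ℤ)).toAlgHom.toRingHom, fun _ => rfl⟩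
  have hσ1 : σ (T 1) = T (-1) := by rw [hσa, invert_T]
  have hσ2 : σ (T (-1)) = T 1 := by rw [hσa, invert_T, neg_neg]
  obtain ⟨ε, hε⟩ : ∃ ε : LaurentPolynomial ℤ →+* ℤ, ∀ n, ε (T n) = 1 :=
    ⟨eval₂ (RingHom.id ℤ) 1, fun n => by rw [eval₂_T]; simp⟩
  have hLs := Run7.h254.HT.LL_map σ _ _ hσ1 hσ2
  have hPs := Run7.h254.HT.PP_map σ _ _ hσ1 hσ2
  have hLe := Run7.h254.HT.LL_eps ε (T 1) (T (-1)) (hε 1) (hε (-1))
  have hLI := Run7.h254.HT.LL_mul_LI (T 1 : LaurentPolynomial ℤ) (T (-1)) htu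
  have h1 := Run7.h254.HT.PP_mul_PPi (T 1 : LaurentPolynomial ℤ) (T (-1)) htu
  have h2 := Run7.h254.HT.PPi_mul_PP (T 1 : LaurentPolynomial ℤ) (T (-1)) htu
  have h3 := Run7.h254.HT.MM_mul_PP (T 1 : LaurentPolynomial ℤ) (T (-1)) htu
  have h4 := Run7.h254.HT.PPs_mul_MP (T 1 : LaurentPolynomial ℤ) (T (-1)) htu
  have hM := Run7.h254.HT.MM_eq (T 1 : LaurentPolynomial ℤ) (T (-1))
  have hN := Run7.h254.HT.NN_eq (T 1 : LaurentPolynomial ℤ) (T (-1))
  generalize hL : Run7.h254.HT.LL (T 1 : LaurentPolynomial ℤ) (T (-1)) = L at *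
  generalize hLi : Run7.h254.HT.LI (T 1 : LaurentPolynomial ℤ) (T (-1)) = Li at *
  have hdet : L.det ≠ 0 := by
    intro h0
    have := congrArg Matrix.det hLI
    rw [Matrix.det_mul, h0, zero_mul, Matrix.det_one] at this
    exact zero_ne_one this
  have hinv : (L.map (algebraMap (LaurentPolynomial ℤ) (FractionRing (LaurentPolynomial ℤ))))⁻¹
      = Li.map (algebraMap (LaurentPolynomial ℤ) (FractionRing (LaurentPolynomial ℤ))) := by
    apply Matrix.inv_eq_right_inv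
    rw [← Matrix.map_mul, hLI]
    simp
  let e : Fin 4 ≃ Fin 4 ⊕ Fin 2 × Fin 0 := (Equiv.sumEmpty _ _).symm
  have hc1 : (1 : Matrix (Fin 4) (Fin 4) ℤ).submatrix (Equiv.refl (Fin 4)) e.symm
      * (1 : Matrix (Fin 4) (Fin 4) ℤ).submatrix e.symm (Equiv.refl (Fin 4)) = 1 := by
    rw [Matrix.submatrix_mul_equiv, mul_one, Matrix.submatrix_one_equiv]
  have hc2 : (1 : Matrix (Fin 4) (Fin 4) ℤ).submatrix e.symm (Equiv.refl (Fin 4))
      * (1 : Matrix (Fin 4) (Fin 4) ℤ).submatrix (Equiv.refl (Fin 4)) e.symm = 1 := by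
    rw [Matrix.submatrix_mul_equiv, mul_one, Matrix.submatrix_one_equiv]
  have hc3 : ((1 : Matrix (Fin 4) (Fin 4) ℤ).submatrix (Equiv.refl (Fin 4)) e.symm)ᵀ * L.map ε
      * (1 : Matrix (Fin 4) (Fin 4) ℤ).submatrix (Equiv.refl (Fin 4)) e.symm
        = Matrix.fromBlocks 1 0 0 0 := by
    rw [hLe, Matrix.mul_one, Matrix.transpose_submatrix, Matrix.transpose_one, hc2,
      ← Matrix.fromBlocks_one]
    congr 1
    exact Subsingleton.elim _ _
  have hd1 : (Run7.h254.HT.PP (T 1 : LaurentPolynomial ℤ) (T (-1))).submatrix Run7.h254.HT.fe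
      Run7.h254.HT.fe * (Run7.h254.HT.PPi (T 1) (T (-1))).submatrix Run7.h254.HT.fe
      Run7.h254.HT.fe = 1 := by
    rw [Matrix.submatrix_mul_equiv, h1, Matrix.submatrix_one_equiv]
  have hd2 : (Run7.h254.HT.PPi (T 1 : LaurentPolynomial ℤ) (T (-1))).submatrix Run7.h254.HT.fe
      Run7.h254.HT.fe * (Run7.h254.HT.PP (T 1) (T (-1))).submatrix Run7.h254.HT.fe
      Run7.h254.HT.fe = 1 := by
    rw [Matrix.submatrix_mul_equiv, h2, Matrix.submatrix_one_equiv]
  have hd3 : (((Run7.h254.HT.PP (T 1 : LaurentPolynomial ℤ) (T (-1))).submatrix Run7.h254.HT.fe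
      Run7.h254.HT.fe).map σ)ᵀ
      * Matrix.fromBlocks L 0 0 (Matrix.blockDiagonal fun _ : Fin 1 => !![0, T 1 - 1; T (-1) - 1, 0])
      * (Run7.h254.HT.PP (T 1) (T (-1))).submatrix Run7.h254.HT.fe Run7.h254.HT.fe
      = Matrix.fromBlocks ((1 : Matrix (Fin 4) (Fin 4) ℤ).map
          (Int.castRingHom (LaurentPolynomial ℤ))) 0 0
          (Matrix.blockDiagonal fun _ : Fin 1 => !![0, T 1 - 1; T (-1) - 1, 0]) := by
    rw [hM, ← Matrix.submatrix_map, hPs, Matrix.transpose_submatrix, Matrix.submatrix_mul_equiv,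
      Matrix.submatrix_mul_equiv, Matrix.mul_assoc, h3, h4, ← hN]
    congr 1
    ext i j
    simp [Matrix.one_apply, apply_ite]
  obtain ⟨P, P', -, -, hP⟩ := H σ ε hσ1 (hε 1) _ rfl 4 1 (by simp) (by simp) 0 4 L hLs hdet
    ⟨0, 0, 0, 0, -Li, Li, 0, Subsingleton.elim _ _, Subsingleton.elim _ _, by simp [hLI],
      Subsingleton.elim _ _, by rw [hinv]; simp⟩
    ⟨_, _, hc1, hc2, hc3⟩
    ⟨1, _, _, hd1, hd2, hd3⟩
  have hv := congrFun (congrFun hP (Sum.inl 0)) (Sum.inl 0)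
  rw [Matrix.fromBlocks_apply₁₁] at hv
  simp only [Matrix.mul_apply, Matrix.transpose_apply, Matrix.map_apply] at hv
  have hv' := Run7.h254.HT.LL_value (T 1) (T (-1)) (P 0 (Sum.inl 0)) (P 1 (Sum.inl 0))
    (P 2 (Sum.inl 0)) (P 3 (Sum.inl 0)) (σ (P 0 (Sum.inl 0))) (σ (P 1 (Sum.inl 0)))
    (σ (P 2 (Sum.inl 0))) (σ (P 3 (Sum.inl 0))) htu (by
      rw [hL]
      simp only [Fin.sum_univ_four, Matrix.cons_val] at hv ⊢
      rw [hv]
      simp)
  refine Run7.h254.HT.core ε (hε 1) (P 0 (Sum.inl 0)) (P 1 (Sum.inl 0)) (P 2 (Sum.inl 0))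
    (P 3 (Sum.inl 0)) _ _ rfl rfl ?_
  simp only [← hσa]
  simp only [map_add, map_mul, map_sub, map_ofNat, hσ1, hσ2]
  rw [← hv']
  ring

end Pool.Agent.S13092
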