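import Pool.Statements.S13210
import Pool.Agent.Run7.h793.Iso.Inr
import Pool.Agent.Run7.h793.Iso.Trans
import Pool.Agent.Run7.h793.Iso.Seg

set_option autoImplicit false
open MeasureTheory
open scoped Pointwise
open Pool Pool.MP_598757_gt

namespace Pool.Agent.S13210

/-- The negation of the preceding statement: For every convex body K in 3-space and real c: if every orthogonal plane projection has isoperimetric ratio π·area/V₁² at least c, then 9π·vol(K)²/(2·V₂(K)³) is at least c (V₁, V₂ given via Steiner-formula limits). -/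
theorem result :
    ¬ (∀ (K : Set (EuclideanSpace ℝ (Fin 3))) (c : ℝ),
    IsCompact K → Convex ℝ K → (interior K).Nonempty →
    (∀ u ∈ Metric.sphere (0 : EuclideanSpace ℝ (Fin 3)) 1, ∀ L : ℝ,
      Filter.Tendsto (fun t : ℝ =>
        ((volume ((fun x : EuclideanSpace ℝ (Fin 3) => x - (inner ℝ u x) • u) '' K
              + Metric.closedBall (0 : EuclideanSpace ℝ (Fin 3)) t)).toReal
          - 2 * t * ((volume (K + segment ℝ (0 : EuclideanSpace ℝ (Fin 3)) u)).toReal
              - (volume K).toReal)) / (Real.pi * t ^ 2))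
        (nhdsWithin 0 (Set.Ioi 0)) (nhds L) →
      c ≤ Real.pi * ((volume (K + segment ℝ (0 : EuclideanSpace ℝ (Fin 3)) u)).toReal
              - (volume K).toReal) / L ^ 2) →
    ∀ S : ℝ,
      Filter.Tendsto (fun t : ℝ =>
        ((volume (K + Metric.closedBall (0 : EuclideanSpace ℝ (Fin 3)) t)).toReal
          - (volume K).toReal) / (2 * t))
        (nhdsWithin 0 (Set.Ioi 0)) (nhds S) →
      c ≤ 9 * Real.pi * (volume K).toReal ^ 2 / (2 * S ^ 3)) := by
  intro H
  have hpi := Real.pi_pos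
  have h := H Run7.h793.Iso.Q (7 * Real.pi / 40) Run7.h793.Iso.Q_compact
    Run7.h793.Iso.Q_convex Run7.h793.Iso.Q_int ?_ 12 Run7.h793.Iso.S_lim
  · rw [Run7.h793.Iso.Q_vol] at h
    simp only [ENNReal.toReal_ofNat] at h
    norm_num at h
    nlinarith
  · intro u hu L hL
    rw [mem_sphere_zero_iff_norm] at hu
    have hu2 : ∑ i, u i ^ 2 = 1 := by
      have h1 := EuclideanSpace.norm_sq_eq u
      rw [hu] at h1
      simp only [Real.norm_eq_abs, sq_abs] at h1
      rw [← h1]; norm_num
    have hs1 : 1 ≤ ∑ i, |u i| := by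
      rw [Fin.sum_univ_three] at hu2 ⊢
      have e0 := sq_abs (u 0)
      have e1 := sq_abs (u 1)
      have e2 := sq_abs (u 2)
      have p0 := abs_nonneg (u 0)
      have p1 := abs_nonneg (u 1)
      have p2 := abs_nonneg (u 2)
      nlinarith [mul_nonneg p0 p1, mul_nonneg p1 p2, mul_nonneg p0 p2]
    have hρ : 0 < √(7 / 10 * ∑ i, |u i|) := Real.sqrt_pos.mpr (by linarith)
    have hρ2 : √(7 / 10 * ∑ i, |u i|) ^ 2 = 7 / 10 * ∑ i, |u i| :=
      Real.sq_sqrt (by linarith)
    obtain ⟨ha, hb⟩ := Run7.h793.Iso.main_est Run7.h793.Iso.Q hu Run7.h793.Iso.Q_compact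
      Run7.h793.Iso.Q_convex hρ two_pos (by
        intro v hv
        rw [hρ2, EuclideanSpace.norm_sq_eq] at hv
        simp only [Real.norm_eq_abs, sq_abs] at hv
        obtain ⟨s, hs⟩ := Run7.h793.Iso.inr (fun i => u i) (fun i => v i) hu2 hv
        refine ⟨s, ?_⟩
        rw [Run7.h793.Iso.mem_Q]
        exact hs) (fun x hx => Run7.h793.Iso.Q_norm hx) hL
    refine le_trans ?_ hb
    have hv := Run7.h793.Iso.seg_vol u
    have hq : (volume Run7.h793.Iso.Q).toReal = 8 := by
      rw [Run7.h793.Iso.Q_vol]; simp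
    rw [hq] at ha ⊢
    rw [le_div_iff₀ ha, hρ2]
    have : 7 * Real.pi / 40 * ((volume (Run7.h793.Iso.Q + segment ℝ (0 : EuclideanSpace ℝ (Fin 3)) u)).toReal - 8) ≤ 7 * Real.pi / 40 * (4 * ∑ i, |u i|) := by
      apply mul_le_mul_of_nonneg_left _ (by positivity)
      linarith
    linarith

end Pool.Agent.S13210
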