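import Pool.Statements.S13290
import Pool.Agent.Run7.h149.Fan.Main

set_option autoImplicit false
open Pool Pool.MP_64e39e_gt

namespace Pool.Agent.S13290

/-- The negation of the preceding statement: There is a compact metrizable arcwise connected hereditarily unicoherent space with exactly one vertex of a simple triod (a fan) whose homeomorphism group has exactly four orbits. -/
theorem result :
    ¬ (∃ (X : Type) (_ : TopologicalSpace X),
      TopologicalSpace.MetrizableSpace X ∧ CompactSpace X ∧ PathConnectedSpace X ∧
      (∀ A B : Set X, IsClosed A → IsConnected A → IsClosed B → IsConnected B →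
          IsPreconnected (A ∩ B)) ∧
      (∃! t : X, ∃ γ : Fin 3 → unitInterval → X,
          (∀ i, Continuous (γ i) ∧ Function.Injective (γ i) ∧ γ i 0 = t) ∧
          ∀ i j, i ≠ j → Set.range (γ i) ∩ Set.range (γ j) = {t}) ∧
      ∃ a : Fin 4 → X,
        (∀ i j, (∃ h : X ≃ₜ X, h (a i) = a j) → i = j) ∧
        ∀ x : X, ∃ i, ∃ h : X ≃ₜ X, h (a i) = x) := by
  exact Run7.h149.Fan.no_four

end Pool.Agent.S13290
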