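import Pool.Statements.S13341
import Pool.Agent.Run7.h981.Final

set_option autoImplicit false
open Bundle
open scoped Manifold ContDiff
open Pool Pool.MP_6d5819_gt

namespace Pool.Agent.S13341

/-- For every compact simply connected Riemannian manifold whose points all have isometric symmetries with differential minus identity, if some antipodal finite set is larger than the total real Betti number, then some integral homology group has an element of order 2. -/
theorem result :
  ∀ (d : ℕ) (M : Type) [EMetricSpace M]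
    [ChartedSpace (EuclideanSpace ℝ (Fin d)) M]
    [IsManifold (𝓡 d) ∞ M]
    [RiemannianBundle (fun x : M ↦ TangentSpace (𝓡 d) x)]
    [IsContMDiffRiemannianBundle (𝓡 d) ∞ (EuclideanSpace ℝ (Fin d))
      (fun x : M ↦ TangentSpace (𝓡 d) x)]
    [IsRiemannianManifold (𝓡 d) M]
    [CompactSpace M] [SimplyConnectedSpace M]
    (s : M → M → M),
    (∀ x : M, Isometry (s x) ∧ s x x = x ∧
      mfderiv (𝓡 d) (𝓡 d) (s x) x = -ContinuousLinearMap.id ℝ (EuclideanSpace ℝ (Fin d))) →
    (∃ A : Finset M, (∀ x ∈ A, ∀ y ∈ A, s x y = y) ∧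
      (∑ i ∈ Finset.range (d + 1),
        Module.finrank ℝ
          ((((AlgebraicTopology.singularHomologyFunctor (ModuleCat.{0} ℝ) i).obj
            (ModuleCat.of ℝ ℝ)).obj (TopCat.of M) : ModuleCat.{0} ℝ) : Type)) < A.card) →
    ∃ i : ℕ, ∃ g : ((((AlgebraicTopology.singularHomologyFunctor (ModuleCat.{0} ℤ) i).obj
            (ModuleCat.of ℤ ℤ)).obj (TopCat.of M) : ModuleCat.{0} ℤ) : Type),
      addOrderOf g = 2 := by
  intro d M _ _ _ _ _ _ _ _ s hs ⟨A, hA, hlt⟩
  by_contra hcon
  push Not at hcon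
  have hp : Fact (Nat.Prime 2) := ⟨Nat.prime_two⟩
  have htor : ∀ n, ∀ c : Pool.Agent.TH592.Nag.Hm ℤ M n, (2 : ℤ) • c = 0 → c = 0 := by
    intro n c hc
    by_contra hne
    obtain ⟨e⟩ := Pool.Agent.TH592.Nag.bridge ℤ M n
    have hc' : (2 : ℕ) • e.symm c = 0 := by
      rw [← natCast_zsmul, ← map_zsmul, Nat.cast_ofNat, hc, map_zero]
    exact hcon n (e.symm c) (addOrderOf_eq_prime hc' (by
      rw [Ne, LinearEquiv.map_eq_zero_iff]; exact hne))
  have h1 := Pool.Agent.Run7.h981.card_bound' d M s hs A hA htor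
  have h2 : ∀ i, Module.finrank ℝ
      ((((AlgebraicTopology.singularHomologyFunctor (ModuleCat.{0} ℝ) i).obj
        (ModuleCat.of ℝ ℝ)).obj (TopCat.of M) : ModuleCat.{0} ℝ) : Type) =
      Module.finrank ℝ (Pool.Agent.TH592.Nag.Hm ℝ M i) := by
    intro i
    obtain ⟨e⟩ := Pool.Agent.TH592.Nag.bridge ℝ M i
    exact e.finrank_eq
  simp only [h2] at hlt
  exact absurd h1 (not_le.mpr hlt)

end Pool.Agent.S13341
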