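import Pool.Statements.S13574
import Pool.Agent.Run7.h114.LStable

set_option autoImplicit false
open Pool Pool.MP_916210_gt Pool.Agent.Results.MP_916210_gt.BetaOmega

namespace Pool.Agent.S13574

/-- The negation of the preceding statement: For every infinite Tychonoff space X: if C_p(X) is linearly homeomorphic to C_p(X ⊕ A) for each subspace A with a continuous linear extender, then C_p(X × convergent sequence) is linearly homeomorphic to C_p(X). -/
theorem result :
    ¬ (∀ (X : Type) [TopologicalSpace X] [T35Space X] [Infinite X],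
      (∀ A : Set X,
        (∃ φ : C(A, ℝ) →ₗ[ℝ] C(X, ℝ),
          @Continuous _ _
            (TopologicalSpace.induced (fun f : C(A, ℝ) => (f : A → ℝ)) inferInstance)
            (TopologicalSpace.induced (fun f : C(X, ℝ) => (f : X → ℝ)) inferInstance)
            (⇑φ) ∧
          ∀ f : C(A, ℝ), ∀ a : A, φ f a = f a) →
        ∃ e : C(X, ℝ) ≃ₗ[ℝ] C(X ⊕ A, ℝ),
          @Continuous _ _
            (TopologicalSpace.induced (fun f : C(X, ℝ) => (f : X → ℝ)) inferInstance)
            (TopologicalSpace.induced (fun f : C(X ⊕ A, ℝ) => (f : X ⊕ A → ℝ)) inferInstance)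
            (⇑e) ∧
          @Continuous _ _
            (TopologicalSpace.induced (fun f : C(X ⊕ A, ℝ) => (f : X ⊕ A → ℝ)) inferInstance)
            (TopologicalSpace.induced (fun f : C(X, ℝ) => (f : X → ℝ)) inferInstance)
            (⇑e.symm)) →
      ∃ e : C(X × OnePoint ℕ, ℝ) ≃ₗ[ℝ] C(X, ℝ),
        @Continuous _ _
          (TopologicalSpace.induced (fun f : C(X × OnePoint ℕ, ℝ) => (f : X × OnePoint ℕ → ℝ)) inferInstance)
          (TopologicalSpace.induced (fun f : C(X, ℝ) => (f : X → ℝ)) inferInstance)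
          (⇑e) ∧
        @Continuous _ _
          (TopologicalSpace.induced (fun f : C(X, ℝ) => (f : X → ℝ)) inferInstance)
          (TopologicalSpace.induced (fun f : C(X × OnePoint ℕ, ℝ) => (f : X × OnePoint ℕ → ℝ)) inferInstance)
          (⇑e.symm)) := by
  intro h
  have hI : Infinite (Ultrafilter ℕ) :=
    Infinite.of_injective (fun n : ℕ => (pure n : Ultrafilter ℕ)) (fun a b hab => Ultrafilter.pure_injective hab)
  obtain ⟨e, he1, he2⟩ := h (Ultrafilter ℕ) (by
    rintro A ⟨φ, hφ, hφA⟩
    exact Run7.h114.LStable.toEquiv (lstable A ⟨Run7.h114.LStable.toCp φ hφ, fun f a => hφA ⟨f.1, f.2⟩ a⟩))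
  refine not_sstable (LEquivalent.trans ?_ (Run7.h114.LStable.ofEquiv e he1 he2))
  exact LEquivalent.of_homeo ((Homeomorph.refl _).prodCongr Run7.h114.LStable.oneHomeo.symm)

end Pool.Agent.S13574
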