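import Pool.Statements.S13589
import Pool.Agent.Run7.h646.Final

set_option autoImplicit false
open Pool Pool.MP_93ef73_gt

namespace Pool.Agent.S13589

/-- There exist d, a nonempty compact totally disconnected A in R^d with two distinct Steiner trees S, T, no terminal interior to segments in both, and nonempty compact M (∣M∣=∣A∣ if A finite) and r>0 with S an r-minimizer for M. -/
theorem result :
  ∃ (d : ℕ) (A S T M : Set (EuclideanSpace ℝ (Fin d))) (r : ℝ),
    IsCompact A ∧ A.Nonempty ∧ IsTotallyDisconnected A ∧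
    (IsCompact S ∧ IsConnected S ∧ A ⊆ S ∧
      MeasureTheory.Measure.hausdorffMeasure 1 S < ⊤ ∧
      ∀ S' : Set (EuclideanSpace ℝ (Fin d)), IsCompact S' → IsConnected S' → A ⊆ S' →
        MeasureTheory.Measure.hausdorffMeasure 1 S ≤ MeasureTheory.Measure.hausdorffMeasure 1 S') ∧
    (IsCompact T ∧ IsConnected T ∧ A ⊆ T ∧
      MeasureTheory.Measure.hausdorffMeasure 1 T < ⊤ ∧
      ∀ S' : Set (EuclideanSpace ℝ (Fin d)), IsCompact S' → IsConnected S' → A ⊆ S' →
        MeasureTheory.Measure.hausdorffMeasure 1 T ≤ MeasureTheory.Measure.hausdorffMeasure 1 S') ∧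
    S ≠ T ∧
    IsCompact M ∧ M.Nonempty ∧ 0 < r ∧
    (A.Finite → M.Finite ∧ M.ncard = A.ncard) ∧
    (¬ ∃ a ∈ A,
        (∃ x y : EuclideanSpace ℝ (Fin d), x ≠ y ∧ segment ℝ x y ⊆ S ∧ a ∈ openSegment ℝ x y) ∧
        (∃ x y : EuclideanSpace ℝ (Fin d), x ≠ y ∧ segment ℝ x y ⊆ T ∧ a ∈ openSegment ℝ x y)) ∧
    (∀ y ∈ M, Metric.infDist y S ≤ r) ∧
    ∀ W : Set (EuclideanSpace ℝ (Fin d)), IsCompact W → IsConnected W →
      (∀ y ∈ M, Metric.infDist y W ≤ r) →
        MeasureTheory.Measure.hausdorffMeasure 1 S ≤ MeasureTheory.Measure.hausdorffMeasure 1 W := by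
  have hlow : ∀ W : Set (EuclideanSpace ℝ (Fin 2)), IsCompact W → IsConnected W →
      ∀ p : Run7.h646.Lab → EuclideanSpace ℝ (Fin 2), (∀ l, p l ∈ W) →
      (∀ l, dist (p l) (Run7.h646.mm l) ≤ 1 / 1000) →
      ENNReal.ofReal Run7.h646.LL ≤ MeasureTheory.Measure.hausdorffMeasure 1 W :=
    fun W hW hc p hp hd => Run7.h646.lower_bound hW hc p hp hd
  have hfinA : (Set.range Run7.h646.aa).Finite := Set.finite_range _
  have hfinM : (Set.range Run7.h646.mm).Finite := Set.finite_range _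
  have hne : Nonempty Run7.h646.Lab := ⟨(0, true)⟩
  refine ⟨2, Set.range Run7.h646.aa, Run7.h646.SS, Run7.h646.TT, Set.range Run7.h646.mm, 1 / 1000,
    hfinA.isCompact, Set.range_nonempty _, hfinA.countable.isTotallyDisconnected,
    ⟨Run7.h646.SS_compact, Run7.h646.SS_connected, ?_, ?_, ?_⟩,
    ⟨Run7.h646.TT_compact, Run7.h646.TT_connected, ?_, ?_, ?_⟩,
    Run7.h646.SS_ne_TT, hfinM.isCompact, Set.range_nonempty _, by norm_num, ?_, ?_, ?_, ?_⟩
  · rintro _ ⟨l, rfl⟩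
    exact Run7.h646.aa_mem_SS l
  · exact lt_of_le_of_lt Run7.h646.SS_measure ENNReal.ofReal_lt_top
  · intro W hW hc hA
    exact Run7.h646.SS_measure.trans
      (hlow W hW hc Run7.h646.aa (fun l => hA ⟨l, rfl⟩) Run7.h646.dist_aa_mm)
  · rintro _ ⟨l, rfl⟩
    exact Run7.h646.aa_mem_TT l
  · exact lt_of_le_of_lt Run7.h646.TT_measure ENNReal.ofReal_lt_top
  · intro W hW hc hA
    exact Run7.h646.TT_measure.trans
      (hlow W hW hc Run7.h646.aa (fun l => hA ⟨l, rfl⟩) Run7.h646.dist_aa_mm)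
  · intro _
    refine ⟨hfinM, ?_⟩
    rw [Set.ncard_range_of_injective Run7.h646.mm_injective,
      Set.ncard_range_of_injective Run7.h646.aa_injective]
  · rintro ⟨a, ⟨⟨i, b⟩, rfl⟩, hS, hT⟩
    cases b
    · exact Run7.h646.vv_not_inner i (by simpa [Run7.h646.aa] using hT)
    · exact Run7.h646.ww_not_inner i (by simpa [Run7.h646.aa] using hS)
  · rintro _ ⟨l, rfl⟩
    refine (Metric.infDist_le_dist_of_mem (Run7.h646.aa_mem_SS l)).trans ?_
    rw [dist_comm]
    exact Run7.h646.dist_aa_mm l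
  · intro W hW hc hM
    have hex : ∀ l : Run7.h646.Lab, ∃ q ∈ W, dist q (Run7.h646.mm l) ≤ 1 / 1000 := by
      intro l
      obtain ⟨q, hq, h⟩ := hW.exists_infDist_eq_dist hc.nonempty (Run7.h646.mm l)
      refine ⟨q, hq, ?_⟩
      rw [dist_comm, ← h]
      exact hM _ ⟨l, rfl⟩
    choose p hp hd using hex
    exact Run7.h646.SS_measure.trans (hlow W hW hc p hp hd)

end Pool.Agent.S13589
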