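import Pool.Statements.S13658
import Pool.Agent.Run7.h208.ConeTransfer

set_option autoImplicit false
open Pool Pool.MP_9df398_gt

namespace Pool.Agent.S13658

/-- The negation of the preceding statement: Every curvature-1 conformal metric on the sphere with finitely many cone points (angles ≠ 2π, ∞ regular) admits a C² isometric immersion into ℝ³ of the sphere minus the cone points. -/
theorem result :
    ¬ (∀ (S : Finset ℂ) (u : ℂ → ℝ),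
      ContDiffOn ℝ 2 u (↑S : Set ℂ)ᶜ →
      (∀ z ∉ S, iteratedFDeriv ℝ 2 u z ![(1 : ℂ), 1]
          + iteratedFDeriv ℝ 2 u z ![Complex.I, Complex.I] = -Real.exp (2 * u z)) →
      (∀ p ∈ S, ∃ θ : ℝ, 0 < θ ∧ θ ≠ 1 ∧ ∃ h : ℂ → ℝ, ContinuousAt h p ∧
          ∀ z : ℂ, z ≠ p → u z = (θ - 1) * Real.log ‖z - p‖ + h z) →
      (∃ r : ℝ, 0 < r ∧ ∃ φ : ℂ → ℝ, ContDiffOn ℝ 2 φ (Metric.ball (0 : ℂ) r) ∧
          ∀ w ∈ Metric.ball (0 : ℂ) r, w ≠ 0 → φ w = u w⁻¹ - 2 * Real.log ‖w‖) →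
      ∃ f : ℂ → EuclideanSpace ℝ (Fin 3),
        ContDiffOn ℝ 2 f (↑S : Set ℂ)ᶜ ∧
        (∀ z ∉ S, ∀ v : ℂ, ‖fderiv ℝ f z v‖ = Real.exp (u z) * ‖v‖) ∧
        ∃ r : ℝ, 0 < r ∧ ∃ g : ℂ → EuclideanSpace ℝ (Fin 3),
          ContDiffOn ℝ 2 g (Metric.ball (0 : ℂ) r) ∧
          ∀ w ∈ Metric.ball (0 : ℂ) r, w ≠ 0 → g w = f w⁻¹) := by
  intro H
  obtain ⟨f, hf, hm, r, hr, g, hg, hgf⟩ := H Run7.h208.Cone.SS Run7.h208.Cone.uu
    Run7.h208.Cone.uu_contDiffOn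
    (fun z hz => Run7.h208.Cone.uu_liouville (Run7.h208.Cone.notMem_SS.1 hz).1
      (Run7.h208.Cone.notMem_SS.1 hz).2)
    Run7.h208.Cone.cone_points Run7.h208.Cone.at_infinity
  exact Run7.h208.Cone.no_immersion hf hm hr hg hgf

end Pool.Agent.S13658
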