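import Pool.Statements.S13772
import Pool.Agent.Run7.h351.SineCurve

set_option autoImplicit false
open Pool Pool.MP_b1ea19_gt

namespace Pool.Agent.S13772

/-- The negation of the preceding statement: If X is a continuum in which every subcontinuum C has a connected set of local separating points, then any two distinct points of any connected subset of X are joined by an arc lying inside that subset. -/
theorem result :
    ¬ (∀ (X : Type) [MetricSpace X] [CompactSpace X] [ConnectedSpace X],
      (∀ C : Set X, IsCompact C → IsConnected C →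
        IsPreconnected {p : X | p ∈ C ∧ ∃ V : Set X, IsOpen V ∧ p ∈ V ∧
          ¬ IsPreconnected (connectedComponentIn (V ∩ C) p \ {p})}) →
      ∀ A : Set X, IsConnected A → ∀ x ∈ A, ∀ y ∈ A, x ≠ y →
        ∃ f : unitInterval → X, Continuous f ∧ Function.Injective f ∧
          f 0 = x ∧ f 1 = y ∧ Set.range f ⊆ A) := by
  intro hall
  have h0 : ((0 : ℝ), (0 : ℝ)) ∈ Run7.h351.Sine.T1 :=
    Run7.h351.Sine.bar_mem ⟨by norm_num, by norm_num⟩
  have h1 : Run7.h351.Sine.gr 1 ∈ Run7.h351.Sine.T1 :=
    Run7.h351.Sine.gr_mem one_pos le_rfl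
  obtain ⟨f, hf, -, hf0, hf1, -⟩ := hall Run7.h351.Sine.XX
    (fun C hc hconn => Run7.h351.Sine.LL_main hc hconn) Set.univ isConnected_univ
    ⟨_, h0⟩ (Set.mem_univ _) ⟨_, h1⟩ (Set.mem_univ _) (by
      intro h
      have h2 := congrArg (fun p : Run7.h351.Sine.XX => p.1.1) h
      have h3 : (0 : ℝ) = 1 := h2
      norm_num at h3)
  refine Run7.h351.Sine.no_path f hf ?_ ?_
  · rw [hf0]; rfl
  · rw [hf1]; rfl

end Pool.Agent.S13772
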