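import Pool.Statements.S13851
import Pool.Agent.Run7.h272.ZD.Dim
import Pool.Agent.Run7.h272.ZD.NotCD

set_option autoImplicit false
open Pool Pool.MP_bed7e9_gt

namespace Pool.Agent.S13851

/-- There is a Tychonoff space X of covering dimension 0 whose square is normal, yet the square is not a countable union of subspaces each of finite covering dimension (covering dimension defined via finite cozero-set covers). -/
theorem result :
  ∃ (X : Type) (_ : TopologicalSpace X), T35Space X ∧ NormalSpace (X × X) ∧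
    (∀ (m : ℕ) (U : Fin m → Set X),
      (∀ i, ∃ f : X → ℝ, Continuous f ∧ U i = {x | f x ≠ 0}) →
      (⋃ i, U i) = Set.univ →
      ∃ (k : ℕ) (V : Fin k → Set X),
        (∀ j, ∃ f : X → ℝ, Continuous f ∧ V j = {x | f x ≠ 0}) ∧
        (⋃ j, V j) = Set.univ ∧
        (∀ j, ∃ i, V j ⊆ U i) ∧
        ∀ x, {j : Fin k | x ∈ V j}.ncard ≤ 1) ∧
    ¬ ∃ A : ℕ → Set (X × X), (⋃ k, A k) = Set.univ ∧
      ∀ k, ∃ n : ℕ,
        ∀ (m : ℕ) (U : Fin m → Set (A k)),
          (∀ i, ∃ f : A k → ℝ, Continuous f ∧ U i = {x | f x ≠ 0}) →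
          (⋃ i, U i) = Set.univ →
          ∃ (l : ℕ) (V : Fin l → Set (A k)),
            (∀ j, ∃ f : A k → ℝ, Continuous f ∧ V j = {x | f x ≠ 0}) ∧
            (⋃ j, V j) = Set.univ ∧
            (∀ j, ∃ i, V j ⊆ U i) ∧
            ∀ x, {j : Fin l | x ∈ V j}.ncard ≤ n + 1 := by
  let Q : Type := ℕ → unitInterval
  let mQ : MetricSpace Q := TopologicalSpace.metrizableSpaceMetric (ℕ → unitInterval)
  have hcQ : @CompactSpace Q mQ.toPseudoMetricSpace.toUniformSpace.toTopologicalSpace :=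
    (inferInstance : CompactSpace (ℕ → unitInterval))
  have hneQ : Nonempty Q := ⟨fun _ => 0⟩
  obtain ⟨S, h0, h1, h2⟩ := @Run7.h272.ZD.exists_data Q mQ hcQ hneQ
  have hsQ : @SecondCountableTopology Q mQ.toPseudoMetricSpace.toUniformSpace.toTopologicalSpace :=
    (inferInstance : SecondCountableTopology (ℕ → unitInterval))
  refine ⟨Run7.h272.ZD.XX S, inferInstance, Run7.h272.ZD.t35_XX S, ?_, ?_, ?_⟩
  · exact Run7.h272.ZD.normal_sq h1 h2 (fun _ => 0)
  · exact Run7.h272.ZD.dim_XX h1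
  · exact Run7.h272.ZD.not_cd (S := S) (Homeomorph.refl (ℕ → unitInterval)) h0 h1

end Pool.Agent.S13851
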