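import Pool.Statements.S13885
-- import your own Pool.Agent.* helpers here

set_option autoImplicit false
open Pool Pool.MP_c36963_gt

namespace Pool.Agent.S13885

/-- There exists r : ℂ → ℂ mapping the closed unit disk into the unit circle, fixing the circle, with connected fibers in the disk, such that only finitely many circle points y fail: for all circle sequences s_n → y, every point of the Kuratowski lim sup of the fibers r⁻¹(s_n) lies in r⁻¹(y). -/
theorem result :
    ∃ r : ℂ → ℂ,
      (∀ z ∈ Metric.closedBall (0:ℂ) 1, r z ∈ Metric.sphere (0:ℂ) 1) ∧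
      (∀ y ∈ Metric.sphere (0:ℂ) 1, r y = y) ∧
      (∀ y ∈ Metric.sphere (0:ℂ) 1,
        IsConnected {z : ℂ | z ∈ Metric.closedBall (0:ℂ) 1 ∧ r z = y}) ∧
      Set.Finite {y : ℂ | y ∈ Metric.sphere (0:ℂ) 1 ∧
        ¬ (∀ s : ℕ → ℂ, (∀ n, s n ∈ Metric.sphere (0:ℂ) 1) →
            Filter.Tendsto s Filter.atTop (nhds y) →
            ∀ x : ℂ, (∀ ε : ℝ, ε > 0 → ∀ N : ℕ, ∃ n : ℕ, n ≥ N ∧
                ∃ z : ℂ, z ∈ Metric.closedBall (0:ℂ) 1 ∧ r z = s n ∧ dist z x < ε) →
              r x = y)} := by
  classical
  refine ⟨fun z => if ‖z‖ = 1 then z else 1, ?_, ?_, ?_, ?_⟩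
  · intro z _
    by_cases h : ‖z‖ = 1
    · simp [h]
    · simp [h]
  · intro y hy
    have h : ‖y‖ = 1 := by simpa using hy
    simp [h]
  · intro y hy
    have hy1 : ‖y‖ = 1 := by simpa using hy
    by_cases h1 : y = 1
    · subst h1
      have hset : {z : ℂ | z ∈ Metric.closedBall (0:ℂ) 1 ∧ (if ‖z‖ = 1 then z else 1) = 1}
          = Metric.ball (0:ℂ) 1 ∪ {1} := by
        ext z
        simp only [Set.mem_setOf_eq, Metric.mem_closedBall, dist_zero_right, Set.mem_union,
          Metric.mem_ball, Set.mem_singleton_iff]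
        constructor
        · rintro ⟨hz, h⟩
          by_cases hz1 : ‖z‖ = 1
          · right
            simpa [hz1] using h
          · left
            exact lt_of_le_of_ne hz hz1
        · rintro (hz | rfl)
          · exact ⟨hz.le, by simp [hz.ne]⟩
          · simp
      rw [hset]
      refine ⟨⟨0, by simp⟩, ?_⟩
      have hpre : IsPreconnected (Metric.ball (0:ℂ) 1) :=
        (convex_ball (0:ℂ) 1).isPreconnected
      refine hpre.subset_closure Set.subset_union_left ?_
      rw [closure_ball (0:ℂ) one_ne_zero]
      intro z hz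
      rcases hz with hz | rfl
      · exact Metric.ball_subset_closedBall hz
      · simp
    · have hset : {z : ℂ | z ∈ Metric.closedBall (0:ℂ) 1 ∧ (if ‖z‖ = 1 then z else 1) = y}
          = {y} := by
        ext z
        simp only [Set.mem_setOf_eq, Metric.mem_closedBall, dist_zero_right,
          Set.mem_singleton_iff]
        constructor
        · rintro ⟨hz, h⟩
          by_cases hz1 : ‖z‖ = 1
          · simpa [hz1] using h
          · exact absurd (by simpa [hz1] using h.symm) h1
        · rintro rfl
          simp [hy1]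
      rw [hset]
      exact isConnected_singleton
  · refine (Set.finite_singleton (1:ℂ)).subset ?_
    rintro y ⟨hy, hnot⟩
    by_contra hy1
    apply hnot
    have hy1' : y ≠ 1 := by simpa using hy1
    have hyn : ‖y‖ = 1 := by simpa using hy
    intro s hs hlim x hx
    -- eventually `s n ≠ 1`
    have hev : ∀ᶠ n in Filter.atTop, s n ≠ 1 := hlim.eventually_ne hy1'
    obtain ⟨N₀, hN₀⟩ := Filter.eventually_atTop.1 hev
    have hxy : x = y := by
      by_contra hne
      have hd : 0 < dist x y := dist_pos.2 hne
      have hev2 : ∀ᶠ n in Filter.atTop, dist (s n) y < dist x y / 2 :=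
        (Metric.tendsto_nhds.1 hlim) _ (by linarith)
      obtain ⟨N₁, hN₁⟩ := Filter.eventually_atTop.1 hev2
      obtain ⟨n, hn, z, hz, hrz, hzx⟩ := hx (dist x y / 2) (by linarith) (max N₀ N₁)
      have h1 : s n ≠ 1 := hN₀ n (le_trans (le_max_left _ _) hn)
      have h2 : dist (s n) y < dist x y / 2 := hN₁ n (le_trans (le_max_right _ _) hn)
      have hzs : z = s n := by
        by_cases hz1 : ‖z‖ = 1
        · simpa [hz1] using hrz
        · exact absurd (by simpa [hz1] using hrz.symm) h1
      rw [hzs] at hzx
      have h3 : dist x y ≤ dist x (s n) + dist (s n) y := dist_triangle _ _ _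
      rw [dist_comm x (s n)] at h3
      linarith
    rw [hxy]
    simp [hyn]

end Pool.Agent.S13885
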