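import Pool.Statements.S14076
import Pool.Agent.Run7.h157.FS.Core

set_option autoImplicit false
open Pool Pool.MP_dc63d3_gt

namespace Pool.Agent.S14076

/-- The negation of the preceding statement: For every real Hilbert space there is a constant C such that, for each n ≥ 2, some retraction from nonempty subsets of at most n points onto those of at most n−1 points is C-Lipschitz for the Hausdorff distance. -/
theorem result :
    ¬ (∀ (H : Type) [NormedAddCommGroup H] [InnerProductSpace ℝ H] [CompleteSpace H],
      ∃ C : ℝ, ∀ n : ℕ, 2 ≤ n →
        ∃ r : Finset H → Finset H,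
          (∀ s : Finset H, s.Nonempty → s.card ≤ n →
              (r s).Nonempty ∧ (r s).card ≤ n - 1) ∧
          (∀ s : Finset H, s.Nonempty → s.card ≤ n - 1 → r s = s) ∧
          (∀ s t : Finset H, s.Nonempty → s.card ≤ n → t.Nonempty → t.card ≤ n →
              Metric.hausdorffDist ((r s : Finset H) : Set H) ((r t : Finset H) : Set H)
                ≤ C * Metric.hausdorffDist ((s : Finset H) : Set H) ((t : Finset H) : Set H))) := by
  intro h
  obtain ⟨C, hC⟩ := h ℝ
  obtain ⟨n, hn, hno⟩ := Run7.h157.FS.line C
  exact hno (hC n hn)

end Pool.Agent.S14076
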