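import Pool.Statements.S14345
import Pool.Agent.Run7.h461.EE.Main

set_option autoImplicit false
open Pool Pool.MP_094aee_lc

namespace Pool.Agent.S14345

open Pool.Agent.Run7.h461.EE in
/-- Every analytic quasi-order on a Polish space is Borel bireducible with first-order elementary embeddability on some isomorphism-invariant Borel set of countable structures on ℕ in a countable relational language (i.e. some Mod_φ, φ in L_ω1ω). -/
theorem result :
  ∀ (X : Type) [TopologicalSpace X] [PolishSpace X] [MeasurableSpace X] [BorelSpace X]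
    (R : X → X → Prop),
    (∀ x, R x x) → (∀ x y z, R x y → R y z → R x z) →
    MeasureTheory.AnalyticSet {p : X × X | R p.1 p.2} →
    ∃ (a : ℕ → ℕ) (B : Set (∀ i : ℕ, (Fin (a i) → ℕ) → Bool)),
      MeasurableSet B ∧
      (∀ (σ : Equiv.Perm ℕ) (u : ∀ i : ℕ, (Fin (a i) → ℕ) → Bool),
        u ∈ B ↔ (fun i v => u i (σ ∘ v)) ∈ B) ∧
      (∃ f : X → (∀ i : ℕ, (Fin (a i) → ℕ) → Bool), Measurable f ∧ (∀ x, f x ∈ B) ∧
        ∀ x y, R x y ↔
          Nonempty (@FirstOrder.Language.ElementaryEmbedding
            (FirstOrder.Language.mk (fun _ => PEmpty.{1}) (fun n => {i : ℕ // a i = n})) ℕ ℕ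
            (@FirstOrder.Language.Structure.mk
              (FirstOrder.Language.mk (fun _ => PEmpty.{1}) (fun n => {i : ℕ // a i = n})) ℕ
              (fun f _ => PEmpty.elim f)
              (fun r xs => f x (Subtype.val r) (xs ∘ Fin.cast (Subtype.property r)) = true))
            (@FirstOrder.Language.Structure.mk
              (FirstOrder.Language.mk (fun _ => PEmpty.{1}) (fun n => {i : ℕ // a i = n})) ℕ
              (fun f _ => PEmpty.elim f)
              (fun r xs => f y (Subtype.val r) (xs ∘ Fin.cast (Subtype.property r)) = true)))) ∧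
      (∃ g : B → X, Measurable g ∧
        ∀ u v : B,
          Nonempty (@FirstOrder.Language.ElementaryEmbedding
            (FirstOrder.Language.mk (fun _ => PEmpty.{1}) (fun n => {i : ℕ // a i = n})) ℕ ℕ
            (@FirstOrder.Language.Structure.mk
              (FirstOrder.Language.mk (fun _ => PEmpty.{1}) (fun n => {i : ℕ // a i = n})) ℕ
              (fun f _ => PEmpty.elim f)
              (fun r xs => u.1 (Subtype.val r) (xs ∘ Fin.cast (Subtype.property r)) = true))
            (@FirstOrder.Language.Structure.mk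
              (FirstOrder.Language.mk (fun _ => PEmpty.{1}) (fun n => {i : ℕ // a i = n})) ℕ
              (fun f _ => PEmpty.elim f)
              (fun r xs => v.1 (Subtype.val r) (xs ∘ Fin.cast (Subtype.property r)) = true)))
          ↔ R (g u) (g v)) := by
  intro X _ _ _ _ R hrefl htrans hR
  rcases isEmpty_or_nonempty X with hX | hX
  · refine ⟨fun _ => 2, ∅, MeasurableSet.empty, fun σ u => by simp, ?_, ?_⟩
    · exact ⟨fun x => isEmptyElim x, measurable_of_empty _, fun x => isEmptyElim x,
        fun x => isEmptyElim x⟩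
    · exact ⟨fun u => absurd u.2 (Set.notMem_empty _), measurable_of_empty _,
        fun u => absurd u.2 (Set.notMem_empty _)⟩
  obtain ⟨e, F, hem, hei, hF, h1, h2⟩ := exists_rep X R hrefl hR
  obtain ⟨D⟩ := exists_coding
  have hPhi : Measurable (Phi D F e) := measurable_Phi D F e hem
  have hZ : MeasurableSet {p : (ℕ → ℕ) × X | Function.Bijective p.1} := measurableSet_bij
  have hinjOn : Set.InjOn (Phi D F e) {p : (ℕ → ℕ) × X | Function.Bijective p.1} := by
    rintro ⟨σ, x⟩ hσ ⟨τ, y⟩ hτ h
    obtain ⟨e1, e2⟩ := Phi_inj D F e hei hσ hτ h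
    exact Prod.ext e1 e2
  let B : Set (∀ _ : ℕ, (Fin 2 → ℕ) → Bool) :=
    Phi D F e '' {p : (ℕ → ℕ) × X | Function.Bijective p.1}
  have hB : MeasurableSet B := hZ.image_of_measurable_injOn hPhi hinjOn
  refine ⟨fun _ => 2, B, hB, ?_, ?_, ?_⟩
  · intro σ u
    constructor
    · rintro ⟨⟨τ, x⟩, hτ, rfl⟩
      refine ⟨(τ ∘ σ, x), ?_, rfl⟩
      have hτ' : Function.Bijective τ := hτ
      exact hτ'.comp σ.bijective
    · rintro ⟨⟨τ, x⟩, hτ, h⟩
      refine ⟨(τ ∘ σ.symm, x), ?_, ?_⟩
      · have hτ' : Function.Bijective τ := hτ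
        exact hτ'.comp σ.symm.bijective
      · funext k v
        have := congrFun (congrFun h k) (σ.symm ∘ v)
        have e2 : (σ ∘ (σ.symm ∘ v)) = v := by
          funext j; simp
        have h3 : Phi D F e (τ, x) k (σ.symm ∘ v) = u k (σ ∘ (σ.symm ∘ v)) := this
        rw [e2] at h3
        rw [← h3]
        rfl
  · refine ⟨fun x => Phi D F e (id, x), ?_, ?_, ?_⟩
    · exact hPhi.comp (Measurable.prodMk measurable_const measurable_id)
    · intro x
      exact ⟨(id, x), Function.bijective_id, rfl⟩
    · intro x y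
      exact (ee_iff D F e R hrefl htrans hei hF h1 h2 Function.bijective_id
        Function.bijective_id x y).symm
  · have hch : ∀ u : B, ∃ p : (ℕ → ℕ) × X, Function.Bijective p.1 ∧ Phi D F e p = u.1 :=
      fun u => u.2
    choose G hG1 hG2 using hch
    refine ⟨fun u => (G u).2, ?_, ?_⟩
    · intro C hC
      have : (fun u : B => (G u).2) ⁻¹' C =
          Subtype.val ⁻¹' (Phi D F e ''
            ({p : (ℕ → ℕ) × X | Function.Bijective p.1} ∩ Prod.snd ⁻¹' C)) := by
        ext u
        constructor
        · intro h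
          exact ⟨G u, ⟨hG1 u, h⟩, hG2 u⟩
        · rintro ⟨p, ⟨hp1, hp2⟩, hp3⟩
          have : G u = p := hinjOn (hG1 u) hp1 ((hG2 u).trans hp3.symm)
          show (G u).2 ∈ C
          rw [this]
          exact hp2
      rw [this]
      refine measurable_subtype_coe ?_
      refine (hZ.inter (measurable_snd hC)).image_of_measurable_injOn hPhi ?_
      exact hinjOn.mono Set.inter_subset_left
    · intro u v
      have := ee_iff D F e R hrefl htrans hei hF h1 h2 (hG1 u) (hG1 v) (G u).2 (G v).2
      rw [← hG2 u, ← hG2 v]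
      exact this

end Pool.Agent.S14345
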