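import Pool.Statements.S14392
import Pool.Agent.Run7.h452.Mon1

set_option autoImplicit false
open Pool Pool.MP_10893b_lc

namespace Pool.Agent.S14392

/-- The negation of the preceding statement: For every finite alphabet, it is computably decidable whether a DNF of literals over word equations, NFA-given regular constraints and integer linear length constraints (> or =) is satisfied by some assignment of words to variables. -/
theorem result :
    ¬ (∀ k : ℕ, ComputablePred (fun φ : List (List (Bool × ((List (ℕ ⊕ Fin k) × List (ℕ ⊕ Fin k)) ⊕ ((ℕ × List (ℕ × Fin k × ℕ) × List ℕ × List ℕ) ⊕ (List (ℕ × (ℕ × ℕ) × (ℕ × ℕ)) × Bool))))) =>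
    ∃ σ : ℕ → List (Fin k), ∃ C ∈ φ, ∀ lit ∈ C,
      (Sum.elim
        (fun e : List (ℕ ⊕ Fin k) × List (ℕ ⊕ Fin k) =>
          e.1.flatMap (Sum.elim σ (fun a => [a])) = e.2.flatMap (Sum.elim σ (fun a => [a])))
        (Sum.elim
          (fun r : ℕ × List (ℕ × Fin k × ℕ) × List ℕ × List ℕ =>
            σ r.1 ∈ ({ step := fun q a => {q' : ℕ | (q, a, q') ∈ r.2.1},
                       start := {q : ℕ | q ∈ r.2.2.1},
                       accept := {q : ℕ | q ∈ r.2.2.2} } : NFA (Fin k) ℕ).accepts)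
          (fun l : List (ℕ × (ℕ × ℕ) × (ℕ × ℕ)) × Bool =>
            (l.2 = true ∧
              (l.1.map (fun t : ℕ × (ℕ × ℕ) × (ℕ × ℕ) => ((t.2.1.1 : ℤ) - (t.2.1.2 : ℤ)) * ((σ t.1).length : ℤ))).sum >
              (l.1.map (fun t : ℕ × (ℕ × ℕ) × (ℕ × ℕ) => ((t.2.2.1 : ℤ) - (t.2.2.2 : ℤ)) * ((σ t.1).length : ℤ))).sum) ∨
            (l.2 = false ∧
              (l.1.map (fun t : ℕ × (ℕ × ℕ) × (ℕ × ℕ) => ((t.2.1.1 : ℤ) - (t.2.1.2 : ℤ)) * ((σ t.1).length : ℤ))).sum =
              (l.1.map (fun t : ℕ × (ℕ × ℕ) × (ℕ × ℕ) => ((t.2.2.1 : ℤ) - (t.2.2.2 : ℤ)) * ((σ t.1).length : ℤ))).sum)))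
        lit.2 ↔ lit.1 = true))) := by
  intro h
  obtain ⟨p, hp, hn⟩ := Run7.h452.exists_re
  obtain ⟨N, C, hC⟩ := Run7.h452.dnf_re hp
  apply hn
  refine ComputablePred.computable_of_manyOneReducible ?_ (h 2)
  refine ⟨fun n => [((true, Sum.inr (Sum.inr ([(0, (1, 0), (0, 0)),
      (N, (0, 0), (n + 1, 0))], false))) : Run7.h452.Lit 2) :: C], ?_, hC⟩
  apply Primrec.to_comp
  refine Primrec.list_cons.comp (Primrec.list_cons.comp ?_ (Primrec.const C)) (Primrec.const [])
  refine Primrec.pair (Primrec.const true) (Primrec.sumInr.comp (Primrec.sumInr.comp ?_))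
  refine Primrec.pair ?_ (Primrec.const false)
  refine Primrec.list_cons.comp (Primrec.const _) (Primrec.list_cons.comp ?_ (Primrec.const []))
  refine Primrec.pair (Primrec.const N) (Primrec.pair (Primrec.const (0, 0)) ?_)
  exact Primrec.pair Primrec.succ (Primrec.const 0)

end Pool.Agent.S14392
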