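import Pool.Statements.S14568
import Pool.Agent.Run7.h48.GasarchMain

set_option autoImplicit false
open Classical
open Pool Pool.MP_354b3e_lc

namespace Pool.Agent.S14568

/-- The negation of the preceding statement: For every noncomputable A Turing-below the halting set there is a computable, locally finite, planar graph on ℕ whose neighbour lists are A-computable, with chromatic number 2, but with no computable proper colouring using finitely many colours. -/
theorem result :
    ¬ (∀ A : Set ℕ,
      ¬ ComputablePred (fun n : ℕ => n ∈ A) →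
      TuringReducible (fun n : ℕ => Part.some (if n ∈ A then (1 : ℕ) else 0))
        (fun n : ℕ => Part.some
          (if ((Denumerable.ofNat Nat.Partrec.Code n).eval n).Dom then (1 : ℕ) else 0)) →
      ∃ G : SimpleGraph ℕ,
        ComputablePred (fun p : ℕ × ℕ => G.Adj p.1 p.2) ∧
        (∃ N : ℕ → Finset ℕ, (∀ x y : ℕ, G.Adj x y ↔ y ∈ N x) ∧
          TuringReducible (fun x : ℕ => Part.some (Encodable.encode (N x)))
            (fun n : ℕ => Part.some (if n ∈ A then (1 : ℕ) else 0))) ∧
        (∃ f : ℕ → EuclideanSpace ℝ (Fin 2), Function.Injective f ∧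
          ∃ γ : ∀ u v : ℕ, Path (f u) (f v),
            (∀ u v : ℕ, G.Adj u v → Function.Injective (fun t : unitInterval => γ u v t)) ∧
            (∀ u v w : ℕ, G.Adj u v → ∀ t : unitInterval, γ u v t = f w → w = u ∨ w = v) ∧
            (∀ u v u' v' : ℕ, G.Adj u v → G.Adj u' v' →
              Sym2.mk (u, v) ≠ Sym2.mk (u', v') →
              ∀ t t' : unitInterval, γ u v t = γ u' v' t' →
                ∃ w : ℕ, (w = u ∨ w = v) ∧ (w = u' ∨ w = v') ∧ γ u v t = f w)) ∧
        G.chromaticNumber = 2 ∧
        ∀ k : ℕ, ∀ c : ℕ → ℕ, Computable c → (∀ x, c x < k) →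
          ∃ x y : ℕ, G.Adj x y ∧ c x = c y) := by
  intro h
  obtain ⟨A, hgen, hA1, hA2⟩ := Run7.h48.Gen.exists_generic
  have e1 : ∀ B : Set ℕ, (fun n : ℕ => Part.some (if n ∈ B then (1 : ℕ) else 0)) =
      Pool.Agent.Helper446.Defs.chi B := fun B => rfl
  have e2 : (fun n : ℕ => Part.some
      (if ((Denumerable.ofNat Nat.Partrec.Code n).eval n).Dom then (1 : ℕ) else 0)) =
      Pool.Agent.Helper446.Defs.chi Run7.h48.Gen.KK := rfl
  obtain ⟨G, hE, ⟨N, hN, hNA⟩, -, hchi, hno⟩ := h A
    (Run7.h48.Gen.not_computable_of_generic hgen) (by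
      rw [e1, e2]
      exact Pool.Agent.Helper446.Oracle.turingReducible_iff.2 ⟨hA1, hA2⟩)
  rw [e1] at hNA
  obtain ⟨b, hb, hbN⟩ := Run7.h48.GasarchMain.computable_bound hgen hE hN
    (Pool.Agent.Helper446.Oracle.turingReducible_fun_iff.1 hNA)
  have hcol : G.Colorable 2 := by
    rw [← SimpleGraph.chromaticNumber_le_iff_colorable, hchi]
    rfl
  obtain ⟨C⟩ := hcol
  obtain ⟨c, hc1, hc2, hc3⟩ := Run7.h48.Col.four_colour hE hb hbN
    ⟨fun x => decide (C x = 0), fun x y hxy heq => C.valid hxy (by
      have h1 : (C x = 0) ↔ (C y = 0) := by simpa using heq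
      revert h1
      generalize C x = p
      generalize C y = q
      revert p q
      decide)⟩
  obtain ⟨x, y, hxy, hxy'⟩ := hno 4 c hc1 hc2
  exact hc3 x y hxy hxy'

end Pool.Agent.S14568
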