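import Pool.Statements.S14627
import Pool.Agent.Run7.h932.U.Final

set_option autoImplicit false
open Pool Pool.MP_405d56_lc

namespace Pool.Agent.S14627

/-- Every d-regular Borel graph on a standard Borel space whose Borel asymptotic separation index is exactly 1 has a Borel proper edge colouring with at most d+1 colours. -/
theorem result :
    ∀ (X : Type) [MeasurableSpace X] [StandardBorelSpace X] (G : SimpleGraph X) (d : ℕ),
      MeasurableSet {p : X × X | G.Adj p.1 p.2} →
      (∀ x : X, (G.neighborSet x).encard = (d : ℕ∞)) →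
      (∀ r : ℕ, ∃ U : Fin 2 → Set X, (∀ i, MeasurableSet (U i)) ∧ (⋃ i, U i) = Set.univ ∧
        ∀ (i : Fin 2) (x : X),
          {y : X | (SimpleGraph.fromRel (fun a b : X =>
              a ∈ U i ∧ b ∈ U i ∧ ∃ p : G.Walk a b, p.length ≤ r)).Reachable x y}.Finite) →
      ¬ (∀ r : ℕ, ∃ U : Fin 1 → Set X, (∀ i, MeasurableSet (U i)) ∧ (⋃ i, U i) = Set.univ ∧
        ∀ (i : Fin 1) (x : X),
          {y : X | (SimpleGraph.fromRel (fun a b : X =>
              a ∈ U i ∧ b ∈ U i ∧ ∃ p : G.Walk a b, p.length ≤ r)).Reachable x y}.Finite) →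
      ∃ c : X × X → ℕ, Measurable c ∧
        (∀ x y : X, G.Adj x y → c (x, y) < d + 1 ∧ c (x, y) = c (y, x)) ∧
        ∀ x y z : X, G.Adj x y → G.Adj x z → y ≠ z → c (x, y) ≠ c (x, z) := by
  intro X _ _ G d hG hd h2 _
  exact Run7.h932.vizing_asi_one X G d hG (fun x => (hd x).le) h2

end Pool.Agent.S14627
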