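import Pool.Statements.S14767
import Pool.Agent.Results.MP_5f3cbe_lc.AdmissibleDefinable

set_option autoImplicit false
open Pool Pool.MP_5f3cbe_lc

/-!
Bridge (helper6) from the own statement
`Pool.Agent.Results.MP_5f3cbe_lc.AdmissibleDefinable.result` of the starting tree to the frozen
statement. The ring of the frozen statement is isomorphic to the ring `HD` used there (restriction
to the disc), and realisation of ring formulas is invariant under ring isomorphisms.
-/

namespace Pool.Agent.S14767

open Metric Complex Pool.Agent.V11234.HD Pool.Agent.Results.MP_5f3cbe_lc.AdmissibleDefinable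
open scoped Classical in
/-- Extension of a function on the disc by its value at the centre. -/
noncomputable def extc (f : HD) (z : ℂ) : ℂ :=
  ext0 f z + (if z ∈ ball (0:ℂ) 1 then 0 else ext0 f 0)

theorem extc_in (f : HD) {z : ℂ} (hz : z ∈ ball (0:ℂ) 1) : extc f z = ext0 f z := by
  rw [extc, if_pos hz, add_zero]

theorem extc_out (f : HD) {z : ℂ} (hz : z ∉ ball (0:ℂ) 1) : extc f z = ext0 f 0 := by
  rw [extc, if_neg hz, ext0, dif_neg hz, zero_add]

/-- The functions on the plane which are holomorphic on the disc and constant off it with the value at `0`. -/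
def gens : Set (ℂ → ℂ) := {g : ℂ → ℂ | DifferentiableOn ℂ g (Metric.ball (0:ℂ) 1) ∧
                ∀ z ∉ Metric.ball (0:ℂ) 1, g z = g 0}

/-- They form a subring. -/
def gring : Subring (ℂ → ℂ) where
  carrier := gens
  mul_mem' := by
    rintro a b ⟨hA, hAa⟩ ⟨hB, hBb⟩
    exact ⟨hA.mul hB, fun z hz => by rw [Pi.mul_apply, Pi.mul_apply, hAa z hz, hBb z hz]⟩
  one_mem' := ⟨differentiableOn_const _, fun z _ => rfl⟩
  add_mem' := by
    rintro a b ⟨hA, hAa⟩ ⟨hB, hBb⟩
    exact ⟨hA.add hB, fun z hz => by rw [Pi.add_apply, Pi.add_apply, hAa z hz, hBb z hz]⟩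
  zero_mem' := ⟨differentiableOn_const _, fun z _ => rfl⟩
  neg_mem' := by
    rintro a ⟨hA, hAa⟩
    exact ⟨hA.neg, fun z hz => by rw [Pi.neg_apply, Pi.neg_apply, hAa z hz]⟩

theorem mem_closure_iff (g : ℂ → ℂ) : g ∈ Subring.closure gens ↔ g ∈ gens := by
  constructor
  · intro h
    have h1 : Subring.closure gens ≤ gring := Subring.closure_le.2 (fun x hx => hx)
    exact h1 h
  · intro h
    exact Subring.subset_closure h

/-- The ring of the frozen statement is isomorphic to `HD`. -/
noncomputable def iso : ↥(Subring.closure gens) ≃+* HD where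
  toFun f := mk f.1 ((mem_closure_iff _).1 f.2).1
  invFun f := ⟨extc f, by
    rw [mem_closure_iff]
    obtain ⟨F, hF, rfl⟩ := rep f
    refine ⟨hF.congr ?_, ?_⟩
    · intro z hz
      rw [extc_in _ hz, ext0, dif_pos hz]
      rfl
    · intro z hz
      have h0 : (0:ℂ) ∈ ball (0:ℂ) 1 := by simp
      rw [extc_out _ hz, extc_in _ h0]⟩
  left_inv := by
    intro f
    apply Subtype.ext
    funext z
    have hf := (mem_closure_iff _).1 f.2
    have h0 : (0:ℂ) ∈ ball (0:ℂ) 1 := by simp
    by_cases hz : z ∈ ball (0:ℂ) 1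
    · show extc _ z = _
      rw [extc_in _ hz, ext0, dif_pos hz]
      rfl
    · show extc _ z = _
      rw [extc_out _ hz, ext0, dif_pos h0, hf.2 z hz]
      rfl
  right_inv := by
    intro f
    apply ext'
    intro z
    rw [mk_apply]
    show extc f z = _
    rw [extc_in _ z.2, ext0, dif_pos z.2]
  map_mul' := by
    intro f g
    apply ext'
    intro z
    rfl
  map_add' := by
    intro f g
    apply ext'
    intro z
    rfl

theorem iso_val (f : ↥(Subring.closure gens)) (z : ball (0:ℂ) 1) : (iso f).1 z = f.1 z := rfl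

/-- Realisation of ring formulas is invariant under `iso`. -/
theorem realize_iso (φ : FirstOrder.Language.ring.Formula (Fin 1))
    (f : ↥(Subring.closure gens)) :
    (@FirstOrder.Language.Formula.Realize FirstOrder.Language.ring ↥(Subring.closure gens)
      (FirstOrder.Ring.compatibleRingOfRing ↥(Subring.closure gens)).toStructure
      (Fin 1) φ (fun _ => f)) ↔ φ.Realize (fun _ => iso f) := by
  let _ : FirstOrder.Ring.CompatibleRing ↥(Subring.closure gens) :=
    FirstOrder.Ring.compatibleRingOfRing ↥(Subring.closure gens)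
  have h := FirstOrder.Language.StrongHomClass.realize_formula
    (FirstOrder.Ring.languageEquivEquivRingEquiv.symm iso) φ (v := fun _ => f)
  exact h.symm

/-- The two characteristics agree near the boundary. -/
theorem adm_iff (f : ↥(Subring.closure gens)) :
    Admissible (iso f) ↔ ¬ Asymptotics.IsBigO (nhdsWithin (1:ℝ) (Set.Iio 1))
            (fun r : ℝ => (2 * Real.pi)⁻¹ *
              ∫ θ in (0:ℝ)..(2 * Real.pi),
                Real.posLog ‖(f : ℂ → ℂ) ((r : ℂ) * Complex.exp ((θ : ℂ) * Complex.I))‖)
            (fun r : ℝ => Real.log (1 - r)⁻¹) := by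
  unfold Admissible
  rw [not_iff_not]
  have hev : (fun r : ℝ => T r (iso f)) =ᶠ[nhdsWithin (1:ℝ) (Set.Iio 1)]
      (fun r : ℝ => (2 * Real.pi)⁻¹ *
              ∫ θ in (0:ℝ)..(2 * Real.pi),
                Real.posLog ‖(f : ℂ → ℂ) ((r : ℂ) * Complex.exp ((θ : ℂ) * Complex.I))‖) := by
    filter_upwards [Ioo_mem_nhdsLT (by norm_num : (0 : ℝ) < 1)] with r hr
    unfold T
    congr 1
    apply intervalIntegral.integral_congr
    intro θ _
    have h2 : (r : ℂ) * exp (θ * I) ∈ ball (0 : ℂ) 1 := by
      rw [mem_ball_zero_iff, norm_mul, Complex.norm_exp_ofReal_mul_I, mul_one, Complex.norm_real,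
        Real.norm_of_nonneg hr.1.le]
      exact hr.2
    simp only
    rw [ext0, dif_pos h2, iso_val, Real.posLog, max_comm]
  refine Asymptotics.isBigO_congr hev (Filter.Eventually.of_forall fun r => ?_)
  show Real.log (1 / (1 - r)) = Real.log (1 - r)⁻¹
  rw [one_div]

/-- There is a parameter-free first-order ring formula that, in the ring of holomorphic functions on the unit disc, holds of f exactly when its Nevanlinna characteristic T(r,f) is not O(log 1/(1-r)) as r tends to 1 from below. -/
theorem result :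
    ∃ φ : FirstOrder.Language.ring.Formula (Fin 1),
      ∀ f : ↥(Subring.closure {g : ℂ → ℂ | DifferentiableOn ℂ g (Metric.ball (0:ℂ) 1) ∧
                ∀ z ∉ Metric.ball (0:ℂ) 1, g z = g 0}),
        (@FirstOrder.Language.Formula.Realize FirstOrder.Language.ring
            ↥(Subring.closure {g : ℂ → ℂ | DifferentiableOn ℂ g (Metric.ball (0:ℂ) 1) ∧
                ∀ z ∉ Metric.ball (0:ℂ) 1, g z = g 0})
            (FirstOrder.Ring.compatibleRingOfRing
              ↥(Subring.closure {g : ℂ → ℂ | DifferentiableOn ℂ g (Metric.ball (0:ℂ) 1) ∧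
                ∀ z ∉ Metric.ball (0:ℂ) 1, g z = g 0})).toStructure
            (Fin 1) φ (fun _ => f)) ↔
        ¬ Asymptotics.IsBigO (nhdsWithin (1:ℝ) (Set.Iio 1))
            (fun r : ℝ => (2 * Real.pi)⁻¹ *
              ∫ θ in (0:ℝ)..(2 * Real.pi),
                Real.posLog ‖(f : ℂ → ℂ) ((r : ℂ) * Complex.exp ((θ : ℂ) * Complex.I))‖)
            (fun r : ℝ => Real.log (1 - r)⁻¹) := by
  obtain ⟨φ, hφ⟩ := Pool.Agent.Results.MP_5f3cbe_lc.AdmissibleDefinable.result
  refine ⟨φ, fun f => ?_⟩
  exact ((realize_iso φ f).trans (hφ (iso f))).trans (adm_iff f)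

end Pool.Agent.S14767
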