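import Pool.Statements.S14780
-- import your own Pool.Agent.* helpers here
import Pool.Agent.TH54.BU.Iter
import Pool.Agent.TH54.BU.Inf
import Pool.Agent.Run7.h345.BZ.Main

set_option autoImplicit false
open Pool Pool.MP_604f1e_lc

namespace Pool.Agent.S14780

/-- The negation of the preceding statement: For every finite alphabet, all positive n and m, and every word w, the set of words congruent to w under the monoid congruence generated by x^n ~ x^(n+m) is accepted by some finite automaton. -/
theorem result :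
    ¬ (∀ (A : Type) [Fintype A] (n m : ℕ), 0 < n → 0 < m →
      ∀ w : FreeMonoid A,
        ∃ (σ : Type) (_ : Fintype σ) (M : DFA A σ),
          M.accepts =
            {v : List A |
              conGen (fun a b : FreeMonoid A => ∃ x : FreeMonoid A, a = x ^ n ∧ b = x ^ (n + m))
                (FreeMonoid.ofList v) w}) := by
  intro h
  obtain ⟨p0, hb⟩ := Pool.Agent.TH54.BU.burnside
  obtain ⟨p, hle, hp⟩ := Nat.exists_infinite_primes p0
  have hinf := (hb p hp hle).infinite hp
  obtain ⟨σ, _, M, hM⟩ := h (Fin 2) 1 p one_pos hp.pos (Pool.Agent.Run7.h345.BZ.ee p)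
  have hB : ∀ g : FreeGroup (Fin 2) ⧸ Pool.Agent.TH54.BU.powSub (FreeGroup (Fin 2)) p, g ^ p = 1 := by
    intro g
    obtain ⟨w, rfl⟩ := QuotientGroup.mk_surjective g
    rw [← QuotientGroup.mk_pow]
    exact (QuotientGroup.eq_one_iff _).2 (Subgroup.subset_normalClosure ⟨w, rfl⟩)
  have hr := Pool.Agent.Run7.h345.BZ.range_all hp.pos _ hB
  have hi : (Set.range (Pool.Agent.Run7.h345.BZ.psi
      ((FreeGroup.of 0 : FreeGroup (Fin 2)) :
        FreeGroup (Fin 2) ⧸ Pool.Agent.TH54.BU.powSub (FreeGroup (Fin 2)) p)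
      ((FreeGroup.of 1 : FreeGroup (Fin 2)) :
        FreeGroup (Fin 2) ⧸ Pool.Agent.TH54.BU.powSub (FreeGroup (Fin 2)) p))).Infinite := by
    rw [hr]
    exact Set.infinite_univ
  exact Pool.Agent.Run7.h345.BZ.not_regular hp.pos hB _ _ hi M hM

end Pool.Agent.S14780
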