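import Pool.Statements.S14895

set_option autoImplicit false
open Pool Pool.MP_735cdd_lc

namespace Pool.Agent.S14895

open FirstOrder

/-- The language with one function symbol in each arity. -/
abbrev Lg : FirstOrder.Language := FirstOrder.Language.mk (fun _ => Unit) (fun _ => Empty)

/-- The nested word `w v z k i = v i * (v (i+1) * (... z^2)^2 ...)^2`. -/
def w {G : Type} [Group G] (v : ℕ → G) (z : G) : ℕ → ℕ → G
  | 0, _ => z
  | k + 1, i => v i * (w v z k (i + 1) * w v z k (i + 1))

/-- The term defining the nested word. -/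
def wt : ℕ → ℕ → Lg.Term ((Unit ⊕ ℕ) ⊕ Fin 1)
  | 0, _ => FirstOrder.Language.Term.var (Sum.inr 0)
  | k + 1, i => FirstOrder.Language.Term.func (l := 3) (L := Lg) ()
      ![FirstOrder.Language.Term.var (Sum.inl (Sum.inr i)), wt k (i + 1), wt k (i + 1)]

lemma w_map {G : Type} [Group G] (φ : G →* G) (v : ℕ → G) (z : G) (k i : ℕ) :
    φ (w v z k i) = w (fun j => φ (v j)) (φ z) k i := by
  induction k generalizing i with
  | zero => rfl
  | succ k ih => simp only [w, map_mul, ih]

lemma wt_realize {G : Type} [Group G] [S : Lg.Structure G]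
    (hS : ∀ (n : ℕ) (f : Lg.Functions n) (xs : Fin n → G),
        FirstOrder.Language.Structure.funMap f xs = (List.ofFn xs).prod)
    (c : G) (v : ℕ → G) (xs : Fin 1 → G) (k i : ℕ) :
    (wt k i).realize (Sum.elim (Sum.elim (fun _ => c) v) xs) = w v (xs 0) k i := by
  induction k generalizing i with
  | zero => simp [wt, w]
  | succ k ih =>
    simp only [wt, w, FirstOrder.Language.Term.realize_func, hS]
    simp [List.ofFn_succ, ih]

theorem result :
  ∀ (G : Type) [Group G],
    (∀ g : G, ∀ n : ℕ, 0 < n → g ^ n = 1 → g = 1) →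
    (∃ X : Set G, X.Infinite ∧ Subgroup.closure X = ⊤ ∧
      ∀ f : X → G, ∃ φ : G →* G, ∀ x : X, φ x = f x) →
    ∀ [S : (FirstOrder.Language.mk (fun _ => Unit) (fun _ => Empty)).Structure G],
      (∀ (n : ℕ) (f : (FirstOrder.Language.mk (fun _ => Unit) (fun _ => Empty)).Functions n)
          (xs : Fin n → G),
        FirstOrder.Language.Structure.funMap f xs = (List.ofFn xs).prod) →
      ¬ ∀ a b : ℕ → G,
        (∀ φ : (FirstOrder.Language.mk (fun _ => Unit) (fun _ => Empty)).Formula ℕ,
          φ.Realize a ↔ φ.Realize b) →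
        ∀ c : G, ∃ d : G,
          ∀ ψ : (FirstOrder.Language.mk (fun _ => Unit) (fun _ => Empty)).Formula (Unit ⊕ ℕ),
            ψ.Realize (Sum.elim (fun _ => c) a) ↔ ψ.Realize (Sum.elim (fun _ => d) b) := by
  intro G _ htf hX S hS hhom
  obtain ⟨X, hXinf, hXcl, hXfree⟩ := hX
  classical
  -- an injective sequence of basis elements
  set e := hXinf.natEmbedding with he
  let x : ℕ → G := fun i => (e i : G)
  have hxX : ∀ i, x i ∈ X := fun i => (e i).2
  have hxinj : Function.Injective x := fun i j h => e.injective (Subtype.ext h)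
  -- uniqueness of endomorphisms
  have hext : ∀ φ ψ : G →* G, (∀ g ∈ X, φ g = ψ g) → φ = ψ := by
    intro φ ψ h
    exact MonoidHom.eq_of_eqOn_dense hXcl h
  -- existence with a plain function
  have hex : ∀ f : G → G, ∃ φ : G →* G, ∀ g ∈ X, φ g = f g := by
    intro f
    obtain ⟨φ, hφ⟩ := hXfree (fun g => f g)
    exact ⟨φ, fun g hg => hφ ⟨g, hg⟩⟩
  let y : ℕ → G := fun i => x i * ((x (i + 1))⁻¹ * (x (i + 1))⁻¹)
  -- automorphisms
  have haut : ∀ k : ℕ, ∃ α : G ≃* G, ∀ i < k, α (x i) = y i := by
    intro k
    -- index function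
    have hidx : ∀ i, (∃ j, x j = x i) := fun i => ⟨i, rfl⟩
    obtain ⟨α, hα⟩ := hex (fun g => if h : ∃ i, i < k ∧ x i = g then y h.choose else g)
    have hα1 : ∀ i, i < k → α (x i) = y i := by
      intro i hi
      rw [hα _ (hxX i)]
      have h : ∃ j, j < k ∧ x j = x i := ⟨i, hi, rfl⟩
      rw [dif_pos h]
      have := hxinj h.choose_spec.2
      rw [this]
    have hα2 : ∀ i, k ≤ i → α (x i) = x i := by
      intro i hi
      rw [hα _ (hxX i), dif_neg]
      rintro ⟨j, hj, hji⟩
      have := hxinj hji
      omega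
    have hα3 : ∀ g ∈ X, (¬ ∃ i, i < k ∧ x i = g) → α g = g := by
      intro g hg h
      rw [hα g hg, dif_neg h]
    -- t
    let t : ℕ → G := fun j => Nat.rec (x k) (fun j r => x (k - (j + 1)) * (r * r)) j
    have ht0 : t 0 = x k := rfl
    have hts : ∀ j, t (j + 1) = x (k - (j + 1)) * (t j * t j) := fun j => rfl
    obtain ⟨β, hβ⟩ := hex (fun g => if h : ∃ i, i < k ∧ x i = g then t (k - h.choose) else g)
    have hβ1 : ∀ i, i ≤ k → β (x i) = t (k - i) := by
      intro i hi
      rcases Nat.lt_or_ge i k with hik | hik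
      · rw [hβ _ (hxX i)]
        have h : ∃ j, j < k ∧ x j = x i := ⟨i, hik, rfl⟩
        rw [dif_pos h]
        have := hxinj h.choose_spec.2
        rw [this]
      · have hik' : i = k := le_antisymm hi hik
        subst hik'
        rw [hβ _ (hxX i), dif_neg]
        · simp [ht0]
        · rintro ⟨j, hj, hji⟩
          have := hxinj hji
          omega
    have hβ3 : ∀ g ∈ X, (¬ ∃ i, i < k ∧ x i = g) → β g = g := by
      intro g hg h
      rw [hβ g hg, dif_neg h]
    have hαt : ∀ j, j ≤ k → α (t j) = x (k - j) := by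
      intro j
      induction j with
      | zero => intro _; rw [ht0, hα2 k le_rfl]; simp
      | succ j ih =>
        intro hj
        rw [hts, map_mul, map_mul, ih (by omega), hα1 (k - (j + 1)) (by omega)]
        have : k - (j + 1) + 1 = k - j := by omega
        simp only [y, this]
        group
    have h1 : α.comp β = MonoidHom.id G := by
      apply hext
      intro g hg
      by_cases h : ∃ i, i < k ∧ x i = g
      · obtain ⟨i, hi, rfl⟩ := h
        simp only [MonoidHom.comp_apply, MonoidHom.id_apply]
        rw [hβ1 i hi.le, hαt (k - i) (by omega)]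
        congr 1
        omega
      · simp only [MonoidHom.comp_apply, MonoidHom.id_apply]
        rw [hβ3 g hg h, hα3 g hg h]
    have h2 : β.comp α = MonoidHom.id G := by
      apply hext
      intro g hg
      by_cases h : ∃ i, i < k ∧ x i = g
      · obtain ⟨i, hi, rfl⟩ := h
        simp only [MonoidHom.comp_apply, MonoidHom.id_apply]
        rw [hα1 i hi]
        simp only [y, map_mul, map_inv]
        rw [hβ1 i hi.le, hβ1 (i + 1) (by omega)]
        have h3 : k - i = (k - (i + 1)) + 1 := by omega
        rw [h3, hts]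
        have h4 : k - (k - (i + 1) + 1) = i := by omega
        rw [h4]
        group
      · simp only [MonoidHom.comp_apply, MonoidHom.id_apply]
        rw [hα3 g hg h, hβ3 g hg h]
    exact ⟨MonoidHom.toMulEquiv α β h2 h1, fun i hi => hα1 i hi⟩
  -- elementary equivalence of tuples
  have hel : ∀ φ : (FirstOrder.Language.mk (fun _ => Unit) (fun _ => Empty)).Formula ℕ,
      φ.Realize y ↔ φ.Realize x := by
    intro φ
    obtain ⟨k, hk⟩ : ∃ k : ℕ, ∀ i ∈ φ.freeVarFinset, i < k := by
      refine ⟨φ.freeVarFinset.sup id + 1, fun i hi => ?_⟩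
      have := Finset.le_sup (f := id) hi
      simp only [id] at this
      omega
    obtain ⟨α, hα⟩ := haut k
    let A : G ≃[FirstOrder.Language.mk (fun _ => Unit) (fun _ => Empty)] G :=
      { toEquiv := α.toEquiv
        map_fun' := by
          intro n f xs
          rw [hS, hS]
          show α _ = _
          rw [map_list_prod, List.map_ofFn]
          rfl
        map_rel' := by
          intro n r
          exact r.elim }
    have h1 : φ.Realize (A ∘ x) ↔ φ.Realize x := FirstOrder.Language.StrongHomClass.realize_formula A φ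
    rw [← h1]
    unfold FirstOrder.Language.Formula.Realize
    have key1 := FirstOrder.Language.BoundedFormula.realize_restrictFreeVar
      (φ := φ) (f := fun i : φ.freeVarFinset => (i : ℕ)) (v := (A ∘ x : ℕ → G))
      (xs := (default : Fin 0 → G)) (v' := y) (by
        intro i
        show α (x i) = y i
        exact hα i (hk i i.2))
    have key2 := FirstOrder.Language.BoundedFormula.realize_restrictFreeVar
      (φ := φ) (f := fun i : φ.freeVarFinset => (i : ℕ)) (v := (A ∘ x : ℕ → G))
      (xs := (default : Fin 0 → G)) (v' := (A ∘ x : ℕ → G)) (by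
        intro i
        rfl)
    exact key1.symm.trans key2
  obtain ⟨d, hd⟩ := hhom y x hel (x 0)
  -- finite support of d
  have hsupp : ∀ g : G, ∃ T : Finset G, (∀ t ∈ T, t ∈ X) ∧
      ∀ φ : G →* G, (∀ t ∈ T, φ t = 1) → φ g = 1 := by
    intro g
    have hg : g ∈ Subgroup.closure X := by rw [hXcl]; trivial
    induction hg using Subgroup.closure_induction with
    | mem g hg => exact ⟨{g}, by simpa using hg, fun φ h => h g (by simp)⟩
    | one => exact ⟨∅, by simp, fun φ _ => map_one φ⟩
    | mul a b _ _ ha hb =>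
      obtain ⟨T1, h1, h1'⟩ := ha
      obtain ⟨T2, h2, h2'⟩ := hb
      refine ⟨T1 ∪ T2, ?_, ?_⟩
      · intro t ht
        rcases Finset.mem_union.1 ht with h | h
        · exact h1 t h
        · exact h2 t h
      · intro φ h
        rw [map_mul, h1' φ (fun t ht => h t (Finset.mem_union_left _ ht)),
          h2' φ (fun t ht => h t (Finset.mem_union_right _ ht)), one_mul]
    | inv a _ ha =>
      obtain ⟨T1, h1, h1'⟩ := ha
      exact ⟨T1, h1, fun φ h => by rw [map_inv, h1' φ h, inv_one]⟩
  obtain ⟨T, hTX, hT⟩ := hsupp d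
  obtain ⟨m, hm⟩ : ∃ m : ℕ, ∀ j, m < j → x j ∉ T := by
    have hfin : {j : ℕ | x j ∈ T}.Finite := by
      apply Set.Finite.preimage hxinj.injOn (T.finite_toSet)
    obtain ⟨m, hm⟩ := hfin.bddAbove
    exact ⟨m, fun j hj hjT => absurd (hm hjT) (by omega)⟩
  -- the formula
  have hform := (hd ((FirstOrder.Language.Term.var (Sum.inl (Sum.inl ())) =' wt (m + 3) 0).ex)).1 (by
    rw [FirstOrder.Language.Formula.Realize, FirstOrder.Language.BoundedFormula.realize_ex]
    refine ⟨x (m + 3), ?_⟩
    rw [FirstOrder.Language.BoundedFormula.realize_bdEqual, wt_realize hS]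
    have hy : ∀ k i, w y (x (i + k)) k i = x i := by
      intro k
      induction k with
      | zero => intro i; simp [w]
      | succ k ih =>
        intro i
        have h1 : i + (k + 1) = (i + 1) + k := by omega
        simp only [w]
        rw [h1, ih (i + 1)]
        simp only [y]
        group
    have := hy (m + 3) 0
    rw [zero_add] at this
    simp [Fin.snoc, this])
  rw [FirstOrder.Language.Formula.Realize, FirstOrder.Language.BoundedFormula.realize_ex] at hform
  obtain ⟨z, hz⟩ := hform
  rw [FirstOrder.Language.BoundedFormula.realize_bdEqual, wt_realize hS] at hz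
  have hz' : d = w x z (m + 3) 0 := by
    simpa [Fin.snoc] using hz
  -- the endomorphism
  obtain ⟨π, hπ⟩ := hex (fun g => if g = x (m + 1) then x (m + 1) else 1)
  have hπ1 : π (x (m + 1)) = x (m + 1) := by rw [hπ _ (hxX _)]; simp
  have hπ2 : ∀ g ∈ X, g ≠ x (m + 1) → π g = 1 := by
    intro g hg hne; rw [hπ g hg]; simp [hne]
  have hπd : π d = 1 := by
    apply hT
    intro t ht
    apply hπ2 t (hTX t ht)
    rintro rfl
    exact hm (m + 1) (by omega) ht
  have hπx : ∀ i, i ≠ m + 1 → π (x i) = 1 := by
    intro i hi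
    apply hπ2 _ (hxX i)
    intro h
    exact hi (hxinj h)
  rw [hz', w_map] at hπd
  -- descend
  have hdesc : ∀ j, j ≤ m + 1 → w (fun j => π (x j)) (π z) (m + 3 - j) j = 1 := by
    intro j
    induction j with
    | zero => intro _; simpa using hπd
    | succ j ih =>
      intro hj
      have h1 := ih (by omega)
      have h2 : m + 3 - j = (m + 3 - (j + 1)) + 1 := by omega
      rw [h2] at h1
      simp only [w] at h1
      rw [hπx j (by omega), one_mul] at h1
      apply htf _ 2 (by norm_num)
      rw [pow_two]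
      exact h1
  have h1 := hdesc (m + 1) le_rfl
  have h2 : m + 3 - (m + 1) = 1 + 1 := by omega
  rw [h2] at h1
  simp only [w] at h1
  rw [hπ1, hπx (m + 1 + 1) (by omega), one_mul] at h1
  -- π z is a power of x (m+1)
  have hrange : ∀ g : G, π g ∈ Subgroup.zpowers (x (m + 1)) := by
    intro g
    have hg : g ∈ Subgroup.closure X := by rw [hXcl]; trivial
    induction hg using Subgroup.closure_induction with
    | mem g hg =>
      by_cases h : g = x (m + 1)
      · rw [h, hπ1]; exact Subgroup.mem_zpowers _
      · rw [hπ2 g hg h]; exact Subgroup.one_mem _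
    | one => rw [map_one]; exact Subgroup.one_mem _
    | mul a b _ _ ha hb => rw [map_mul]; exact Subgroup.mul_mem _ ha hb
    | inv a _ ha => rw [map_inv]; exact Subgroup.inv_mem _ ha
  obtain ⟨n, hn⟩ := Subgroup.mem_zpowers_iff.1 (hrange z)
  have hx1 : x (m + 1) = 1 := by
    have h3 : x (m + 1) ^ (1 + 4 * n) = 1 := by
      rw [zpow_add, zpow_one, mul_comm (4 : ℤ) n, zpow_mul, hn]
      rw [← h1]
      have h5 : (π z) ^ (4 : ℤ) = π z * π z * (π z * π z) := by
        have : (4 : ℤ) = ((4 : ℕ) : ℤ) := rfl
        rw [this, zpow_natCast, pow_succ, pow_succ, pow_succ, pow_one]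
        group
      rw [h5]
    have h4 : (1 + 4 * n).natAbs ≠ 0 := by omega
    apply htf _ (1 + 4 * n).natAbs (Nat.pos_of_ne_zero h4)
    rcases Int.natAbs_eq (1 + 4 * n) with h5 | h5
    · rw [← zpow_natCast, ← h5]; exact h3
    · rw [← zpow_natCast]
      rw [h5, zpow_neg, inv_eq_one] at h3
      exact h3
  obtain ⟨φ, hφ⟩ := hex (fun _ => x (m + 2))
  have h6 := hφ _ (hxX (m + 1))
  rw [hx1, map_one] at h6
  have h7 : x (m + 1) = x (m + 2) := by rw [hx1]; exact h6
  have := hxinj h7
  omega

end Pool.Agent.S14895
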