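import Pool.Statements.S14914
import Pool.Agent.Run7.h520.LW.CONF4
import Pool.Agent.Run7.h520.LW.FIN
import Pool.Agent.Run7.h102.LW.DEC
import Pool.Agent.Run7.h102.LW.REL
import Pool.Agent.Run7.h209.LW.KZ
import Pool.Agent.Run7.h209.LW.T2
import Pool.Agent.Run7.h215.LW.ATC
import Pool.Agent.Run7.h228.LW.AT
import Pool.Agent.Run7.h228.LW.EX2
import Pool.Agent.Run7.h416.LW.BETA
import Pool.Agent.Run7.h416.LW.C1R
import Pool.Agent.Run7.h540.LW.GAMMA
import Pool.Agent.Run7.h576.LW.CLO
import Pool.Agent.Run7.h67.LW.CROSS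
import Pool.Agent.Run7.h67.LW.GLUE
import Pool.Agent.Run7.h67.LW.RICH
import Pool.Agent.Run7.h67.LW.SIM
import Pool.Agent.Run7.h704.LW.MOD
import Pool.Agent.Run7.h81.LW.ALPHA
import Pool.Agent.Run7.h882.LW.EMB
import Pool.Agent.Run7.h921.LW.SMK

set_option autoImplicit false
open FirstOrder FirstOrder.Language
open Pool Pool.MP_75b3be_lc

namespace Pool.Agent.S14914

open Run7.h520.LW in
/-- the assembly of the pieces -/
theorem notAllLow : ¬ Run7.h520.LW.AllLow := by
  have emb : S_EMB := Run7.h882.LW.EMB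
  have calc_ : S_CALC := Run7.h921.LW.CALC
  have smk : S_SMK := Run7.h921.LW.SMK calc_
  have hull : S_HULL := Run7.h416.LW.HULL calc_
  have clo : S_CLO := Run7.h576.LW.CLO calc_ smk hull
  have c1r : S_C1R := Run7.h416.LW.C1R calc_ hull
  have t2 : S_T2 := Run7.h209.LW.T2 calc_ smk clo c1r
  have glue : S_GLUE := Run7.h67.LW.GLUE emb
  have rich : S_RICH := Run7.h67.LW.RICH emb t2 glue clo
  have sim := Run7.h67.LW.SIM emb clo
  have ex : S_EX := Run7.h228.LW.EX emb calc_ hull clo
  have rel : S_REL := Run7.h102.LW.REL smk hull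
  have dec : S_DEC := Run7.h102.LW.DEC calc_ smk hull clo
  have cm : S_CM := Run7.h81.LW.CM
  have alpha : S_ALPHA := Run7.h81.LW.ALPHA emb rel cm
  have beta : S_BETA := Run7.h416.LW.BETA emb smk hull rel
  have gamma : S_GAMMA := Run7.h540.LW.GAMMA emb smk hull rel cm clo
  have cross : S_CROSS := Run7.h67.LW.CROSS emb t2 cm
  have kz : S_KZ := Run7.h209.LW.KZ emb calc_ t2 alpha beta cross
  have at_ : S_AT := Run7.h228.LW.AT
  have atc : S_ATC := Run7.h215.LW.ATC emb clo cross kz gamma at_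
  have amal : S_AMAL := Run7.h228.LW.AMAL emb clo glue kz at_ atc
  exact FIN Run7.h520.LW.t_MOD rich sim (CONF clo sim dec amal) ex

/-- The negation of the preceding statement: For every complete ω-categorical theory in a countable language with no formula having the tree property (simple), each formula φ(x;y) has a k such that any indiscernible sequence making φ inconsistent makes it k-inconsistent (low). -/
theorem result :
    ¬ (∀ (L : FirstOrder.Language.{0,0}) (T : L.Theory),
    L.card ≤ Cardinal.aleph0 → T.IsComplete →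
    Cardinal.Categorical (Cardinal.aleph0 : Cardinal.{0}) T →
    (∀ (M : Type) [L.Structure M] [M ⊨ T] [Nonempty M] (n m k : ℕ)
        (φ : L.Formula (Fin n ⊕ Fin m)) (p : List ℕ → Fin m → M),
      (∀ (η : ℕ → ℕ) (J : ℕ), ∃ a : Fin n → M, ∀ j < J,
          φ.Realize (Sum.elim a (p (List.ofFn (fun i : Fin j => η i))))) →
      ∃ s : List ℕ, ∃ S : Finset ℕ, S.card = k ∧
        ∃ a : Fin n → M, ∀ i ∈ S, φ.Realize (Sum.elim a (p (s ++ [i])))) →
    ∀ (n m : ℕ) (φ : L.Formula (Fin n ⊕ Fin m)), ∃ k : ℕ,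
      ∀ (M : Type) [L.Structure M] [M ⊨ T] [Nonempty M] (b : ℕ → Fin m → M),
        (∀ (N : ℕ) (ψ : L.Formula (Fin N × Fin m)) (f g : Fin N → ℕ),
            StrictMono f → StrictMono g →
            (ψ.Realize (fun q => b (f q.1) q.2) ↔ ψ.Realize (fun q => b (g q.1) q.2))) →
        (∃ S : Finset ℕ, ¬ ∃ a : Fin n → M, ∀ i ∈ S, φ.Realize (Sum.elim a (b i))) →
        ∀ S : Finset ℕ, S.card = k →
          ¬ ∃ a : Fin n → M, ∀ i ∈ S, φ.Realize (Sum.elim a (b i))) :=
  notAllLow

end Pool.Agent.S14914
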