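import Pool.Statements.S15144
import Pool.Agent.Run7.h538.IntalFinal

set_option autoImplicit false
open Pool Pool.MP_a2ec29_lc

namespace Pool.Agent.S15144

/-- The negation of the preceding statement: Take any computable infinite linear order L and computable Boolean algebra B isomorphic to the algebra of finite unions of half-open intervals of L. Then some computable copy of L makes B computably isomorphic to that copy's interval algebra. -/
theorem result :
    ¬ (∀ (β : Type) [LinearOrder β] (l : ℕ ≃ β),
      ComputablePred (fun p : ℕ × ℕ => l p.1 ≤ l p.2) →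
      ∀ (α : Type) [BooleanAlgebra α] (e : ℕ ≃ α),
        Computable₂ (fun m n : ℕ => e.symm (e m ⊔ e n)) →
        Computable₂ (fun m n : ℕ => e.symm (e m ⊓ e n)) →
        Computable (fun n : ℕ => e.symm (e n)ᶜ) →
        (∃ φ : α → Set β, Function.Injective φ ∧
            (∀ a b, φ (a ⊔ b) = φ a ∪ φ b) ∧
            (∀ a, φ aᶜ = (φ a)ᶜ) ∧
            Set.range φ = {X : Set β | ∃ S : Finset β, ∃ b : Bool,
              X = {x : β | Xor' (b = true) (Odd (S.filter (fun s => s ≤ x)).card)}}) →
        ∃ l' : ℕ ≃ β, ComputablePred (fun p : ℕ × ℕ => l' p.1 ≤ l' p.2) ∧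
          ∃ ψ : α → Set β, Function.Injective ψ ∧
            (∀ a b, ψ (a ⊔ b) = ψ a ∪ ψ b) ∧
            (∀ a, ψ aᶜ = (ψ a)ᶜ) ∧
            Set.range ψ = {X : Set β | ∃ S : Finset β, ∃ b : Bool,
              X = {x : β | Xor' (b = true) (Odd (S.filter (fun s => s ≤ x)).card)}} ∧
            ∃ c : ℕ → List ℕ × Bool, Computable c ∧
              ∀ n : ℕ, ψ (e n) = {x : β | Xor' ((c n).2 = true)
                (Odd ((c n).1.filter (fun s => decide (l' s ≤ x))).length)}) := by
  intro H
  obtain ⟨l', -, ψ, hinj, hsup, -, hrange, c, hc, hcψ⟩ := H ℕ (Equiv.refl ℕ)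
    (Primrec.nat_le.computablePred) Run7.h538.Intal.FC Run7.h538.Intal.e
    Run7.h538.Intal.computable_sup Run7.h538.Intal.computable_inf
    Run7.h538.Intal.computable_compl
    ⟨fun A => (A : Set ℕ), Subtype.coe_injective, fun a b => rfl, fun a => rfl, by
      ext W
      rw [Set.mem_range]
      constructor
      · rintro ⟨A, rfl⟩
        exact (Run7.h538.Intal.mem_FC_iff_intal _).1 A.2
      · intro h
        exact ⟨⟨W, (Run7.h538.Intal.mem_FC_iff_intal _).2 h⟩, rfl⟩⟩
  have hrange' : ∀ W : Set ℕ, W ∈ Set.range ψ ↔ W ∈ Run7.h538.Intal.FC := by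
    intro W
    rw [hrange]
    exact (Run7.h538.Intal.mem_FC_iff_intal W).symm
  -- finiteness is decided by the code
  have hdec : ∀ n : ℕ, (ψ (Run7.h538.Intal.e n)).Finite ↔
      ¬ Xor' ((c n).2 = true) (Odd (c n).1.length) := by
    intro n
    rw [hcψ n]
    obtain ⟨M, hM⟩ : ∃ M : ℕ, ∀ s ∈ (c n).1, l' s ≤ M := by
      generalize (c n).1 = L
      induction L with
      | nil => exact ⟨0, by simp⟩
      | cons a L ih =>
        obtain ⟨M, hM⟩ := ih
        refine ⟨max M (l' a), ?_⟩
        intro s hs
        rcases List.mem_cons.1 hs with rfl | h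
        · exact le_max_right _ _
        · exact (hM s h).trans (le_max_left _ _)
    have hfil : ∀ x : ℕ, M ≤ x → (c n).1.filter (fun s => decide (l' s ≤ x)) = (c n).1 := by
      intro x hx
      rw [List.filter_eq_self]
      intro s hs
      simpa using (hM s hs).trans hx
    constructor
    · intro hfin hx
      apply Set.Ici_infinite M
      refine hfin.subset fun x hxM => ?_
      show Xor' _ _
      rw [hfil x hxM]
      exact hx
    · intro hx
      refine (Set.finite_Iio M).subset fun x hxm => ?_
      by_contra hlt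
      simp only [Set.mem_Iio, not_lt] at hlt
      apply hx
      have : Xor' ((c n).2 = true) (Odd ((c n).1.filter (fun s => decide (l' s ≤ x))).length) := hxm
      rw [hfil x hlt] at this
      exact this
  apply Run7.h538.Intal.not_computable_true
  have hb : Computable (fun t : ℕ => (xor (c (2 ^ t)).2 (decide ((c (2 ^ t)).1.length % 2 = 1)))) := by
    have h1 : Computable (fun t : ℕ => c (2 ^ t)) :=
      hc.comp (Run7.h538.Intal.primrec_pow.comp (Primrec.const 2) Primrec.id).to_comp
    have h2 : Primrec (fun p : List ℕ × Bool => xor p.2 (decide (p.1.length % 2 = 1))) := by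
      refine (Primrec.dom_bool₂ xor).comp Primrec.snd ?_
      exact (Primrec.eq.comp (Primrec.nat_mod.comp (Primrec.list_length.comp Primrec.fst)
        (Primrec.const 2)) (Primrec.const 1)).decide
    exact h2.to_comp.comp h1
  refine ComputablePred.computable_iff.2 ⟨_, hb, ?_⟩
  funext t
  rw [eq_iff_iff, Run7.h538.Intal.true_iff t]
  have h1 := Run7.h538.Intal.fin_invariant ψ hinj hsup hrange' (Run7.h538.Intal.e (2 ^ t))
  rw [Run7.h538.Intal.coe_e] at h1
  rw [h1, hdec, not_not]
  unfold Xor' Xor
  rw [Nat.odd_iff]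
  cases (c (2 ^ t)).2 <;> simp

end Pool.Agent.S15144
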