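import Pool.Statements.S15181
import Pool.Agent.Run7.h394.Muchnik

set_option autoImplicit false
open Pool Pool.MP_a7cfe9_lc

namespace Pool.Agent.S15181

/-- There is a closed set P of functions ℕ→ℕ such that for every closed set Q of binary sequences, it is not the case that every element of P computes an element of Q and every element of Q computes an element of P. -/
theorem result :
    ∃ P : Set (ℕ → ℕ), IsClosed P ∧
      ∀ Q : Set (ℕ → Bool), IsClosed Q →
        ¬ ((∀ x ∈ P, ∃ y ∈ Q,
              TuringReducible (PFun.lift (fun n => (y n).toNat)) (PFun.lift x)) ∧
           (∀ y ∈ Q, ∃ x ∈ P,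
              TuringReducible (PFun.lift x) (PFun.lift (fun n => (y n).toNat)))) := by
  exact Run7.h394.Muchnik.main

end Pool.Agent.S15181
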