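import Pool.Statements.S15186
import Pool.Agent.Results.MP_a8f5d0_lc.ManyItems

set_option autoImplicit false
open Pool Pool.MP_a8f5d0_lc
open Pool.Agent.Helper555

namespace Pool.Agent.S15186

theorem outer_ne_top {Ω : Type} (μ : PMF Ω) (E : Set Ω) : μ.toOuterMeasure E ≠ ⊤ := by
  have h1 : μ.toOuterMeasure Set.univ = 1 :=
    (PMF.toOuterMeasure_apply_eq_one_iff μ Set.univ).2 (Set.subset_univ _)
  refine ne_top_of_le_ne_top ENNReal.one_ne_top (le_trans (μ.toOuterMeasure.mono (Set.subset_univ E)) h1.le)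

/-- The negation of the preceding statement: For each ε,α,β in (0,1) there is a supply s such that for all n, m and supplies ≥ s, some ε-jointly private mechanism on [0,1]-valued gross-substitute profiles always outputs feasible allocations with welfare ≥ OPT − αn with probability ≥ 1−β. -/
theorem result :
    ¬ (∀ ε α β : ℝ, 0 < ε → ε < 1 → 0 < α → α < 1 → 0 < β → β < 1 →
  ∃ s : ℕ, ∀ n m : ℕ, ∀ supply : Fin m → ℕ, (∀ j, s ≤ supply j) →
  ∃ M : (Fin n → Finset (Fin m) → ℝ) → PMF (Fin n → Finset (Fin m)),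
    (∀ v : Fin n → Finset (Fin m) → ℝ,
      (∀ i, (∀ S, 0 ≤ v i S ∧ v i S ≤ 1) ∧
        ∀ p q : Fin m → ℝ, p ≤ q → ∀ S : Finset (Fin m),
          (∀ T : Finset (Fin m), v i T - ∑ j ∈ T, p j ≤ v i S - ∑ j ∈ S, p j) →
          ∃ T : Finset (Fin m),
            (∀ U : Finset (Fin m), v i U - ∑ j ∈ U, q j ≤ v i T - ∑ j ∈ T, q j) ∧
            ∀ j ∈ S, q j = p j → j ∈ T) →
      (∀ ω ∈ (M v).support, ∀ j : Fin m,
          (Finset.univ.filter (fun k : Fin n => j ∈ ω k)).card ≤ supply j) ∧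
      (M v).toOuterMeasure {ω | ∀ ω' : Fin n → Finset (Fin m),
          (∀ j : Fin m, (Finset.univ.filter (fun k : Fin n => j ∈ ω' k)).card ≤ supply j) →
          ∑ k, v k (ω' k) - α * (n : ℝ) ≤ ∑ k, v k (ω k)} ≥ ENNReal.ofReal (1 - β)) ∧
    (∀ v : Fin n → Finset (Fin m) → ℝ,
      (∀ i, (∀ S, 0 ≤ v i S ∧ v i S ≤ 1) ∧
        ∀ p q : Fin m → ℝ, p ≤ q → ∀ S : Finset (Fin m),
          (∀ T : Finset (Fin m), v i T - ∑ j ∈ T, p j ≤ v i S - ∑ j ∈ S, p j) →
          ∃ T : Finset (Fin m),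
            (∀ U : Finset (Fin m), v i U - ∑ j ∈ U, q j ≤ v i T - ∑ j ∈ T, q j) ∧
            ∀ j ∈ S, q j = p j → j ∈ T) →
      ∀ (i : Fin n) (w : Finset (Fin m) → ℝ),
      ((∀ S, 0 ≤ w S ∧ w S ≤ 1) ∧
        ∀ p q : Fin m → ℝ, p ≤ q → ∀ S : Finset (Fin m),
          (∀ T : Finset (Fin m), w T - ∑ j ∈ T, p j ≤ w S - ∑ j ∈ S, p j) →
          ∃ T : Finset (Fin m),
            (∀ U : Finset (Fin m), w U - ∑ j ∈ U, q j ≤ w T - ∑ j ∈ T, q j) ∧
            ∀ j ∈ S, q j = p j → j ∈ T) →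
      ∀ S : Set ({k : Fin n // k ≠ i} → Finset (Fin m)),
        (M v).toOuterMeasure {ω | (fun k : {k : Fin n // k ≠ i} => ω k.1) ∈ S} ≤
          ENNReal.ofReal (Real.exp ε) *
            (M (Function.update v i w)).toOuterMeasure
              {ω | (fun k : {k : Fin n // k ≠ i} => ω k.1) ∈ S})) := by
  intro H
  obtain ⟨s, hs⟩ := H (1/2) (1/1000) (1/2) (by norm_num) (by norm_num) (by norm_num) (by norm_num)
    (by norm_num) (by norm_num)
  obtain ⟨m₀, hm₀⟩ := Pool.Agent.Results.MP_a8f5d0_lc.ManyItems.result (1/2) (1/1000) (1/2)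
    (by norm_num) (by norm_num) (by norm_num) (by norm_num) (by norm_num) (by norm_num)
  set n : ℕ := 2 * s + 2 with hn
  set m : ℕ := max m₀ n with hm
  obtain ⟨h1, h2, -⟩ := hm₀ m (le_max_left _ _) n (by omega) (le_max_right _ _)
  have hsuff : JDP.Suffices JDP.GrossSubstitutes n m (1/2) (1/1000) (1/2) s := by
    have hex := hs n m
    choose! M hM using hex
    refine ⟨M, fun supply hsup => ?_⟩
    obtain ⟨hA, hB⟩ := hM supply hsup
    constructor
    · intro i v w hv hw S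
      have h := hB v hv i w hw S
      unfold JDP.Pr
      have h' := ENNReal.toReal_mono (ENNReal.mul_ne_top ENNReal.ofReal_ne_top
        (outer_ne_top _ _)) h
      rw [ENNReal.toReal_mul, ENNReal.toReal_ofReal (Real.exp_pos _).le] at h'
      exact h'
    · intro v hv
      obtain ⟨hf, hw⟩ := hA v hv
      refine ⟨hf, ?_⟩
      have hw' := ENNReal.toReal_mono (outer_ne_top _ _) hw
      rw [ENNReal.toReal_ofReal (by norm_num)] at hw'
      refine le_trans hw' (JDP.Pr_mono _ ?_)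
      intro ω hω
      have h := JDP.OPT_le supply v (JDP.welfare v ω + 1/1000 * (n : ℝ)) (fun ω' hω' => by
        have := hω ω' hω'
        unfold JDP.welfare
        linarith)
      show JDP.OPT supply v - 1/1000 * (n : ℝ) ≤ JDP.welfare v ω
      linarith
  have h3 : JDP.sStar JDP.GrossSubstitutes n m (1/2) (1/1000) (1/2) ≤ s := Nat.sInf_le hsuff
  omega

end Pool.Agent.S15186
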