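import Pool.Statements.S15631
import Pool.Agent.Run7.h11.Q.Final


set_option autoImplicit false
open Pool Pool.MP_f8e48a_lc

namespace Pool.Agent.S15631

/-- There is a finite list of Lie-ring identities (terms coded as reverse-Polish token lists) such that the set of all identities holding in every Lie ring satisfying that list is not computable. -/
theorem result :
    ∃ E : List (List (ℕ ⊕ ℕ) × List (ℕ ⊕ ℕ)),
      ¬ ComputablePred (fun p : List (ℕ ⊕ ℕ) × List (ℕ ⊕ ℕ) =>
        ∀ (L : Type) [LieRing L],
          (∀ e ∈ E, ∀ v : ℕ → L,
            (List.foldl (fun (st : List L) (tok : ℕ ⊕ ℕ) =>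
              Sum.elim (fun n => v n :: st)
                (fun k => if k = 0 then (0 : L) :: st
                  else if k = 1 then (-(st.headD 0)) :: st.tail
                  else if k = 2 then (st.tail.headD 0 + st.headD 0) :: st.tail.tail
                  else ⁅st.tail.headD 0, st.headD 0⁆ :: st.tail.tail) tok) [] e.1).headD 0
            =
            (List.foldl (fun (st : List L) (tok : ℕ ⊕ ℕ) =>
              Sum.elim (fun n => v n :: st)
                (fun k => if k = 0 then (0 : L) :: st
                  else if k = 1 then (-(st.headD 0)) :: st.tail
                  else if k = 2 then (st.tail.headD 0 + st.headD 0) :: st.tail.tail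
                  else ⁅st.tail.headD 0, st.headD 0⁆ :: st.tail.tail) tok) [] e.2).headD 0) →
          ∀ v : ℕ → L,
            (List.foldl (fun (st : List L) (tok : ℕ ⊕ ℕ) =>
              Sum.elim (fun n => v n :: st)
                (fun k => if k = 0 then (0 : L) :: st
                  else if k = 1 then (-(st.headD 0)) :: st.tail
                  else if k = 2 then (st.tail.headD 0 + st.headD 0) :: st.tail.tail
                  else ⁅st.tail.headD 0, st.headD 0⁆ :: st.tail.tail) tok) [] p.1).headD 0
            =
            (List.foldl (fun (st : List L) (tok : ℕ ⊕ ℕ) =>
              Sum.elim (fun n => v n :: st)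
                (fun k => if k = 0 then (0 : L) :: st
                  else if k = 1 then (-(st.headD 0)) :: st.tail
                  else if k = 2 then (st.tail.headD 0 + st.headD 0) :: st.tail.tail
                  else ⁅st.tail.headD 0, st.headD 0⁆ :: st.tail.tail) tok) [] p.2).headD 0) := by
  exact Run7.h11.Q.main

end Pool.Agent.S15631
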