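import Pool.Statements.S15671
-- import your own Pool.Agent.* helpers here
import Pool.Agent.Run7.h165.LP.Main
import Pool.Agent.Run7.h165.LP.Delta
import Pool.Agent.Run7.h189.PP.Contr
import Pool.Agent.Run7.h189.PP.J
import Pool.Agent.Run7.h189.PP.FE
import Pool.Agent.Run7.h189.PP.G1
import Pool.Agent.Run7.h651.PP.Clo
import Pool.Agent.Run7.h651.PP.Small
import Pool.Agent.Run7.h651.PP.Top
import Pool.Agent.Run7.h651.PP.Trans
import Pool.Agent.Run7.h199.PP.SA
import Pool.Agent.Run7.h199.PP.SAP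
import Pool.Agent.Run7.h199.PP.G2
import Pool.Agent.Run7.h100.PP.Lin
import Pool.Agent.Run7.h100.PP.Split
import Pool.Agent.Run7.h100.PP.Step
import Pool.Agent.Run7.h67.PP.Avg
import Pool.Agent.Run7.h67.PP.Dich
import Pool.Agent.Run7.h67.PP.Iso

set_option autoImplicit false
open MeasureTheory
open Pool Pool.MP_0eac64_mp

namespace Pool.Agent.S15671

/-- For every Cantor group with a minimal translation by α, some dense set of continuous real f exists such that, for Haar-a.e. ω, the ℓ² eigenvectors of the Schrödinger operator with potential f(ω+nα) span a dense subspace of ℓ²(ℤ). -/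
theorem result :
    ∀ (Ω : Type) [AddCommGroup Ω] [TopologicalSpace Ω] [IsTopologicalAddGroup Ω]
      [CompactSpace Ω] [T2Space Ω] [TotallyDisconnectedSpace Ω]
      [TopologicalSpace.MetrizableSpace Ω] [Infinite Ω]
      [MeasurableSpace Ω] [BorelSpace Ω]
      (μ : Measure Ω) [μ.IsAddHaarMeasure] (α : Ω),
      Dense (Set.range (fun n : ℤ => n • α)) →
      ∃ D : Set C(Ω, ℝ), Dense D ∧
        ∀ f ∈ D, ∀ᵐ ω ∂μ,
          (Submodule.span ℂ
            {ψ : lp (fun _ : ℤ => ℂ) 2 |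
              ∃ E : ℝ, ∀ n : ℤ,
                ψ (n + 1) + ψ (n - 1) + (f (ω + n • α) : ℂ) * ψ n = (E : ℂ) * ψ n}
            ).topologicalClosure = ⊤ := by
  have hContr := Pool.Agent.Run7.h189.PP.t_CONTR Pool.Agent.Run7.h67.PP.t_ISO
    Pool.Agent.Run7.h67.PP.t_AVG Pool.Agent.Run7.h67.PP.t_DICH
  have hJ := Pool.Agent.Run7.h189.PP.t_J Pool.Agent.Run7.h67.PP.t_AVG
    Pool.Agent.Run7.h67.PP.t_ISO hContr
  have hFE := Pool.Agent.Run7.h189.PP.t_FE hJ
  have hG1 := Pool.Agent.Run7.h189.PP.t_G1 Run7.h199.PP.sap' hFE Run7.h651.PP.taskMeas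
  have hG2 := Run7.h199.PP.g2 Run7.h199.PP.sap' Run7.h100.PP.taskCard Run7.h100.PP.taskSplit
    Run7.h651.PP.taskClosed2
  have hChain := Pool.Agent.Run7.h165.LP.t_CHAIN Run7.h100.PP.taskStep
  have hDelta := Pool.Agent.Run7.h165.LP.t_DELTA hChain Run7.h100.PP.taskCompl
  exact Pool.Agent.Run7.h165.LP.final hG1 hG2 Run7.h651.PP.taskMeas hDelta Run7.h651.PP.taskTop
    Run7.h651.PP.taskGroup Run7.h651.PP.taskTransfer Run7.h651.PP.taskNum

end Pool.Agent.S15671
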