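import Pool.Statements.S15707
import Pool.Agent.Run7.h828.TFW.Main

set_option autoImplicit false
open MeasureTheory
open Pool Pool.MP_3f6894_mp

namespace Pool.Agent.S15707

/-- For any molecule with at least two distinct nuclei of positive charges, some electron number N above the total charge Z admits a minimizer of the TFW energy (p=5/3) among admissible densities with mass N, i.e. the critical number exceeds Z. -/
theorem result :
  ∀ (k : ℕ), 2 ≤ k → ∀ (z : Fin k → ℝ), (∀ i, 0 < z i) →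
  ∀ (R : Fin k → EuclideanSpace ℝ (Fin 3)), Function.Injective R →
  ∃ N : ℝ, (∑ i, z i) < N ∧
    ∃ (ρ : EuclideanSpace ℝ (Fin 3) → ℝ)
      (g : EuclideanSpace ℝ (Fin 3) → EuclideanSpace ℝ (Fin 3)),
      (∀ x, 0 ≤ ρ x) ∧ Integrable ρ ∧ Integrable (fun x => ρ x ^ (5/3 : ℝ)) ∧
      MemLp g 2 ∧
      (∀ φ : EuclideanSpace ℝ (Fin 3) → ℝ, ContDiff ℝ (⊤ : ℕ∞) φ → HasCompactSupport φ →
        ∀ v : EuclideanSpace ℝ (Fin 3),
          ∫ x, Real.sqrt (ρ x) * fderiv ℝ φ x v = -∫ x, inner ℝ (g x) v * φ x) ∧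
      ∫ x, ρ x = N ∧
      ∀ (σ : EuclideanSpace ℝ (Fin 3) → ℝ)
        (h : EuclideanSpace ℝ (Fin 3) → EuclideanSpace ℝ (Fin 3)),
        (∀ x, 0 ≤ σ x) → Integrable σ → Integrable (fun x => σ x ^ (5/3 : ℝ)) →
        MemLp h 2 →
        (∀ φ : EuclideanSpace ℝ (Fin 3) → ℝ, ContDiff ℝ (⊤ : ℕ∞) φ → HasCompactSupport φ →
          ∀ v : EuclideanSpace ℝ (Fin 3),
            ∫ x, Real.sqrt (σ x) * fderiv ℝ φ x v = -∫ x, inner ℝ (h x) v * φ x) →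
        ∫ x, σ x = N →
        (∫ x, ‖g x‖ ^ 2) + (3/5 : ℝ) * (∫ x, ρ x ^ (5/3 : ℝ))
          - (∫ x, (∑ i, z i / ‖x - R i‖) * ρ x)
          + (1/2 : ℝ) * (∫ x, ∫ y, ρ x * ρ y / ‖x - y‖)
        ≤ (∫ x, ‖h x‖ ^ 2) + (3/5 : ℝ) * (∫ x, σ x ^ (5/3 : ℝ))
          - (∫ x, (∑ i, z i / ‖x - R i‖) * σ x)
          + (1/2 : ℝ) * (∫ x, ∫ y, σ x * σ y / ‖x - y‖) := by
  intro k hk z hz R _
  have hz0 : ∀ i, 0 ≤ z i := fun i => (hz i).le
  have hne : (Finset.univ : Finset (Fin k)).Nonempty := ⟨⟨0, by omega⟩, Finset.mem_univ _⟩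
  have hZ : 0 < ∑ i, z i := Finset.sum_pos (fun i _ => hz i) hne
  obtain ⟨N, hN, ρ, g, h, hm, hmin⟩ := Pool.Agent.Run7.h828.TFW.main hz0 hZ R
  refine ⟨N, hN, ρ, g, h.md.nonneg, h.md.int, h.md.int_pow, h.g2, h.wk, hm, ?_⟩
  intro σ k' h0 hi hp hk2 hw hσ
  have h1 := hmin σ k' h0 hi hp hk2 hw hσ
  unfold Pool.Agent.R999.TFMin.energy Pool.Agent.R999.MinP.Vn at h1
  linarith

end Pool.Agent.S15707
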