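import Pool.Statements.S16186
import Pool.Agent.Run7.h332.Deg
import Pool.Agent.Run7.h332.Usb

set_option autoImplicit false
open Pool Pool.MP_19fd7d_nt

namespace Pool.Agent.S16186

/-- The negation of the preceding statement: If F in Q̄ is Galois over a number field K and has (USB) (for each rational map of degree at least 2, some c>0 leaves only finitely many points of F with canonical height below c), then F/K has finite local degree at infinitely many finite primes of K. -/
theorem result :
    ¬ (∀ h : AlgebraicClosure ℚ → ℝ,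
      (∀ β : AlgebraicClosure ℚ, h β =
        Real.log (((sInf {n : ℕ | 0 < n ∧ ∀ i : ℕ, ((n : ℚ) * (minpoly ℚ β).coeff i).den = 1} : ℕ) : ℝ) *
          (Polynomial.map (algebraMap ℚ ℂ) (minpoly ℚ β)).mahlerMeasure) /
          ((minpoly ℚ β).natDegree : ℝ)) →
    ∀ Φ : RatFunc (AlgebraicClosure ℚ) → AlgebraicClosure ℚ × AlgebraicClosure ℚ →
        AlgebraicClosure ℚ × AlgebraicClosure ℚ,
      (∀ (f : RatFunc (AlgebraicClosure ℚ)) (z : AlgebraicClosure ℚ × AlgebraicClosure ℚ),
        Φ f z =
          (∑ i ∈ Finset.range (max f.num.natDegree f.denom.natDegree + 1),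
              f.num.coeff i * z.1 ^ i * z.2 ^ (max f.num.natDegree f.denom.natDegree - i),
           ∑ i ∈ Finset.range (max f.num.natDegree f.denom.natDegree + 1),
              f.denom.coeff i * z.1 ^ i * z.2 ^ (max f.num.natDegree f.denom.natDegree - i))) →
    ∀ (K : IntermediateField ℚ (AlgebraicClosure ℚ)) [NumberField K]
      (F : IntermediateField K (AlgebraicClosure ℚ)),
      IsGalois K F →
      (∀ f : RatFunc (AlgebraicClosure ℚ),
        2 ≤ max f.num.natDegree f.denom.natDegree →
        ∃ c : ℝ, 0 < c ∧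
          Set.Finite {α : AlgebraicClosure ℚ | α ∈ F ∧ ∃ L : ℝ,
            Filter.Tendsto
              (fun n : ℕ => h (((Φ f)^[n] (α, 1)).1 / ((Φ f)^[n] (α, 1)).2) /
                ((max f.num.natDegree f.denom.natDegree : ℕ) : ℝ) ^ n)
              Filter.atTop (nhds L) ∧ L < c}) →
      Set.Infinite {v : IsDedekindDomain.HeightOneSpectrum (NumberField.RingOfIntegers K) |
        ∀ ι : AlgebraicClosure ℚ →ₐ[K] AlgebraicClosure (v.adicCompletion K),
          FiniteDimensional (v.adicCompletion K)
            (IntermediateField.adjoin (v.adicCompletion K)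
              (ι '' (F : Set (AlgebraicClosure ℚ))))}) := by
  classical
  intro H
  obtain ⟨D⟩ := Run7.h332.nonempty_dat
  have hNF : NumberField (⊥ : IntermediateField ℚ (AlgebraicClosure ℚ)) :=
    { to_charZero := inferInstance
      to_finiteDimensional := inferInstance }
  have h1 := H Pool.Agent.H58W.hM (fun β => rfl)
    (fun f z => Pool.Agent.H58W.lift f.num f.denom (max f.num.natDegree f.denom.natDegree) z)
    (fun f z => rfl) ⊥ D.FB inferInstance (by
      intro f hf
      refine ⟨1, one_pos, ?_⟩
      obtain ⟨C, hC⟩ := Run7.h332.small_limit f.num f.denom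
        (max f.num.natDegree f.denom.natDegree) rfl hf (RatFunc.isCoprime_num_denom f)
      refine (D.northcott C).subset ?_
      rintro α ⟨hα, L, hL, hL1⟩
      exact ⟨hα, hC α L hL1 hL⟩)
  apply h1
  have hK : ∀ r : NumberField.RingOfIntegers (⊥ : IntermediateField ℚ (AlgebraicClosure ℚ)),
      ∃ n : ℤ, (n : NumberField.RingOfIntegers
        (⊥ : IntermediateField ℚ (AlgebraicClosure ℚ))) = r := by
    intro r
    obtain ⟨x, hx⟩ := (IntermediateField.mem_bot (F := ℚ)).mp
      (r : (⊥ : IntermediateField ℚ (AlgebraicClosure ℚ))).2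
    have hint : IsIntegral ℤ x := by
      have h2 := NumberField.RingOfIntegers.isIntegral_coe r
      have h3 : IsIntegral ℤ (((r : (⊥ : IntermediateField ℚ (AlgebraicClosure ℚ))) :
        AlgebraicClosure ℚ)) := by
        exact h2.map ((IntermediateField.val
          (⊥ : IntermediateField ℚ (AlgebraicClosure ℚ))).restrictScalars ℤ)
      rw [← hx] at h3
      exact (isIntegral_algebraMap_iff (algebraMap ℚ (AlgebraicClosure ℚ)).injective).mp h3
    obtain ⟨n, hn⟩ := IsIntegrallyClosed.isIntegral_iff.mp hint
    refine ⟨n, ?_⟩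
    apply NumberField.RingOfIntegers.ext
    apply Subtype.ext
    rw [← hx, ← hn]
    simp
  have hfin : {v : IsDedekindDomain.HeightOneSpectrum (NumberField.RingOfIntegers
      (⊥ : IntermediateField ℚ (AlgebraicClosure ℚ))) |
      v.asIdeal ∣ Ideal.span {((2 : ℕ) : NumberField.RingOfIntegers
        (⊥ : IntermediateField ℚ (AlgebraicClosure ℚ)))}}.Finite := by
    apply Ideal.finite_factors
    simp
  refine hfin.subset ?_
  intro v hv
  obtain ⟨q, hq, hqv⟩ := Run7.h332.exists_prime_mem v
  by_cases hq2 : q = 2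
  · subst hq2
    rw [Set.mem_ofPred_eq, Ideal.dvd_span_singleton]
    exact hqv
  · exfalso
    have halg : Algebra.IsAlgebraic (⊥ : IntermediateField ℚ (AlgebraicClosure ℚ))
        (AlgebraicClosure ℚ) :=
      ⟨fun x => ((Pool.Agent.H58P.qb_isIntegral x).tower_top
        (A := (⊥ : IntermediateField ℚ (AlgebraicClosure ℚ)))).isAlgebraic⟩
    let ι : AlgebraicClosure ℚ →ₐ[(⊥ : IntermediateField ℚ (AlgebraicClosure ℚ))]
      AlgebraicClosure (v.adicCompletion (⊥ : IntermediateField ℚ (AlgebraicClosure ℚ))) :=
      IsAlgClosed.lift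
    have h2 := hv ι
    exact D.not_finite v hK hq hq2 hqv (ι : AlgebraicClosure ℚ →+*
      AlgebraicClosure (v.adicCompletion (⊥ : IntermediateField ℚ (AlgebraicClosure ℚ)))) h2

end Pool.Agent.S16186
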