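import Pool.Statements.S16523
import Pool.Agent.Run7.h542.KhFull
import Pool.Agent.Run7.h542.KhSecond
import Pool.Agent.Run7.h542.KhLocal

set_option autoImplicit false
open Pool Pool.MP_33a4a7_nt

namespace Pool.Agent.S16523

/-- For every y in R^2 and every nonnegative psi on N with sum of psi(q)^2 infinite, almost every x in [0,1]^2 has infinitely many q ≥ 1 with some integer vector a making the sup-norm of qx − a − y less than psi(q). -/
theorem result :
    ∀ (y : ℝ × ℝ) (ψ : ℕ → ℝ), (∀ q, 0 ≤ ψ q) →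
      ¬ Summable (fun q : ℕ => ψ q ^ 2) →
      ∀ᵐ x ∂(MeasureTheory.volume.restrict (Set.Icc (0 : ℝ × ℝ) 1)),
        {q : ℕ | 0 < q ∧ ∃ a : ℤ × ℤ,
          ‖(q : ℝ) • x - ((a.1 : ℝ), (a.2 : ℝ)) - y‖ < ψ q}.Infinite := by
  intro y ψ hψ hdiv
  classical
  set ψ' : ℕ → ℝ := fun q => if q = 0 then 0 else min (ψ q) (1 / 2) with hψ'
  have h0 : ∀ q, 0 ≤ ψ' q := by
    intro q
    simp only [hψ']
    split_ifs
    · exact le_rfl
    · exact le_min (hψ q) (by norm_num)
  have h1 : ∀ q, ψ' q ≤ 1 / 2 := by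
    intro q
    simp only [hψ']
    split_ifs
    · norm_num
    · exact min_le_right _ _
  have hz : ψ' 0 = 0 := by simp [hψ']
  have hle : ∀ q, ψ' q ≤ ψ q := by
    intro q
    simp only [hψ']
    split_ifs
    · exact hψ q
    · exact min_le_left _ _
  have hdiv' : ¬ Summable (fun q : ℕ => ψ' q ^ 2) := by
    intro hs
    apply hdiv
    have htend := hs.tendsto_atTop_zero
    have hev : ∀ᶠ q in Filter.atTop, ψ' q ^ 2 < 1 / 4 :=
      htend.eventually (gt_mem_nhds (by norm_num))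
    have heq : ∀ᶠ q in Filter.atTop, ψ' q ^ 2 = ψ q ^ 2 := by
      filter_upwards [hev, Filter.eventually_gt_atTop 0] with q hq hq0
      have e : ψ' q = min (ψ q) (1 / 2) := by simp only [hψ']; rw [if_neg (by omega)]
      rcases le_total (ψ q) (1 / 2) with h | h
      · rw [e, min_eq_left h]
      · rw [e, min_eq_right h] at hq
        norm_num at hq
    exact (summable_congr_atTop heq).1 hs
  have hmain := Run7.h542.Kh.full_measure (fun q => Run7.h542.Kh.AS y.1 y.2 ψ' q)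
    (fun q => Run7.h542.Kh.measurableSet_AS y.1 y.2 ψ' q) (fun q => ψ' q ^ 2)
    (fun q => sq_nonneg _) hdiv' 8000 2 (by norm_num) (by norm_num)
    (fun N => Run7.h542.Kh.second_moment y.1 y.2 ψ' hz h0 h1 N) (by
      intro n
      obtain ⟨q₀, hq₀⟩ := Run7.h542.Kh.local_lower y.1 y.2 ψ' h0 h1 (1 / 2 ^ n) (by positivity)
        (by
          rw [div_le_one (by positivity)]
          exact one_le_pow₀ (by norm_num))
      refine ⟨q₀, fun q hq i hi1 hi2 => ?_⟩
      have h2 := hq₀ q hq ((i.1 : ℝ) / 2 ^ n) ((i.2 : ℝ) / 2 ^ n)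
      have hcell : Run7.h542.Kh.cell n i = Set.Ico ((i.1 : ℝ) / 2 ^ n) ((i.1 : ℝ) / 2 ^ n + 1 / 2 ^ n)
          ×ˢ Set.Ico ((i.2 : ℝ) / 2 ^ n) ((i.2 : ℝ) / 2 ^ n + 1 / 2 ^ n) := by
        unfold Run7.h542.Kh.cell
        rw [add_div, add_div]
      rw [← hcell] at h2
      have hsub : Run7.h542.Kh.AS y.1 y.2 ψ' q ∩ Run7.h542.Kh.cell n i ⊆ Set.Icc (0 : ℝ × ℝ) 1 :=
        Set.inter_subset_right.trans
          ((Run7.h542.Kh.cell_subset_Om hi1 hi2).trans Run7.h542.Kh.Om_subset)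
      have h3 : Run7.h542.Kh.μsq (Run7.h542.Kh.AS y.1 y.2 ψ' q ∩ Run7.h542.Kh.cell n i)
          = MeasureTheory.volume (Run7.h542.Kh.AS y.1 y.2 ψ' q ∩ Run7.h542.Kh.cell n i) := by
        rw [MeasureTheory.Measure.restrict_apply
          ((Run7.h542.Kh.measurableSet_AS y.1 y.2 ψ' q).inter
            (Run7.h542.Kh.measurableSet_cell' n i)), Set.inter_eq_left.2 hsub]
      rw [← h3] at h2
      have h4 := (ENNReal.ofReal_le_iff_le_toReal (MeasureTheory.measure_ne_top _ _)).1 h2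
      exact h4)
  filter_upwards [hmain] with x hx
  apply hx.mono
  intro q hq
  obtain ⟨a1, a2, ha1, ha2, -⟩ := hq
  have hq0 : 0 < q := by
    rcases Nat.eq_zero_or_pos q with h | h
    · rw [h, hz] at ha1
      exact absurd ha1 (not_lt.2 (abs_nonneg _))
    · exact h
  refine ⟨hq0, (a1, a2), ?_⟩
  rw [Prod.norm_def]
  apply max_lt
  · have e : ((q : ℝ) • x - ((a1 : ℝ), (a2 : ℝ)) - y).1 = (q : ℝ) * x.1 - y.1 - a1 := by
      simp; ring
    rw [e, Real.norm_eq_abs]
    exact lt_of_lt_of_le ha1 (hle q)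
  · have e : ((q : ℝ) • x - ((a1 : ℝ), (a2 : ℝ)) - y).2 = (q : ℝ) * x.2 - y.2 - a2 := by
      simp; ring
    rw [e, Real.norm_eq_abs]
    exact lt_of_lt_of_le ha2 (hle q)

end Pool.Agent.S16523
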