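import Pool.Statements.S16733

set_option autoImplicit false
open Pool Pool.MP_44e698_nt

namespace Pool.Agent.S16733

/-! The index type is `(ℕ × ℕ) × (ℕ × ℕ)`, with `x = ((i, k), (j, l))`. -/

/-- summability of `r ^ (i + k + j + l)` -/
theorem summable_base {r : ℝ} (h0 : 0 ≤ r) (h1 : r < 1) :
    Summable (fun x : (ℕ × ℕ) × (ℕ × ℕ) => r ^ (x.1.1 + x.1.2 + (x.2.1 + x.2.2))) := by
  have hg : Summable (fun n : ℕ => r ^ n) := summable_geometric_of_lt_one h0 h1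
  have h2 : Summable (fun x : ℕ × ℕ => r ^ x.1 * r ^ x.2) :=
    hg.mul_of_nonneg hg (fun _ => pow_nonneg h0 _) (fun _ => pow_nonneg h0 _)
  have h4 := h2.mul_of_nonneg h2 (fun _ => mul_nonneg (pow_nonneg h0 _) (pow_nonneg h0 _))
    (fun _ => mul_nonneg (pow_nonneg h0 _) (pow_nonneg h0 _))
  refine h4.congr fun x => ?_
  rw [pow_add, pow_add, pow_add]

/-- domination -/
theorem summable_dom {r : ℝ} (h0 : 0 ≤ r) (h1 : r < 1) (f : (ℕ × ℕ) × (ℕ × ℕ) → ℂ)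
    (C : ℝ) (hf : ∀ x : (ℕ × ℕ) × (ℕ × ℕ), ‖f x‖ ≤ C * r ^ (x.1.1 + x.1.2 + (x.2.1 + x.2.2))) :
    Summable f :=
  Summable.of_norm_bounded ((summable_base h0 h1).mul_left C) hf

/-- The exponent -/
def E (x : (ℕ × ℕ) × (ℕ × ℕ)) : ℕ :=
  (x.1.1 + 1) * (2 * x.1.2 + 3) + (2 * x.1.1 + 1) * x.2.1 + (x.1.2 + 1) * x.2.2

theorem E_ge (x : (ℕ × ℕ) × (ℕ × ℕ)) : x.1.1 + x.1.2 + (x.2.1 + x.2.2) ≤ E x := by
  unfold E
  nlinarith [Nat.zero_le (x.1.1 * x.1.2), Nat.zero_le (x.1.1 * x.2.1), Nat.zero_le (x.1.2 * x.2.2)]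

theorem expand (q : ℂ) (hq : ‖q‖ < 1) :
    (∑' p : ℕ × ℕ, (-q) ^ (2 * (p.1 + 1) * (p.2 + 1) + (p.1 + 1)) /
          ((1 + q ^ (p.2 + 1)) * (1 - q ^ (2 * p.1 + 1)))) =
    ∑' x : (ℕ × ℕ) × (ℕ × ℕ), (-1) ^ (x.1.1 + 1 + x.2.2) * q ^ E x := by
  have hsum : Summable (fun x : (ℕ × ℕ) × (ℕ × ℕ) => (-1 : ℂ) ^ (x.1.1 + 1 + x.2.2) * q ^ E x) := by
    refine summable_dom (norm_nonneg q) hq _ 1 fun x => ?_
    rw [norm_mul, norm_pow, norm_pow, norm_neg, norm_one, one_pow, one_mul, one_mul]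
    exact pow_le_pow_of_le_one (norm_nonneg q) hq.le (E_ge x)
  rw [hsum.tsum_prod]
  refine tsum_congr fun p => ?_
  obtain ⟨i, k⟩ := p
  have hA : ‖q ^ (2 * i + 1)‖ < 1 := by
    rw [norm_pow]; exact pow_lt_one₀ (norm_nonneg q) hq (by omega)
  have hB : ‖-q ^ (k + 1)‖ < 1 := by
    rw [norm_neg, norm_pow]; exact pow_lt_one₀ (norm_nonneg q) hq (by omega)
  have h1 := tsum_geometric_of_norm_lt_one hA
  have h2 := tsum_geometric_of_norm_lt_one hB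
  have h3 := tsum_mul_tsum_of_summable_norm (summable_norm_geometric_of_norm_lt_one hA)
    (summable_norm_geometric_of_norm_lt_one hB)
  rw [h1, h2] at h3
  have h4 : (-q) ^ (2 * (i + 1) * (k + 1) + (i + 1)) /
          ((1 + q ^ (k + 1)) * (1 - q ^ (2 * i + 1))) =
      (-q) ^ (2 * (i + 1) * (k + 1) + (i + 1)) *
        ((1 - q ^ (2 * i + 1))⁻¹ * (1 - -q ^ (k + 1))⁻¹) := by
    rw [div_eq_mul_inv, mul_inv, sub_neg_eq_add, mul_comm (1 + q ^ (k + 1))⁻¹]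
  show (-q) ^ (2 * (i + 1) * (k + 1) + (i + 1)) /
          ((1 + q ^ (k + 1)) * (1 - q ^ (2 * i + 1))) = _
  rw [h4, h3, ← tsum_mul_left]
  refine tsum_congr fun y => ?_
  obtain ⟨j, l⟩ := y
  simp only [E]
  have h5 : (-q) ^ (2 * (i + 1) * (k + 1) + (i + 1)) =
      (-1) ^ (i + 1) * q ^ (2 * (i + 1) * (k + 1) + (i + 1)) := by
    rw [neg_pow, pow_add (-1 : ℂ), mul_assoc 2, pow_mul (-1 : ℂ) 2]
    norm_num
  rw [h5, neg_pow (q ^ (k + 1)) l, ← pow_mul, ← pow_mul, pow_add (-1 : ℂ) (i + 1) l,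
    show (i + 1) * (2 * k + 3) + (2 * i + 1) * j + (k + 1) * l =
      (2 * (i + 1) * (k + 1) + (i + 1)) + (2 * i + 1) * j + (k + 1) * l by ring,
    pow_add q, pow_add q]
  ring

/-- weight -/
noncomputable def w (q : ℂ) (n : ℕ) : ℂ := q ^ n + (-q) ^ n

theorem w_odd (q : ℂ) (n : ℕ) (h : ¬ Even n) : w q n = 0 := by
  unfold w
  rw [Nat.not_even_iff_odd] at h
  rw [h.neg_pow]
  ring

theorem w_norm (q : ℂ) (n : ℕ) : ‖w q n‖ ≤ 2 * ‖q‖ ^ n := by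
  unfold w
  refine (norm_add_le _ _).trans ?_
  rw [norm_pow, norm_pow, norm_neg]
  linarith

/-- The symmetric exponent -/
def n (i j k l : ℕ) : ℕ := 2 * i * j + i + j + 1 + 2 * (k + 1) * (l + 1)

theorem n_ge (i j k l : ℕ) : i + j + k + l ≤ n i j k l := by
  unfold n
  nlinarith [Nat.zero_le (i * j), Nat.zero_le (k * l)]

theorem sum_w (q : ℂ) (hq : ‖q‖ < 1) (g : (ℕ × ℕ) × (ℕ × ℕ) → ℕ) (s : (ℕ × ℕ) × (ℕ × ℕ) → ℂ)
    (hs : ∀ x, ‖s x‖ ≤ 1) (hg : ∀ x, x.1.1 + x.1.2 + (x.2.1 + x.2.2) ≤ g x) :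
    Summable (fun x : (ℕ × ℕ) × (ℕ × ℕ) => s x * w q (g x)) := by
  refine summable_dom (norm_nonneg q) hq _ 2 fun x => ?_
  rw [norm_mul]
  calc ‖s x‖ * ‖w q (g x)‖ ≤ 1 * (2 * ‖q‖ ^ (g x)) :=
        mul_le_mul (hs x) (w_norm q _) (norm_nonneg _) zero_le_one
    _ = 2 * ‖q‖ ^ (g x) := one_mul _
    _ ≤ _ := mul_le_mul_of_nonneg_left
        (pow_le_pow_of_le_one (norm_nonneg q) hq.le (hg x)) zero_le_two

theorem norm_sign (m : ℕ) : ‖((-1 : ℂ)) ^ m‖ ≤ 1 := by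
  rw [norm_pow, norm_neg, norm_one, one_pow]

theorem sign_swap (q : ℂ) (a B b s : ℕ) :
    (-1 : ℂ) ^ a * w q (n a B b s) = -((-1 : ℂ) ^ B * w q (n a B b s)) := by
  by_cases he : Even (n a B b s)
  · have : Odd (a + B) := by
      unfold n at he
      by_contra hc
      rw [Nat.not_odd_iff_even] at hc
      obtain ⟨u, hu⟩ := hc
      obtain ⟨v, hv⟩ := he
      have h3 : 2 * a * B = 2 * (a * B) := by ring
      have h4 : 2 * (b + 1) * (s + 1) = 2 * ((b + 1) * (s + 1)) := by ring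
      omega
    have h2 : (-1 : ℂ) ^ a = -(-1 : ℂ) ^ B := by
      have h5 : (-1 : ℂ) ^ (a + B) = -1 := this.neg_one_pow
      have h6 : (-1 : ℂ) ^ (B + B) = 1 := (Even.add_self B).neg_one_pow
      calc (-1 : ℂ) ^ a = (-1 : ℂ) ^ a * (-1 : ℂ) ^ (B + B) := by rw [h6, mul_one]
        _ = (-1 : ℂ) ^ (a + B) * (-1 : ℂ) ^ B := by rw [pow_add, pow_add]; ring
        _ = _ := by rw [h5]; ring
    rw [h2]
    ring
  · rw [w_odd q _ he]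
    ring

/-- the total antisymmetric sum, over `x = ((a, B), (b, s))` -/
theorem total_zero (q : ℂ) :
    ∑' x : (ℕ × ℕ) × (ℕ × ℕ), (-1 : ℂ) ^ x.1.1 * w q (n x.1.1 x.1.2 x.2.1 x.2.2) = 0 := by
  have h : ∑' x : (ℕ × ℕ) × (ℕ × ℕ), (-1 : ℂ) ^ x.1.1 * w q (n x.1.1 x.1.2 x.2.1 x.2.2) =
      -∑' x : (ℕ × ℕ) × (ℕ × ℕ), (-1 : ℂ) ^ x.1.1 * w q (n x.1.1 x.1.2 x.2.1 x.2.2) := by
    have h1 := ((Equiv.prodComm ℕ ℕ).prodCongr (Equiv.refl (ℕ × ℕ))).tsum_eq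
      (fun x : (ℕ × ℕ) × (ℕ × ℕ) => (-1 : ℂ) ^ x.1.1 * w q (n x.1.1 x.1.2 x.2.1 x.2.2))
    refine h1.symm.trans ?_
    rw [← tsum_neg]
    refine tsum_congr fun x => ?_
    obtain ⟨⟨a, B⟩, b, s⟩ := x
    simp only [Equiv.prodCongr_apply, Equiv.coe_prodComm, Equiv.coe_refl, Prod.map, Prod.swap, id]
    rw [sign_swap, show n B a b s = n a B b s by unfold n; ring]
  exact CharZero.eq_neg_self_iff.1 h

theorem split {X Y : Type} (f : X → ℂ) (hf : Summable f) (P Q : Y → X)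
    (hP : Function.Injective P) (hQ : Function.Injective Q)
    (hPQ : (Set.range P)ᶜ = Set.range Q) :
    ∑' x, f x = ∑' y, f (P y) + ∑' y, f (Q y) := by
  have h1 := hf.tsum_subtype_add_tsum_subtype_compl (Set.range P)
  rw [hPQ, tsum_range f hP, tsum_range f hQ] at h1
  exact h1.symm

/-- Splitting according to the parity of the last variable. -/
theorem parity_split (f : (ℕ × ℕ) × (ℕ × ℕ) → ℂ) (hf : Summable f) :
    ∑' x, f x = ∑' x : (ℕ × ℕ) × (ℕ × ℕ), f ((x.1.1, x.1.2), (x.2.1, 2 * x.2.2)) +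
      ∑' x : (ℕ × ℕ) × (ℕ × ℕ), f ((x.1.1, x.1.2), (x.2.1, 2 * x.2.2 + 1)) := by
  refine split f hf (fun x : (ℕ × ℕ) × (ℕ × ℕ) => ((x.1.1, x.1.2), (x.2.1, 2 * x.2.2)))
    (fun x : (ℕ × ℕ) × (ℕ × ℕ) => ((x.1.1, x.1.2), (x.2.1, 2 * x.2.2 + 1))) ?_ ?_ ?_
  · rintro ⟨⟨a, b⟩, c, d⟩ ⟨⟨a', b'⟩, c', d'⟩ h
    simp only [Prod.mk.injEq] at h ⊢
    obtain ⟨⟨h1, h2⟩, h3, h4⟩ := h
    exact ⟨⟨h1, h2⟩, h3, by omega⟩
  · rintro ⟨⟨a, b⟩, c, d⟩ ⟨⟨a', b'⟩, c', d'⟩ h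
    simp only [Prod.mk.injEq] at h ⊢
    obtain ⟨⟨h1, h2⟩, h3, h4⟩ := h
    exact ⟨⟨h1, h2⟩, h3, by omega⟩
  · ext ⟨⟨a, b⟩, c, d⟩
    simp only [Set.mem_compl_iff, Set.mem_range, Prod.exists, Prod.mk.injEq, not_exists]
    constructor
    · intro h
      rcases Nat.even_or_odd' d with ⟨e, he | he⟩
      · exact absurd ⟨⟨rfl, rfl⟩, rfl, he.symm⟩ (h a b c e)
      · exact ⟨a, b, c, e, ⟨rfl, rfl⟩, rfl, he.symm⟩
    · rintro ⟨a', b', c', e, -, -, h⟩ a'' b'' c'' e'' ⟨-, -, h'⟩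
      omega

/-- Splitting according to `B > b` or `B ≤ b`. -/
theorem order_split (f : (ℕ × ℕ) × (ℕ × ℕ) → ℂ) (hf : Summable f) :
    ∑' x, f x = ∑' x : (ℕ × ℕ) × (ℕ × ℕ), f ((x.1.1, x.1.2 + 1 + x.2.1), (x.1.2, x.2.2)) +
      ∑' x : (ℕ × ℕ) × (ℕ × ℕ), f ((x.2.1, x.1.1), (x.1.1 + x.2.2, x.1.2)) := by
  refine split f hf (fun x : (ℕ × ℕ) × (ℕ × ℕ) => ((x.1.1, x.1.2 + 1 + x.2.1), (x.1.2, x.2.2)))
    (fun x : (ℕ × ℕ) × (ℕ × ℕ) => ((x.2.1, x.1.1), (x.1.1 + x.2.2, x.1.2))) ?_ ?_ ?_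
  · rintro ⟨⟨a, b⟩, c, d⟩ ⟨⟨a', b'⟩, c', d'⟩ h
    simp only [Prod.mk.injEq] at h ⊢
    obtain ⟨⟨h1, h2⟩, h3, h4⟩ := h
    exact ⟨⟨h1, h3⟩, by omega, h4⟩
  · rintro ⟨⟨a, b⟩, c, d⟩ ⟨⟨a', b'⟩, c', d'⟩ h
    simp only [Prod.mk.injEq] at h ⊢
    obtain ⟨⟨h1, h2⟩, h3, h4⟩ := h
    exact ⟨⟨h2, h4⟩, h1, by omega⟩
  · ext ⟨⟨a, B⟩, b, s⟩
    simp only [Set.mem_compl_iff, Set.mem_range, Prod.exists, Prod.mk.injEq, not_exists]
    constructor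
    · intro h
      rcases Nat.lt_or_ge b B with h1 | h1
      · exact absurd ⟨⟨rfl, by omega⟩, rfl, rfl⟩ (h a b (B - (b + 1)) s)
      · exact ⟨B, s, a, b - B, ⟨rfl, rfl⟩, by omega, rfl⟩
    · rintro ⟨a', b', c', e, ⟨h1, h2⟩, h3, h4⟩ a'' b'' c'' e'' ⟨⟨h5, h6⟩, h7, h8⟩
      omega

theorem key (q : ℂ) (hq : ‖q‖ < 1) :
    ∑' x : (ℕ × ℕ) × (ℕ × ℕ), (-1) ^ (x.1.1 + 1 + x.2.2) * w q (E x) = 0 := by
  rw [parity_split _ (sum_w q hq E (fun x => (-1) ^ (x.1.1 + 1 + x.2.2))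
    (fun x => norm_sign _) E_ge)]
  rw [← total_zero q, order_split _ (sum_w q hq (fun x => n x.1.1 x.1.2 x.2.1 x.2.2)
    (fun x => (-1) ^ x.1.1) (fun x => norm_sign _) (fun x => by
      have := n_ge x.1.1 x.1.2 x.2.1 x.2.2
      omega)), add_comm]
  congr 1
  · refine tsum_congr fun x => ?_
    obtain ⟨⟨i, k⟩, j, l⟩ := x
    simp only [E]
    rw [show (i + 1) * (2 * k + 3) + (2 * i + 1) * j + (k + 1) * (2 * l + 1) =
      n i (k + 1 + j) k l by unfold n; ring]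
    have : (-1 : ℂ) ^ (i + 1 + (2 * l + 1)) = (-1) ^ i := by
      rw [show i + 1 + (2 * l + 1) = i + 2 * (l + 1) by ring, pow_add, pow_mul]
      norm_num
    rw [this]
  · refine tsum_congr fun x => ?_
    obtain ⟨⟨i, k⟩, j, l⟩ := x
    simp only [E]
    rw [show (i + 1) * (2 * k + 3) + (2 * i + 1) * j + (k + 1) * (2 * l) =
      n j i (i + l) k by unfold n; ring, sign_swap q j i]
    have : (-1 : ℂ) ^ (i + 1 + (2 * l)) = -(-1) ^ i := by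
      rw [show i + 1 + (2 * l) = (i + 1) + 2 * l by ring, pow_add, pow_mul, pow_succ]
      norm_num
    rw [this]
    ring

/-- For every complex q with ∣q∣<1, let Y(q) be the sum over m,n≥1 of (-q)^(2mn+m)/((1+q^n)(1-q^(2m-1))). Then Y(-q) = -Y(q), i.e. Y is an odd function. -/
theorem result :
    ∀ q : ℂ, ‖q‖ < 1 →
      (∑' p : ℕ × ℕ, (-(-q)) ^ (2 * (p.1 + 1) * (p.2 + 1) + (p.1 + 1)) /
          ((1 + (-q) ^ (p.2 + 1)) * (1 - (-q) ^ (2 * p.1 + 1))))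
        = -(∑' p : ℕ × ℕ, (-q) ^ (2 * (p.1 + 1) * (p.2 + 1) + (p.1 + 1)) /
          ((1 + q ^ (p.2 + 1)) * (1 - q ^ (2 * p.1 + 1)))) := by
  intro q hq
  have hq' : ‖-q‖ < 1 := by rwa [norm_neg]
  have hs : ∀ z : ℂ, ‖z‖ < 1 → Summable (fun x : (ℕ × ℕ) × (ℕ × ℕ) =>
      (-1 : ℂ) ^ (x.1.1 + 1 + x.2.2) * z ^ E x) := by
    intro z hz
    refine summable_dom (norm_nonneg z) hz _ 1 fun x => ?_
    rw [norm_mul, norm_pow, norm_pow, norm_neg, norm_one, one_pow, one_mul, one_mul]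
    exact pow_le_pow_of_le_one (norm_nonneg z) hz.le (E_ge x)
  rw [expand q hq, expand (-q) hq', eq_neg_iff_add_eq_zero, ← (hs _ hq').tsum_add (hs q hq),
    ← key q hq]
  refine tsum_congr fun x => ?_
  unfold w
  ring

end Pool.Agent.S16733
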