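import Pool.Statements.S16745
import Pool.Agent.Run7.h257.Final

set_option autoImplicit false
open Pool Pool.MP_4547ec_nt

namespace Pool.Agent.S16745

/-- There are infinitely many odd primes p such that some integer k not divisible by p satisfies kp = ±m ± n for positive integers m, n whose prime factors are all at most 43. -/
theorem result :
    {p : ℕ | p.Prime ∧ p ≠ 2 ∧
      ∃ k : ℤ, ¬ ((p : ℤ) ∣ k) ∧
        ∃ m ∈ Nat.smoothNumbers 44, ∃ n ∈ Nat.smoothNumbers 44,
          (k * (p : ℤ) = (m : ℤ) + (n : ℤ) ∨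
           k * (p : ℤ) = (m : ℤ) - (n : ℤ) ∨
           k * (p : ℤ) = -(m : ℤ) + (n : ℤ) ∨
           k * (p : ℤ) = -(m : ℤ) - (n : ℤ))}.Infinite := by
  refine Set.infinite_of_forall_exists_gt fun B => ?_
  have h0 := Run7.h257.not_wief (B + 2)
  unfold Run7.h257.Wief at h0
  push Not at h0
  obtain ⟨p, hp, hB, hnd⟩ := h0
  haveI : Fact p.Prime := ⟨hp⟩
  have hp2 : 2 < p := by omega
  -- Fermat's little theorem
  have h20 : (2 : ZMod p) ≠ 0 := by
    have : ((2 : ℕ) : ZMod p) ≠ 0 := by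
      intro hc
      rw [CharP.cast_eq_zero_iff (ZMod p) p] at hc
      have := Nat.le_of_dvd (by norm_num) hc
      omega
    simpa using this
  have hflt : (2 : ZMod p) ^ (p - 1) = 1 := ZMod.pow_card_sub_one_eq_one h20
  have h1 : 1 ≤ 2 ^ (p - 1) := Nat.one_le_two_pow
  have hdvd : p ∣ 2 ^ (p - 1) - 1 := by
    rw [← CharP.cast_eq_zero_iff (ZMod p) p, Nat.cast_sub h1]
    push_cast
    exact sub_eq_zero.mpr hflt
  obtain ⟨k, hk⟩ := hdvd
  refine ⟨p, ⟨hp, by omega, (k : ℤ), ?_, 2 ^ (p - 1), ?_, 1, ?_, ?_⟩, by omega⟩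
  · intro hc
    have hc' : p ∣ k := by exact_mod_cast hc
    apply hnd
    rw [hk, pow_two]
    exact Nat.mul_dvd_mul_left p hc'
  · rw [Nat.mem_smoothNumbers']
    intro q hq hqd
    have h2 : q ∣ 2 := hq.dvd_of_dvd_pow hqd
    have := Nat.le_of_dvd (by norm_num) h2
    omega
  · rw [Nat.mem_smoothNumbers']
    intro q hq hqd
    have := hq.one_lt
    have := Nat.le_of_dvd (by norm_num) hqd
    omega
  · right; left
    have hk' : (2 ^ (p - 1) : ℕ) = k * p + 1 := by
      rw [Nat.mul_comm k p, ← hk]; omega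
    rw [hk']
    push_cast
    ring

end Pool.Agent.S16745
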