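import Pool.Statements.S16915
import Pool.Agent.Run7.h501.MultRec

set_option autoImplicit false
open MeasureTheory
open Pool Pool.MP_4fa6ed_nt

namespace Pool.Agent.S16915

/-- If a≥1, gcd(a,b,d)=1, and b=d or a divides bd, then for every measure-preserving action of the positive rationals under multiplication and every positive-measure set A, some ratio (an+b)/(an+d) with n≥1 and both terms positive returns A to itself in positive measure. -/
theorem result :
    ∀ (a : ℕ) (b d : ℤ), 0 < a →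
      (∀ k : ℤ, k ∣ (a : ℤ) → k ∣ b → k ∣ d → IsUnit k) →
      (b = d ∨ (a : ℤ) ∣ b * d) →
      ∀ (X : Type) [MeasurableSpace X] (μ : Measure X) [IsProbabilityMeasure μ]
        (T : ℚ → X → X),
        T 1 = id →
        (∀ q r : ℚ, 0 < q → 0 < r → T (q * r) = T q ∘ T r) →
        (∀ q : ℚ, 0 < q → MeasurePreserving (T q) μ μ) →
        ∀ A : Set X, MeasurableSet A → 0 < μ A →
          ∃ n : ℕ, 0 < n ∧ 0 < (a : ℤ) * n + b ∧ 0 < (a : ℤ) * n + d ∧
            0 < μ (A ∩ T (((a : ℚ) * n + b) / ((a : ℚ) * n + d)) ⁻¹' A) := by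
  intro a b d ha hg hbd X _ μ _ T hT1 hmul hT A hA hpos
  have haZ : (0 : ℤ) < a := by exact_mod_cast ha
  rcases lt_trichotomy d b with hlt | heq | hgt
  · have hab : (a : ℤ) ∣ b * d := by
      rcases hbd with h | h
      · omega
      · exact h
    exact Run7.h501.MultRec.core a b d ha hg hab hlt X μ T hmul hT A hA hpos
  · -- the trivial case `b = d`: the ratio is `1`
    subst heq
    obtain ⟨m, hm0, hm⟩ : ∃ m : ℕ, 0 < m ∧ 0 < (a : ℤ) * m + d := by
      refine ⟨d.natAbs + 1, by omega, ?_⟩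
      have h1 : ((d.natAbs + 1 : ℕ) : ℤ) = |d| + 1 := by simp
      rw [h1]
      have h2 : 1 * (|d| + 1) ≤ (a : ℤ) * (|d| + 1) :=
        mul_le_mul_of_nonneg_right (by linarith) (by positivity)
      have h3 : -|d| ≤ d := neg_abs_le d
      linarith
    refine ⟨m, hm0, hm, hm, ?_⟩
    have h4 : (0 : ℚ) < (a : ℚ) * m + d := by exact_mod_cast hm
    rw [div_self h4.ne', hT1]
    simpa using hpos
  · have hab : (a : ℤ) ∣ d * b := by
      rcases hbd with h | h
      · omega
      · rwa [mul_comm] at h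
    obtain ⟨n, hn, h1, h2, h3⟩ := Run7.h501.MultRec.core a d b ha
      (fun k hka hkd hkb => hg k hka hkb hkd) hab hgt X μ T hmul hT A hA hpos
    refine ⟨n, hn, h2, h1, ?_⟩
    have h1' : (0 : ℚ) < (a : ℚ) * n + d := by exact_mod_cast h1
    have h2' : (0 : ℚ) < (a : ℚ) * n + b := by exact_mod_cast h2
    set q : ℚ := ((a : ℚ) * n + d) / ((a : ℚ) * n + b) with hq
    have hqpos : 0 < q := div_pos h1' h2'
    have hinv : ((a : ℚ) * n + b) / ((a : ℚ) * n + d) = q⁻¹ := by rw [hq, inv_div]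
    rw [hinv]
    have hqi : 0 < q⁻¹ := inv_pos.mpr hqpos
    have hcomp : T q⁻¹ ∘ T q = id := by
      rw [← hmul q⁻¹ q hqi hqpos, inv_mul_cancel₀ hqpos.ne', hT1]
    have hset : T q ⁻¹' (A ∩ T q⁻¹ ⁻¹' A) = A ∩ T q ⁻¹' A := by
      rw [Set.preimage_inter, ← Set.preimage_comp, hcomp, Set.preimage_id, Set.inter_comm]
    have hmeas : MeasurableSet (A ∩ T q⁻¹ ⁻¹' A) := hA.inter ((hT _ hqi).measurable hA)
    rw [← hset, (hT q hqpos).measure_preimage hmeas.nullMeasurableSet] at h3
    exact h3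

end Pool.Agent.S16915
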