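import Pool.Statements.S18319
import Pool.Agent.Run7.h257.Final
import Pool.Agent.Run7.h999.Wief.P89

set_option autoImplicit false
open Pool Pool.MP_bcc756_nt

namespace Pool.Agent.S18319

/-- There are infinitely many odd primes p such that some integer k not divisible by p satisfies kp = a + b or kp = a − b, for positive integers a, b whose prime factors are all at most 89. -/
theorem result :
    Set.Infinite {p : ℕ | p.Prime ∧ p ≠ 2 ∧
      ∃ k : ℤ, ¬ ((p : ℤ) ∣ k) ∧
        ∃ a ∈ Nat.smoothNumbers 90, ∃ b ∈ Nat.smoothNumbers 90,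
          (k * (p : ℤ) = (a : ℤ) + (b : ℤ) ∨ k * (p : ℤ) = (a : ℤ) - (b : ℤ))} :=
  Run7.h999.p89_of Run7.h257.not_wief

end Pool.Agent.S18319
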