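import Pool.Statements.S18419

set_option autoImplicit false
open Pool Pool.MP_c520af_nt

namespace Pool.Agent.S18419

open Polynomial in
/-- The values at the nodes. -/
theorem eval_node {K : Type} [Field K] (d j : ℕ) (hj : j < d) :
    (C ((d : K) - 1) + ∏ i ∈ Finset.range d, (X - C (i : K))).eval (j : K) = (d : K) - 1 := by
  rw [eval_add, eval_C, eval_prod, Finset.prod_eq_zero (Finset.mem_range.2 hj), add_zero]
  simp

open Polynomial in
/-- The degree. -/
theorem natDegree_node {K : Type} [Field K] (d : ℕ) :
    (C ((d : K) - 1) + ∏ i ∈ Finset.range d, (X - C (i : K))).natDegree = d := by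
  rw [natDegree_C_add, natDegree_finsetProd_X_sub_C_eq_card, Finset.card_range]

/-- For every number field K there are maps (x,y) to (y, F_d(y) − δ_d x), with deg F_d = d and δ_d ≠ 0, for each d ≥ 2, whose number of K-rational periodic points eventually exceeds C·d for every constant C. -/
theorem result :
    ∀ (K : Type) [Field K] [NumberField K],
      ∃ (F : ℕ → Polynomial K) (δ : ℕ → K),
        (∀ d : ℕ, 2 ≤ d → (F d).natDegree = d ∧ δ d ≠ 0) ∧
        ∀ C : ℕ, ∃ D : ℕ, ∀ d : ℕ, 2 ≤ d → D ≤ d →
          (((C * d : ℕ) : ℕ∞) <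
            {P : K × K | ∃ n : ℕ, 1 ≤ n ∧
              (fun p : K × K => (p.2, (F d).eval p.2 - δ d * p.1))^[n] P = P}.encard) := by
  intro K _ _
  classical
  refine ⟨fun d => Polynomial.C ((d : K) - 1) +
      ∏ i ∈ Finset.range d, (Polynomial.X - Polynomial.C (i : K)), fun _ => 1, ?_, ?_⟩
  · intro d _
    exact ⟨natDegree_node d, one_ne_zero⟩
  · intro C
    refine ⟨C + 1, fun d _ hD => ?_⟩
    have hcard : ((Finset.range d ×ˢ Finset.range d).image
        (fun p : ℕ × ℕ => ((p.1 : K), (p.2 : K)))).card = d * d := by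
      rw [Finset.card_image_of_injective, Finset.card_product, Finset.card_range]
      intro p q hpq
      simp only [Prod.mk.injEq, Nat.cast_inj] at hpq
      exact Prod.ext hpq.1 hpq.2
    have hsub : (((Finset.range d ×ˢ Finset.range d).image
        (fun p : ℕ × ℕ => ((p.1 : K), (p.2 : K))) : Finset (K × K)) : Set (K × K)) ⊆
        {P : K × K | ∃ n : ℕ, 1 ≤ n ∧
          (fun p : K × K => (p.2, (Polynomial.C ((d : K) - 1) +
            ∏ i ∈ Finset.range d, (Polynomial.X - Polynomial.C (i : K))).eval p.2
              - 1 * p.1))^[n] P = P} := by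
      intro P hP
      simp only [Finset.coe_image, Set.mem_image, Finset.mem_coe, Finset.mem_product,
        Finset.mem_range] at hP
      obtain ⟨⟨i, j⟩, ⟨hi, hj⟩, rfl⟩ := hP
      dsimp only at hi hj
      refine ⟨4, by norm_num, ?_⟩
      have hi' : ((d : K) - 1 - (i : K)) = ((d - 1 - i : ℕ) : K) := by
        rw [Nat.cast_sub (by omega), Nat.cast_sub (by omega)]; simp
      have hj' : ((d : K) - 1 - (j : K)) = ((d - 1 - j : ℕ) : K) := by
        rw [Nat.cast_sub (by omega), Nat.cast_sub (by omega)]; simp
      have e1 := eval_node (K := K) d j hj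
      have e2 := eval_node (K := K) d (d - 1 - i) (by omega)
      have e3 := eval_node (K := K) d (d - 1 - j) (by omega)
      have e4 := eval_node (K := K) d i hi
      simp only [Function.iterate_succ, Function.iterate_zero, Function.comp_apply, id_eq,
        one_mul, e1, hi', e2, hj', e3]
      rw [← hi', ← hj']
      simp only [sub_sub_cancel, e4]
    calc ((C * d : ℕ) : ℕ∞) < ((d * d : ℕ) : ℕ∞) := by
          have : C * d < d * d := Nat.mul_lt_mul_of_pos_right (by omega) (by omega)
          exact_mod_cast this
      _ = (((Finset.range d ×ˢ Finset.range d).image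
            (fun p : ℕ × ℕ => ((p.1 : K), (p.2 : K))) : Finset (K × K)) : Set (K × K)).encard := by
          rw [Set.encard_coe_eq_coe_finsetCard, hcard]
      _ ≤ _ := Set.encard_le_encard hsub

end Pool.Agent.S18419
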