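import Pool.Statements.S18875
import Pool.Agent.Run7.h446.Smyth.Final
import Pool.Agent.Run7.h446.Smyth.Asm
import Pool.Agent.Run7.h446.Smyth.SysC
import Pool.Agent.Run7.h24.Smyth_GAUSS
import Pool.Agent.Run7.h24.Smyth_COUNT
import Pool.Agent.Run7.h24.Smyth_CENTER
import Pool.Agent.Run7.h704.Smyth_NEAR
import Pool.Agent.Run7.h688.Smyth_PUSH
import Pool.Agent.Run7.h688.Smyth_FIN
import Pool.Agent.Run7.h688.Smyth_ROOT
import Pool.Agent.Run7.h688.Smyth_INDEP
import Pool.Agent.Run7.h688.Smyth_CONJ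
import Pool.Agent.Run7.h364.Smyth_PERM
import Pool.Agent.Run7.h364.Smyth_POLY
import Pool.Agent.Run7.h364.Smyth_GAL
import Pool.Agent.Run7.h480.Smyth_IDEAL
import Pool.Agent.Run7.h480.Smyth_NECA
import Pool.Agent.Run7.h480.Smyth_NECF

set_option autoImplicit false
open scoped NumberField
open Pool Pool.MP_ed3ef1_nt

namespace Pool.Agent.S18875

/-- For every number field K and tuple a in O_K^n: some nonzero K-conjugates α_i (repeats allowed) satisfy Σ a_i α_i = 0 iff the strong archimedean and nonarchimedean absolute value criteria hold, or Σ a_i ω_i = 0 for some roots of unity ω_i. -/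
theorem result :
  ∀ (K : Type) [Field K] [NumberField K] (n : ℕ) (a : Fin n → 𝓞 K),
    (∃ α : Fin n → AlgebraicClosure K,
        (∀ i, α i ≠ 0) ∧ (∀ i j, minpoly K (α i) = minpoly K (α j)) ∧
        ∑ i, algebraMap K (AlgebraicClosure K) (a i : K) * α i = 0) ↔
    (((∀ v : NumberField.InfinitePlace K, ∀ i : Fin n,
          v (a i : K) < ∑ j ∈ Finset.univ.erase i, v (a j : K)) ∧
      (∀ v : IsDedekindDomain.HeightOneSpectrum (𝓞 K), ∀ i : Fin n,
          ∃ j : Fin n, j ≠ i ∧ v.valuation K (a i : K) ≤ v.valuation K (a j : K))) ∨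
     ∃ ω : Fin n → AlgebraicClosure K,
        (∀ i, ∃ m : ℕ, 0 < m ∧ ω i ^ m = 1) ∧
        ∑ i, algebraMap K (AlgebraicClosure K) (a i : K) * ω i = 0) := by
  have hcount := Pool.Agent.Run7.h24.SmythCount.main Pool.Agent.Run7.h24.SmythGauss.main
  have hcenter := Pool.Agent.Run7.h24.SmythCenter.main
  have hnear := Pool.Agent.Run7.h704.SmythNEAR.main Pool.Agent.Run7.h24.SmythGauss.main hcount
  have hpush := Pool.Agent.Run7.h688.SmythPUSH.main hcount hcenter
  have hfin := Pool.Agent.Run7.h688.SmythFIN.main hcount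
  have hasm := Pool.Agent.Run7.h446.Smyth.Asm.main hnear hcount hcenter hpush hfin
  have hsys := Pool.Agent.Run7.h446.Smyth.SysP.main Run7.h364.Smyth_POLY.main
    Pool.Agent.Run7.h688.SmythINDEP.main Pool.Agent.Run7.h688.SmythCONJ.main
  exact Pool.Agent.Run7.h446.Smyth.Final.final hasm Run7.h364.Smyth_PERM.main
    Run7.h364.Smyth_GAL.main hsys Pool.Agent.Run7.h480.Smyth_IDEAL.main
    Pool.Agent.Run7.h688.SmythROOT.main Pool.Agent.Run7.h480.Smyth_NECA.main
    Pool.Agent.Run7.h480.Smyth_NECF.main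

end Pool.Agent.S18875
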