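import Pool.Statements.S19353
import Pool.Agent.Helper764.KacFin

set_option autoImplicit false
open MeasureTheory Filter Topology
open Pool Pool.MP_5fc11c_pr

namespace Pool.Agent.S19353

/-- restriction of a sequence to its first `n + 1` entries -/
def restr (n : ℕ) (ω : ℕ → ℝ) : Fin (n + 1) → ℝ := fun k => ω k

/-- extension by zero -/
noncomputable def ext (n : ℕ) (c : Fin (n + 1) → ℝ) : ℕ → ℝ :=
  fun j => if h : j < n + 1 then c ⟨j, h⟩ else 0

theorem measurable_restr (n : ℕ) : Measurable (restr n) := by
  unfold restr; fun_prop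

theorem measurable_ext (n : ℕ) : Measurable (ext n) := by
  refine measurable_pi_iff.2 fun j => ?_
  unfold ext
  by_cases h : j < n + 1
  · simp only [h, dif_pos]; fun_prop
  · simp only [h, dif_neg, not_false_eq_true]; fun_prop

theorem restr_ext (n : ℕ) (c : Fin (n + 1) → ℝ) : restr n (ext n c) = c := by
  funext k; simp [restr, ext, k.2]

theorem map_restr (μ : Measure ℝ) [IsProbabilityMeasure μ] (n : ℕ) :
    (Measure.infinitePi (fun _ : ℕ => μ)).map (restr n) = Measure.pi fun _ : Fin (n + 1) => μ := by
  symm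
  refine Measure.pi_eq fun s hs => ?_
  rw [Measure.map_apply (measurable_restr n) (MeasurableSet.univ_pi hs)]
  have h1 : restr n ⁻¹' (Set.univ.pi s)
      = Set.pi (Finset.range (n + 1) : Finset ℕ) (fun j => if h : j < n + 1 then s ⟨j, h⟩ else Set.univ) := by
    ext ω
    simp only [restr, Set.mem_preimage, Set.mem_pi, Set.mem_univ, forall_true_left,
      Finset.coe_range, Set.mem_Iio]
    constructor
    · intro h j hj
      rw [dif_pos hj]
      exact h ⟨j, hj⟩
    · intro h k
      have := h k k.2
      rw [dif_pos k.2] at this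
      exact this
  rw [h1, Measure.infinitePi_pi]
  · rw [← Fin.prod_univ_eq_prod_range
      (fun j => μ (if h : j < n + 1 then s ⟨j, h⟩ else Set.univ)) (n + 1)]
    refine Finset.prod_congr rfl fun k _ => ?_
    rw [dif_pos k.2]
  · intro j hj
    rw [dif_pos (Finset.mem_range.1 hj)]
    exact hs _

theorem poly_eq (n : ℕ) (ω : ℕ → ℝ) :
    (∑ k : Fin (n + 1), Polynomial.C (restr n ω k) * Polynomial.X ^ (k : ℕ) : Polynomial ℝ)
      = Kac764.kac n ω := by
  unfold Kac764.kac restr
  exact Fin.sum_univ_eq_sum_range (fun j => Polynomial.C (ω j) * Polynomial.X ^ j) (n + 1)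

theorem card_eq (p : Polynomial ℝ) : p.roots.toFinset.card = Kac764.nz p Set.univ := by
  unfold Kac764.nz
  rw [← Set.ncard_coe_finset]
  congr 1
  ext x
  simp [Polynomial.mem_roots']

/-- For every real law with mean 0 and variance 1, the expected number of distinct real roots of the degree-n polynomial with i.i.d. coefficients of that law, minus (2/π) log n, converges to a finite real limit. -/
theorem result :
    ∀ (μ : Measure ℝ) [IsProbabilityMeasure μ],
      Integrable (fun x : ℝ => x ^ 2) μ →
      ∫ x, x ∂μ = 0 →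
      ∫ x, x ^ 2 ∂μ = 1 →
      ∃ C : ℝ, Tendsto
        (fun n : ℕ =>
          (∫⁻ c : Fin (n + 1) → ℝ,
              (((∑ k : Fin (n + 1), Polynomial.C (c k) * Polynomial.X ^ (k : ℕ)).roots.toFinset.card : ℕ) : ENNReal)
              ∂(Measure.pi fun _ : Fin (n + 1) => μ)).toReal
            - 2 / Real.pi * Real.log (n : ℝ))
        atTop (𝓝 C) := by
  intro μ hprob hint hmean hvar
  have hμ : Kac764.Std μ := ⟨hprob, hint, hmean, hvar⟩
  obtain ⟨L, -, h2⟩ := Kac764.Fin.main μ hμ
  refine ⟨_, h2.congr fun n => ?_⟩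
  congr 1
  have hm : Measurable (fun ω : ℕ → ℝ => Kac764.nz (Kac764.kac n ω) Set.univ) :=
    Kac764.H4.measurable_nz_set n Set.univ (Or.inl rfl)
  -- the integrand as a function of the finite vector
  have hF : ∀ ω : ℕ → ℝ,
      ((∑ k : Fin (n + 1), Polynomial.C (restr n ω k) * Polynomial.X ^ (k : ℕ)).roots.toFinset.card)
        = Kac764.nz (Kac764.kac n ω) Set.univ := by
    intro ω
    rw [card_eq, poly_eq]
  have hmF : Measurable (fun c : Fin (n + 1) → ℝ =>
      (((∑ k : Fin (n + 1), Polynomial.C (c k) * Polynomial.X ^ (k : ℕ)).roots.toFinset.card : ℕ)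
        : ENNReal)) := by
    have h3 : (fun c : Fin (n + 1) → ℝ =>
        (((∑ k : Fin (n + 1), Polynomial.C (c k) * Polynomial.X ^ (k : ℕ)).roots.toFinset.card : ℕ)
          : ENNReal))
        = (fun m : ℕ => (m : ENNReal)) ∘ (fun ω : ℕ → ℝ => Kac764.nz (Kac764.kac n ω) Set.univ)
            ∘ ext n := by
      funext c
      simp only [Function.comp_apply]
      rw [← hF (ext n c), restr_ext]
    rw [h3]
    exact measurable_from_top.comp (hm.comp (measurable_ext n))
  rw [← map_restr μ n, lintegral_map hmF (measurable_restr n)]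
  simp only [hF]
  rw [← integral_toReal]
  · rfl
  · exact (measurable_from_top.comp hm).aemeasurable
  · exact Filter.Eventually.of_forall fun ω => ENNReal.natCast_lt_top _

end Pool.Agent.S19353
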