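import Pool.Statements.S19444
import Pool.Agent.Run7.h240.DRLaw

set_option autoImplicit false
open Filter Topology
open Pool Pool.MP_85987b_pr

namespace Pool.Agent.S19444

/-- The negation of the preceding statement: For integer m≥2 and any law of X_0 on ℕ with P(X_0=0)>0 and (m−1)E(X_0 m^X_0)=E(m^X_0)<∞, where X_{n+1} is (sum of m iid copies of X_n minus 1)^+: for all s in (0,m), s≠1, (E s^X_n − 1) divided by 4m/(m−1)²·(s−1)/(m−s)/n² tends to 1. -/
theorem result :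
    ¬ (∀ (m : ℕ), 2 ≤ m → ∀ p : ℕ → ℕ → ℝ,
      (∀ k, 0 ≤ p 0 k) → HasSum (p 0) 1 →
      (∀ n k, p (n + 1) k =
          (∑ x : Fin m → Fin (k + 2),
              if (∑ i, (x i : ℕ)) = k + 1 then ∏ i, p n (x i) else 0)
          + (if k = 0 then p n 0 ^ m else 0)) →
      Summable (fun k : ℕ => p 0 k * (m : ℝ) ^ k) →
      Summable (fun k : ℕ => (k : ℝ) * p 0 k * (m : ℝ) ^ k) →
      ((m : ℝ) - 1) * (∑' k : ℕ, (k : ℝ) * p 0 k * (m : ℝ) ^ k)
          = ∑' k : ℕ, p 0 k * (m : ℝ) ^ k →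
      0 < p 0 0 →
      ∀ s : ℝ, 0 < s → s < (m : ℝ) → s ≠ 1 →
        Tendsto
          (fun n : ℕ =>
            ((∑' k : ℕ, p n k * s ^ k) - 1) /
              (4 * (m : ℝ) / (((m : ℝ) - 1) ^ 2) * ((s - 1) / ((m : ℝ) - s)) / ((n : ℝ) ^ 2)))
          atTop (𝓝 1)) := by
  intro H
  have hc := Run7.h240.DR.p0_crit
  have h := H 2 le_rfl (Run7.h240.DR.it Run7.h240.DR.p0) hc.nonneg hc.one
    (fun n k => rfl) (by simpa [Run7.h240.DR.it] using hc.sm)
    (by simpa [Run7.h240.DR.it, mul_assoc] using hc.smk)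
    (by
      have h1 := hc.crit
      simp only [Run7.h240.DR.it, Nat.cast_ofNat]
      rw [← h1]
      norm_num [mul_assoc])
    Run7.h240.DR.p0_zero_pos (1 / 2) (by norm_num) (by norm_num) (by norm_num)
  refine Run7.h240.DR.not_tendsto ?_
  refine h.congr fun n => ?_
  simp only [Run7.h240.DR.F, Nat.cast_ofNat]
  norm_num

end Pool.Agent.S19444
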