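import Pool.Statements.S19664
import Pool.Agent.Run7.h59.K2.Main

set_option autoImplicit false
open Matrix MeasureTheory ProbabilityTheory
open Pool Pool.MP_d47e08_pr

namespace Pool.Agent.S19664

/-- The proof uses `r = 2`: for every `ℓ` a small signal changes the mean of the largest eigenvalue by
a bounded amount only (contiguity of the spiked and the pure noise model, gauge invariance of the
Kikuchi matrix and the variance bound for Lipschitz functions), while the mean is of order `√n`.
For even `r ≥ 4` the threshold tends to zero: `MP_d47e08_pr.VanishingThreshold`.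

The negation of the preceding statement: For every even r≥2 and every δ>0, for all large ℓ and every μ>δ, some ε>0 gives, for all large n, E λmax of the Kikuchi matrix at signal μ n^(-r/4) ≥ (1+ε) times E λmax at zero signal; i.e. the threshold tends to 0. -/
theorem result :
    ¬ (∀ r : ℕ, 2 ≤ r → Even r →
    ∀ δ : ℝ, 0 < δ →
      ∀ᶠ ℓ : ℕ in Filter.atTop, ∀ μ : ℝ, δ < μ →
        ∃ ε : ℝ, 0 < ε ∧ ∀ᶠ n : ℕ in Filter.atTop,
          1 + ε ≤
            (∫ (Z : Finset (Fin n) → ℝ),
                sSup {t : ℝ | ∃ v : {K : Finset (Fin n) // K.card = ℓ} → ℝ,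
                  dotProduct v v = 1 ∧
                  t = dotProduct v (Matrix.mulVec
                    (Matrix.of fun I J : {K : Finset (Fin n) // K.card = ℓ} =>
                      if (symmDiff I.1 J.1).card = r
                      then μ * (n : ℝ) ^ (-(r : ℝ) / 4) + Z (symmDiff I.1 J.1)
                      else 0) v)}
              ∂(Measure.pi fun _ : Finset (Fin n) => gaussianReal 0 1))
            /
            (∫ (Z : Finset (Fin n) → ℝ),
                sSup {t : ℝ | ∃ v : {K : Finset (Fin n) // K.card = ℓ} → ℝ,
                  dotProduct v v = 1 ∧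
                  t = dotProduct v (Matrix.mulVec
                    (Matrix.of fun I J : {K : Finset (Fin n) // K.card = ℓ} =>
                      if (symmDiff I.1 J.1).card = r
                      then (0 : ℝ) + Z (symmDiff I.1 J.1)
                      else 0) v)}
              ∂(Measure.pi fun _ : Finset (Fin n) => gaussianReal 0 1))) := by
  intro H
  obtain ⟨δ, hδ, h⟩ := Pool.Agent.Run7.h59.K2.no_gain
  obtain ⟨ℓ, h1, h2⟩ := ((H 2 le_rfl even_two δ hδ).and (Filter.eventually_ge_atTop 1)).exists
  obtain ⟨μ, hμ, h3⟩ := h ℓ h2
  obtain ⟨ε, hε, h4⟩ := h1 μ hμ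
  obtain ⟨n, h5, h6⟩ := (h4.and (h3 ε hε)).exists
  exact h6 h5

end Pool.Agent.S19664
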