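import Pool.Statements.S19735
import Pool.Agent.W976.SAM.Bas
import Pool.Agent.W584.SAM.ADD
import Pool.Agent.W883.SAM.Key
import Pool.Agent.W503.SAM.Ind
import Pool.Agent.W45.SAM.Mono
import Pool.Agent.W880.SAM.TW
import Pool.Agent.W82.SAM.T2B

/-!
The sharp lower bound `(1 - x) ^ r ≤ P (X_1 + ... + X_r < 1)` for independent two-point variables `X_i ≥ 0` of mean
exactly `x ≤ 20 / (20 r + 19)` is in the starting library (`Pool.Agent.W890.SF.S_T2A`).  Here it is applied to the
variables `X_i / (n + 1)`, `x = 1 / (n + 1)`; finally `(n / (n + 1)) ^ n ≥ 1 / e`.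
-/

set_option autoImplicit false
open Pool Pool.MP_f10e5d_pr

namespace Pool.Agent.S19735

open Pool.Agent.W890.SF

theorem t_T2A : S_T2A :=
  Pool.Agent.W82.SAM.t2a (Pool.Agent.W880.SAM.tw Pool.Agent.W976.SAM.bas
    (Pool.Agent.W503.SAM.Ind.ind Pool.Agent.W976.SAM.bas Pool.Agent.W584.SAM.add
      Pool.Agent.W883.SAM.key) Pool.Agent.W45.SAM.mono)

theorem exp_bound (n : ℕ) : Real.exp (-1) ≤ (1 - 1 / ((n : ℝ) + 1)) ^ n := by
  rcases Nat.eq_zero_or_pos n with h0 | h0
  · subst h0
    simp
  have hn : (0 : ℝ) < n := by exact_mod_cast h0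
  have h1 : (1 - 1 / ((n : ℝ) + 1)) = (1 + 1 / (n : ℝ))⁻¹ := by
    field_simp
    ring
  rw [h1, inv_pow, Real.exp_neg]
  apply inv_anti₀ (by positivity)
  have h2 : 1 + 1 / (n : ℝ) ≤ Real.exp (1 / n) := by
    have := Real.add_one_le_exp (1 / (n : ℝ))
    linarith
  calc (1 + 1 / (n : ℝ)) ^ n ≤ (Real.exp (1 / n)) ^ n := pow_le_pow_left₀ (by positivity) h2 n
    _ = Real.exp 1 := by
      rw [← Real.exp_nat_mul]
      congr 1
      field_simp

/-- For all n and all p_i in (0,1), independent X_i equal to 0 with probability p_i and to 1/(1-p_i) otherwise satisfy P(X_1+...+X_n < n+1) ≥ 1/e, with the probability written as a finite sum over the set of nonzero X_i. -/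
theorem result :
    ∀ n : ℕ, ∀ p : Fin n → ℝ, (∀ i, 0 < p i ∧ p i < 1) →
      Real.exp (-1) ≤
        ∑ S ∈ (Finset.univ : Finset (Finset (Fin n))).filter
            (fun S => ∑ i ∈ S, 1 / (1 - p i) < (n : ℝ) + 1),
          (∏ i ∈ S, (1 - p i)) * ∏ i ∈ Sᶜ, p i := by
  intro n p hp
  have hn1 : (0 : ℝ) < (n : ℝ) + 1 := by positivity
  rcases Nat.lt_or_ge n 2 with hn | hn
  · -- `n = 0` and `n = 1`
    have hnn : ∀ S ∈ (Finset.univ : Finset (Finset (Fin n))).filter
        (fun S => ∑ i ∈ S, 1 / (1 - p i) < (n : ℝ) + 1),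
        0 ≤ (∏ i ∈ S, (1 - p i)) * ∏ i ∈ Sᶜ, p i := by
      intro S _
      apply mul_nonneg
      · exact Finset.prod_nonneg fun i _ => by linarith [(hp i).2]
      · exact Finset.prod_nonneg fun i _ => (hp i).1.le
    have he : Real.exp (-1) ≤ 1 / 2 := by
      have h2 : (2 : ℝ) ≤ Real.exp 1 := by
        have := Real.add_one_le_exp (1 : ℝ)
        linarith
      rw [Real.exp_neg, one_div]
      exact inv_anti₀ (by norm_num) h2
    by_cases hall : ∀ S : Finset (Fin n), ∑ i ∈ S, 1 / (1 - p i) < (n : ℝ) + 1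
    · have h1 : (Finset.univ : Finset (Finset (Fin n))).filter
          (fun S => ∑ i ∈ S, 1 / (1 - p i) < (n : ℝ) + 1) = Finset.univ :=
        Finset.filter_true_of_mem fun S _ => hall S
      rw [h1]
      have h2 := Finset.prod_add (fun i : Fin n => 1 - p i) (fun i => p i) Finset.univ
      have h3 : ∏ i : Fin n, ((1 - p i) + p i) = 1 := Finset.prod_eq_one fun i _ => by ring
      rw [h3, Finset.powerset_univ] at h2
      simp only [Finset.compl_eq_univ_sdiff]
      rw [← h2]
      linarith
    · push Not at hall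
      obtain ⟨S, hS⟩ := hall
      have hn' : n = 1 := by
        rcases Nat.eq_zero_or_pos n with h0 | h0
        · subst h0
          exfalso
          have hS0 : S = ∅ := Finset.eq_empty_of_isEmpty S
          rw [hS0, Finset.sum_empty] at hS
          norm_num at hS
        · omega
      subst hn'
      have hS1 : S = {0} ∨ S = ∅ := by
        by_cases h : (0 : Fin 1) ∈ S
        · left
          ext i
          rw [Finset.mem_singleton, Subsingleton.elim i 0]
          simp [h]
        · right
          ext i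
          rw [Subsingleton.elim i 0]
          simp [h]
      have hp0 : 1 / 2 ≤ p 0 := by
        rcases hS1 with h | h
        · rw [h, Finset.sum_singleton] at hS
          have h4 : 0 < 1 - p 0 := by linarith [(hp 0).2]
          rw [le_div_iff₀ h4] at hS
          push_cast at hS
          linarith
        · rw [h] at hS
          simp at hS
          linarith
      have hmem : (∅ : Finset (Fin 1)) ∈ (Finset.univ : Finset (Finset (Fin 1))).filter
          (fun S => ∑ i ∈ S, 1 / (1 - p i) < ((1 : ℕ) : ℝ) + 1) := by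
        rw [Finset.mem_filter]
        refine ⟨Finset.mem_univ _, ?_⟩
        rw [Finset.sum_empty]
        positivity
      refine le_trans ?_ (Finset.single_le_sum hnn hmem)
      simp
      linarith
  -- the main case
  have key := t_T2A n hn (1 / ((n : ℝ) + 1)) (by positivity) (by
    rw [mul_one_div, div_le_iff₀ hn1]
    linarith) (fun _ => 0) (fun i => 1 / ((1 - p i) * ((n : ℝ) + 1))) (fun i => 1 - p i)
    { a0 := fun i => le_rfl
      b0 := fun i => by
        have : 0 < 1 - p i := by linarith [(hp i).2]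
        positivity
      q0 := fun i => by linarith [(hp i).2]
      q1 := fun i => by linarith [(hp i).1]
      mean := fun i => by
        have : 0 < 1 - p i := by linarith [(hp i).2]
        field_simp
        ring }
  refine (exp_bound n).trans (key.trans (le_of_eq ?_))
  unfold PP PU Wt
  rw [Finset.sum_filter, Finset.powerset_univ]
  refine Finset.sum_congr rfl fun S _ => ?_
  have h1 : (∑ i ∈ S, 1 / ((1 - p i) * ((n : ℝ) + 1)) < 1 - ∑ _i : Fin n, (0 : ℝ)) ↔
      ∑ i ∈ S, 1 / (1 - p i) < (n : ℝ) + 1 := by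
    have h2 : ∑ i ∈ S, 1 / ((1 - p i) * ((n : ℝ) + 1)) = (∑ i ∈ S, 1 / (1 - p i)) / ((n : ℝ) + 1) := by
      rw [Finset.sum_div]
      refine Finset.sum_congr rfl fun i _ => ?_
      rw [div_div]
    rw [h2, Finset.sum_const_zero, sub_zero, div_lt_one hn1]
  simp only [h1]
  congr 1
  rw [Finset.compl_eq_univ_sdiff]
  congr 1
  refine Finset.prod_congr rfl fun i _ => ?_
  ring

end Pool.Agent.S19735
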